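import Mathlib

set_option autoImplicit false

open Matrix

namespace Pool.Agent.H16.CT

variable {V : Type} [Fintype V] [DecidableEq V]

/-- Transition function of the continuous-time chain with generator `Q`:
`heat Q t x y = P_x(X_t = y)`, i.e. `heat Q t = exp(tQ)`. -/
noncomputable def heat (Q : Matrix V V ℝ) (t : ℝ) : Matrix V V ℝ := NormedSpace.exp (t • Q)

/-- total variation distance (half the `ℓ¹` distance) between the law of `X_t` under `P_x`
and `π` -/
noncomputable def dist (Q : Matrix V V ℝ) (π : V → ℝ) (x : V) (t : ℝ) : ℝ :=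
  1 / 2 * ∑ y, |heat Q t x y - π y|

/-- `τ_x = inf {t ≥ 0 : ‖P_x(X_t ∈ ·) - π‖ ≤ 1/4}` -/
noncomputable def tau (Q : Matrix V V ℝ) (π : V → ℝ) (x : V) : ℝ :=
  sInf {t : ℝ | 0 ≤ t ∧ dist Q π x t ≤ 1 / 4}

/-- `π(A)` -/
noncomputable def mass (π : V → ℝ) (A : Set V) : ℝ := ∑ x, A.indicator π x

/-- `m` is a median of `τ_x` when `x` is drawn from `π` -/
def IsMedian (Q : Matrix V V ℝ) (π : V → ℝ) (m : ℝ) : Prop :=
  1 / 2 ≤ mass π {x | tau Q π x ≤ m} ∧ 1 / 2 ≤ mass π {x | m ≤ tau Q π x}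

/-- generator `D⁻¹A - I` of the continuous-time simple random walk on a graph: at rate `1` the
walk jumps to a uniformly chosen neighbour -/
noncomputable def srw (G : SimpleGraph V) [DecidableRel G.Adj] : Matrix V V ℝ :=
  fun x y => (G.adjMatrix ℝ) x y / (G.degree x : ℝ) - (1 : Matrix V V ℝ) x y

/-- `π(x) = deg(x) / (2|E|)` -/
noncomputable def statDist (G : SimpleGraph V) [DecidableRel G.Adj] (x : V) : ℝ :=
  (G.degree x : ℝ) / (2 * (G.edgeFinset.card : ℝ))

/-- spectral gap of a reversible generator: the smallest nonzero eigenvalue of `-Q` -/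
noncomputable def gapR (Q : Matrix V V ℝ) : ℝ :=
  sInf {r : ℝ | r ≠ 0 ∧ ∃ f : V → ℝ, f ≠ 0 ∧ (-Q) *ᵥ f = r • f}

/-- spectral gap of a generator: the smallest real part of a nonzero eigenvalue of `-Q` -/
noncomputable def gapC (Q : Matrix V V ℝ) : ℝ :=
  sInf {r : ℝ | ∃ z : ℂ, z ≠ 0 ∧ z.re = r ∧
    ∃ f : V → ℂ, f ≠ 0 ∧ ((-Q).map (fun a : ℝ => (a : ℂ))) *ᵥ f = z • f}

/-- `Q` is the generator of a continuous-time Markov chain -/
def IsGenerator (Q : Matrix V V ℝ) : Prop :=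
  (∀ x y, x ≠ y → 0 ≤ Q x y) ∧ ∀ x, ∑ y, Q x y = 0

/-- irreducibility: every state can be reached from every state by jumps of positive rate -/
def IsIrreducible (Q : Matrix V V ℝ) : Prop :=
  ∀ x y, Relation.ReflTransGen (fun a b => a ≠ b ∧ 0 < Q a b) x y

/-- `π` is a stationary probability distribution -/
def IsStationary (Q : Matrix V V ℝ) (π : V → ℝ) : Prop :=
  (∀ x, 0 ≤ π x) ∧ ∑ x, π x = 1 ∧ π ᵥ* Q = 0

end Pool.Agent.H16.CT
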