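import Mathlib

namespace H16.CU

open SimpleGraph

lemma exists_odd_cycle {V : Type*} (G : SimpleGraph V) (h : ¬ G.Colorable 2) :
    ∃ n : ℕ, Odd n ∧ ∃ p : ℕ → V, (∀ i < n, G.Adj (p i) (p (i+1))) ∧ p n = p 0 ∧
      ∀ i < n, ∀ j < n, p i = p j → i = j := by
  classical
  have h1 : ∃ n : ℕ, Odd n ∧ ∃ p : ℕ → V, (∀ i < n, G.Adj (p i) (p (i+1))) ∧ p n = p 0 := by
    rw [two_colorable_iff_forall_loop_even] at h
    push Not at h
    obtain ⟨u, w, hw⟩ := h
    refine ⟨w.length, by simpa using hw, w.getVert, fun i hi => w.adj_getVert_succ hi, by simp⟩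
  obtain ⟨hn, p, hp, hp0⟩ := Nat.find_spec h1
  set n := Nat.find h1 with hndef
  refine ⟨n, hn, p, hp, hp0, ?_⟩
  have key : ∀ i j, i < j → j < n → p i ≠ p j := by
    intro i j hij hj he
    by_cases hodd : Odd (j - i)
    · refine Nat.find_min h1 (m := j - i) (by omega) ⟨hodd, fun t => p (i + t), ?_, ?_⟩
      · intro t ht
        exact hp (i + t) (by omega)
      · simp only [Nat.add_zero]
        rw [he]
        congr 1
        omega
    · refine Nat.find_min h1 (m := n - (j - i)) (by omega)
        ⟨?_, fun t => if t ≤ i then p t else p (t + (j - i)), ?_, ?_⟩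
      · rw [Nat.not_odd_iff_even] at hodd
        exact Nat.Odd.sub_even (by omega) hn hodd
      · intro t ht
        by_cases h1 : t + 1 ≤ i
        · simp only [if_pos h1, if_pos (by omega : t ≤ i)]
          exact hp t (by omega)
        · by_cases h2 : t ≤ i
          · have : t = i := by omega
            subst this
            simp only [if_neg h1, le_refl, if_true]
            rw [he]
            have := hp j hj
            convert this using 2
            omega
          · simp only [if_neg h1, if_neg h2]
            have := hp (t + (j - i)) (by omega)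
            convert this using 2
            omega
      · simp only [Nat.zero_le, if_true]
        rw [if_neg (by omega), ← hp0]
        congr 1
        omega
  intro i hi j hj he
  rcases lt_trichotomy i j with h | h | h
  · exact absurd he (key i j h hj)
  · exact h
  · exact absurd he.symm (key j i h hi)

/-- the cycle data -/
structure Cyc {W : Type*} (G1 : SimpleGraph W) (n : ℕ) (p : ℕ → W) : Prop where
  odd : Odd n
  p0 : p n = p 0
  inj : ∀ i < n, ∀ j < n, p i = p j → i = j
  adj : ∀ a b, G1.Adj a b → ∃ i < n, (a = p i ∧ b = p (i+1)) ∨ (b = p i ∧ a = p (i+1))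

/-- a colouring with a single defective edge -/
def Near {W : Type*} (G2 : SimpleGraph W) {m : ℕ} (x y : W) (c : W → Fin m) : Prop :=
  ∀ a b, G2.Adj a b → c a = c b → (a = x ∧ b = y) ∨ (a = y ∧ b = x)

lemma color_two {W : Type*} {G1 G2 : SimpleGraph W} {m n : ℕ} {p : ℕ → W} (hC : Cyc G1 n p)
    {x y : W} {c : W → Fin m} (hc : Near G2 x y c)
    {t : ℕ} (ht : c (p t) ≠ c (p (t+1))) (c1 : W → Bool)
    (h1 : ∀ i < n, i ≠ t → c1 (p i) ≠ c1 (p (i+1))) (hxy : c1 x ≠ c1 y) :
    (G1 ⊔ G2).Colorable (2 * m) := by
  have col : (G1 ⊔ G2).Coloring (Bool × Fin m) := by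
    refine SimpleGraph.Coloring.mk (fun v => (c1 v, c v)) ?_
    intro a b hab he
    simp only [Prod.mk.injEq] at he
    rcases hab with hab | hab
    · obtain ⟨i, hi, hh⟩ := hC.adj a b hab
      have hit : i ≠ t := by
        rintro rfl
        rcases hh with ⟨rfl, rfl⟩ | ⟨rfl, rfl⟩
        · exact ht he.2
        · exact ht he.2.symm
      rcases hh with ⟨rfl, rfl⟩ | ⟨rfl, rfl⟩
      · exact h1 i hi hit he.1
      · exact h1 i hi hit he.1.symm
    · rcases hc a b hab he.2 with ⟨rfl, rfl⟩ | ⟨rfl, rfl⟩
      · exact hxy he.1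
      · exact hxy he.1.symm
  have := col.colorable
  simpa using this

lemma color_mono {W : Type*} {G1 G2 : SimpleGraph W} {m n : ℕ} {p : ℕ → W} (hC : Cyc G1 n p)
    (hm : 3 ≤ m) {x y : W} {c : W → Fin m} (hc : Near G2 x y c)
    (h : ∀ t < n, c (p t) = c (p (t+1))) :
    (G1 ⊔ G2).Colorable (2 * m) := by
  classical
  have hmono : ∀ t ≤ n, c (p t) = c (p 0) := by
    intro t
    induction t with
    | zero => simp
    | succ k ih => intro hk; rw [← h k (by omega)]; exact ih (by omega)
  have col : (G1 ⊔ G2).Coloring (Fin m ⊕ Fin 3) := by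
    refine SimpleGraph.Coloring.mk (fun v => if v = p 0 then Sum.inr 1 else if v = x then Sum.inr 2
      else if ∃ j < n, Even j ∧ v = p j then Sum.inr 0 else Sum.inl (c v)) ?_
    intro a b hab he
    have hne : a ≠ b := hab.ne
    by_cases ha0 : a = p 0
    · by_cases hb0 : b = p 0
      · exact hne (ha0.trans hb0.symm)
      · simp only [if_pos ha0, if_neg hb0] at he
        split_ifs at he <;> simp at he
    · by_cases hb0 : b = p 0
      · simp only [if_neg ha0, if_pos hb0] at he
        split_ifs at he <;> simp at he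
      · simp only [if_neg ha0, if_neg hb0] at he
        by_cases hax : a = x
        · by_cases hbx : b = x
          · exact hne (hax.trans hbx.symm)
          · simp only [if_pos hax, if_neg hbx] at he
            split_ifs at he <;> simp at he
        · by_cases hbx : b = x
          · simp only [if_neg hax, if_pos hbx] at he
            split_ifs at he <;> simp at he
          · simp only [if_neg hax, if_neg hbx] at he
            have hP : (∃ j < n, Even j ∧ a = p j) ↔ (∃ j < n, Even j ∧ b = p j) := by
              constructor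
              · intro h1; by_contra h2; simp only [if_pos h1, if_neg h2] at he; simp at he
              · intro h2; by_contra h1; simp only [if_pos h2, if_neg h1] at he; simp at he
            rcases hab with hab | hab
            · obtain ⟨i, hi, hh⟩ := hC.adj a b hab
              have hi1 : i + 1 < n := by
                by_contra hcon
                have : i + 1 = n := by omega
                rcases hh with ⟨rfl, rfl⟩ | ⟨rfl, rfl⟩
                · apply hb0; rw [this]; exact hC.p0
                · apply ha0; rw [this]; exact hC.p0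
              have key : (∃ j < n, Even j ∧ p i = p j) ↔ (∃ j < n, Even j ∧ p (i+1) = p j) := by
                rcases hh with ⟨rfl, rfl⟩ | ⟨rfl, rfl⟩
                · exact hP
                · exact hP.symm
              by_cases hev : Even i
              · obtain ⟨j, hj, hje, hjj⟩ := key.1 ⟨i, hi, hev, rfl⟩
                have := hC.inj _ hi1 _ hj hjj
                subst this
                exact (Nat.not_even_iff_odd.2 (hev.add_one)) hje
              · have hev' : Even (i+1) := (Nat.not_even_iff_odd.1 hev).add_one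
                obtain ⟨j, hj, hje, hjj⟩ := key.2 ⟨i+1, hi1, hev', rfl⟩
                have := hC.inj _ hi _ hj hjj
                subst this
                exact hev hje
            · have hcab : c a ≠ c b := by
                intro hcc
                rcases hc a b hab hcc with ⟨h1, _⟩ | ⟨_, h1⟩
                · exact hax h1
                · exact hbx h1
              by_cases h1 : ∃ j < n, Even j ∧ a = p j
              · obtain ⟨k, hk, -, hkb⟩ := hP.1 h1
                obtain ⟨j, hj, -, hja⟩ := h1
                apply hcab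
                rw [hja, hkb, hmono j hj.le, hmono k hk.le]
              · have h2 := fun h => h1 (hP.2 h)
                simp only [if_neg h1, if_neg h2, Sum.inl.injEq] at he
                exact hcab he
  have := col.colorable
  simp only [Fintype.card_sum, Fintype.card_fin] at this
  exact this.mono (by omega)


/-- alternating bits along the cycle started just after `t` -/
def gbit (n t i : ℕ) : Bool := decide ((if t < i then i - t - 1 else i + n - t - 1) % 2 = 0)

lemma gbit_succ (n t i : ℕ) (ht : t < n) (hi : i + 1 < n) (hit : i ≠ t) :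
    gbit n t i ≠ gbit n t (i+1) := by
  unfold gbit
  intro h
  rw [decide_eq_decide] at h
  split_ifs at h <;> omega

lemma gbit_last (n t : ℕ) (ht : t < n) (hit : n - 1 ≠ t) :
    gbit n t (n-1) ≠ gbit n t 0 := by
  unfold gbit
  intro h
  rw [decide_eq_decide] at h
  split_ifs at h <;> omega

lemma near_struct {W : Type*} {G1 G2 : SimpleGraph W} {m n : ℕ} {p : ℕ → W} (hC : Cyc G1 n p)
    (hm : 3 ≤ m) {x y : W} {c : W → Fin m} (hc : Near G2 x y c) (hxy : G2.Adj x y)
    (hno : ¬ (G1 ⊔ G2).Colorable (2 * m)) :
    ∃ a < n, ∃ b < n, x = p a ∧ y = p b ∧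
      ∀ t < n, c (p t) ≠ c (p (t+1)) → gbit n t a = gbit n t b := by
  classical
  have hn0 : 0 < n := hC.odd.pos
  have hex : ∃ t < n, c (p t) ≠ c (p (t+1)) := by
    by_contra hcon
    push Not at hcon
    exact hno (color_mono hC hm hc hcon)
  -- index function
  let idx : W → ℕ := fun v => if h : ∃ i, i < n ∧ p i = v then Nat.find h else 0
  have hidx : ∀ i < n, idx (p i) = i := by
    intro i hi
    have h : ∃ j, j < n ∧ p j = p i := ⟨i, hi, rfl⟩
    simp only [idx, dif_pos h]
    exact hC.inj _ (Nat.find_spec h).1 _ hi (Nat.find_spec h).2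
  have halt : ∀ t < n, ∀ c1 : W → Bool, (∀ i < n, c1 (p i) = gbit n t i) →
      ∀ i < n, i ≠ t → c1 (p i) ≠ c1 (p (i+1)) := by
    intro t ht c1 hc1 i hi hit
    by_cases h : i + 1 < n
    · rw [hc1 i hi, hc1 (i+1) h]
      exact gbit_succ n t i ht h hit
    · have h1 : i + 1 = n := by omega
      rw [h1, hC.p0, hc1 i hi, hc1 0 hn0]
      have : i = n - 1 := by omega
      subst this
      exact gbit_last n t ht hit
  obtain ⟨t0, ht0, htc0⟩ := hex
  have hx : ∃ a < n, x = p a := by
    by_contra hcon
    push Not at hcon
    apply hno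
    refine color_two hC hc htc0 (Function.update (fun v => gbit n t0 (idx v)) x
      (!(gbit n t0 (idx y)))) (halt t0 ht0 _ ?_) ?_
    · intro i hi
      rw [Function.update_of_ne (fun h => hcon i hi h.symm), hidx i hi]
    · rw [Function.update_self, Function.update_of_ne hxy.ne.symm]
      simp
  have hy : ∃ b < n, y = p b := by
    by_contra hcon
    push Not at hcon
    apply hno
    refine color_two hC hc htc0 (Function.update (fun v => gbit n t0 (idx v)) y
      (!(gbit n t0 (idx x)))) (halt t0 ht0 _ ?_) ?_
    · intro i hi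
      rw [Function.update_of_ne (fun h => hcon i hi h.symm), hidx i hi]
    · rw [Function.update_self, Function.update_of_ne hxy.ne]
      simp
  obtain ⟨a, ha, hxa⟩ := hx
  obtain ⟨b, hb, hyb⟩ := hy
  refine ⟨a, ha, b, hb, hxa, hyb, ?_⟩
  intro t ht htc
  by_contra hne
  apply hno
  refine color_two hC hc htc (fun v => gbit n t (idx v)) (halt t ht (fun v => gbit n t (idx v)) ?_) ?_
  · intro i hi
    simp only [hidx i hi]
  · simp only [hxa, hyb, hidx a ha, hidx b hb]
    exact hne

lemma rotate {W : Type*} {G1 : SimpleGraph W} {n : ℕ} {p : ℕ → W} (hC : Cyc G1 n p)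
    (a : ℕ) (ha : a < n) : ∃ q : ℕ → W, Cyc G1 n q ∧ q 0 = p a := by
  have hn0 : 0 < n := hC.odd.pos
  refine ⟨fun i => p ((a + i) % n), ⟨hC.odd, ?_, ?_, ?_⟩, ?_⟩
  · simp
  · intro i hi j hj h
    have h1 := hC.inj _ (Nat.mod_lt _ hn0) _ (Nat.mod_lt _ hn0) h
    have h2 : (a + i) ≡ (a + j) [MOD n] := h1
    have h3 := Nat.ModEq.add_left_cancel' a h2
    exact Nat.ModEq.eq_of_lt_of_lt h3 hi hj
  · intro u v huv
    obtain ⟨i, hi, hh⟩ := hC.adj u v huv
    have hpm : ∀ k, k ≤ n → p (k % n) = p k := by
      intro k hk
      rcases Nat.lt_or_ge k n with h | h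
      · rw [Nat.mod_eq_of_lt h]
      · have : k = n := by omega
        subst this
        simp [hC.p0]
    have key : ∃ j < n, (a + j) % n = i ∧ p ((a + (j+1)) % n) = p (i+1) := by
      rcases Nat.lt_or_ge i a with h | h
      · refine ⟨i + n - a, by omega, ?_, ?_⟩
        · have : a + (i + n - a) = i + n := by omega
          rw [this, Nat.add_mod_right, Nat.mod_eq_of_lt hi]
        · have : a + (i + n - a + 1) = (i + 1) + n := by omega
          rw [this, Nat.add_mod_right]
          exact hpm (i+1) (by omega)
      · refine ⟨i - a, by omega, ?_, ?_⟩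
        · have : a + (i - a) = i := by omega
          rw [this, Nat.mod_eq_of_lt hi]
        · have : a + (i - a + 1) = i + 1 := by omega
          rw [this]
          exact hpm (i+1) (by omega)
    obtain ⟨j, hj, h1, h2⟩ := key
    refine ⟨j, hj, ?_⟩
    simp only [h1, h2]
    exact hh
  · simp only [Nat.add_zero, Nat.mod_eq_of_lt ha]

/-- parity structure for an edge at `p 0` -/
lemma near_parity {W : Type*} {G1 G2 : SimpleGraph W} {m n : ℕ} {p : ℕ → W} (hC : Cyc G1 n p)
    (hm : 3 ≤ m) {y : W} {c : W → Fin m} (hc : Near G2 (p 0) y c) (hxy : G2.Adj (p 0) y)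
    (hno : ¬ (G1 ⊔ G2).Colorable (2 * m)) :
    ∃ b < n, y = p b ∧ (Even b → ∀ s ≤ b, c (p s) = c (p 0)) ∧
      (Odd b → ∀ s, b ≤ s → s < n → c (p s) = c (p 0)) := by
  obtain ⟨a, ha, b, hb, hxa, hyb, h⟩ := near_struct hC hm hc hxy hno
  have hn0 : 0 < n := hC.odd.pos
  have ha0 : a = 0 := hC.inj _ ha _ hn0 hxa.symm
  subst ha0
  have hb0 : b ≠ 0 := by
    rintro rfl
    exact hxy.ne hyb.symm
  obtain ⟨k, hk⟩ := hC.odd
  have h1 : ∀ t < n, c (p t) ≠ c (p (t+1)) → (Even b → b ≤ t) ∧ (Odd b → t < b) := by
    intro t ht htc
    have h2 := h t ht htc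
    unfold gbit at h2
    rw [decide_eq_decide] at h2
    constructor
    · rintro ⟨r, hr⟩
      by_contra hcon
      split_ifs at h2 <;> omega
    · rintro ⟨r, hr⟩
      by_contra hcon
      split_ifs at h2 <;> omega
  refine ⟨b, hb, hyb, ?_, ?_⟩
  · intro hev s
    induction s with
    | zero => simp
    | succ s ih =>
      intro hs
      rw [← ih (by omega)]
      by_contra hcon
      have := (h1 s (by omega) (fun h => hcon h.symm)).1 hev
      omega
  · intro hodd
    have key : ∀ r, r + b ≤ n → c (p (n - r)) = c (p 0) := by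
      intro r
      induction r with
      | zero => intro _; simp [hC.p0]
      | succ r ih =>
        intro hr
        rw [← ih (by omega)]
        by_contra hcon
        have h3 : n - r = n - (r+1) + 1 := by omega
        rw [h3] at hcon
        have := (h1 (n - (r+1)) (by omega) hcon).2 hodd
        omega
    intro s hbs hs
    have := key (n - s) (by omega)
    rwa [Nat.sub_sub_self (by omega)] at this

/-- The core: an odd cycle `G1` and a graph `G2` with a vertex `x` having three neighbours such
that each of the three edges is critical for `m`-colourability. -/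
lemma core {W : Type*} {G1 G2 : SimpleGraph W} {m n : ℕ} {p : ℕ → W} (hC : Cyc G1 n p)
    (hm : 3 ≤ m) {x : W} (y : Fin 3 → W) (hy : Function.Injective y)
    (hadj : ∀ i, G2.Adj x (y i)) (c : Fin 3 → W → Fin m) (hc : ∀ i, Near G2 x (y i) (c i)) :
    (G1 ⊔ G2).Colorable (2 * m) := by
  by_contra hno
  obtain ⟨a, ha, -, -, hxa, -, -⟩ := near_struct hC hm (hc 0) (hadj 0) hno
  obtain ⟨q, hq, hq0⟩ := rotate hC a ha
  have hxq : x = q 0 := by rw [hq0]; exact hxa
  subst hxq
  have hb := fun i => near_parity hq hm (hc i) (hadj i) hno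
  choose b hbn hyb hev hodd using hb
  have hbinj : ∀ i j, i ≠ j → b i ≠ b j := by
    intro i j hij h
    apply hij
    apply hy
    rw [hyb i, hyb j, h]
  -- colours of other neighbours differ
  have hdiff : ∀ i j, i ≠ j → c i (y j) ≠ c i (q 0) := by
    intro i j hij h
    rcases hc i _ _ (hadj j) h.symm with ⟨_, h1⟩ | ⟨_, h1⟩
    · exact hij (hy h1).symm
    · exact (hadj j).ne h1.symm
  have hfin : ∀ i j, i ≠ j → b i < b j → (Even (b i) ↔ Even (b j)) → False := by
    intro i j hij hlt hpar
    by_cases he : Even (b j)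
    · -- both even
      have := hev j he (b i) hlt.le
      rw [← hyb i] at this
      exact hdiff j i hij.symm this
    · have hoi : Odd (b i) := by
        rw [← Nat.not_even_iff_odd]
        exact fun h => he (hpar.1 h)
      have := hodd i hoi (b j) hlt.le (hbn j)
      rw [← hyb j] at this
      exact hdiff i j hij this
  have hfin2 : ∀ i j, i ≠ j → (Even (b i) ↔ Even (b j)) → False := by
    intro i j hij hpar
    rcases lt_trichotomy (b i) (b j) with h | h | h
    · exact hfin i j hij h hpar
    · exact hbinj i j hij h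
    · exact hfin j i hij.symm h hpar.symm
  by_cases h0 : Even (b 0) <;> by_cases h1 : Even (b 1) <;> by_cases h2 : Even (b 2)
  · exact hfin2 0 1 (by decide) ⟨fun _ => h1, fun _ => h0⟩
  · exact hfin2 0 1 (by decide) ⟨fun _ => h1, fun _ => h0⟩
  · exact hfin2 0 2 (by decide) ⟨fun _ => h2, fun _ => h0⟩
  · exact hfin2 1 2 (by decide) ⟨fun h => absurd h h1, fun h => absurd h h2⟩
  · exact hfin2 1 2 (by decide) ⟨fun _ => h2, fun _ => h1⟩
  · exact hfin2 0 2 (by decide) ⟨fun h => absurd h h0, fun h => absurd h h2⟩
  · exact hfin2 0 1 (by decide) ⟨fun h => absurd h h0, fun h => absurd h h1⟩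
  · exact hfin2 0 1 (by decide) ⟨fun h => absurd h h0, fun h => absurd h h1⟩

end H16.CU
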