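import Mathlib

set_option autoImplicit false

open Matrix

namespace Pool.Agent.H16.Cut

/-- Transition matrix of the lazy simple random walk on `Cay(G,S)`: stay put with probability
`1/2`, otherwise move from `x` to `x + s` with `s` uniform in `S`. -/
noncomputable def lazyCayley {G : Type} [AddCommGroup G] [DecidableEq G] (S : Finset G) :
    Matrix G G ℝ :=
  fun x y => (if y = x then 1 / 2 else 0) + (if y - x ∈ S then 1 / (2 * (S.card : ℝ)) else 0)

variable {V : Type} [Fintype V] [DecidableEq V]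

/-- Transition matrix `½ (I + D⁻¹ A)` of the lazy simple random walk on a graph. -/
noncomputable def lazyGraph (G : SimpleGraph V) [DecidableRel G.Adj] : Matrix V V ℝ :=
  fun x y => 1 / 2 * ((1 : Matrix V V ℝ) x y + (G.adjMatrix ℝ) x y / (G.degree x : ℝ))

/-- The automorphism group of `G` acts transitively on the vertices. -/
def IsVertexTransitive (G : SimpleGraph V) : Prop := ∀ x y : V, ∃ φ : G ≃g G, φ x = y

/-- `d(t) = max_x ‖P^t(x,·) - π‖_TV`, with `π` the uniform distribution on `V` (the stationary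
distribution of a walk on a vertex-transitive graph); total variation distance is half the
`ℓ¹` distance. -/
noncomputable def tvDist (P : Matrix V V ℝ) (t : ℕ) : ℝ :=
  ⨆ x : V, 1 / 2 * ∑ y : V, |(P ^ t) x y - 1 / (Fintype.card V : ℝ)|

/-- `T_mix(ε) = min {t ≥ 0 : d(t) ≤ ε}` -/
noncomputable def tMix (P : Matrix V V ℝ) (ε : ℝ) : ℕ := sInf {t : ℕ | tvDist P t ≤ ε}

/-- separation distance `s(t) = max_{x,y} (1 - P^t(x,y) / π(y))`, `π` uniform -/
noncomputable def sepDist (P : Matrix V V ℝ) (t : ℕ) : ℝ :=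
  ⨆ q : V × V, (1 - (P ^ t) q.1 q.2 / (1 / (Fintype.card V : ℝ)))

/-- `T_sep(ε) = min {t ≥ 0 : s(t) ≤ ε}` -/
noncomputable def tSep (P : Matrix V V ℝ) (ε : ℝ) : ℕ := sInf {t : ℕ | sepDist P t ≤ ε}

/-- The second largest eigenvalue of a symmetric stochastic matrix `P` (counted with
multiplicity): the largest eigenvalue having an eigenvector orthogonal to the constants. -/
noncomputable def lam2 (P : Matrix V V ℝ) : ℝ :=
  sSup {r : ℝ | ∃ f : V → ℝ, f ≠ 0 ∧ ∑ x, f x = 0 ∧ P *ᵥ f = r • f}

/-- relaxation time `T_rel = 1 / (1 - λ₂)` -/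
noncomputable def tRel (P : Matrix V V ℝ) : ℝ := 1 / (1 - lam2 P)

end Pool.Agent.H16.Cut
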