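import Pool.Agent.H16.CutoffDefs

set_option autoImplicit false

open Filter Topology Finset

namespace Pool.Agent.H16.Cutoff

section general

variable {n : ℕ} [NeZero n]

theorem sum_shift (f : ZMod n → ℝ) (x : ZMod n) : ∑ y, f (x - y) = ∑ y, f y :=
  Fintype.sum_equiv (Equiv.subLeft x) _ _ (fun _ => rfl)

theorem conv_prob {μ : ZMod n → ℝ} (h : IsProb μ) (t : ℕ) : IsProb (conv μ t) := by
  induction t with
  | zero =>
    constructor
    · intro x
      show 0 ≤ (if x = 0 then (1 : ℝ) else 0)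
      split_ifs <;> norm_num
    · show ∑ x : ZMod n, (if x = 0 then (1 : ℝ) else 0) = 1
      simp
  | succ t ih =>
    constructor
    · intro x
      exact Finset.sum_nonneg fun y _ => mul_nonneg (ih.1 y) (h.1 _)
    · show ∑ x, ∑ y, conv μ t y * μ (x - y) = 1
      rw [Finset.sum_comm]
      have : ∀ y, ∑ x, conv μ t y * μ (x - y) = conv μ t y := by
        intro y
        rw [← Finset.mul_sum]
        have h2 : ∑ x, μ (x - y) = ∑ x, μ x :=
          Fintype.sum_equiv (Equiv.subRight y) _ _ (fun _ => rfl)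
        rw [h2, h.2, mul_one]
      simp only [this]
      exact ih.2

/-- lower bound of the total variation distance -/
theorem tv_ge {μ : ZMod n → ℝ} (h : IsProb μ) (t : ℕ) (A : Finset (ZMod n)) :
    (A.card : ℝ) / n - ∑ x ∈ A, conv μ t x ≤ tv μ t := by
  have hn : (n : ℝ) ≠ 0 := Nat.cast_ne_zero.2 (NeZero.ne n)
  have h1 : ∑ x, (conv μ t x - 1 / n) = 0 := by
    rw [Finset.sum_sub_distrib, (conv_prob h t).2, Finset.sum_const, Finset.card_univ, ZMod.card]
    rw [nsmul_eq_mul]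
    field_simp
    ring
  have h2 : ∑ x ∈ A, (conv μ t x - 1 / n) + ∑ x ∈ Aᶜ, (conv μ t x - 1 / n) = 0 := by
    rw [Finset.sum_add_sum_compl]; exact h1
  have h3 : ∑ x, |conv μ t x - 1 / n| = ∑ x ∈ A, |conv μ t x - 1 / n| + ∑ x ∈ Aᶜ, |conv μ t x - 1 / n| :=
    (Finset.sum_add_sum_compl A _).symm
  have h4 : -∑ x ∈ A, (conv μ t x - 1 / n) ≤ ∑ x ∈ A, |conv μ t x - 1 / n| := by
    rw [← Finset.sum_neg_distrib]
    exact Finset.sum_le_sum fun x _ => neg_le_abs _
  have h5 : ∑ x ∈ Aᶜ, (conv μ t x - 1 / n) ≤ ∑ x ∈ Aᶜ, |conv μ t x - 1 / n| :=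
    Finset.sum_le_sum fun x _ => le_abs_self _
  have h6 : ∑ x ∈ A, (conv μ t x - 1 / n) = ∑ x ∈ A, conv μ t x - (A.card : ℝ) / n := by
    rw [Finset.sum_sub_distrib, Finset.sum_const, nsmul_eq_mul]
    ring
  unfold tv
  rw [h3]
  linarith

theorem tv_le_one {μ : ZMod n → ℝ} (h : IsProb μ) (t : ℕ) : tv μ t ≤ 1 := by
  have hn : (n : ℝ) ≠ 0 := Nat.cast_ne_zero.2 (NeZero.ne n)
  have h1 : ∑ x, |conv μ t x - 1 / n| ≤ ∑ x, (conv μ t x + 1 / n) := by
    apply Finset.sum_le_sum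
    intro x _
    have h2 := (conv_prob h t).1 x
    have h3 : (0 : ℝ) ≤ 1 / n := by positivity
    rw [abs_le]
    constructor <;> linarith
  rw [Finset.sum_add_distrib, (conv_prob h t).2, Finset.sum_const, Finset.card_univ, ZMod.card,
    nsmul_eq_mul] at h1
  unfold tv
  have h4 : (n : ℝ) * (1 / n) = 1 := by field_simp
  rw [h4] at h1
  linarith

/-- mixture with the uniform distribution -/
noncomputable def mixu (ε : ℝ) (μ : ZMod n → ℝ) : ZMod n → ℝ := fun x => (1 - ε) * μ x + ε / n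

theorem mixu_prob {ε : ℝ} (h0 : 0 ≤ ε) (h1 : ε ≤ 1) {μ : ZMod n → ℝ} (h : IsProb μ) :
    IsProb (mixu ε μ) := by
  have hn : (n : ℝ) ≠ 0 := Nat.cast_ne_zero.2 (NeZero.ne n)
  constructor
  · intro x
    unfold mixu
    have := h.1 x
    have h2 : 0 ≤ 1 - ε := by linarith
    positivity
  · unfold mixu
    rw [Finset.sum_add_distrib, ← Finset.mul_sum, h.2, Finset.sum_const, Finset.card_univ, ZMod.card,
      nsmul_eq_mul]
    field_simp
    ring

theorem conv_mixu {ε : ℝ} {μ : ZMod n → ℝ} (h : IsProb μ) (t : ℕ) (x : ZMod n) :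
    conv (mixu ε μ) t x - 1 / n = (1 - ε) ^ t * (conv μ t x - 1 / n) := by
  have hn : (n : ℝ) ≠ 0 := Nat.cast_ne_zero.2 (NeZero.ne n)
  induction t generalizing x with
  | zero => simp [conv]
  | succ t ih =>
    have h1 : ∀ y, conv (mixu ε μ) t y = (1 - ε) ^ t * (conv μ t y - 1 / n) + 1 / n := by
      intro y
      rw [← ih y]; ring
    show ∑ y, conv (mixu ε μ) t y * mixu ε μ (x - y) - 1 / n =
      (1 - ε) ^ (t + 1) * (∑ y, conv μ t y * μ (x - y) - 1 / n)
    simp only [h1, mixu]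
    have e1 : ∀ y, ((1 - ε) ^ t * (conv μ t y - 1 / n) + 1 / n) * ((1 - ε) * μ (x - y) + ε / n) =
        (1 - ε) ^ (t + 1) * (conv μ t y * μ (x - y)) + ((1 - (1 - ε) ^ t) * (1 - ε) / n) * μ (x - y) +
          ((1 - ε) ^ t * ε / n) * conv μ t y + (1 - (1 - ε) ^ t) * ε / n ^ 2 := by
      intro y
      field_simp
      ring
    simp only [e1, Finset.sum_add_distrib, ← Finset.mul_sum, Finset.sum_const, Finset.card_univ,
      ZMod.card, sum_shift μ x, h.2, (conv_prob h t).2, nsmul_eq_mul]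
    field_simp
    ring

theorem tv_mixu {ε : ℝ} (h1 : ε ≤ 1) {μ : ZMod n → ℝ} (h : IsProb μ) (t : ℕ) :
    tv (mixu ε μ) t = (1 - ε) ^ t * tv μ t := by
  unfold tv
  simp only [conv_mixu h, abs_mul, ← Finset.mul_sum]
  rw [abs_of_nonneg (pow_nonneg (by linarith) t)]
  ring

theorem eig_std (μ : ZMod n → ℝ) (j : ZMod n) :
    eig μ j = ∑ x, (μ x : ℂ) * AddChar.mulShift ZMod.stdAddChar j x := by
  unfold eig
  apply Finset.sum_congr rfl
  intro x _
  congr 1
  rw [AddChar.mulShift_apply]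
  have h1 : j * x = ((j.val * x.val : ℤ) : ZMod n) := by
    push_cast
    rw [ZMod.natCast_zmod_val, ZMod.natCast_zmod_val]
  rw [h1, ZMod.stdAddChar_coe]
  push_cast
  rfl

theorem eig_mixu {ε : ℝ} (μ : ZMod n → ℝ) (j : ZMod n) (hj : j ≠ 0) :
    eig (mixu ε μ) j = (1 - ε) * eig μ j := by
  rw [eig_std, eig_std]
  have h1 : ∑ x : ZMod n, AddChar.mulShift ZMod.stdAddChar j x = 0 :=
    AddChar.sum_eq_zero_of_ne_one (ZMod.isPrimitive_stdAddChar n hj)
  simp only [mixu]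
  push_cast
  simp only [add_mul, Finset.sum_add_distrib, mul_assoc, ← Finset.mul_sum]
  rw [h1]
  simp

end general

end Pool.Agent.H16.Cutoff
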