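import Pool.Agent.H16.Cutoff1

set_option autoImplicit false

open Filter Topology Finset

namespace Pool.Agent.H16.Cutoff

section prod

variable {k : ℕ} {p : Fin k → ℕ} [∀ i, NeZero (p i)] {n : ℕ} [NeZero n]

/-- the coordinate law at time `t` -/
noncomputable def nu (q t : ℕ) (y : ZMod q) : ℝ :=
  (if y = 0 then (1 / 2 : ℝ) ^ t else 0) + (1 - (1 / 2 : ℝ) ^ t) / q

theorem nu_nonneg (q t : ℕ) (y : ZMod q) : 0 ≤ nu q t y := by
  unfold nu
  have h1 : (1 / 2 : ℝ) ^ t ≤ 1 := pow_le_one₀ (by norm_num) (by norm_num)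
  have h2 : (0 : ℝ) ≤ (1 / 2 : ℝ) ^ t := by positivity
  have h3 : 0 ≤ (1 - (1 / 2 : ℝ) ^ t) / q := div_nonneg (by linarith) (Nat.cast_nonneg _)
  split_ifs <;> linarith

theorem nu_sum (q t : ℕ) [NeZero q] : ∑ y : ZMod q, nu q t y = 1 := by
  have hn : (q : ℝ) ≠ 0 := Nat.cast_ne_zero.2 (NeZero.ne q)
  unfold nu
  rw [Finset.sum_add_distrib, Finset.sum_ite_eq' Finset.univ, Finset.sum_const, Finset.card_univ,
    ZMod.card, nsmul_eq_mul]
  simp only [Finset.mem_univ, if_true]
  field_simp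
  ring

theorem nu_zero (q : ℕ) (y : ZMod q) : nu q 0 y = if y = 0 then 1 else 0 := by
  simp [nu]

theorem nu_conv (q t : ℕ) [NeZero q] (x : ZMod q) :
    ∑ y : ZMod q, nu q t y * nu q 1 (x - y) = nu q (t + 1) x := by
  have hn : (q : ℝ) ≠ 0 := Nat.cast_ne_zero.2 (NeZero.ne q)
  have h1 : ∀ y, nu q t y * nu q 1 (x - y) =
      (if y = 0 then (1 / 2 : ℝ) ^ t * nu q 1 (x - y) else 0) +
        (1 - (1 / 2 : ℝ) ^ t) / q * nu q 1 (x - y) := by
    intro y
    unfold nu
    split_ifs <;> ring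
  have h2 : ∑ y, nu q 1 (x - y) = 1 := by
    rw [← nu_sum q 1]
    exact Fintype.sum_equiv (Equiv.subLeft x) _ _ (fun _ => rfl)
  simp only [h1]
  rw [Finset.sum_add_distrib, ← Finset.mul_sum, h2, Finset.sum_ite_eq' Finset.univ]
  simp only [Finset.mem_univ, if_true, sub_zero]
  unfold nu
  split_ifs
  · field_simp
    ring
  · field_simp
    ring

/-- the law on `ℤ/n` -/
noncomputable def base (e : ZMod n ≃+ (∀ i, ZMod (p i))) (t : ℕ) (x : ZMod n) : ℝ :=
  ∏ i, nu (p i) t (e x i)

theorem sum_prod_eq (e : ZMod n ≃+ (∀ i, ZMod (p i))) {R : Type} [CommSemiring R]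
    (f : ∀ i, ZMod (p i) → R) : ∑ x : ZMod n, ∏ i, f i (e x i) = ∏ i, ∑ y, f i y := by
  rw [Finset.prod_univ_sum, Fintype.piFinset_univ]
  exact Fintype.sum_equiv e.toEquiv _ _ (fun _ => rfl)

theorem base_prob (e : ZMod n ≃+ (∀ i, ZMod (p i))) (t : ℕ) : IsProb (base e t) := by
  constructor
  · intro x
    exact Finset.prod_nonneg fun i _ => nu_nonneg _ _ _
  · unfold base
    rw [sum_prod_eq e (fun i y => nu (p i) t y)]
    simp only [nu_sum, Finset.prod_const_one]

theorem conv_base (e : ZMod n ≃+ (∀ i, ZMod (p i))) (t : ℕ) : conv (base e 1) t = base e t := by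
  induction t with
  | zero =>
    funext x
    show (if x = 0 then (1 : ℝ) else 0) = ∏ i, nu (p i) 0 (e x i)
    simp only [nu_zero]
    by_cases hx : x = 0
    · subst hx
      simp
    · rw [if_neg hx]
      symm
      have : ∃ i, e x i ≠ 0 := by
        by_contra h
        push Not at h
        exact hx ((map_eq_zero_iff e e.injective).1 (funext h))
      obtain ⟨i, hi⟩ := this
      exact Finset.prod_eq_zero (Finset.mem_univ i) (if_neg hi)
  | succ t ih =>
    funext x
    show ∑ y, conv (base e 1) t y * base e 1 (x - y) = ∏ i, nu (p i) (t + 1) (e x i)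
    rw [ih]
    have h1 : ∀ y, base e t y * base e 1 (x - y) =
        ∏ i, (fun z : ZMod (p i) => nu (p i) t z * nu (p i) 1 (e x i - z)) (e y i) := by
      intro y
      unfold base
      rw [← Finset.prod_mul_distrib]
      apply Finset.prod_congr rfl
      intro i _
      rw [map_sub, Pi.sub_apply]
    simp only [h1]
    rw [sum_prod_eq e (fun i z => nu (p i) t z * nu (p i) 1 (e x i - z))]
    simp only [nu_conv]

theorem base_even (e : ZMod n ≃+ (∀ i, ZMod (p i))) (t : ℕ) (x : ZMod n) :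
    base e t (-x) = base e t x := by
  unfold base
  apply Finset.prod_congr rfl
  intro i _
  rw [map_neg, Pi.neg_apply]
  unfold nu
  simp only [neg_eq_zero]

theorem addChar_sum {A ι : Type} [AddCommMonoid A] (ψ : AddChar A ℂ) (s : Finset ι) (f : ι → A) :
    ψ (∑ i ∈ s, f i) = ∏ i ∈ s, ψ (f i) := by
  classical
  induction s using Finset.induction_on with
  | empty => simp
  | insert i s hi ih => rw [Finset.sum_insert hi, Finset.prod_insert hi, AddChar.map_add_eq_mul, ih]

theorem eig_base_le (e : ZMod n ≃+ (∀ i, ZMod (p i))) (j : ZMod n) (hj : j ≠ 0) :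
    ‖eig (base e 1) j‖ ≤ 1 / 2 := by
  let ψ : AddChar (ZMod n) ℂ := AddChar.mulShift ZMod.stdAddChar j
  have hψ : ψ ≠ 1 := ZMod.isPrimitive_stdAddChar n hj
  -- the components of the character
  let ψi : ∀ i, AddChar (ZMod (p i)) ℂ := fun i =>
    { toFun := fun y => ψ (e.symm (Pi.single i y))
      map_zero_eq_one' := by simp
      map_add_eq_mul' := by
        intro a b
        rw [Pi.single_add, map_add, AddChar.map_add_eq_mul] }
  have hψi : ∀ i y, ψi i y = ψ (e.symm (Pi.single i y)) := fun i y => rfl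
  have hdec : ∀ x, ψ x = ∏ i, ψi i (e x i) := by
    intro x
    simp only [hψi]
    rw [← addChar_sum, ← map_sum]
    congr 1
    rw [Finset.univ_sum_single (e x), AddEquiv.symm_apply_apply]
  have hne : ∃ i, ψi i ≠ 1 := by
    by_contra h
    push Not at h
    apply hψ
    ext x
    rw [hdec]
    simp [h]
  have hE : eig (base e 1) j = ∏ i, ∑ y, (nu (p i) 1 y : ℂ) * ψi i y := by
    rw [eig_std, ← sum_prod_eq e (fun i y => (nu (p i) 1 y : ℂ) * ψi i y)]
    apply Finset.sum_congr rfl
    intro x _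
    rw [Finset.prod_mul_distrib]
    show _ * ψ x = _
    rw [hdec x]
    unfold base
    push_cast
    rfl
  have hfac : ∀ i, ∑ y, (nu (p i) 1 y : ℂ) * ψi i y =
      1 / 2 + (1 / 2) / (p i : ℂ) * ∑ y, ψi i y := by
    intro i
    have h1 : ∀ y, (nu (p i) 1 y : ℂ) * ψi i y =
        (if y = 0 then (1 / 2 : ℂ) * ψi i y else 0) + (1 / 2) / (p i : ℂ) * ψi i y := by
      intro y
      unfold nu
      split_ifs
      · push_cast; ring
      · push_cast; ring
    simp only [h1]
    rw [Finset.sum_add_distrib, ← Finset.mul_sum, Finset.sum_ite_eq' Finset.univ]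
    simp
  rw [hE, norm_prod]
  obtain ⟨i₀, hi₀⟩ := hne
  rw [← Finset.mul_prod_erase Finset.univ _ (Finset.mem_univ i₀)]
  have h1 : ‖∑ y, (nu (p i₀) 1 y : ℂ) * ψi i₀ y‖ = 1 / 2 := by
    rw [hfac, AddChar.sum_eq_zero_of_ne_one hi₀]
    norm_num
  have h2 : ∏ i ∈ Finset.univ.erase i₀, ‖∑ y, (nu (p i) 1 y : ℂ) * ψi i y‖ ≤ 1 := by
    apply Finset.prod_le_one
    · intro i _; exact norm_nonneg _
    · intro i _
      rw [hfac]
      by_cases h : ψi i = 1
      · have hn : (p i : ℂ) ≠ 0 := Nat.cast_ne_zero.2 (NeZero.ne (p i))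
        have h3 : ∑ y, ψi i y = (p i : ℂ) := by
          rw [h]
          simp [ZMod.card]
        rw [h3, div_mul_cancel₀ _ hn]
        norm_num
      · rw [AddChar.sum_eq_zero_of_ne_one h]
        norm_num
  rw [h1]
  have h3 : 0 ≤ ∏ i ∈ Finset.univ.erase i₀, ‖∑ y, (nu (p i) 1 y : ℂ) * ψi i y‖ :=
    Finset.prod_nonneg fun i _ => norm_nonneg _
  linarith

theorem one_sub_sum_le_prod (s : Finset (Fin k)) (a : Fin k → ℝ) (h0 : ∀ i, 0 ≤ a i)
    (h1 : ∀ i, a i ≤ 1) : 1 - ∑ i ∈ s, a i ≤ ∏ i ∈ s, (1 - a i) := by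
  classical
  induction s using Finset.induction_on with
  | empty => simp
  | insert i s hi ih =>
    rw [Finset.sum_insert hi, Finset.prod_insert hi]
    have h2 : 0 ≤ ∑ j ∈ s, a j := Finset.sum_nonneg fun j _ => h0 j
    have h3 : ∏ j ∈ s, (1 - a j) ≤ 1 :=
      Finset.prod_le_one (fun j _ => by linarith [h1 j]) (fun j _ => by linarith [h0 j])
    nlinarith [h0 i, h1 i]

theorem tv_base_ge (e : ZMod n ≃+ (∀ i, ZMod (p i))) (hn : n = ∏ i, p i) (t : ℕ) :
    1 - ∑ i, 1 / (p i : ℝ) - (1 - (1 / 2 : ℝ) ^ t) ^ k ≤ tv (base e 1) t := by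
  classical
  let A : Finset (ZMod n) := Finset.univ.filter (fun x => ∀ i, e x i ≠ 0)
  have h := tv_ge (base_prob e 1) t A
  have hcard : (A.card : ℝ) = ∏ i, ((p i : ℝ) - 1) := by
    have h1 : (A.card : ℝ) = ∑ x : ZMod n, ∏ i, (if e x i = 0 then (0 : ℝ) else 1) := by
      rw [Finset.card_filter]
      push_cast
      apply Finset.sum_congr rfl
      intro x _
      split_ifs with hx
      · symm
        apply Finset.prod_eq_one
        intro i _
        rw [if_neg (hx i)]
      · push Not at hx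
        obtain ⟨i, hi⟩ := hx
        symm
        exact Finset.prod_eq_zero (Finset.mem_univ i) (if_pos hi)
    rw [h1, sum_prod_eq e (fun i y => if y = 0 then (0 : ℝ) else 1)]
    apply Finset.prod_congr rfl
    intro i _
    have h2 : ∀ y : ZMod (p i), (if y = 0 then (0 : ℝ) else 1) = 1 - (if y = 0 then (1 : ℝ) else 0) := by
      intro y; split_ifs <;> norm_num
    simp only [h2]
    rw [Finset.sum_sub_distrib, Finset.sum_ite_eq' Finset.univ]
    simp [ZMod.card]
  have hA : ∑ x ∈ A, conv (base e 1) t x ≤ (1 - (1 / 2 : ℝ) ^ t) ^ k := by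
    rw [conv_base]
    have h1 : ∑ x ∈ A, base e t x = ∑ x : ZMod n, ∏ i, (if e x i = 0 then (0 : ℝ) else nu (p i) t (e x i)) := by
      rw [Finset.sum_filter]
      apply Finset.sum_congr rfl
      intro x _
      split_ifs with hx
      · unfold base
        apply Finset.prod_congr rfl
        intro i _
        rw [if_neg (hx i)]
      · push Not at hx
        obtain ⟨i, hi⟩ := hx
        symm
        exact Finset.prod_eq_zero (Finset.mem_univ i) (if_pos hi)
    rw [h1, sum_prod_eq e (fun i y => if y = 0 then (0 : ℝ) else nu (p i) t y)]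
    have h2 : ∀ i, ∑ y : ZMod (p i), (if y = 0 then (0 : ℝ) else nu (p i) t y) ≤ 1 - (1 / 2 : ℝ) ^ t := by
      intro i
      have h3 : ∀ y : ZMod (p i), (if y = 0 then (0 : ℝ) else nu (p i) t y) =
          nu (p i) t y - (if y = 0 then nu (p i) t y else 0) := by
        intro y; split_ifs <;> ring
      simp only [h3]
      rw [Finset.sum_sub_distrib, nu_sum, Finset.sum_ite_eq' Finset.univ]
      simp only [Finset.mem_univ, if_true]
      unfold nu
      rw [if_pos rfl]
      have h4 : (1 / 2 : ℝ) ^ t ≤ 1 := pow_le_one₀ (by norm_num) (by norm_num)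
      have h5 : 0 ≤ (1 - (1 / 2 : ℝ) ^ t) / (p i : ℝ) := div_nonneg (by linarith) (Nat.cast_nonneg _)
      linarith
    calc ∏ i, ∑ y : ZMod (p i), (if y = 0 then (0 : ℝ) else nu (p i) t y)
        ≤ ∏ i : Fin k, (1 - (1 / 2 : ℝ) ^ t) := by
          apply Finset.prod_le_prod
          · intro i _
            apply Finset.sum_nonneg
            intro y _
            split_ifs
            · exact le_rfl
            · exact nu_nonneg _ _ _
          · intro i _; exact h2 i
      _ = _ := by rw [Finset.prod_const, Finset.card_univ, Fintype.card_fin]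
  have hdiv : (A.card : ℝ) / n = ∏ i, (1 - 1 / (p i : ℝ)) := by
    rw [hcard, hn, Nat.cast_prod, ← Finset.prod_div_distrib]
    apply Finset.prod_congr rfl
    intro i _
    have : (p i : ℝ) ≠ 0 := Nat.cast_ne_zero.2 (NeZero.ne (p i))
    field_simp
  rw [hdiv] at h
  have h6 := one_sub_sum_le_prod Finset.univ (fun i => 1 / (p i : ℝ)) (fun i => by positivity)
    (fun i => by
      have : (1 : ℝ) ≤ p i := Nat.one_le_cast.2 (Nat.one_le_iff_ne_zero.2 (NeZero.ne (p i)))
      rw [div_le_one (by linarith)]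
      exact this)
  linarith

end prod

end Pool.Agent.H16.Cutoff
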