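import Pool.Agent.H16.Cutoff2

set_option autoImplicit false

open Filter Topology Finset

namespace Pool.Agent.H16.Cutoff

theorem pow_bound (x : ℝ) (h0 : 0 ≤ x) (h1 : x ≤ 1) (k : ℕ) : (1 - x) ^ k * (1 + k * x) ≤ 1 := by
  have h2 : 1 + (k : ℝ) * x ≤ (1 + x) ^ k := one_add_mul_le_pow (by linarith) k
  have h3 : (1 - x) ^ k * (1 + x) ^ k ≤ 1 := by
    rw [← mul_pow]
    apply pow_le_one₀
    · nlinarith
    · nlinarith
  have h4 : 0 ≤ (1 - x) ^ k := pow_nonneg (by linarith) k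
  nlinarith

theorem exists_walk (s : ℕ) (hs : 1 ≤ s) : ∃ (n : ℕ) (_ : NeZero n) (μ : ZMod n → ℝ),
    s ≤ n ∧ IsProb μ ∧ (∀ x, μ (-x) = μ x) ∧ (∀ x, 0 < μ x) ∧ 0 ≤ Trel μ ∧ Trel μ ≤ 2 ∧
    3 * s ≤ Tmix μ (1 / 2) ∧ 1 ≤ Tmix μ (3 / 4) ∧ Tmix μ (3 / 4) ≤ 4 * s ∧ 6 * s ≤ Tmix μ (1 / 4) := by
  classical
  obtain ⟨M, hM⟩ : ∃ M, M = 12 * s := ⟨_, rfl⟩
  obtain ⟨k, hk⟩ : ∃ k, k = M * 2 ^ M := ⟨_, rfl⟩
  have hM12 : 12 ≤ M := by omega
  have hkpos : 1 ≤ k := by rw [hk]; exact Nat.one_le_iff_ne_zero.2 (by positivity)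
  let p : Fin k → ℕ := fun i => Nat.nth Nat.Prime (k * M + i)
  have hinf := Nat.infinite_setOf_prime
  have hp : ∀ i, (p i).Prime := fun i => Nat.nth_mem_of_infinite hinf _
  have hple : ∀ i, k * M ≤ p i := fun i =>
    (Nat.le_add_right _ _).trans ((Nat.nth_strictMono hinf).le_apply)
  have hinj : ∀ i j, p i = p j → i = j := by
    intro i j h
    have := (Nat.nth_strictMono hinf).injective h
    exact Fin.ext (by omega)
  have hcop : Pairwise (Function.onFun Nat.Coprime p) := by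
    intro i j hij
    exact (Nat.coprime_primes (hp i) (hp j)).2 (fun h => hij (hinj i j h))
  haveI : ∀ i, NeZero (p i) := fun i => ⟨(hp i).ne_zero⟩
  obtain ⟨n, hn⟩ : ∃ n, n = ∏ i, p i := ⟨_, rfl⟩
  have hnpos : n ≠ 0 := by
    rw [hn]
    exact Finset.prod_ne_zero_iff.2 fun i _ => (hp i).ne_zero
  haveI hnz : NeZero n := ⟨hnpos⟩
  let e : ZMod n ≃+ (∀ i, ZMod (p i)) := by
    rw [hn]; exact (ZMod.prodEquivPi p hcop).toAddEquiv
  have hMpos : (0 : ℝ) < M := by
    have : 0 < M := by omega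
    exact_mod_cast this
  have hM12' : (12 : ℝ) ≤ M := by exact_mod_cast hM12
  have hMs : (M : ℝ) = 12 * s := by rw [hM]; push_cast; ring
  have hspos : (1 : ℝ) ≤ s := by exact_mod_cast hs
  obtain ⟨ε, hε⟩ : ∃ ε : ℝ, ε = 1 / M := ⟨_, rfl⟩
  have hε0 : 0 < ε := by rw [hε]; positivity
  have hε1 : ε ≤ 1 / 12 := by
    rw [hε]
    exact one_div_le_one_div_of_le (by norm_num) hM12'
  have hb := base_prob e 1
  let μ := mixu ε (base e 1)
  have hμ : IsProb μ := mixu_prob hε0.le (by linarith) hb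
  have htv : ∀ t, tv μ t = (1 - ε) ^ t * tv (base e 1) t := fun t => tv_mixu (by linarith) hb t
  have htvb1 : ∀ t, tv (base e 1) t ≤ 1 := tv_le_one hb
  -- lower bound for the base walk
  have hlow : ∀ t, t ≤ M → 5 / 6 ≤ tv (base e 1) t := by
    intro t ht
    have h1 := tv_base_ge e hn t
    have h2 : ∑ i, 1 / (p i : ℝ) ≤ 1 / M := by
      calc ∑ i, 1 / (p i : ℝ) ≤ ∑ i : Fin k, 1 / ((k : ℝ) * M) := by
            apply Finset.sum_le_sum
            intro i _
            apply one_div_le_one_div_of_le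
            · have : (0 : ℝ) < k := by exact_mod_cast hkpos
              positivity
            · exact_mod_cast hple i
        _ = 1 / M := by
            rw [Finset.sum_const, Finset.card_univ, Fintype.card_fin, nsmul_eq_mul]
            have : (k : ℝ) ≠ 0 := by
              have : (0 : ℝ) < k := by exact_mod_cast hkpos
              exact this.ne'
            field_simp
    have h3 := pow_bound ((1 / 2 : ℝ) ^ t) (by positivity) (pow_le_one₀ (by norm_num) (by norm_num)) k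
    have h4 : (M : ℝ) ≤ k * (1 / 2 : ℝ) ^ t := by
      rw [hk]
      push_cast
      have h5 : (1 / 2 : ℝ) ^ M ≤ (1 / 2 : ℝ) ^ t :=
        pow_le_pow_of_le_one (by norm_num) (by norm_num) ht
      have h6 : (2 : ℝ) ^ M * (1 / 2 : ℝ) ^ M = 1 := by
        rw [← mul_pow]; norm_num
      have h7 : (0 : ℝ) < 2 ^ M := by positivity
      nlinarith [mul_le_mul_of_nonneg_left h5 (mul_pos hMpos h7).le]
    have h5 : 0 ≤ (1 - (1 / 2 : ℝ) ^ t) ^ k :=
      pow_nonneg (by linarith [pow_le_one₀ (n := t) (by norm_num : (0:ℝ) ≤ 1 / 2) (by norm_num)]) k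
    have h6 : (1 - (1 / 2 : ℝ) ^ t) ^ k ≤ 1 / 13 := by
      rw [le_div_iff₀ (by norm_num)]
      have h7 : (1 - (1 / 2 : ℝ) ^ t) ^ k * 13 ≤ (1 - (1 / 2 : ℝ) ^ t) ^ k * (1 + k * (1 / 2 : ℝ) ^ t) :=
        mul_le_mul_of_nonneg_left (by linarith) h5
      linarith
    rw [← hε] at h2
    linarith
  have hbern : ∀ t : ℕ, 1 - t * ε ≤ (1 - ε) ^ t := by
    intro t
    have := one_add_mul_le_pow (a := -ε) (by linarith) t
    calc 1 - t * ε = 1 + t * -ε := by ring
      _ ≤ (1 + -ε) ^ t := this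
      _ = (1 - ε) ^ t := by rw [← sub_eq_add_neg]
  have hne : ∀ δ : ℝ, 0 < δ → {t : ℕ | tv μ t ≤ δ}.Nonempty := by
    intro δ hδ
    obtain ⟨t, ht⟩ := exists_pow_lt_of_lt_one hδ (show 1 - ε < 1 by linarith)
    refine ⟨t, ?_⟩
    show tv μ t ≤ δ
    rw [htv]
    have h1 : 0 ≤ (1 - ε) ^ t := pow_nonneg (by linarith) t
    nlinarith [htvb1 t]
  have hgt : ∀ (δ : ℝ) (N : ℕ), 0 < δ → N ≤ M → (∀ t : ℕ, t ≤ N → δ < (1 - t * ε) * (5 / 6)) →
      N < Tmix μ δ := by
    intro δ N hδ hN h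
    by_contra hcon
    push Not at hcon
    have hmem := Nat.sInf_mem (hne δ hδ)
    have h1 : tv μ (Tmix μ δ) ≤ δ := hmem
    have h2 := h _ hcon
    rw [htv] at h1
    have h3 := hbern (Tmix μ δ)
    have h4 := hlow _ (hcon.trans hN)
    have h5 : 0 < 1 - (Tmix μ δ : ℝ) * ε := by
      by_contra h6
      push Not at h6
      nlinarith
    have h6 : (1 - (Tmix μ δ : ℝ) * ε) * (5 / 6) ≤ (1 - ε) ^ (Tmix μ δ) * tv (base e 1) (Tmix μ δ) := by
      calc _ ≤ (1 - ε) ^ (Tmix μ δ) * (5 / 6) := by nlinarith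
        _ ≤ _ := mul_le_mul_of_nonneg_left h4 (pow_nonneg (by linarith) _)
    linarith
  have hts : ∀ t N : ℕ, t ≤ N → (t : ℝ) * ε ≤ N / M := by
    intro t N h
    rw [hε, mul_one_div]
    have : (t : ℝ) ≤ N := by exact_mod_cast h
    gcongr
  refine ⟨n, hnz, μ, ?_, hμ, ?_, ?_, ?_, ?_, ?_, ?_, ?_, ?_⟩
  · -- s ≤ n
    have h1 : p ⟨0, hkpos⟩ ∣ n := by rw [hn]; exact Finset.dvd_prod_of_mem p (Finset.mem_univ _)
    have h2 := Nat.le_of_dvd (Nat.pos_of_ne_zero hnpos) h1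
    have h3 := hple ⟨0, hkpos⟩
    have h4 : M ≤ k * M := Nat.le_mul_of_pos_left M hkpos
    omega
  · intro x
    show (1 - ε) * base e 1 (-x) + ε / n = (1 - ε) * base e 1 x + ε / n
    rw [base_even]
  · intro x
    show 0 < (1 - ε) * base e 1 x + ε / n
    have h1 : 0 ≤ (1 - ε) * base e 1 x := mul_nonneg (by linarith) (hb.1 x)
    have h2 : (0 : ℝ) < n := by exact_mod_cast Nat.pos_of_ne_zero hnpos
    have h3 : 0 < ε / n := by positivity
    linarith
  · have h1 : ⨆ j : {j : ZMod n // j ≠ 0}, ‖eig μ j.1‖ ≤ 1 / 2 := by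
      apply Real.iSup_le _ (by norm_num)
      intro j
      rw [eig_mixu _ _ j.2, norm_mul]
      have h2 := eig_base_le e j.1 j.2
      have h3 : ‖(1 - (ε : ℂ))‖ ≤ 1 := by
        have : (1 - (ε : ℂ)) = ((1 - ε : ℝ) : ℂ) := by push_cast; ring
        rw [this, Complex.norm_real, Real.norm_eq_abs, abs_of_nonneg (by linarith)]
        linarith
      nlinarith [norm_nonneg (eig (base e 1) j.1), norm_nonneg (1 - (ε : ℂ))]
    unfold Trel
    apply div_nonneg zero_le_one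
    linarith
  · have h1 : ⨆ j : {j : ZMod n // j ≠ 0}, ‖eig μ j.1‖ ≤ 1 / 2 := by
      apply Real.iSup_le _ (by norm_num)
      intro j
      rw [eig_mixu _ _ j.2, norm_mul]
      have h2 := eig_base_le e j.1 j.2
      have h3 : ‖(1 - (ε : ℂ))‖ ≤ 1 := by
        have : (1 - (ε : ℂ)) = ((1 - ε : ℝ) : ℂ) := by push_cast; ring
        rw [this, Complex.norm_real, Real.norm_eq_abs, abs_of_nonneg (by linarith)]
        linarith
      nlinarith [norm_nonneg (eig (base e 1) j.1), norm_nonneg (1 - (ε : ℂ))]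
    unfold Trel
    rw [div_le_iff₀ (by linarith)]
    linarith
  · apply le_of_lt
    apply hgt _ _ (by norm_num) (by omega)
    intro t ht
    have h1 := hts t (3 * s) ht
    have h2 : ((3 * s : ℕ) : ℝ) / M = 1 / 4 := by
      rw [hMs]; push_cast; field_simp; norm_num
    rw [h2] at h1
    linarith
  · apply hgt _ 0 (by norm_num) (by omega)
    intro t ht
    have h1 := hts t 0 ht
    norm_num at h1
    have ht0 : t = 0 := by omega
    subst ht0
    norm_num
  · apply Nat.sInf_le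
    show tv μ (4 * s) ≤ 3 / 4
    rw [htv]
    have h1 := pow_bound ε hε0.le (by linarith) (4 * s)
    have h2 : ((4 * s : ℕ) : ℝ) * ε = 1 / 3 := by
      rw [hε, hMs]; push_cast; field_simp; norm_num
    rw [h2] at h1
    have h3 : 0 ≤ (1 - ε) ^ (4 * s) := pow_nonneg (by linarith) _
    nlinarith [htvb1 (4 * s)]
  · apply le_of_lt
    apply hgt _ _ (by norm_num) (by omega)
    intro t ht
    have h1 := hts t (6 * s) ht
    have h2 : ((6 * s : ℕ) : ℝ) / M = 1 / 2 := by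
      rw [hMs]; push_cast; field_simp; norm_num
    rw [h2] at h1
    linarith

end Pool.Agent.H16.Cutoff
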