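import Mathlib

set_option autoImplicit false

open Filter Topology

namespace Pool.Agent.H16.Cutoff

/-- a probability measure on `ℤ/n` -/
def IsProb {n : ℕ} [NeZero n] (μ : ZMod n → ℝ) : Prop := (∀ x, 0 ≤ μ x) ∧ ∑ x, μ x = 1

/-- the support of `μ` is not contained in a coset of a proper subgroup -/
def Ergodic {n : ℕ} (μ : ZMod n → ℝ) : Prop :=
  ∀ (K : AddSubgroup (ZMod n)) (a : ZMod n), K ≠ ⊤ → ∃ x, μ x ≠ 0 ∧ x - a ∉ K

/-- the convolution power `μ^{*t}`, the law at time `t` of the walk started at `0` -/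
noncomputable def conv {n : ℕ} [NeZero n] (μ : ZMod n → ℝ) : ℕ → ZMod n → ℝ
  | 0 => fun x => if x = 0 then 1 else 0
  | t + 1 => fun x => ∑ y, conv μ t y * μ (x - y)

/-- the total variation distance of `μ^{*t}` to the uniform distribution -/
noncomputable def tv {n : ℕ} [NeZero n] (μ : ZMod n → ℝ) (t : ℕ) : ℝ :=
  (1 / 2) * ∑ x, |conv μ t x - 1 / n|

/-- the mixing time `T_mix(ε)` -/
noncomputable def Tmix {n : ℕ} [NeZero n] (μ : ZMod n → ℝ) (ε : ℝ) : ℕ := sInf {t : ℕ | tv μ t ≤ ε}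

/-- the eigenvalue `μ̂(j) = ∑_x μ(x) e^{2π i j x / n}` -/
noncomputable def eig {n : ℕ} [NeZero n] (μ : ZMod n → ℝ) (j : ZMod n) : ℂ :=
  ∑ x, (μ x : ℂ) * Complex.exp (2 * Real.pi * Complex.I * (j.val * x.val) / n)

/-- the relaxation time `1 / γ`, `γ = 1 - max_{j ≠ 0} |μ̂(j)|` -/
noncomputable def Trel {n : ℕ} [NeZero n] (μ : ZMod n → ℝ) : ℝ :=
  1 / (1 - ⨆ j : {j : ZMod n // j ≠ 0}, ‖eig μ j.1‖)

end Pool.Agent.H16.Cutoff
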