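import Mathlib

set_option autoImplicit false

open Finset

namespace Pool.Agent.H16.Flow

variable {ι : Type} [DecidableEq ι] {d : ℕ}

/-- weights for the Steinitz lemma -/
def Wt (v : ι → Fin d → ℝ) (s : Finset ι) (c : ℝ) (l : ι → ℝ) : Prop :=
  (∀ i ∈ s, 0 ≤ l i ∧ l i ≤ 1) ∧ ∑ i ∈ s, l i = c ∧ ∀ j, ∑ i ∈ s, l i * v i j = 0

def Adm (v : ι → Fin d → ℝ) (s : Finset ι) : Prop := ∃ l, Wt v s ((s.card : ℝ) - d) l

/-- the fractional indices -/
noncomputable def frac (s : Finset ι) (l : ι → ℝ) : Finset ι := s.filter (fun i => 0 < l i ∧ l i < 1)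

theorem frac_sub (s : Finset ι) (l : ι → ℝ) : frac s l ⊆ s := Finset.filter_subset _ _

theorem exists_zero (v : ι → Fin d → ℝ) (s : Finset ι) (k : ℕ) (hs : s.card = k + 1) (hk : d ≤ k)
    (N : ℕ) : ∀ l, Wt v s ((k : ℝ) - d) l → (frac s l).card = N →
      ∃ l', Wt v s ((k : ℝ) - d) l' ∧ ∃ i ∈ s, l' i = 0 := by
  induction N using Nat.strong_induction_on with
  | _ N ih =>
    intro l hl hN
    by_cases hz : ∃ i ∈ s, l i = 0
    · exact ⟨l, hl, hz⟩
    push Not at hz
    have hpos : ∀ i ∈ s, 0 < l i := fun i hi => lt_of_le_of_ne (hl.1 i hi).1 (Ne.symm (hz i hi))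
    -- the number of fractional indices is at least d + 2
    have hsum : ∑ i ∈ s, l i = ∑ i ∈ frac s l, l i + ((s.card : ℝ) - (frac s l).card) := by
      have h1 : ∑ i ∈ s, l i = ∑ i ∈ frac s l, l i + ∑ i ∈ s \ frac s l, l i := by
        rw [add_comm, Finset.sum_sdiff (frac_sub s l)]
      have h2 : ∑ i ∈ s \ frac s l, l i = ∑ i ∈ s \ frac s l, (1 : ℝ) := by
        apply Finset.sum_congr rfl
        intro i hi
        rw [Finset.mem_sdiff] at hi
        have h3 : ¬ (0 < l i ∧ l i < 1) := fun h => hi.2 (Finset.mem_filter.2 ⟨hi.1, h⟩)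
        have h4 := (hl.1 i hi.1).2
        by_contra h5
        exact h3 ⟨hpos i hi.1, lt_of_le_of_ne h4 h5⟩
      rw [h1, h2, Finset.sum_const, nsmul_eq_mul, mul_one,
        Finset.card_sdiff_of_subset (frac_sub s l),
        Nat.cast_sub (Finset.card_le_card (frac_sub s l))]
    rw [hl.2.1, hs] at hsum
    push_cast at hsum
    have hf : d + 2 ≤ (frac s l).card := by
      by_contra hcon
      push Not at hcon
      have h1 : ((frac s l).card : ℝ) ≤ d + 1 := by exact_mod_cast Nat.lt_succ_iff.1 hcon
      have h2 : 0 ≤ ∑ i ∈ frac s l, l i := Finset.sum_nonneg fun i hi =>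
        (hpos i (Finset.mem_filter.1 hi).1).le
      have h3 : ∑ i ∈ frac s l, l i = ((frac s l).card : ℝ) - d - 1 := by linarith
      have h4 : ∑ i ∈ frac s l, l i = 0 := le_antisymm (by linarith) h2
      rcases Finset.eq_empty_or_nonempty (frac s l) with he | hne
      · rw [he] at h3
        simp only [Finset.sum_empty, Finset.card_empty, Nat.cast_zero] at h3
        have : (0 : ℝ) ≤ d := Nat.cast_nonneg d
        linarith
      · have h5 : 0 < ∑ i ∈ frac s l, l i := Finset.sum_pos
          (fun i hi => hpos i (Finset.mem_filter.1 hi).1) hne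
        linarith
    -- a linear relation
    have hrel : ∃ δ : ι → ℝ, (∀ i, i ∉ frac s l → δ i = 0) ∧ (∃ i ∈ frac s l, δ i ≠ 0) ∧
        ∑ i ∈ s, δ i = 0 ∧ ∀ j, ∑ i ∈ s, δ i * v i j = 0 := by
      let w : (frac s l) → (Fin d → ℝ) × ℝ := fun i => (v i.1, 1)
      have hnl : ¬ LinearIndependent ℝ w := by
        intro hli
        have := hli.fintype_card_le_finrank
        rw [Fintype.card_coe, Module.finrank_prod, Module.finrank_fin_fun, Module.finrank_self] at this
        omega
      obtain ⟨g, hg, i₀, hi₀⟩ := Fintype.not_linearIndependent_iff.1 hnl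
      obtain ⟨D, hD⟩ : ∃ D : ι → ℝ, D = fun i => if h : i ∈ frac s l then g ⟨i, h⟩ else 0 := ⟨_, rfl⟩
      have hD0 : ∀ i, i ∉ frac s l → D i = 0 := by
        intro i hi; rw [hD]; exact dif_neg hi
      have hD1 : ∀ i : (frac s l), D i.1 = g i := by
        intro i; rw [hD]; exact dif_pos i.2
      refine ⟨D, hD0, ⟨i₀.1, i₀.2, by rw [hD1]; exact hi₀⟩, ?_, ?_⟩
      · have h1 := congrArg Prod.snd hg
        rw [Prod.snd_sum] at h1
        simp only [w, Prod.smul_snd, smul_eq_mul, mul_one, Prod.snd_zero] at h1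
        rw [← Finset.sum_subset (frac_sub s l) (fun i _ hi => hD0 i hi), ← Finset.sum_coe_sort]
        rw [← h1]
        exact Finset.sum_congr rfl fun i _ => hD1 i
      · intro j
        have h1 := congrFun (congrArg Prod.fst hg) j
        rw [Prod.fst_sum, Finset.sum_apply] at h1
        simp only [w, Prod.smul_fst, Pi.smul_apply, smul_eq_mul, Prod.fst_zero, Pi.zero_apply] at h1
        rw [← Finset.sum_subset (frac_sub s l) (fun i _ hi => by rw [hD0 i hi, zero_mul]),
          ← Finset.sum_coe_sort]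
        rw [← h1]
        exact Finset.sum_congr rfl fun i _ => by rw [hD1 i]
    obtain ⟨δ, hδ0, hδne, hδs, hδv⟩ := hrel
    -- the largest step
    let r : ι → ℝ := fun i => if 0 < δ i then (1 - l i) / δ i else l i / (-δ i)
    let A := (frac s l).filter (fun i => δ i ≠ 0)
    have hA : A.Nonempty := by
      obtain ⟨i, hi, h⟩ := hδne
      exact ⟨i, Finset.mem_filter.2 ⟨hi, h⟩⟩
    obtain ⟨i₁, hi₁, hmin⟩ := Finset.exists_min_image A r hA
    have hi₁f : i₁ ∈ frac s l := (Finset.mem_filter.1 hi₁).1
    have hi₁δ : δ i₁ ≠ 0 := (Finset.mem_filter.1 hi₁).2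
    have hfr : ∀ i ∈ frac s l, 0 < l i ∧ l i < 1 := fun i hi => (Finset.mem_filter.1 hi).2
    have hr0 : 0 ≤ r i₁ := by
      simp only [r]
      split_ifs with h
      · exact div_nonneg (by linarith [(hfr i₁ hi₁f).2]) h.le
      · exact div_nonneg (hfr i₁ hi₁f).1.le (by push Not at h; linarith)
    let l' : ι → ℝ := fun i => l i + r i₁ * δ i
    have hl'bd : ∀ i ∈ s, 0 ≤ l' i ∧ l' i ≤ 1 := by
      intro i hi
      by_cases hif : i ∈ frac s l
      · by_cases hδi : δ i = 0
        · simp only [l', hδi, mul_zero, add_zero]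
          exact hl.1 i hi
        · have hle := hmin i (Finset.mem_filter.2 ⟨hif, hδi⟩)
          simp only [l']
          obtain ⟨h0, h1⟩ := hfr i hif
          rcases lt_or_gt_of_ne hδi with hneg | hp
          · have e1 : r i = l i / (-δ i) := by simp only [r]; rw [if_neg (by linarith)]
            rw [e1, le_div_iff₀ (by linarith)] at hle
            constructor
            · linarith
            · nlinarith
          · have e1 : r i = (1 - l i) / δ i := by simp only [r]; rw [if_pos hp]
            rw [e1, le_div_iff₀ hp] at hle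
            constructor
            · nlinarith
            · linarith
      · simp only [l', hδ0 i hif, mul_zero, add_zero]
        exact hl.1 i hi
    have hl' : Wt v s ((k : ℝ) - d) l' := by
      refine ⟨hl'bd, ?_, ?_⟩
      · simp only [l']
        rw [Finset.sum_add_distrib, ← Finset.mul_sum, hδs, mul_zero, add_zero]
        exact hl.2.1
      · intro j
        simp only [l', add_mul, mul_assoc]
        rw [Finset.sum_add_distrib, ← Finset.mul_sum, hδv j, mul_zero, add_zero]
        exact hl.2.2 j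
    -- fewer fractional indices
    have hhit : l' i₁ = 0 ∨ l' i₁ = 1 := by
      simp only [l']
      rcases lt_or_gt_of_ne hi₁δ with hneg | hp
      · left
        have e1 : r i₁ = l i₁ / (-δ i₁) := by simp only [r]; rw [if_neg (by linarith)]
        rw [e1]
        field_simp
        ring
      · right
        have e1 : r i₁ = (1 - l i₁) / δ i₁ := by simp only [r]; rw [if_pos hp]
        rw [e1]
        field_simp
        ring
    have hsub : frac s l' ⊆ (frac s l).erase i₁ := by
      intro i hi
      obtain ⟨his, hi0, hi1⟩ := Finset.mem_filter.1 hi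
      rw [Finset.mem_erase]
      constructor
      · rintro rfl
        rcases hhit with h | h <;> linarith
      · by_contra hcon
        have : l' i = l i := by simp only [l', hδ0 i hcon, mul_zero, add_zero]
        rw [this] at hi0 hi1
        exact hcon (Finset.mem_filter.2 ⟨his, hi0, hi1⟩)
    have hlt : (frac s l').card < N := by
      have h1 := Finset.card_le_card hsub
      rw [Finset.card_erase_of_mem hi₁f, hN] at h1
      omega
    exact ih _ hlt l' hl' rfl

theorem adm_step (v : ι → Fin d → ℝ) (s : Finset ι) (hs : d < s.card) (h : Adm v s) :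
    ∃ i ∈ s, Adm v (s.erase i) := by
  obtain ⟨k, hk⟩ : ∃ k, s.card = k + 1 := ⟨s.card - 1, by omega⟩
  have hdk : d ≤ k := by omega
  obtain ⟨l, hl⟩ := h
  rw [hk] at hl
  push_cast at hl
  have hpos : (0 : ℝ) < (k : ℝ) + 1 - d := by
    have : (d : ℝ) ≤ k := by exact_mod_cast hdk
    linarith
  have hkd : (0 : ℝ) ≤ (k : ℝ) - d := by
    have : (d : ℝ) ≤ k := by exact_mod_cast hdk
    linarith
  have hc0 : 0 ≤ ((k : ℝ) - d) / ((k : ℝ) + 1 - d) := div_nonneg hkd hpos.le
  have hc1 : ((k : ℝ) - d) / ((k : ℝ) + 1 - d) ≤ 1 := by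
    rw [div_le_one hpos]; linarith
  have hl2 : Wt v s ((k : ℝ) - d) (fun i => ((k : ℝ) - d) / ((k : ℝ) + 1 - d) * l i) := by
    refine ⟨?_, ?_, ?_⟩
    · intro i hi
      obtain ⟨h0, h1⟩ := hl.1 i hi
      constructor
      · positivity
      · nlinarith
    · rw [← Finset.mul_sum, hl.2.1]
      field_simp
    · intro j
      simp only [mul_assoc]
      rw [← Finset.mul_sum, hl.2.2 j, mul_zero]
  obtain ⟨l', hl', i, hi, hi0⟩ := exists_zero v s k hk hdk _ _ hl2 rfl
  refine ⟨i, hi, l', ?_, ?_, ?_⟩
  · intro i' hi'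
    exact hl'.1 i' (Finset.mem_of_mem_erase hi')
  · rw [Finset.card_erase_of_mem hi, hk]
    have := Finset.sum_erase_eq_sub (f := l') hi
    rw [this, hl'.2.1, hi0]
    push_cast
    simp
  · intro j
    have := Finset.sum_erase_eq_sub (f := fun i => l' i * v i j) hi
    rw [this, hl'.2.2 j, hi0]
    simp

/-- the condition on the sets in the Steinitz chain -/
def Ok (v : ι → Fin d → ℝ) (s : Finset ι) : Prop := s.card ≤ d ∨ Adm v s

theorem ok_step (v : ι → Fin d → ℝ) (s : Finset ι) (hs : s.Nonempty) (h : Ok v s) :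
    ∃ i ∈ s, Ok v (s.erase i) := by
  by_cases hc : s.card ≤ d
  · obtain ⟨i, hi⟩ := hs
    exact ⟨i, hi, Or.inl ((Finset.card_le_card (Finset.erase_subset _ _)).trans hc)⟩
  · obtain ⟨i, hi, h2⟩ := adm_step v s (by omega) (h.resolve_left hc)
    exact ⟨i, hi, Or.inr h2⟩

theorem ok_bound (v : ι → Fin d → ℝ) (B : ℝ) (hB0 : 0 ≤ B) (hB : ∀ i j, |v i j| ≤ B)
    (s : Finset ι) (h : Ok v s) (j : Fin d) : |∑ i ∈ s, v i j| ≤ d * B := by
  rcases h with h | ⟨l, hl⟩
  · calc |∑ i ∈ s, v i j| ≤ ∑ i ∈ s, |v i j| := Finset.abs_sum_le_sum_abs _ _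
      _ ≤ ∑ i ∈ s, B := Finset.sum_le_sum fun i _ => hB i j
      _ = s.card * B := by rw [Finset.sum_const, nsmul_eq_mul]
      _ ≤ d * B := by
        have : (s.card : ℝ) ≤ d := by exact_mod_cast h
        exact mul_le_mul_of_nonneg_right this hB0
  · have e : ∑ i ∈ s, v i j = ∑ i ∈ s, (1 - l i) * v i j := by
      simp only [sub_mul, one_mul, Finset.sum_sub_distrib, hl.2.2 j, sub_zero]
    rw [e]
    calc |∑ i ∈ s, (1 - l i) * v i j| ≤ ∑ i ∈ s, |(1 - l i) * v i j| := Finset.abs_sum_le_sum_abs _ _
      _ ≤ ∑ i ∈ s, (1 - l i) * B := by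
        apply Finset.sum_le_sum
        intro i hi
        rw [abs_mul, abs_of_nonneg (by linarith [(hl.1 i hi).2])]
        exact mul_le_mul_of_nonneg_left (hB i j) (by linarith [(hl.1 i hi).2])
      _ = d * B := by
        rw [← Finset.sum_mul, Finset.sum_sub_distrib, hl.2.1, Finset.sum_const, nsmul_eq_mul]
        ring

/-- the ordering as a list -/
theorem exists_list (v : ι → Fin d → ℝ) (B : ℝ) (hB0 : 0 ≤ B) (hB : ∀ i j, |v i j| ≤ B) (N : ℕ) :
    ∀ s : Finset ι, s.card = N → Ok v s → ∃ l : List ι, l.Nodup ∧ l.toFinset = s ∧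
      ∀ (k : ℕ) (j : Fin d), |((l.take k).map (fun i => v i j)).sum| ≤ d * B := by
  induction N with
  | zero =>
    intro s hs _
    rw [Finset.card_eq_zero] at hs
    subst hs
    refine ⟨[], List.nodup_nil, rfl, fun k j => ?_⟩
    simp only [List.take_nil, List.map_nil, List.sum_nil, abs_zero]
    positivity
  | succ N ih =>
    intro s hs hok
    obtain ⟨i, hi, hok'⟩ := ok_step v s (Finset.card_pos.1 (by omega)) hok
    obtain ⟨l, hnd, hl, hb⟩ := ih (s.erase i) (by rw [Finset.card_erase_of_mem hi]; omega) hok'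
    have hil : i ∉ l := by
      intro h
      have : i ∈ s.erase i := by rw [← hl]; exact List.mem_toFinset.2 h
      exact Finset.notMem_erase i s this
    have hs' : (l ++ [i]).toFinset = s := by
      rw [List.toFinset_append, hl]
      simp only [List.toFinset_cons, List.toFinset_nil]
      ext x
      simp only [Finset.mem_union, Finset.mem_erase, Finset.mem_insert, Finset.notMem_empty, or_false]
      constructor
      · rintro (h | rfl)
        · exact h.2
        · exact hi
      · intro h
        by_cases hx : x = i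
        · exact Or.inr hx
        · exact Or.inl ⟨hx, h⟩
    have hnd' : (l ++ [i]).Nodup := by
      rw [List.nodup_append]
      refine ⟨hnd, List.nodup_singleton i, ?_⟩
      intro a ha b hb hab
      rw [List.mem_singleton] at hb
      subst hb
      subst hab
      exact hil ha
    refine ⟨l ++ [i], hnd', hs', fun k j => ?_⟩
    by_cases hk : k ≤ l.length
    · rw [List.take_append_of_le_length hk]
      exact hb k j
    · rw [List.take_of_length_le (by rw [List.length_append, List.length_singleton]; omega)]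
      have e : ((l ++ [i]).map (fun i => v i j)).sum = ∑ x ∈ s, v x j := by
        rw [← hs', List.sum_toFinset _ hnd']
      rw [e]
      exact ok_bound v B hB0 hB s hok j

/-- the Steinitz lemma -/
theorem steinitz (n : ℕ) (v : Fin n → Fin d → ℝ) (B : ℝ) (hB0 : 0 ≤ B) (hB : ∀ i j, |v i j| ≤ B)
    (hv : ∀ j, ∑ i, v i j = 0) : ∃ l : List (Fin n), l.Nodup ∧ (∀ i, i ∈ l) ∧
      ∀ (k : ℕ) (j : Fin d), |((l.take k).map (fun i => v i j)).sum| ≤ d * B := by
  have hok : Ok v (Finset.univ : Finset (Fin n)) := by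
    by_cases h : n ≤ d
    · left; rw [Finset.card_univ, Fintype.card_fin]; exact h
    · right
      push Not at h
      have hn : (0 : ℝ) < n := by exact_mod_cast (by omega : 0 < n)
      have hdn : (d : ℝ) < n := by exact_mod_cast h
      refine ⟨fun _ => ((n : ℝ) - d) / n, ?_, ?_, ?_⟩
      · intro i _
        constructor
        · exact div_nonneg (by linarith) hn.le
        · rw [div_le_one hn]
          have : (0 : ℝ) ≤ d := Nat.cast_nonneg d
          linarith
      · rw [Finset.sum_const, Finset.card_univ, Fintype.card_fin, nsmul_eq_mul]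
        field_simp
      · intro j
        rw [← Finset.mul_sum, hv j, mul_zero]
  obtain ⟨l, h1, h2, h3⟩ := exists_list v B hB0 hB _ Finset.univ rfl hok
  refine ⟨l, h1, fun i => ?_, h3⟩
  rw [← List.mem_toFinset, h2]
  exact Finset.mem_univ i

end Pool.Agent.H16.Flow
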