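import Mathlib

set_option autoImplicit false

open MeasureTheory

namespace Pool.Agent.H16.Flow

/-- one more task: from the completion times `r` of the previous task on the machines (`r j` on the
`j`-th machine, `r 0 = 0`) and the operation times `t` of the new task (`t j` on machine `j + 1`) to
the completion times of the new task -/
noncomputable def row (r t : ℕ → ℝ) : ℕ → ℝ
  | 0 => 0
  | j + 1 => max (r (j + 1)) (row r t j) + t j

/-- the completion times `C_{i,j}`: `C_{0,j} = C_{i,0} = 0` and
`C_{i+1,j+1} = max (C_{i,j+1}, C_{i+1,j}) + t i j` -/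
noncomputable def completion (t : ℕ → ℕ → ℝ) : ℕ → ℕ → ℝ
  | 0 => fun _ => 0
  | i + 1 => row (completion t i) (t i)

/-- the makespan `L^π = C_{n,m}` of the permutation schedule `π` for the operation times `T i j` of
task `i` on machine `j` -/
noncomputable def makespan {n m : ℕ} (T : Fin n → Fin m → ℝ) (π : Equiv.Perm (Fin n)) : ℝ :=
  completion (fun i j => if h : i < n ∧ j < m then T (π ⟨i, h.1⟩) ⟨j, h.2⟩ else 0) n m

/-- the optimal makespan `L^*` -/
noncomputable def opt {n m : ℕ} (T : Fin n → Fin m → ℝ) : ℝ :=
  ⨅ π : Equiv.Perm (Fin n), makespan T π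

/-- the law of the operation times: `n * m` independent times with law `F` -/
noncomputable def times (F : Measure ℝ) (n m : ℕ) : Measure (Fin n → Fin m → ℝ) :=
  Measure.pi fun _ : Fin n => Measure.pi fun _ : Fin m => F

end Pool.Agent.H16.Flow
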