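import Pool.Agent.H16.Flow1
import Pool.Agent.H16.FlowDefs

set_option autoImplicit false

open Finset

namespace Pool.Agent.H16.Flow

theorem completion_succ (t : ℕ → ℕ → ℝ) (i j : ℕ) : completion t (i + 1) (j + 1) =
    max (completion t i (j + 1)) (completion t (i + 1) j) + t i j := rfl

theorem completion_zero (t : ℕ → ℕ → ℝ) (j : ℕ) : completion t 0 j = 0 := rfl

theorem completion_zero' (t : ℕ → ℕ → ℝ) (i : ℕ) : completion t i 0 = 0 := by
  cases i <;> rfl

theorem completion_bound {n m : ℕ} (t : ℕ → ℕ → ℝ) (P : ℕ → ℕ → ℝ) (L : ℕ → ℝ) (Λ M : ℝ)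
    (hn : 0 < n) (hM : 0 ≤ M) (ht : ∀ i j, i < n → j < m → 0 ≤ t i j ∧ t i j ≤ M)
    (hL : ∀ j, j < m → L j ≤ Λ) (hP0 : ∀ j, j < m → P j 0 = 0)
    (hPs : ∀ i j, i < n → j < m → P j (i + 1) = P j i + t i j)
    (hPb : ∀ i j, i ≤ n → j < m → |P j i - i * (L j / n)| ≤ m * M) :
    ∀ i j, i ≤ n → j < m →
      completion t i (j + 1) ≤ P j i + (Λ - L j) * (i / n) + j * ((2 * m + 1) * M) := by
  have hn' : (0 : ℝ) < n := by exact_mod_cast hn
  intro i
  induction i with
  | zero =>
    intro j _ hj
    rw [completion_zero, hP0 j hj]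
    simp only [Nat.cast_zero, zero_div, mul_zero, add_zero, zero_add]
    positivity
  | succ i ih =>
    intro j
    induction j with
    | zero =>
      intro hi hj
      rw [completion_succ, completion_zero', hPs i 0 (by omega) hj]
      have h1 := ih 0 (by omega) hj
      have h2 := ht i 0 (by omega) hj
      have h3 := hL 0 hj
      have h4 : (Λ - L 0) * ((i : ℝ) / n) ≤ (Λ - L 0) * (((i + 1 : ℕ) : ℝ) / n) := by
        apply mul_le_mul_of_nonneg_left _ (by linarith)
        push_cast
        gcongr
        linarith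
      have h5 : 0 ≤ P 0 i + (Λ - L 0) * ((i : ℝ) / n) + (0 : ℕ) * ((2 * m + 1) * M) := by
        -- the completion times are nonnegative
        have hnn : ∀ i', i' ≤ n → 0 ≤ P 0 i' := by
          intro i'
          induction i' with
          | zero => intro _; rw [hP0 0 hj]
          | succ i' ih' =>
            intro h
            rw [hPs i' 0 (by omega) hj]
            have := ih' (by omega)
            have := (ht i' 0 (by omega) hj).1
            linarith
        have h6 := hnn i (by omega)
        have h7 : 0 ≤ (Λ - L 0) * ((i : ℝ) / n) := mul_nonneg (by linarith) (by positivity)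
        simp only [Nat.cast_zero, zero_mul, add_zero]
        linarith
      have h6 : max (completion t i (0 + 1)) 0 ≤
          P 0 i + (Λ - L 0) * ((i : ℝ) / n) + (0 : ℕ) * ((2 * m + 1) * M) := max_le h1 h5
      linarith
    | succ j ihj =>
      intro hi hj
      rw [completion_succ, hPs i (j + 1) (by omega) hj]
      have h1 := ih (j + 1) (by omega) hj
      have h2 := ht i (j + 1) (by omega) hj
      have h3 := hL (j + 1) hj
      have h4 : (Λ - L (j + 1)) * ((i : ℝ) / n) ≤ (Λ - L (j + 1)) * (((i + 1 : ℕ) : ℝ) / n) := by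
        apply mul_le_mul_of_nonneg_left _ (by linarith)
        push_cast
        gcongr
        linarith
      have h5 := ihj hi (by omega)
      have b1 := abs_le.1 (hPb (i + 1) j hi (by omega))
      have b2 := abs_le.1 (hPb (i + 1) (j + 1) hi hj)
      rw [hPs i (j + 1) (by omega) hj] at b2
      have e1 : (Λ - L j) * (((i + 1 : ℕ) : ℝ) / n) - (Λ - L (j + 1)) * (((i + 1 : ℕ) : ℝ) / n) =
          ((i + 1 : ℕ) : ℝ) * (L (j + 1) / n) - ((i + 1 : ℕ) : ℝ) * (L j / n) := by ring
      have e2 : (((j + 1 : ℕ) : ℝ)) * ((2 * m + 1) * M) = (j : ℝ) * ((2 * m + 1) * M) + (2 * m + 1) * M := by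
        push_cast; ring
      have h7 : (2 * (m : ℝ) + 1) * M = m * M + m * M + M := by ring
      have key : max (completion t i (j + 1 + 1)) (completion t (i + 1) (j + 1)) ≤
          P (j + 1) i + (Λ - L (j + 1)) * (((i + 1 : ℕ) : ℝ) / n) +
            ((j + 1 : ℕ) : ℝ) * ((2 * m + 1) * M) := by
        apply max_le
        · linarith
        · rw [e2, h7]
          rw [h7] at h5
          have h2' := h2.2
          nlinarith [b1.2, b2.1, e1]
      linarith

theorem list_sum_sub {ι : Type} (l : List ι) (f : ι → ℝ) (c : ℝ) :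
    (l.map (fun x => f x - c)).sum = (l.map f).sum - l.length * c := by
  induction l with
  | nil => simp
  | cons a l ih =>
    simp only [List.map_cons, List.sum_cons, List.length_cons, ih]
    push_cast
    ring

theorem exists_schedule {n m : ℕ} (hn : 0 < n) (hm : 0 < m) (T : Fin n → Fin m → ℝ) (Λ M : ℝ)
    (hT : ∀ i j, 0 ≤ T i j ∧ T i j ≤ M) (hΛ : ∀ j, ∑ i, T i j ≤ Λ) :
    ∃ π : Equiv.Perm (Fin n), makespan T π ≤ Λ + 3 * m ^ 2 * M := by
  have hM : 0 ≤ M := (hT ⟨0, hn⟩ ⟨0, hm⟩).1.trans (hT ⟨0, hn⟩ ⟨0, hm⟩).2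
  have hn' : (0 : ℝ) < n := by exact_mod_cast hn
  let L : Fin m → ℝ := fun j => ∑ i, T i j
  have hL0 : ∀ j, 0 ≤ L j := fun j => Finset.sum_nonneg fun i _ => (hT i j).1
  have hLM : ∀ j, L j ≤ n * M := by
    intro j
    calc L j ≤ ∑ i : Fin n, M := Finset.sum_le_sum fun i _ => (hT i j).2
      _ = n * M := by rw [Finset.sum_const, Finset.card_univ, Fintype.card_fin, nsmul_eq_mul]
  obtain ⟨l, hnd, hall, hb⟩ := steinitz n (fun i j => T i j - L j / n) M hM
    (by
      intro i j
      have h1 := hT i j
      have h2 : 0 ≤ L j / n := div_nonneg (hL0 j) hn'.le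
      have h3 : L j / n ≤ M := by rw [div_le_iff₀ hn']; linarith [hLM j]
      rw [abs_le]
      constructor <;> linarith)
    (by
      intro j
      rw [Finset.sum_sub_distrib, Finset.sum_const, Finset.card_univ, Fintype.card_fin,
        nsmul_eq_mul]
      show L j - n * (L j / n) = 0
      field_simp
      ring)
  have hlen : l.length = n := by
    have h1 : l.toFinset = Finset.univ := by
      ext x
      simp [hall x]
    have h2 := List.toFinset_card_of_nodup hnd
    rw [h1, Finset.card_univ, Fintype.card_fin] at h2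
    exact h2.symm
  let π : Equiv.Perm (Fin n) := (finCongr hlen.symm).trans (hnd.getEquivOfForallMemList l hall)
  have hπ : ∀ i (h : i < n), π ⟨i, h⟩ = l[i]'(by rw [hlen]; exact h) := by
    intro i h
    rfl
  let t : ℕ → ℕ → ℝ := fun i j => if h : i < n ∧ j < m then T (π ⟨i, h.1⟩) ⟨j, h.2⟩ else 0
  let P : ℕ → ℕ → ℝ := fun j i => if h : j < m then ((l.take i).map (fun x => T x ⟨j, h⟩)).sum else 0
  let L' : ℕ → ℝ := fun j => if h : j < m then L ⟨j, h⟩ else 0
  have hP : ∀ j i (h : j < m), P j i = ((l.take i).map (fun x => T x ⟨j, h⟩)).sum := by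
    intro j i h
    simp only [P, dif_pos h]
  have hL' : ∀ j (h : j < m), L' j = L ⟨j, h⟩ := by
    intro j h
    simp only [L', dif_pos h]
  have ht : ∀ i j (h1 : i < n) (h2 : j < m), t i j = T (π ⟨i, h1⟩) ⟨j, h2⟩ := by
    intro i j h1 h2
    simp only [t, dif_pos (And.intro h1 h2)]
  have hbound := completion_bound (n := n) (m := m) t P L' Λ M hn hM
    (by
      intro i j hi hj
      rw [ht i j hi hj]
      exact hT _ _)
    (by
      intro j hj
      rw [hL' j hj]
      exact hΛ _)
    (by
      intro j hj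
      rw [hP j 0 hj]
      simp)
    (by
      intro i j hi hj
      rw [hP j _ hj, hP j _ hj, ht i j hi hj, hπ i hi]
      have hil : i < l.length := by rw [hlen]; exact hi
      rw [← List.take_append_getElem hil, List.map_append, List.sum_append]
      simp)
    (by
      intro i j hi hj
      rw [hP j _ hj, hL' j hj]
      have h1 := hb i ⟨j, hj⟩
      rw [list_sum_sub (l.take i) (fun x => T x ⟨j, hj⟩)] at h1
      have h2 : (l.take i).length = i := by
        rw [List.length_take, hlen]
        exact min_eq_left hi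
      rw [h2] at h1
      exact h1)
  obtain ⟨m', rfl⟩ : ∃ m', m = m' + 1 := ⟨m - 1, by omega⟩
  have hfin := hbound n m' le_rfl (by omega)
  refine ⟨π, ?_⟩
  show completion t n (m' + 1) ≤ _
  have hPn : P m' n = L' m' := by
    rw [hP m' n (by omega), hL' m' (by omega)]
    have h1 : l.take n = l := List.take_of_length_le hlen.le
    rw [h1]
    show _ = ∑ i, T i _
    have h2 : l.toFinset = Finset.univ := by
      ext x
      simp [hall x]
    rw [← h2, List.sum_toFinset _ hnd]
  rw [hPn, div_self hn'.ne'] at hfin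
  have hm0 : (0 : ℝ) ≤ m' := Nat.cast_nonneg _
  push_cast at hfin ⊢
  nlinarith [mul_nonneg hm0 hM, mul_nonneg (mul_nonneg hm0 hm0) hM]

end Pool.Agent.H16.Flow
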