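import Pool.Agent.H16.Flow2

set_option autoImplicit false

open MeasureTheory Finset ProbabilityTheory

namespace Pool.Agent.H16.Flow

variable {n m : ℕ}

theorem mp (F : Measure ℝ) [IsProbabilityMeasure F] (i : Fin n) (j : Fin m) :
    MeasurePreserving (fun T : Fin n → Fin m → ℝ => T i j) (times F n m) F := by
  have h1 : MeasurePreserving (Function.eval i) (Measure.pi fun _ : Fin n => Measure.pi fun _ : Fin m => F)
      (Measure.pi fun _ : Fin m => F) := measurePreserving_eval _ i
  have h2 : MeasurePreserving (Function.eval j) (Measure.pi fun _ : Fin m => F) F :=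
    measurePreserving_eval _ j
  exact h2.comp h1

instance (F : Measure ℝ) [IsProbabilityMeasure F] : IsProbabilityMeasure (times F n m) := by
  unfold times; infer_instance

theorem completion_measurable {Ω : Type} [MeasurableSpace Ω] (t : Ω → ℕ → ℕ → ℝ)
    (ht : ∀ i j, Measurable (fun ω => t ω i j)) (i j : ℕ) :
    Measurable (fun ω => completion (t ω) i j) := by
  induction i generalizing j with
  | zero => exact measurable_const
  | succ i ih =>
    induction j with
    | zero => exact measurable_const
    | succ j ihj => exact ((ih (j + 1)).max ihj).add (ht i j)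

theorem completion_nonneg (t : ℕ → ℕ → ℝ) (ht : ∀ i j, 0 ≤ t i j) (i j : ℕ) :
    0 ≤ completion t i j := by
  induction i generalizing j with
  | zero => exact le_rfl
  | succ i ih =>
    induction j with
    | zero => exact le_rfl
    | succ j ihj =>
      rw [completion_succ]
      have := le_max_left (completion t i (j + 1)) (completion t (i + 1) j)
      linarith [ih (j + 1), ht i j]

theorem opt_measurable : Measurable (fun T : Fin n → Fin m → ℝ => opt T) := by
  unfold opt
  apply Measurable.iInf
  intro π
  unfold makespan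
  apply completion_measurable
  intro i j
  by_cases h : i < n ∧ j < m
  · simp only [dif_pos h]
    exact (measurable_pi_apply _).comp (measurable_pi_apply _)
  · simp only [dif_neg h]
    exact measurable_const

theorem opt_nonneg (T : Fin n → Fin m → ℝ) (hT : ∀ i j, 0 ≤ T i j) : 0 ≤ opt T := by
  apply le_ciInf
  intro π
  apply completion_nonneg
  intro i j
  split_ifs with h
  · exact hT _ _
  · exact le_rfl

theorem opt_le (T : Fin n → Fin m → ℝ) (π : Equiv.Perm (Fin n)) : opt T ≤ makespan T π :=
  ciInf_le (Set.finite_range _).bddBelow π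

/-- tail second moment -/
noncomputable def tail (F : Measure ℝ) (b : ℝ) : ℝ := ∫ x, (if b < x then x ^ 2 else 0) ∂F

theorem tail_integrable {F : Measure ℝ} [IsProbabilityMeasure F] (h2 : Integrable (fun x => x ^ 2) F)
    (b : ℝ) : Integrable (fun x : ℝ => if b < x then x ^ 2 else 0) F := by
  have : (fun x : ℝ => if b < x then x ^ 2 else 0) = (Set.Ioi b).indicator (fun x => x ^ 2) := by
    funext x
    simp only [Set.indicator, Set.mem_Ioi]
  rw [this]
  exact h2.indicator measurableSet_Ioi

theorem tail_tendsto {F : Measure ℝ} [IsProbabilityMeasure F] (h2 : Integrable (fun x => x ^ 2) F)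
    (ε : ℝ) (hε : 0 < ε) : ∃ b₀ : ℝ, ∀ b, b₀ ≤ b → tail F b ≤ ε := by
  have h : Filter.Tendsto (fun k : ℕ => tail F k) Filter.atTop (nhds (∫ x, (0 : ℝ) ∂F)) := by
    apply tendsto_integral_of_dominated_convergence (fun x => x ^ 2)
    · intro k; exact (tail_integrable h2 k).aestronglyMeasurable
    · exact h2
    · intro k
      apply Filter.Eventually.of_forall
      intro x
      split_ifs
      · rw [Real.norm_eq_abs, abs_of_nonneg (sq_nonneg x)]
      · rw [norm_zero]; exact sq_nonneg x
    · apply Filter.Eventually.of_forall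
      intro x
      apply tendsto_const_nhds.congr'
      obtain ⟨k, hk⟩ := exists_nat_ge x
      filter_upwards [Filter.eventually_ge_atTop k] with k' hk'
      have : (k : ℝ) ≤ k' := by exact_mod_cast hk'
      rw [if_neg (by linarith)]
  rw [integral_zero] at h
  obtain ⟨k, hk⟩ := (h.eventually (gt_mem_nhds hε)).exists
  refine ⟨k, fun b hb => le_trans ?_ hk.le⟩
  apply integral_mono (tail_integrable h2 b) (tail_integrable h2 k)
  intro x
  simp only
  split_ifs with h1 h3 h3
  · exact le_rfl
  · exact absurd (lt_of_le_of_lt hb h1) h3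
  · exact sq_nonneg x
  · exact le_rfl

theorem lin_int {F : Measure ℝ} [IsProbabilityMeasure F] (h2 : Integrable (fun x => x ^ 2) F) :
    Integrable (fun x : ℝ => x) F := by
  apply (h2.add (integrable_const (1 : ℝ))).mono' measurable_id.aestronglyMeasurable
  apply Filter.Eventually.of_forall
  intro x
  simp only [Pi.add_apply, id_eq, Real.norm_eq_abs]
  rw [abs_le]
  constructor <;> nlinarith [sq_nonneg (x - 1), sq_nonneg (x + 1)]

/-- the exponential moment of the truncated times -/
theorem exp_moment {F : Measure ℝ} [IsProbabilityMeasure F] (hF : F (Set.Iio 0) = 0) (K l : ℝ)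
    (hK : 0 < K) (hl : 0 < l) (hlK : l * K ≤ 1) :
    Integrable (fun x => Real.exp (l * (min x K - ∫ y, min y K ∂F))) F ∧
    ∫ x, Real.exp (l * (min x K - ∫ y, min y K ∂F)) ∂F ≤ 1 + l ^ 2 * K ^ 2 := by
  have hae : ∀ᵐ x ∂F, 0 ≤ x := by
    rw [ae_iff]
    have : {a : ℝ | ¬ 0 ≤ a} = Set.Iio 0 := by
      ext x; simp
    rw [this]; exact hF
  have hmeas : Measurable (fun x : ℝ => min x K) := measurable_id.min measurable_const
  have hbd : ∀ᵐ x ∂F, ‖min x K‖ ≤ K := by
    filter_upwards [hae] with x hx
    rw [Real.norm_eq_abs, abs_of_nonneg (le_min hx hK.le)]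
    exact min_le_right _ _
  have hint : Integrable (fun x : ℝ => min x K) F :=
    (integrable_const K).mono' hmeas.aestronglyMeasurable hbd
  have hτ0 : 0 ≤ ∫ y, min y K ∂F := by
    apply integral_nonneg_of_ae
    filter_upwards [hae] with x hx
    exact le_min hx hK.le
  have hτK : ∫ y, min y K ∂F ≤ K := by
    have : ∫ y, min y K ∂F ≤ ∫ y, K ∂F := integral_mono hint (integrable_const K) (fun x => min_le_right _ _)
    rwa [integral_const, probReal_univ, one_smul] at this
  obtain ⟨τ, hτ⟩ : ∃ τ, τ = ∫ y, min y K ∂F := ⟨_, rfl⟩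
  rw [← hτ] at hτ0 hτK ⊢
  have hy : ∀ᵐ x ∂F, |l * (min x K - τ)| ≤ 1 ∧ (l * (min x K - τ)) ^ 2 ≤ l ^ 2 * K ^ 2 := by
    filter_upwards [hae] with x hx
    have h1 : 0 ≤ min x K := le_min hx hK.le
    have h2 : min x K ≤ K := min_le_right _ _
    have h3 : |min x K - τ| ≤ K := by rw [abs_le]; constructor <;> linarith
    have h4 : |l * (min x K - τ)| ≤ l * K := by
      rw [abs_mul, abs_of_pos hl]
      exact mul_le_mul_of_nonneg_left h3 hl.le
    refine ⟨h4.trans hlK, ?_⟩
    rw [← sq_abs, ← mul_pow]
    exact pow_le_pow_left₀ (abs_nonneg _) h4 2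
  have hm2 : Measurable (fun x : ℝ => Real.exp (l * (min x K - τ))) :=
    ((hmeas.sub_const τ).const_mul l).exp
  have hi : Integrable (fun x : ℝ => Real.exp (l * (min x K - τ))) F := by
    apply (integrable_const (Real.exp 1)).mono' hm2.aestronglyMeasurable
    filter_upwards [hy] with x hx
    rw [Real.norm_eq_abs, abs_of_pos (Real.exp_pos _)]
    exact Real.exp_le_exp.2 ((le_abs_self _).trans hx.1)
  refine ⟨hi, ?_⟩
  have hi2 : Integrable (fun x : ℝ => l * (min x K - τ)) F := (hint.sub (integrable_const τ)).const_mul l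
  have hle : ∫ x, Real.exp (l * (min x K - τ)) ∂F ≤
      ∫ x, ((1 + l ^ 2 * K ^ 2) + l * (min x K - τ)) ∂F := by
    apply integral_mono_ae hi ((integrable_const _).add hi2)
    filter_upwards [hy] with x hx
    have h1 := Real.abs_exp_sub_one_sub_id_le hx.1
    have h2 := (abs_le.1 h1).2
    show Real.exp (l * (min x K - τ)) ≤ (1 + l ^ 2 * K ^ 2) + l * (min x K - τ)
    linarith [hx.2]
  refine hle.trans (le_of_eq ?_)
  rw [integral_add (integrable_const _) hi2, integral_const, probReal_univ, one_smul,
    integral_const_mul, integral_sub hint (integrable_const τ), integral_const, probReal_univ,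
    one_smul, ← hτ]
  ring

end Pool.Agent.H16.Flow
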