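import Pool.Agent.H16.Flow3

set_option autoImplicit false

open MeasureTheory Finset ProbabilityTheory

namespace Pool.Agent.H16.Flow

variable {n m : ℕ}

theorem mp_integral {Ω : Type} [MeasurableSpace Ω] {μ : Measure Ω} {ν : Measure ℝ} {g : Ω → ℝ}
    (h : MeasurePreserving g μ ν) (f : ℝ → ℝ) (hf : Measurable f) :
    ∫ ω, f (g ω) ∂μ = ∫ x, f x ∂ν := by
  have := integral_map (μ := μ) (f := f) h.measurable.aemeasurable hf.aestronglyMeasurable
  rw [h.map_eq] at this
  exact this.symm

/-- the centered truncated sum on machine `j` -/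
noncomputable def X1 (K τ₁ : ℝ) (j : Fin m) (T : Fin n → Fin m → ℝ) : ℝ := ∑ i, (min (T i j) K - τ₁)

noncomputable def X2 (K τ₂ : ℝ) (j : Fin m) (T : Fin n → Fin m → ℝ) : ℝ :=
  ∑ i, ((T i j - min (T i j) K) - τ₂)

theorem X1_exp {F : Measure ℝ} [IsProbabilityMeasure F] (hF : F (Set.Iio 0) = 0) (K l a : ℝ)
    (hK : 0 < K) (hl : 0 < l) (hlK : l * K ≤ 1) (j : Fin m) :
    Integrable (fun T => Real.exp (l * (X1 K (∫ y, min y K ∂F) j T - a))) (times F n m) ∧
    ∫ T, Real.exp (l * (X1 K (∫ y, min y K ∂F) j T - a)) ∂(times F n m) ≤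
      Real.exp (-(l * a)) * (1 + l ^ 2 * K ^ 2) ^ n := by
  obtain ⟨hi, hle⟩ := exp_moment hF K l hK hl hlK
  obtain ⟨τ, hτ⟩ : ∃ τ, τ = ∫ y, min y K ∂F := ⟨_, rfl⟩
  rw [← hτ] at hi hle ⊢
  have hmpj : MeasurePreserving (fun v : Fin m → ℝ => v j) (Measure.pi fun _ : Fin m => F) F :=
    measurePreserving_eval _ j
  have hfac : (fun T : Fin n → Fin m → ℝ => Real.exp (l * (X1 K τ j T - a))) =
      fun T => Real.exp (-(l * a)) * ∏ i, Real.exp (l * (min (T i j) K - τ)) := by
    funext T
    rw [← Real.exp_sum, ← Real.exp_add]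
    congr 1
    unfold X1
    rw [← Finset.mul_sum]
    ring
  have hmeas : Measurable (fun x : ℝ => Real.exp (l * (min x K - τ))) :=
    (((measurable_id.min measurable_const).sub_const τ).const_mul l).exp
  have hprodint : Integrable (fun T : Fin n → Fin m → ℝ => ∏ i, Real.exp (l * (min (T i j) K - τ)))
      (times F n m) := by
    unfold times
    exact Integrable.fintype_prod (fun i => hmpj.integrable_comp_of_integrable hi)
  rw [hfac]
  refine ⟨hprodint.const_mul _, ?_⟩
  rw [integral_const_mul]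
  apply mul_le_mul_of_nonneg_left _ (Real.exp_pos _).le
  unfold times
  rw [integral_fintype_prod_eq_prod (μ := fun _ : Fin n => Measure.pi fun _ : Fin m => F)
    (fun _ (v : Fin m → ℝ) => Real.exp (l * (min (v j) K - τ)))]
  have h1 : ∫ v : Fin m → ℝ, Real.exp (l * (min (v j) K - τ)) ∂(Measure.pi fun _ : Fin m => F) =
      ∫ x, Real.exp (l * (min x K - τ)) ∂F := mp_integral hmpj _ hmeas
  simp only [h1]
  rw [Finset.prod_const, Finset.card_univ, Fintype.card_fin]
  apply pow_le_pow_left₀ _ hle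
  apply integral_nonneg
  intro x
  exact (Real.exp_pos _).le

theorem X2_sq {F : Measure ℝ} [IsProbabilityMeasure F] (hF : F (Set.Iio 0) = 0)
    (h2 : Integrable (fun x => x ^ 2) F) (K : ℝ) (hK : 0 < K) (j : Fin m) :
    Integrable (fun T => X2 K (∫ y, (y - min y K) ∂F) j T ^ 2) (times F n m) ∧
    ∫ T, X2 K (∫ y, (y - min y K) ∂F) j T ^ 2 ∂(times F n m) ≤ n * tail F K := by
  have hae : ∀ᵐ x ∂F, 0 ≤ x := by
    rw [ae_iff]
    have : {a : ℝ | ¬ 0 ≤ a} = Set.Iio 0 := by
      ext x; simp
    rw [this]; exact hF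
  have hmeas : Measurable (fun x : ℝ => x - min x K) := measurable_id.sub (measurable_id.min measurable_const)
  have hsq : Integrable (fun x : ℝ => (x - min x K) ^ 2) F := by
    apply h2.mono' (hmeas.pow_const 2).aestronglyMeasurable
    filter_upwards [hae] with x hx
    rw [Real.norm_eq_abs, abs_of_nonneg (sq_nonneg _)]
    have h3 : 0 ≤ x - min x K := sub_nonneg.2 (min_le_left _ _)
    have h4 : 0 ≤ min x K := le_min hx hK.le
    nlinarith
  have hL : MemLp (fun x : ℝ => x - min x K) 2 F := (memLp_two_iff_integrable_sq hmeas.aestronglyMeasurable).2 hsq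
  obtain ⟨τ, hτ⟩ : ∃ τ, τ = ∫ y, (y - min y K) ∂F := ⟨_, rfl⟩
  rw [← hτ]
  have hL2 : MemLp (fun x : ℝ => (x - min x K) - τ) 2 F := hL.sub (memLp_const τ)
  have hmpj : MeasurePreserving (fun v : Fin m → ℝ => v j) (Measure.pi fun _ : Fin m => F) F :=
    measurePreserving_eval _ j
  have hLj : MemLp (fun v : Fin m → ℝ => (v j - min (v j) K) - τ) 2 (Measure.pi fun _ : Fin m => F) :=
    hL2.comp_measurePreserving hmpj
  have hvar := variance_sum_pi (μ := fun _ : Fin n => Measure.pi fun _ : Fin m => F)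
    (X := fun _ (v : Fin m → ℝ) => (v j - min (v j) K) - τ) (fun _ => hLj)
  have hXL : MemLp (fun T : Fin n → Fin m → ℝ => X2 K τ j T) 2 (times F n m) := by
    unfold X2
    apply memLp_finsetSum
    intro i _
    exact hL2.comp_measurePreserving (mp F i j)
  have hXint : ∫ T, X2 K τ j T ∂(times F n m) = 0 := by
    unfold X2
    rw [integral_finsetSum]
    · apply Finset.sum_eq_zero
      intro i _
      have h3 : ∫ T : Fin n → Fin m → ℝ, ((T i j - min (T i j) K) - τ) ∂(times F n m) =
          ∫ x, ((x - min x K) - τ) ∂F :=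
        mp_integral (mp F i j) (fun x => (x - min x K) - τ) (hmeas.sub_const τ)
      rw [h3, integral_sub (hL.integrable (by norm_num)) (integrable_const τ), integral_const,
        probReal_univ, one_smul, ← hτ, sub_self]
    · intro i _
      exact (hL2.comp_measurePreserving (mp F i j)).integrable (by norm_num)
  refine ⟨hXL.integrable_sq, ?_⟩
  have e1 : (∑ i : Fin n, fun T : Fin n → Fin m → ℝ => (T i j - min (T i j) K) - τ) =
      fun T => X2 K τ j T := by
    funext T
    rw [Finset.sum_apply]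
    rfl
  rw [e1] at hvar
  have e2 : Var[fun T => X2 K τ j T; times F n m] = ∫ T, X2 K τ j T ^ 2 ∂(times F n m) :=
    variance_of_integral_eq_zero hXL.aemeasurable hXint
  rw [← e2]
  have hvar' : Var[fun T => X2 K τ j T; times F n m] = ∑ i : Fin n,
      Var[fun v : Fin m → ℝ => (v j - min (v j) K) - τ; Measure.pi fun _ : Fin m => F] := hvar
  rw [hvar', Finset.sum_const, Finset.card_univ, Fintype.card_fin, nsmul_eq_mul]
  apply mul_le_mul_of_nonneg_left _ (Nat.cast_nonneg n)
  -- the variance of one term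
  have e3 : Var[fun v : Fin m → ℝ => (v j - min (v j) K) - τ; Measure.pi fun _ : Fin m => F] =
      Var[fun x : ℝ => (x - min x K) - τ; F] := by
    have h5 := variance_map (μ := Measure.pi fun _ : Fin m => F) (Y := fun v : Fin m → ℝ => v j)
      (X := fun x : ℝ => (x - min x K) - τ) (hmeas.sub_const τ).aemeasurable
      hmpj.measurable.aemeasurable
    rw [hmpj.map_eq] at h5
    exact h5.symm
  rw [e3, variance_sub_const hmeas.aestronglyMeasurable]
  refine (variance_le_expectation_sq hmeas.aestronglyMeasurable).trans ?_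
  apply integral_mono_ae hsq (tail_integrable h2 K)
  filter_upwards [hae] with x hx
  show (x - min x K) ^ 2 ≤ if K < x then x ^ 2 else 0
  split_ifs with h
  · have h3 : 0 ≤ x - min x K := sub_nonneg.2 (min_le_left _ _)
    have h4 : 0 ≤ min x K := le_min hx hK.le
    nlinarith
  · rw [min_eq_left (by linarith)]
    simp

theorem main_bound {F : Measure ℝ} [IsProbabilityMeasure F] (hF : F (Set.Iio 0) = 0)
    (h2 : Integrable (fun x => x ^ 2) F) (hn : 0 < n) (hm : 0 < m) (K l a a₂ b : ℝ)
    (hK : 0 < K) (hl : 0 < l) (hlK : l * K ≤ 1) (ha₂ : 0 < a₂) (hb : 0 < b) :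
    Integrable (fun T => opt T) (times F n m) ∧
    ∫ T, opt T ∂(times F n m) ≤ n * (∫ x, x ∂F) +
      (a + m * ((1 / l) * (Real.exp (-(l * a)) * (1 + l ^ 2 * K ^ 2) ^ n))) +
      (a₂ + m * ((1 / a₂) * (n * tail F K))) +
      3 * m ^ 2 * (b + n * (m * ((1 / b) * tail F b))) := by
  have hae : ∀ᵐ x ∂F, 0 ≤ x := by
    rw [ae_iff]
    have : {a : ℝ | ¬ 0 ≤ a} = Set.Iio 0 := by
      ext x; simp
    rw [this]; exact hF
  have hlin := lin_int h2
  have hmin : Integrable (fun x : ℝ => min x K) F := by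
    have hmm : Measurable (fun x : ℝ => min x K) := measurable_id.min measurable_const
    apply (integrable_const K).mono' hmm.aestronglyMeasurable
    filter_upwards [hae] with x hx
    rw [Real.norm_eq_abs, abs_of_nonneg (le_min hx hK.le)]
    exact min_le_right _ _
  obtain ⟨τ₁, hτ₁⟩ : ∃ τ, τ = ∫ y, min y K ∂F := ⟨_, rfl⟩
  obtain ⟨τ₂, hτ₂⟩ : ∃ τ, τ = ∫ y, (y - min y K) ∂F := ⟨_, rfl⟩
  have hτ : ∫ x, x ∂F = τ₁ + τ₂ := by
    rw [hτ₁, hτ₂, integral_sub hlin hmin]; ring
  let R1 : (Fin n → Fin m → ℝ) → ℝ := fun T => a + ∑ j, (1 / l) * Real.exp (l * (X1 K τ₁ j T - a))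
  let R2 : (Fin n → Fin m → ℝ) → ℝ := fun T => a₂ + ∑ j, (1 / a₂) * (X2 K τ₂ j T ^ 2)
  let R3 : (Fin n → Fin m → ℝ) → ℝ := fun T =>
    b + ∑ i, ∑ j, (1 / b) * (if b < T i j then T i j ^ 2 else 0)
  have hX1 : ∀ j : Fin m, Integrable (fun T => Real.exp (l * (X1 K τ₁ j T - a))) (times F n m) ∧
    ∫ T, Real.exp (l * (X1 K τ₁ j T - a)) ∂(times F n m) ≤
      Real.exp (-(l * a)) * (1 + l ^ 2 * K ^ 2) ^ n := by
    intro j; rw [hτ₁]; exact X1_exp hF K l a hK hl hlK j
  have hX2 : ∀ j : Fin m, Integrable (fun T => X2 K τ₂ j T ^ 2) (times F n m) ∧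
    ∫ T, X2 K τ₂ j T ^ 2 ∂(times F n m) ≤ n * tail F K := by
    intro j; rw [hτ₂]; exact X2_sq hF h2 K hK j
  have hX3 : ∀ (i : Fin n) (j : Fin m),
      Integrable (fun T : Fin n → Fin m → ℝ => if b < T i j then T i j ^ 2 else 0) (times F n m) ∧
      ∫ T : Fin n → Fin m → ℝ, (if b < T i j then T i j ^ 2 else 0) ∂(times F n m) = tail F b := by
    intro i j
    have hi := tail_integrable h2 b
    refine ⟨(mp F i j).integrable_comp_of_integrable hi, ?_⟩
    unfold tail
    have hsm : Measurable (fun x : ℝ => if b < x then x ^ 2 else 0) :=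
      Measurable.ite measurableSet_Ioi (measurable_id.pow_const 2) measurable_const
    exact mp_integral (mp F i j) _ hsm
  have hR1i : Integrable R1 (times F n m) :=
    (integrable_const a).add (integrable_finsetSum _ fun j _ => (hX1 j).1.const_mul _)
  have hR2i : Integrable R2 (times F n m) :=
    (integrable_const a₂).add (integrable_finsetSum _ fun j _ => (hX2 j).1.const_mul _)
  have hR3i : Integrable R3 (times F n m) :=
    (integrable_const b).add (integrable_finsetSum _ fun i _ =>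
      integrable_finsetSum _ fun j _ => (hX3 i j).1.const_mul _)
  have hR1 : ∫ T, R1 T ∂(times F n m) ≤
      a + m * ((1 / l) * (Real.exp (-(l * a)) * (1 + l ^ 2 * K ^ 2) ^ n)) := by
    have e : ∫ T, R1 T ∂(times F n m) = a + ∑ j : Fin m, (1 / l) *
        ∫ T, Real.exp (l * (X1 K τ₁ j T - a)) ∂(times F n m) := by
      have h3 : ∫ T, R1 T ∂(times F n m) = ∫ T, a ∂(times F n m) +
          ∫ T, ∑ j : Fin m, (1 / l) * Real.exp (l * (X1 K τ₁ j T - a)) ∂(times F n m) :=
        integral_add (integrable_const a) (integrable_finsetSum _ fun j _ => (hX1 j).1.const_mul _)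
      rw [h3, integral_const, probReal_univ, one_smul,
        integral_finsetSum _ (fun j _ => (hX1 j).1.const_mul _)]
      simp only [integral_const_mul]
    rw [e]
    have h4 : ∑ j : Fin m, (1 / l) * ∫ T, Real.exp (l * (X1 K τ₁ j T - a)) ∂(times F n m) ≤
        ∑ j : Fin m, (1 / l) * (Real.exp (-(l * a)) * (1 + l ^ 2 * K ^ 2) ^ n) :=
      Finset.sum_le_sum fun j _ => mul_le_mul_of_nonneg_left (hX1 j).2 (by positivity)
    rw [Finset.sum_const, Finset.card_univ, Fintype.card_fin, nsmul_eq_mul] at h4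
    linarith
  have hR2 : ∫ T, R2 T ∂(times F n m) ≤ a₂ + m * ((1 / a₂) * (n * tail F K)) := by
    have e : ∫ T, R2 T ∂(times F n m) = a₂ + ∑ j : Fin m, (1 / a₂) *
        ∫ T, X2 K τ₂ j T ^ 2 ∂(times F n m) := by
      have h3 : ∫ T, R2 T ∂(times F n m) = ∫ T, a₂ ∂(times F n m) +
          ∫ T, ∑ j : Fin m, (1 / a₂) * (X2 K τ₂ j T ^ 2) ∂(times F n m) :=
        integral_add (integrable_const a₂) (integrable_finsetSum _ fun j _ => (hX2 j).1.const_mul _)
      rw [h3, integral_const, probReal_univ, one_smul,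
        integral_finsetSum _ (fun j _ => (hX2 j).1.const_mul _)]
      simp only [integral_const_mul]
    rw [e]
    have h4 : ∑ j : Fin m, (1 / a₂) * ∫ T, X2 K τ₂ j T ^ 2 ∂(times F n m) ≤
        ∑ j : Fin m, (1 / a₂) * (n * tail F K) :=
      Finset.sum_le_sum fun j _ => mul_le_mul_of_nonneg_left (hX2 j).2 (by positivity)
    rw [Finset.sum_const, Finset.card_univ, Fintype.card_fin, nsmul_eq_mul] at h4
    linarith
  have hR3 : ∫ T, R3 T ∂(times F n m) = b + n * (m * ((1 / b) * tail F b)) := by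
    have h3 : ∫ T, R3 T ∂(times F n m) = ∫ T, b ∂(times F n m) +
        ∫ T : Fin n → Fin m → ℝ, ∑ i, ∑ j, (1 / b) * (if b < T i j then T i j ^ 2 else 0) ∂(times F n m) :=
      integral_add (integrable_const b) (integrable_finsetSum _ fun i _ =>
        integrable_finsetSum _ fun j _ => (hX3 i j).1.const_mul _)
    rw [h3, integral_const, probReal_univ, one_smul, integral_finsetSum _ (fun i _ =>
        integrable_finsetSum _ fun j _ => (hX3 i j).1.const_mul _)]
    congr 1
    have h4 : ∀ i : Fin n, ∫ T : Fin n → Fin m → ℝ, ∑ j, (1 / b) * (if b < T i j then T i j ^ 2 else 0)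
        ∂(times F n m) = m * ((1 / b) * tail F b) := by
      intro i
      rw [integral_finsetSum _ (fun j _ => (hX3 i j).1.const_mul _)]
      simp only [integral_const_mul, (hX3 i _).2]
      rw [Finset.sum_const, Finset.card_univ, Fintype.card_fin, nsmul_eq_mul]
    simp only [h4]
    rw [Finset.sum_const, Finset.card_univ, Fintype.card_fin, nsmul_eq_mul]
  -- the pointwise bound
  have hT0 : ∀ᵐ T ∂(times F n m), ∀ i j, 0 ≤ T i j := by
    rw [ae_all_iff]
    intro i
    rw [ae_all_iff]
    intro j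
    exact (mp F i j).quasiMeasurePreserving.ae hae
  have hpt : ∀ T : Fin n → Fin m → ℝ, (∀ i j, 0 ≤ T i j) →
      opt T ≤ n * (τ₁ + τ₂) + R1 T + R2 T + 3 * m ^ 2 * R3 T := by
    intro T hT
    have hterm : ∀ i j, 0 ≤ (1 / b) * (if b < T i j then T i j ^ 2 else 0) := by
      intro i j
      apply mul_nonneg (by positivity)
      split_ifs
      · positivity
      · exact le_rfl
    obtain ⟨π, hπ⟩ := exists_schedule hn hm T (n * (τ₁ + τ₂) + R1 T + R2 T) (R3 T)
      (by
        intro i j
        refine ⟨hT i j, ?_⟩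
        have h3 : (1 / b) * (if b < T i j then T i j ^ 2 else 0) ≤
            ∑ i, ∑ j, (1 / b) * (if b < T i j then T i j ^ 2 else 0) := by
          refine le_trans ?_ (Finset.single_le_sum (f := fun i => ∑ j, (1 / b) * (if b < T i j then T i j ^ 2 else 0))
            (fun i _ => Finset.sum_nonneg fun j _ => hterm i j) (Finset.mem_univ i))
          exact Finset.single_le_sum (f := fun j => (1 / b) * (if b < T i j then T i j ^ 2 else 0))
            (fun j _ => hterm i j) (Finset.mem_univ j)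
        show T i j ≤ b + _
        by_cases h : b < T i j
        · rw [if_pos h] at h3
          have h4 : T i j ≤ (1 / b) * T i j ^ 2 := by
            rw [one_div, ← div_eq_inv_mul, le_div_iff₀ hb]
            nlinarith
          linarith
        · push Not at h
          have h4 := hterm i j
          linarith)
      (by
        intro j
        have h3 : ∑ i, T i j = n * (τ₁ + τ₂) + X1 K τ₁ j T + X2 K τ₂ j T := by
          unfold X1 X2
          rw [Finset.sum_sub_distrib, Finset.sum_sub_distrib, Finset.sum_sub_distrib,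
            Finset.sum_const, Finset.sum_const, Finset.card_univ, Fintype.card_fin, nsmul_eq_mul,
            nsmul_eq_mul]
          ring
        rw [h3]
        have h4 : X1 K τ₁ j T ≤ R1 T := by
          have h5 : (1 / l) * Real.exp (l * (X1 K τ₁ j T - a)) ≤
              ∑ j, (1 / l) * Real.exp (l * (X1 K τ₁ j T - a)) :=
            Finset.single_le_sum (f := fun j => (1 / l) * Real.exp (l * (X1 K τ₁ j T - a)))
              (fun j _ => mul_nonneg (by positivity) (Real.exp_pos _).le) (Finset.mem_univ j)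
          have h6 : X1 K τ₁ j T - a ≤ (1 / l) * Real.exp (l * (X1 K τ₁ j T - a)) := by
            have h7 := Real.add_one_le_exp (l * (X1 K τ₁ j T - a))
            rw [one_div, ← div_eq_inv_mul, le_div_iff₀ hl]
            linarith
          show _ ≤ a + _
          linarith
        have h5 : X2 K τ₂ j T ≤ R2 T := by
          have h5 : (1 / a₂) * (X2 K τ₂ j T ^ 2) ≤ ∑ j, (1 / a₂) * (X2 K τ₂ j T ^ 2) :=
            Finset.single_le_sum (f := fun j => (1 / a₂) * (X2 K τ₂ j T ^ 2))
              (fun j _ => by positivity) (Finset.mem_univ j)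
          have h6 : X2 K τ₂ j T ≤ a₂ + (1 / a₂) * (X2 K τ₂ j T ^ 2) := by
            have h7 : X2 K τ₂ j T - a₂ ≤ (1 / a₂) * (X2 K τ₂ j T ^ 2) := by
              rw [one_div, ← div_eq_inv_mul, le_div_iff₀ ha₂]
              nlinarith [sq_nonneg (X2 K τ₂ j T - a₂), sq_nonneg (X2 K τ₂ j T)]
            linarith
          show _ ≤ a₂ + _
          linarith
        linarith)
    exact (opt_le T π).trans hπ
  have hbi : Integrable (fun T => n * (τ₁ + τ₂) + R1 T + R2 T + 3 * m ^ 2 * R3 T) (times F n m) :=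
    (((integrable_const _).add hR1i).add hR2i).add (hR3i.const_mul _)
  have hoi : Integrable (fun T => opt T) (times F n m) := by
    apply hbi.mono' opt_measurable.aestronglyMeasurable
    filter_upwards [hT0] with T hT
    rw [Real.norm_eq_abs, abs_of_nonneg (opt_nonneg T hT)]
    exact hpt T hT
  refine ⟨hoi, ?_⟩
  have hle : ∫ T, opt T ∂(times F n m) ≤
      ∫ T, (n * (τ₁ + τ₂) + R1 T + R2 T + 3 * m ^ 2 * R3 T) ∂(times F n m) := by
    apply integral_mono_ae hoi hbi
    filter_upwards [hT0] with T hT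
    exact hpt T hT
  have hsum : ∫ T, (n * (τ₁ + τ₂) + R1 T + R2 T + 3 * m ^ 2 * R3 T) ∂(times F n m) =
      n * (τ₁ + τ₂) + ∫ T, R1 T ∂(times F n m) + ∫ T, R2 T ∂(times F n m) +
        3 * m ^ 2 * ∫ T, R3 T ∂(times F n m) := by
    have i1 : Integrable (fun _ : Fin n → Fin m → ℝ => (n : ℝ) * (τ₁ + τ₂)) (times F n m) :=
      integrable_const _
    have a1 : ∫ T, (n * (τ₁ + τ₂) + R1 T) ∂(times F n m) =
        ∫ _, (n * (τ₁ + τ₂)) ∂(times F n m) + ∫ T, R1 T ∂(times F n m) := integral_add i1 hR1i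
    have a2 : ∫ T, (n * (τ₁ + τ₂) + R1 T + R2 T) ∂(times F n m) =
        ∫ T, (n * (τ₁ + τ₂) + R1 T) ∂(times F n m) + ∫ T, R2 T ∂(times F n m) :=
      integral_add (i1.add hR1i) hR2i
    have a3 : ∫ T, (n * (τ₁ + τ₂) + R1 T + R2 T + 3 * m ^ 2 * R3 T) ∂(times F n m) =
        ∫ T, (n * (τ₁ + τ₂) + R1 T + R2 T) ∂(times F n m) +
          ∫ T, 3 * m ^ 2 * R3 T ∂(times F n m) :=
      integral_add ((i1.add hR1i).add hR2i) (hR3i.const_mul _)
    rw [a3, a2, a1, integral_const, probReal_univ, one_smul, integral_const_mul]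
  rw [hsum, hR3] at hle
  rw [hτ]
  linarith

end Pool.Agent.H16.Flow
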