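import Pool.Agent.H16.Flow4

set_option autoImplicit false

open MeasureTheory ProbabilityTheory

namespace Pool.Agent.H16.Flow

theorem main (F : Measure ℝ) [IsProbabilityMeasure F] (hF : F (Set.Iio 0) = 0)
    (h2 : Integrable (fun x => x ^ 2) F) (c : ℝ) (hc : 0 < c) (n₀ : ℕ) :
    ∃ m n : ℕ, 3 ≤ m ∧ n₀ ≤ n ∧ Integrable (fun T => opt T) (times F n m) ∧
      ∫ T, (opt T - ((n : ℝ) + m - 1) * ∫ x, x ∂F) ∂(times F n m) < c * √((m : ℝ) * n) := by
  obtain ⟨η, hη⟩ : ∃ η : ℝ, η = c / 8 := ⟨_, rfl⟩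
  have hη0 : 0 < η := by rw [hη]; positivity
  obtain ⟨b₀, hb₀⟩ := tail_tendsto h2 (η ^ 2) (by positivity)
  obtain ⟨K, hK⟩ : ∃ K : ℝ, K = max 1 b₀ := ⟨_, rfl⟩
  have hK1 : 1 ≤ K := by rw [hK]; exact le_max_left _ _
  have hKt : tail F K ≤ η ^ 2 := hb₀ K (by rw [hK]; exact le_max_right _ _)
  obtain ⟨r, hr⟩ := exists_nat_ge (max 2 (7 * K / η))
  have hr2 : (2 : ℝ) ≤ r := (le_max_left _ _).trans hr
  have hr2' : 2 ≤ r := by exact_mod_cast hr2
  have hrK : 7 * K / η ≤ r := (le_max_right _ _).trans hr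
  rw [div_le_iff₀ hη0] at hrK
  obtain ⟨m, hm⟩ : ∃ m, m = r ^ 4 := ⟨_, rfl⟩
  have hm16 : 16 ≤ m := by
    rw [hm]
    calc 16 = 2 ^ 4 := by norm_num
      _ ≤ r ^ 4 := Nat.pow_le_pow_left hr2' 4
  have hmR : (m : ℝ) = (r : ℝ) ^ 4 := by rw [hm]; push_cast; ring
  have hmpos : (0 : ℝ) < m := by
    have : 0 < m := by omega
    exact_mod_cast this
  have hm1 : (1 : ℝ) ≤ m := by
    have : 1 ≤ m := by omega
    exact_mod_cast this
  obtain ⟨β, hβ⟩ : ∃ β : ℝ, β = η / (3 * m ^ 2) := ⟨_, rfl⟩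
  have hβ0 : 0 < β := by rw [hβ]; positivity
  obtain ⟨b₁, hb₁⟩ := tail_tendsto h2 (β ^ 2) (by positivity)
  obtain ⟨N, hN⟩ := exists_nat_ge ((max b₁ 1 / β) ^ 2)
  obtain ⟨n, hn⟩ : ∃ n, n = max (max n₀ 1) N := ⟨_, rfl⟩
  have hn₀ : n₀ ≤ n := by rw [hn]; exact (le_max_left _ _).trans (le_max_left _ _)
  have hn1 : 1 ≤ n := by rw [hn]; exact (le_max_right _ _).trans (le_max_left _ _)
  have hnN : N ≤ n := by rw [hn]; exact le_max_right _ _
  have hn1' : (1 : ℝ) ≤ n := by exact_mod_cast hn1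
  have hnpos : (0 : ℝ) < n := by linarith
  obtain ⟨q, hq⟩ : ∃ q : ℝ, q = √((m : ℝ) * n) := ⟨_, rfl⟩
  have hq2 : q ^ 2 = m * n := by rw [hq]; exact Real.sq_sqrt (by positivity)
  have hq0 : 0 < q := by rw [hq]; exact Real.sqrt_pos.2 (by positivity)
  obtain ⟨s, hs⟩ : ∃ s : ℝ, s = √(n : ℝ) := ⟨_, rfl⟩
  have hs2 : s ^ 2 = n := by rw [hs]; exact Real.sq_sqrt hnpos.le
  have hs0 : 0 < s := by rw [hs]; exact Real.sqrt_pos.2 hnpos
  have hs1 : 1 ≤ s := by rw [hs]; exact Real.one_le_sqrt.2 hn1'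
  have hqs : q = r ^ 2 * s := by
    rw [hq, Real.sqrt_mul (by positivity), ← hs, hmR]
    congr 1
    rw [show (r : ℝ) ^ 4 = (r ^ 2) ^ 2 by ring, Real.sqrt_sq (by positivity)]
  -- b
  have hb : max b₁ 1 ≤ β * q := by
    have h3 : (max b₁ 1 / β) ^ 2 ≤ n := hN.trans (by exact_mod_cast hnN)
    have h4 : 0 ≤ max b₁ 1 / β := div_nonneg (zero_le_one.trans (le_max_right _ _)) hβ0.le
    have h5 : max b₁ 1 / β ≤ s := by
      rw [hs]
      exact Real.le_sqrt_of_sq_le h3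
    have h6 : s ≤ q := by
      rw [hqs]
      have h7 : (1 : ℝ) ≤ (r : ℝ) ^ 2 := by
        calc (1 : ℝ) ≤ 2 ^ 2 := by norm_num
          _ ≤ (r : ℝ) ^ 2 := pow_le_pow_left₀ (by norm_num) hr2 2
      exact le_mul_of_one_le_left hs0.le h7
    rw [div_le_iff₀ hβ0] at h5
    calc max b₁ 1 ≤ s * β := h5
      _ ≤ q * β := mul_le_mul_of_nonneg_right h6 hβ0.le
      _ = β * q := mul_comm _ _
  have hbpos : 0 < β * q := by positivity
  have htb : tail F (β * q) ≤ β ^ 2 := hb₁ _ ((le_max_left _ _).trans hb)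
  -- the bound
  have hKs : 0 < K * s := by positivity
  obtain ⟨hi, hle⟩ := main_bound (n := n) (m := m) hF h2 (by omega) (by omega) K (1 / (K * s))
    (K * s * Real.log m) (η * q) (β * q) (by linarith) (by positivity)
    (by
      have : 1 / (K * s) * K = 1 / s := by field_simp
      rw [this, div_le_one hs0]
      exact hs1)
    (by positivity) hbpos
  refine ⟨m, n, by omega, hn₀, hi, ?_⟩
  have hint : ∫ T, (opt T - ((n : ℝ) + m - 1) * ∫ x, x ∂F) ∂(times F n m) =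
      ∫ T, opt T ∂(times F n m) - ((n : ℝ) + m - 1) * ∫ x, x ∂F := by
    rw [integral_sub hi (integrable_const _), integral_const, probReal_univ, one_smul]
  rw [hint, ← hq]
  have hτ0 : 0 ≤ ∫ x, x ∂F := by
    apply integral_nonneg_of_ae
    have : ∀ᵐ x ∂F, 0 ≤ x := by
      rw [ae_iff]
      have : {a : ℝ | ¬ 0 ≤ a} = Set.Iio 0 := by
        ext x; simp
      rw [this]; exact hF
    exact this
  -- term 1
  have e1 : -(1 / (K * s) * (K * s * Real.log m)) = -Real.log m := by field_simp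
  have e2 : Real.exp (-Real.log m) = 1 / m := by
    rw [Real.exp_neg, Real.exp_log hmpos, one_div]
  have e3 : (1 / (K * s)) ^ 2 * K ^ 2 = 1 / n := by
    rw [← hs2]; field_simp
  have e4 : (1 + 1 / (n : ℝ)) ^ n ≤ 3 := by
    have h3 : 1 + 1 / (n : ℝ) ≤ Real.exp (1 / n) := by
      have := Real.add_one_le_exp (1 / (n : ℝ)); linarith
    have h4 : (1 + 1 / (n : ℝ)) ^ n ≤ Real.exp (1 / n) ^ n :=
      pow_le_pow_left₀ (by positivity) h3 n
    rw [← Real.exp_nat_mul, mul_one_div_cancel hnpos.ne'] at h4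
    exact h4.trans (Real.exp_one_lt_d9.le.trans (by norm_num))
  have t1 : K * s * Real.log m + m * ((1 / (1 / (K * s))) * (Real.exp (-(1 / (K * s) *
      (K * s * Real.log m))) * (1 + (1 / (K * s)) ^ 2 * K ^ 2) ^ n)) ≤ η * q := by
    rw [e1, e2, e3, one_div_one_div]
    have h3 : (m : ℝ) * (K * s * (1 / m * (1 + 1 / (n : ℝ)) ^ n)) = K * s * (1 + 1 / (n : ℝ)) ^ n := by
      field_simp
    rw [h3]
    have h4 : Real.log m ≤ 4 * r := by
      rw [hmR, Real.log_pow]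
      push_cast
      have := Real.log_le_sub_one_of_pos (show (0 : ℝ) < r by linarith)
      linarith
    have h5 : K * s * Real.log m ≤ K * s * (4 * r) := mul_le_mul_of_nonneg_left h4 hKs.le
    have h6 : K * s * (1 + 1 / (n : ℝ)) ^ n ≤ K * s * 3 := mul_le_mul_of_nonneg_left e4 hKs.le
    have h7 : K * (4 * r + 3) ≤ η * r ^ 2 := by
      calc K * (4 * r + 3) ≤ K * (7 * r) := mul_le_mul_of_nonneg_left (by linarith) (by linarith)
        _ = 7 * K * r := by ring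
        _ ≤ r * η * r := mul_le_mul_of_nonneg_right hrK (by linarith)
        _ = η * r ^ 2 := by ring
    have h8 : K * s * (4 * r) + K * s * 3 ≤ η * q := by
      rw [hqs]
      calc K * s * (4 * r) + K * s * 3 = K * (4 * r + 3) * s := by ring
        _ ≤ η * r ^ 2 * s := mul_le_mul_of_nonneg_right h7 hs0.le
        _ = η * (r ^ 2 * s) := by ring
    linarith
  have hq2' : (n : ℝ) * m = q ^ 2 := by rw [hq2]; ring
  have t2 : η * q + m * ((1 / (η * q)) * (n * tail F K)) ≤ 2 * (η * q) := by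
    have h3 : (m : ℝ) * ((1 / (η * q)) * (n * tail F K)) ≤ m * ((1 / (η * q)) * (n * η ^ 2)) := by
      gcongr
    have h4 : (m : ℝ) * ((1 / (η * q)) * (n * η ^ 2)) = η * q := by
      have : (m : ℝ) * ((1 / (η * q)) * (n * η ^ 2)) = (n * m) * η ^ 2 / (η * q) := by ring
      rw [this, hq2']
      field_simp
    linarith
  have t3 : 3 * (m : ℝ) ^ 2 * (β * q + n * (m * ((1 / (β * q)) * tail F (β * q)))) ≤ 2 * (η * q) := by
    have h3 : (n : ℝ) * (m * ((1 / (β * q)) * tail F (β * q))) ≤ n * (m * ((1 / (β * q)) * β ^ 2)) := by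
      gcongr
    have h4 : (n : ℝ) * (m * ((1 / (β * q)) * β ^ 2)) = β * q := by
      have : (n : ℝ) * (m * ((1 / (β * q)) * β ^ 2)) = (n * m) * β ^ 2 / (β * q) := by ring
      rw [this, hq2']
      field_simp
    have h5 : 3 * (m : ℝ) ^ 2 * (β * q + n * (m * ((1 / (β * q)) * tail F (β * q)))) ≤
        3 * (m : ℝ) ^ 2 * (β * q + β * q) := by
      apply mul_le_mul_of_nonneg_left _ (by positivity)
      linarith
    have h6 : 3 * (m : ℝ) ^ 2 * (β * q + β * q) = 2 * (η * q) := by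
      rw [hβ]; field_simp
      ring
    linarith
  have hηc : 8 * η = c := by rw [hη]; ring
  have hfin : ((n : ℝ) + m - 1) * ∫ x, x ∂F ≥ n * ∫ x, x ∂F :=
    mul_le_mul_of_nonneg_right (by linarith) hτ0
  have h8 : c * q = 8 * (η * q) := by rw [← hηc]; ring
  rw [h8]
  have h9 : 0 < η * q := by positivity
  linarith

end Pool.Agent.H16.Flow
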