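import Pool.Agent.H16.GlauberDefs

set_option autoImplicit false

namespace Pool.Agent.H16.Glauber

variable {V : Type} [Fintype V] [DecidableEq V] {q : ℕ}

/-- rational version -/
def lawQ (G : SimpleGraph V) [DecidableRel G.Adj] (σ : V → Fin q) : ℕ → (V → Fin q) → ℚ
  | 0 => fun τ => if τ = σ then 1 else 0
  | t + 1 => fun τ => ∑ ρ : V → Fin q, lawQ G σ t ρ *
      ∑ v : V, ∑ c : Fin q, if move G ρ v c = τ then 1 / ((Fintype.card V : ℚ) * q) else 0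

theorem law_eq (G : SimpleGraph V) [DecidableRel G.Adj] (σ : V → Fin q) (t : ℕ) (τ : V → Fin q) :
    law G σ t τ = (lawQ G σ t τ : ℝ) := by
  induction t generalizing τ with
  | zero =>
    simp only [law, lawQ]
    split_ifs <;> simp
  | succ t ih =>
    simp only [law, lawQ, ih]
    rw [Rat.cast_sum]
    refine Finset.sum_congr rfl fun ρ _ => ?_
    rw [Rat.cast_mul, Rat.cast_sum]
    congr 1
    refine Finset.sum_congr rfl fun v _ => ?_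
    rw [Rat.cast_sum]
    refine Finset.sum_congr rfl fun c _ => ?_
    split_ifs
    · push_cast; rfl
    · exact Rat.cast_zero.symm

def tvQ (G : SimpleGraph V) [DecidableRel G.Adj] (σ : V → Fin q) (t : ℕ) : ℚ :=
  (1 / 2) * ∑ τ : V → Fin q, |lawQ G σ t τ - if Proper G τ then 1 / (numCol G q : ℚ) else 0|

theorem tv_eq (G : SimpleGraph V) [DecidableRel G.Adj] (σ : V → Fin q) (t : ℕ) :
    tv G σ t = (tvQ G σ t : ℝ) := by
  unfold tv tvQ
  simp only [law_eq]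
  rw [Rat.cast_mul, Rat.cast_sum]
  congr 1
  · norm_num
  refine Finset.sum_congr rfl fun v _ => ?_
  rw [Rat.cast_abs, Rat.cast_sub]
  congr 2
  split_ifs
  · push_cast; rfl
  · exact Rat.cast_zero.symm

theorem a1 : ∀ σ : Fin 2 → Fin 2, tvQ (⊥ : SimpleGraph (Fin 2)) σ 1 ≤ 1 / 4 := by decide +kernel

theorem a2 : 4 / 9 ≤ tvQ (⊥ : SimpleGraph (Fin 2)) (0 : Fin 2 → Fin 3) 1 := by decide +kernel

theorem a3 : 4 / 9 ≤ tvQ (⊥ : SimpleGraph (Fin 2)) (0 : Fin 2 → Fin 3) 0 := by decide +kernel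

theorem a4 : ∀ σ : Fin 2 → Fin 3, tvQ (⊥ : SimpleGraph (Fin 2)) σ 2 ≤ 1 / 4 := by decide +kernel

theorem exp_bounds : (1 / 4 : ℝ) < Real.exp (-1) ∧ Real.exp (-1) < 4 / 9 := by
  have h1 := Real.exp_one_gt_d9
  have h2 := Real.exp_one_lt_d9
  have h3 : Real.exp (-1) = 1 / Real.exp 1 := by rw [Real.exp_neg, one_div]
  rw [h3]
  constructor
  · rw [div_lt_div_iff₀ (by norm_num) (by positivity)]; linarith
  · rw [div_lt_div_iff₀ (by positivity) (by norm_num)]; linarith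

theorem tmix_two : tmix (⊥ : SimpleGraph (Fin 2)) 2 ≤ 1 := by
  apply Nat.sInf_le
  intro σ _
  rw [tv_eq]
  have h : ((tvQ (⊥ : SimpleGraph (Fin 2)) σ 1 : ℚ) : ℝ) ≤ ((1 / 4 : ℚ) : ℝ) := by
    exact_mod_cast a1 σ
  have h2 : ((1 / 4 : ℚ) : ℝ) = 1 / 4 := by norm_num
  rw [h2] at h
  exact h.trans exp_bounds.1.le

theorem tmix_three : 2 ≤ tmix (⊥ : SimpleGraph (Fin 2)) 3 := by
  have hne : {t : ℕ | ∀ σ : Fin 2 → Fin 3, Proper (⊥ : SimpleGraph (Fin 2)) σ →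
      tv (⊥ : SimpleGraph (Fin 2)) σ t ≤ Real.exp (-1)}.Nonempty := by
    refine ⟨2, fun σ _ => ?_⟩
    rw [tv_eq]
    have h : ((tvQ (⊥ : SimpleGraph (Fin 2)) σ 2 : ℚ) : ℝ) ≤ ((1 / 4 : ℚ) : ℝ) := by
      exact_mod_cast a4 σ
    have h2 : ((1 / 4 : ℚ) : ℝ) = 1 / 4 := by norm_num
    rw [h2] at h
    exact h.trans exp_bounds.1.le
  have hmem := Nat.sInf_mem hne
  by_contra hcon
  push Not at hcon
  have hlt : tmix (⊥ : SimpleGraph (Fin 2)) 3 = 0 ∨ tmix (⊥ : SimpleGraph (Fin 2)) 3 = 1 := by omega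
  have hP : Proper (⊥ : SimpleGraph (Fin 2)) (0 : Fin 2 → Fin 3) := fun u v h => absurd h (by simp)
  have key : tv (⊥ : SimpleGraph (Fin 2)) (0 : Fin 2 → Fin 3) (tmix (⊥ : SimpleGraph (Fin 2)) 3) ≤
      Real.exp (-1) := hmem 0 hP
  have h49 : ((4 / 9 : ℚ) : ℝ) = 4 / 9 := by norm_num
  rcases hlt with h | h
  · rw [h, tv_eq] at key
    have h3 : ((4 / 9 : ℚ) : ℝ) ≤ ((tvQ (⊥ : SimpleGraph (Fin 2)) (0 : Fin 2 → Fin 3) 0 : ℚ) : ℝ) := by
      exact_mod_cast a3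
    rw [h49] at h3
    linarith [exp_bounds.2]
  · rw [h, tv_eq] at key
    have h3 : ((4 / 9 : ℚ) : ℝ) ≤ ((tvQ (⊥ : SimpleGraph (Fin 2)) (0 : Fin 2 → Fin 3) 1 : ℚ) : ℝ) := by
      exact_mod_cast a2
    rw [h49] at h3
    linarith [exp_bounds.2]

end Pool.Agent.H16.Glauber
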