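import Mathlib

set_option autoImplicit false

namespace Pool.Agent.H16.Glauber

variable {V : Type} [Fintype V] [DecidableEq V] {q : ℕ}

/-- `σ` is a proper colouring of `G` with the colours `Fin q` -/
def Proper (G : SimpleGraph V) (σ : V → Fin q) : Prop := ∀ u v, G.Adj u v → σ u ≠ σ v

instance (G : SimpleGraph V) [DecidableRel G.Adj] (σ : V → Fin q) : Decidable (Proper G σ) :=
  inferInstanceAs (Decidable (∀ u v, G.Adj u v → σ u ≠ σ v))

/-- recolour `v` with `c` if this gives a proper colouring, otherwise stay -/
def move (G : SimpleGraph V) [DecidableRel G.Adj] (σ : V → Fin q) (v : V) (c : Fin q) : V → Fin q :=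
  if Proper G (Function.update σ v c) then Function.update σ v c else σ

/-- the law of the Glauber dynamics at time `t`, started at `σ`: vertex and colour are uniform -/
noncomputable def law (G : SimpleGraph V) [DecidableRel G.Adj] (σ : V → Fin q) : ℕ → (V → Fin q) → ℝ
  | 0 => fun τ => if τ = σ then 1 else 0
  | t + 1 => fun τ => ∑ ρ : V → Fin q, law G σ t ρ *
      ∑ v : V, ∑ c : Fin q, if move G ρ v c = τ then 1 / ((Fintype.card V : ℝ) * q) else 0

/-- the number of proper colourings -/
def numCol (G : SimpleGraph V) [DecidableRel G.Adj] (q : ℕ) : ℕ :=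
  (Finset.univ.filter (fun σ : V → Fin q => Proper G σ)).card

/-- the total variation distance at time `t` to the uniform distribution on proper colourings -/
noncomputable def tv (G : SimpleGraph V) [DecidableRel G.Adj] (σ : V → Fin q) (t : ℕ) : ℝ :=
  (1 / 2) * ∑ τ : V → Fin q, |law G σ t τ - if Proper G τ then 1 / (numCol G q : ℝ) else 0|

/-- the mixing time `t_G(q)`: the least `t` such that the total variation distance at time `t` is at
most `1/e` from every proper starting colouring -/
noncomputable def tmix (G : SimpleGraph V) [DecidableRel G.Adj] (q : ℕ) : ℕ :=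
  sInf {t : ℕ | ∀ σ : V → Fin q, Proper G σ → tv G σ t ≤ Real.exp (-1)}

end Pool.Agent.H16.Glauber
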