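import Pool.Agent.H16.LLDefs

set_option autoImplicit false
open Set Filter Topology
open scoped Manifold ContDiff

namespace Pool.Agent.H16.LL

universe u v
variable {E : Type u} [NormedAddCommGroup E] [NormedSpace ℝ E]
  {M : Type v} [TopologicalSpace M] [ChartedSpace E M]


lemma val_congr (B : ∀ x : M, TangentSpace 𝓘(ℝ, E) x →L[ℝ] TangentSpace 𝓘(ℝ, E) x →L[ℝ] ℝ)
    {x y : M} (h : x = y) (v w : E) :
    (B x : E →L[ℝ] E →L[ℝ] ℝ) v w = (B y : E →L[ℝ] E →L[ℝ] ℝ) v w := by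
  subst h; rfl

lemma form_congr (B : ∀ x : M, TangentSpace 𝓘(ℝ, E) x →L[ℝ] ℝ)
    {x y : M} (h : x = y) (v : E) :
    (B x : E →L[ℝ] ℝ) v = (B y : E →L[ℝ] ℝ) v := by
  subst h; rfl

lemma bilinCoord_apply (B : ∀ x : M, TangentSpace 𝓘(ℝ, E) x →L[ℝ] TangentSpace 𝓘(ℝ, E) x →L[ℝ] ℝ)
    (q : M) (y v w : E) :
    bilinCoord B q y v w = (B ((extChartAt 𝓘(ℝ, E) q).symm y) : E →L[ℝ] E →L[ℝ] ℝ)
      (dParam q y v) (dParam q y w) := rfl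

lemma formCoord_apply (η : ∀ x : M, TangentSpace 𝓘(ℝ, E) x →L[ℝ] ℝ)
    (q : M) (y v : E) :
    formCoord η q y v = (η ((extChartAt 𝓘(ℝ, E) q).symm y) : E →L[ℝ] ℝ) (dParam q y v) := rfl

variable [IsManifold 𝓘(ℝ, E) ∞ M]

lemma dParam_inv (q : M) {y : E} (hy : y ∈ (extChartAt 𝓘(ℝ, E) q).target) :
    ∃ e : E →L[ℝ] E, (∀ v, e (dParam q y v) = v) ∧ ∀ v, dParam q y (e v) = v := by
  have h1 := mfderiv_extChartAt_comp_mfderivWithin_extChartAt_symm (I := 𝓘(ℝ, E)) hy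
  have h2 := mfderivWithin_extChartAt_symm_comp_mfderiv_extChartAt (I := 𝓘(ℝ, E)) hy
  rw [ModelWithCorners.range_eq_univ, mfderivWithin_univ] at h1 h2
  refine ⟨mfderiv 𝓘(ℝ, E) 𝓘(ℝ, E) (extChartAt 𝓘(ℝ, E) q) ((extChartAt 𝓘(ℝ, E) q).symm y), fun v => ?_, fun v => ?_⟩
  · exact congrArg (fun L : E →L[ℝ] E => L v) h1
  · exact congrArg (fun L : E →L[ℝ] E => L v) h2

lemma inChart_contDiffAt {q : M} {γ : ℝ → M} {t : ℝ} (h : ContMDiffAt 𝓘(ℝ, ℝ) 𝓘(ℝ, E) 2 γ t)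
    (ht : γ t ∈ (extChartAt 𝓘(ℝ, E) q).source) : ContDiffAt ℝ 2 (inChart E q γ) t := by
  have h1 : ContMDiffAt 𝓘(ℝ, E) 𝓘(ℝ, E) 2 (extChartAt 𝓘(ℝ, E) q) (γ t) :=
    (contMDiffAt_extChartAt' (n := 2) (by rwa [extChartAt_source] at ht))
  have h2 := h1.comp t h
  exact h2.contDiffAt

lemma velocity_eq {q : M} {γ : ℝ → M} {t : ℝ} (h : ContMDiffAt 𝓘(ℝ, ℝ) 𝓘(ℝ, E) 2 γ t)
    (ht : γ t ∈ (extChartAt 𝓘(ℝ, E) q).source) :
    (velocity E γ t : E) = dParam q (inChart E q γ t) (deriv (inChart E q γ) t) := by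
  have hc := inChart_contDiffAt h ht
  have hy : inChart E q γ t ∈ (extChartAt 𝓘(ℝ, E) q).target := (extChartAt 𝓘(ℝ, E) q).map_source ht
  have heq : γ =ᶠ[𝓝 t] (extChartAt 𝓘(ℝ, E) q).symm ∘ inChart E q γ := by
    have : γ ⁻¹' (extChartAt 𝓘(ℝ, E) q).source ∈ 𝓝 t :=
      h.continuousAt.preimage_mem_nhds ((isOpen_extChartAt_source q).mem_nhds ht)
    filter_upwards [this] with s hs
    exact ((extChartAt 𝓘(ℝ, E) q).left_inv hs).symm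
  have h1 : MDifferentiableAt 𝓘(ℝ, E) 𝓘(ℝ, E) (extChartAt 𝓘(ℝ, E) q).symm (inChart E q γ t) := by
    have := mdifferentiableWithinAt_extChartAt_symm (I := 𝓘(ℝ, E)) hy
    rwa [ModelWithCorners.range_eq_univ, mdifferentiableWithinAt_univ] at this
  have h2 : MDifferentiableAt 𝓘(ℝ, ℝ) 𝓘(ℝ, E) (inChart E q γ) t :=
    (hc.differentiableAt (by norm_num)).mdifferentiableAt
  have h3 := mfderiv_comp t h1 h2
  have h4 := heq.mfderiv_eq (I := 𝓘(ℝ, ℝ)) (I' := 𝓘(ℝ, E))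
  unfold velocity
  have h5 : (mfderiv 𝓘(ℝ, ℝ) 𝓘(ℝ, E) γ t : ℝ →L[ℝ] E) =
      (dParam q (inChart E q γ t)).comp (mfderiv 𝓘(ℝ, ℝ) 𝓘(ℝ, E) (inChart E q γ) t : ℝ →L[ℝ] E) := by
    exact h4.trans h3
  have h6 : (mfderiv 𝓘(ℝ, ℝ) 𝓘(ℝ, E) (inChart E q γ) t : ℝ →L[ℝ] E) = fderiv ℝ (inChart E q γ) t :=
    mfderiv_eq_fderiv
  rw [h6] at h5
  have h7 : (mfderiv 𝓘(ℝ, ℝ) 𝓘(ℝ, E) γ t : ℝ →L[ℝ] E) 1
      = dParam q (inChart E q γ t) (fderiv ℝ (inChart E q γ) t 1) :=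
    congrArg (fun L : ℝ →L[ℝ] E => L 1) h5
  have h8 : fderiv ℝ (inChart E q γ) t 1 = deriv (inChart E q γ) t := fderiv_apply_one_eq_deriv
  exact h7.trans (congrArg _ h8)

lemma metric_velocity (g : SemiRiemannianMetric E M) {q : M} {γ : ℝ → M} {t : ℝ}
    (h : ContMDiffAt 𝓘(ℝ, ℝ) 𝓘(ℝ, E) 2 γ t) (ht : γ t ∈ (extChartAt 𝓘(ℝ, E) q).source) :
    g.val (γ t) (velocity E γ t) (velocity E γ t) =
      bilinCoord g.val q (inChart E q γ t) (deriv (inChart E q γ) t) (deriv (inChart E q γ) t) := by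
  rw [bilinCoord_apply, ← velocity_eq h ht]
  refine val_congr g.val ?_ _ _
  exact ((extChartAt 𝓘(ℝ, E) q).left_inv ht).symm

lemma form_velocity (η : OneForm E M) {q : M} {γ : ℝ → M} {t : ℝ}
    (h : ContMDiffAt 𝓘(ℝ, ℝ) 𝓘(ℝ, E) 2 γ t) (ht : γ t ∈ (extChartAt 𝓘(ℝ, E) q).source) :
    η.val (γ t) (velocity E γ t) =
      formCoord η.val q (inChart E q γ t) (deriv (inChart E q γ) t) := by
  rw [formCoord_apply, ← velocity_eq h ht]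
  refine form_congr η.val ?_ _
  exact ((extChartAt 𝓘(ℝ, E) q).left_inv ht).symm

omit [IsManifold 𝓘(ℝ, E) ∞ M] in
lemma coord_symm (g : SemiRiemannianMetric E M) (q : M) (y v w : E) :
    bilinCoord g.val q y v w = bilinCoord g.val q y w v := by
  rw [bilinCoord_apply, bilinCoord_apply]
  exact g.symm _ _ _

lemma coord_nondeg (g : SemiRiemannianMetric E M) (q : M) {y : E}
    (hy : y ∈ (extChartAt 𝓘(ℝ, E) q).target) (v : E)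
    (h : ∀ w, bilinCoord g.val q y v w = 0) : v = 0 := by
  obtain ⟨e, he1, he2⟩ := dParam_inv q hy
  have h1 : (dParam q y v : E) = 0 := by
    refine g.nondeg ((extChartAt 𝓘(ℝ, E) q).symm y) (dParam q y v) (fun w => ?_)
    have h1 : (g.val ((extChartAt 𝓘(ℝ, E) q).symm y) : E →L[ℝ] E →L[ℝ] ℝ)
      (dParam q y v) (dParam q y (e w)) = 0 := h (e w)
    have h2 : dParam q y (e w) = w := he2 w
    have h3 := congrArg (fun z : E => (g.val ((extChartAt 𝓘(ℝ, E) q).symm y) :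
      E →L[ℝ] E →L[ℝ] ℝ) (dParam q y v) z) h2
    exact h3.symm.trans h1
  rw [← he1 v, h1, map_zero]

/-- transition map -/
noncomputable def trans (q₁ q₂ : M) (y : E) : E :=
  extChartAt 𝓘(ℝ, E) q₂ ((extChartAt 𝓘(ℝ, E) q₁).symm y)

lemma trans_contDiffAt {q₁ q₂ : M} {y : E} (hy : y ∈ (extChartAt 𝓘(ℝ, E) q₁).target)
    (hy' : (extChartAt 𝓘(ℝ, E) q₁).symm y ∈ (extChartAt 𝓘(ℝ, E) q₂).source) :
    ContDiffAt ℝ ∞ (trans q₁ q₂) y := by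
  have h1 : ContMDiffAt 𝓘(ℝ, E) 𝓘(ℝ, E) ∞ (extChartAt 𝓘(ℝ, E) q₂) ((extChartAt 𝓘(ℝ, E) q₁).symm y) :=
    (contMDiffAt_extChartAt' (n := ∞) (by rwa [extChartAt_source] at hy'))
  have h0 : ContMDiffAt 𝓘(ℝ, E) 𝓘(ℝ, E) ∞ (extChartAt 𝓘(ℝ, E) q₁).symm y := by
    have := contMDiffWithinAt_extChartAt_symm_range (I := 𝓘(ℝ, E)) (n := ∞) q₁ hy
    rwa [ModelWithCorners.range_eq_univ, contMDiffWithinAt_univ] at this
  exact (h1.comp y h0).contDiffAt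

lemma dParam_trans {q₁ q₂ : M} {y : E} (hy : y ∈ (extChartAt 𝓘(ℝ, E) q₁).target)
    (hy' : (extChartAt 𝓘(ℝ, E) q₁).symm y ∈ (extChartAt 𝓘(ℝ, E) q₂).source) :
    dParam q₁ y = (dParam q₂ (trans q₁ q₂ y)).comp (fderiv ℝ (trans q₁ q₂) y) := by
  have hz : trans q₁ q₂ y ∈ (extChartAt 𝓘(ℝ, E) q₂).target := (extChartAt 𝓘(ℝ, E) q₂).map_source hy'
  have heq : (extChartAt 𝓘(ℝ, E) q₁).symm =ᶠ[𝓝 y] (extChartAt 𝓘(ℝ, E) q₂).symm ∘ (trans q₁ q₂) := by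
    have : (extChartAt 𝓘(ℝ, E) q₁).symm ⁻¹' (extChartAt 𝓘(ℝ, E) q₂).source ∈ 𝓝 y :=
      (continuousAt_extChartAt_symm'' hy).preimage_mem_nhds
        ((isOpen_extChartAt_source q₂).mem_nhds hy')
    filter_upwards [this] with s hs
    exact ((extChartAt 𝓘(ℝ, E) q₂).left_inv hs).symm
  have h1 : MDifferentiableAt 𝓘(ℝ, E) 𝓘(ℝ, E) (extChartAt 𝓘(ℝ, E) q₂).symm (trans q₁ q₂ y) := by
    have := mdifferentiableWithinAt_extChartAt_symm (I := 𝓘(ℝ, E)) hz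
    rwa [ModelWithCorners.range_eq_univ, mdifferentiableWithinAt_univ] at this
  have h2 : MDifferentiableAt 𝓘(ℝ, E) 𝓘(ℝ, E) (trans q₁ q₂) y :=
    ((trans_contDiffAt hy hy').differentiableAt (by simp)).mdifferentiableAt
  have h3 := mfderiv_comp y h1 h2
  have h4 := heq.mfderiv_eq (I := 𝓘(ℝ, E)) (I' := 𝓘(ℝ, E))
  have h5 : dParam q₁ y =
      (dParam q₂ (trans q₁ q₂ y)).comp (mfderiv 𝓘(ℝ, E) 𝓘(ℝ, E) (trans q₁ q₂) y : E →L[ℝ] E) := by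
    exact h4.trans h3
  have h6 : (mfderiv 𝓘(ℝ, E) 𝓘(ℝ, E) (trans q₁ q₂) y : E →L[ℝ] E) = fderiv ℝ (trans q₁ q₂) y :=
    mfderiv_eq_fderiv
  rw [h6] at h5
  exact h5

lemma bilinCoord_trans (B : ∀ x : M, TangentSpace 𝓘(ℝ, E) x →L[ℝ] TangentSpace 𝓘(ℝ, E) x →L[ℝ] ℝ)
    {q₁ q₂ : M} {y : E} (hy : y ∈ (extChartAt 𝓘(ℝ, E) q₁).target)
    (hy' : (extChartAt 𝓘(ℝ, E) q₁).symm y ∈ (extChartAt 𝓘(ℝ, E) q₂).source) (v w : E) :
    bilinCoord B q₁ y v w = bilinCoord B q₂ (trans q₁ q₂ y)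
      (fderiv ℝ (trans q₁ q₂) y v) (fderiv ℝ (trans q₁ q₂) y w) := by
  rw [bilinCoord_apply, bilinCoord_apply, dParam_trans hy hy']
  refine val_congr B ?_ _ _
  exact ((extChartAt 𝓘(ℝ, E) q₂).left_inv hy').symm

end Pool.Agent.H16.LL
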