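import Pool.Agent.H16.LLDefs

set_option autoImplicit false
open Set Filter Topology
open scoped ContDiff

namespace Pool.Agent.H16.LL

variable {V : Type*} [NormedAddCommGroup V] [NormedSpace ℝ V]

/-- geodesic equation in a chart, with Fréchet derivatives -/
def GeodEqF (G : V → V →L[ℝ] V →L[ℝ] ℝ) (c : ℝ → V) (t : ℝ) : Prop :=
  ∀ w : V, G (c t) (deriv (deriv c) t) w + (fderiv ℝ G (c t) (deriv c t)) (deriv c t) w
        - (1 / 2) * (fderiv ℝ G (c t) w) (deriv c t) (deriv c t) = 0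

lemma lineDeriv_coord {G : V → V →L[ℝ] V →L[ℝ] ℝ} {x : V} (hG : DifferentiableAt ℝ G x)
    (h v w : V) : lineDeriv ℝ (fun y => G y v w) x h = fderiv ℝ G x h v w := by
  have hline : HasDerivAt (fun r : ℝ => x + r • h) h 0 := by
    have : HasDerivAt (fun r : ℝ => r • h) ((1 : ℝ) • h) 0 := (hasDerivAt_id (0 : ℝ)).smul_const h
    simpa using this.const_add x
  have h00 : x + (0 : ℝ) • h = x := by simp
  have e1 : HasDerivAt (fun r : ℝ => G (x + r • h)) (fderiv ℝ G x h) 0 := by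
    have : HasFDerivAt G (fderiv ℝ G x) (x + (0 : ℝ) • h) := by
      rw [h00]; exact hG.hasFDerivAt
    exact HasFDerivAt.comp_hasDerivAt (l := G) (0 : ℝ) this hline
  have e2 : HasDerivAt (fun r : ℝ => G (x + r • h) v w) (fderiv ℝ G x h v w) 0 := by
    have := (e1.clm_apply (hasDerivAt_const (0 : ℝ) v)).clm_apply (hasDerivAt_const (0 : ℝ) w)
    simpa using this
  exact e2.deriv

lemma geodEq_iff_F {G : V → V →L[ℝ] V →L[ℝ] ℝ} {c : ℝ → V} {t : ℝ}
    (hG : DifferentiableAt ℝ G (c t)) : GeodEq G c t ↔ GeodEqF G c t := by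
  unfold GeodEq GeodEqF
  simp only [lineDeriv_coord hG]

lemma hasDerivAt_of_C2 {c : ℝ → V} {t : ℝ} (hc : ContDiffAt ℝ 2 c t) :
    (∀ᶠ s in 𝓝 t, HasDerivAt c (deriv c s) s) ∧ HasDerivAt (deriv c) (deriv (deriv c) t) t := by
  constructor
  · have := hc.eventually (by simp)
    filter_upwards [this] with s hs
    exact (hs.differentiableAt (by norm_num)).hasDerivAt
  · have h1 : ContDiffAt ℝ 1 (deriv c) t := by
      have : ContDiffAt ℝ 1 (fun s => fderiv ℝ c s 1) t :=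
        (hc.fderiv_right (m := 1) (by norm_num)).clm_apply contDiffAt_const
      exact this
    exact (h1.differentiableAt (by norm_num)).hasDerivAt

/-- conservation of energy -/
lemma energy_deriv {G : V → V →L[ℝ] V →L[ℝ] ℝ} {c : ℝ → V} {t : ℝ}
    (hG : DifferentiableAt ℝ G (c t)) (hs : ∀ v w, G (c t) v w = G (c t) w v)
    (hc : ContDiffAt ℝ 2 c t) (h : GeodEqF G c t) :
    HasDerivAt (fun s => G (c s) (deriv c s) (deriv c s)) 0 t := by
  obtain ⟨h1, h2⟩ := hasDerivAt_of_C2 hc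
  have h3 : HasDerivAt c (deriv c t) t := h1.self_of_nhds
  have h4 : HasDerivAt (fun s => G (c s)) (fderiv ℝ G (c t) (deriv c t)) t :=
    HasFDerivAt.comp_hasDerivAt (l := G) t hG.hasFDerivAt h3
  have h5 := (h4.clm_apply h2).clm_apply h2
  refine h5.congr_deriv ?_
  have h6 := h (deriv c t)
  have h7 := hs (deriv (deriv c) t) (deriv c t)
  simp only [add_apply]
  linarith

/-- chart invariance of the geodesic equation -/
lemma geodEqF_comp {G₁ G₂ : V → V →L[ℝ] V →L[ℝ] ℝ} {τ : V → V} {c : ℝ → V} {t : ℝ}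
    (hc : ContDiffAt ℝ 2 c t) (hτ : ContDiffAt ℝ ∞ τ (c t))
    (hG₁ : DifferentiableAt ℝ G₁ (c t)) (hG₂ : DifferentiableAt ℝ G₂ (τ (c t)))
    (hs : ∀ v w, G₂ (τ (c t)) v w = G₂ (τ (c t)) w v)
    (hrel : ∀ᶠ y in 𝓝 (c t), ∀ v w, G₁ y v w = G₂ (τ y) (fderiv ℝ τ y v) (fderiv ℝ τ y w))
    (hsurj : ∀ w, ∃ v, fderiv ℝ τ (c t) v = w)
    (h : GeodEqF G₁ c t) : GeodEqF G₂ (fun s => τ (c s)) t := by
  obtain ⟨h1, h2⟩ := hasDerivAt_of_C2 hc
  have hc1 : HasDerivAt c (deriv c t) t := h1.self_of_nhds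
  have hcc : ContinuousAt c t := hc1.continuousAt
  -- derivatives of τ
  have hτ1 : ∀ᶠ y in 𝓝 (c t), HasFDerivAt τ (fderiv ℝ τ y) y := by
    have : ContDiffAt ℝ 1 τ (c t) := hτ.of_le (by simp)
    filter_upwards [this.eventually (by simp)] with y hy
    exact (hy.differentiableAt (by norm_num)).hasFDerivAt
  have hτ2 : HasFDerivAt (fderiv ℝ τ) (fderiv ℝ (fderiv ℝ τ) (c t)) (c t) := by
    have : ContDiffAt ℝ 1 (fderiv ℝ τ) (c t) := (hτ.of_le (m := 2) (by norm_cast)).fderiv_right (m := 1) (by norm_num)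
    exact (this.differentiableAt (by norm_num)).hasFDerivAt
  have hτ1' : HasFDerivAt τ (fderiv ℝ τ (c t)) (c t) := hτ1.self_of_nhds
  have hsymm : ∀ v w, fderiv ℝ (fderiv ℝ τ) (c t) v w = fderiv ℝ (fderiv ℝ τ) (c t) w v := by
    intro v w
    have h2' : ContDiffAt ℝ 2 τ (c t) := hτ.of_le (by norm_cast)
    exact (h2'.isSymmSndFDerivAt (by simp)) v w
  -- derivatives of d = τ ∘ c
  have hd1 : ∀ᶠ s in 𝓝 t, deriv (fun s => τ (c s)) s = fderiv ℝ τ (c s) (deriv c s) := by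
    filter_upwards [h1, hcc.eventually hτ1] with s hs1 hs2
    exact (hs2.comp_hasDerivAt s hs1).deriv
  have hd1' : deriv (fun s => τ (c s)) t = fderiv ℝ τ (c t) (deriv c t) := hd1.self_of_nhds
  have hd2 : deriv (deriv (fun s => τ (c s))) t =
      fderiv ℝ (fderiv ℝ τ) (c t) (deriv c t) (deriv c t) + fderiv ℝ τ (c t) (deriv (deriv c) t) := by
    have ha : HasDerivAt (fun s => fderiv ℝ τ (c s)) (fderiv ℝ (fderiv ℝ τ) (c t) (deriv c t)) t :=
      hτ2.comp_hasDerivAt t hc1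
    have hb := ha.clm_apply h2
    have hc' : deriv (fun s => τ (c s)) =ᶠ[𝓝 t] fun s => fderiv ℝ τ (c s) (deriv c s) := hd1
    rw [hc'.deriv_eq]
    exact hb.deriv
  -- derivative of the relation
  have hDG : ∀ h v w, fderiv ℝ G₁ (c t) h v w =
      fderiv ℝ G₂ (τ (c t)) (fderiv ℝ τ (c t) h) (fderiv ℝ τ (c t) v) (fderiv ℝ τ (c t) w)
      + G₂ (τ (c t)) (fderiv ℝ (fderiv ℝ τ) (c t) h v) (fderiv ℝ τ (c t) w)
      + G₂ (τ (c t)) (fderiv ℝ τ (c t) v) (fderiv ℝ (fderiv ℝ τ) (c t) h w) := by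
    intro h v w
    -- restrict to the line y = c t + r h
    have hline : HasDerivAt (fun r : ℝ => c t + r • h) h 0 := by
      have : HasDerivAt (fun r : ℝ => r • h) ((1 : ℝ) • h) 0 := (hasDerivAt_id (0 : ℝ)).smul_const h
      simpa using this.const_add (c t)
    have h00 : c t + (0 : ℝ) • h = c t := by simp
    have e1 : HasDerivAt (fun r : ℝ => G₁ (c t + r • h)) (fderiv ℝ G₁ (c t) h) 0 := by
      have : HasFDerivAt G₁ (fderiv ℝ G₁ (c t)) (c t + (0 : ℝ) • h) := by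
        rw [h00]; exact hG₁.hasFDerivAt
      exact HasFDerivAt.comp_hasDerivAt (l := G₁) (0 : ℝ) this hline
    have e2 : HasDerivAt (fun r : ℝ => G₁ (c t + r • h) v w) (fderiv ℝ G₁ (c t) h v w) 0 := by
      have := (e1.clm_apply (hasDerivAt_const (0 : ℝ) v)).clm_apply (hasDerivAt_const (0 : ℝ) w)
      simpa using this
    have f1 : HasDerivAt (fun r : ℝ => τ (c t + r • h)) (fderiv ℝ τ (c t) h) 0 := by
      have : HasFDerivAt τ (fderiv ℝ τ (c t)) (c t + (0 : ℝ) • h) := by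
        rw [h00]; exact hτ1'
      exact this.comp_hasDerivAt (0 : ℝ) hline
    have f2 : HasDerivAt (fun r : ℝ => G₂ (τ (c t + r • h)))
        (fderiv ℝ G₂ (τ (c t)) (fderiv ℝ τ (c t) h)) 0 := by
      have : HasFDerivAt G₂ (fderiv ℝ G₂ (τ (c t))) (τ (c t + (0 : ℝ) • h)) := by
        rw [h00]; exact hG₂.hasFDerivAt
      exact HasFDerivAt.comp_hasDerivAt (l := G₂) (0 : ℝ) this f1
    have f3 : HasDerivAt (fun r : ℝ => fderiv ℝ τ (c t + r • h)) (fderiv ℝ (fderiv ℝ τ) (c t) h) 0 := by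
      have : HasFDerivAt (fderiv ℝ τ) (fderiv ℝ (fderiv ℝ τ) (c t)) (c t + (0 : ℝ) • h) := by
        rw [h00]; exact hτ2
      exact this.comp_hasDerivAt (0 : ℝ) hline
    have f4 : ∀ u, HasDerivAt (fun r : ℝ => fderiv ℝ τ (c t + r • h) u)
        (fderiv ℝ (fderiv ℝ τ) (c t) h u) 0 := by
      intro u
      have := f3.clm_apply (hasDerivAt_const (0 : ℝ) u)
      simpa using this
    have f5 := (f2.clm_apply (f4 v)).clm_apply (f4 w)
    have hev : (fun r : ℝ => G₁ (c t + r • h) v w) =ᶠ[𝓝 0] fun r : ℝ =>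
        G₂ (τ (c t + r • h)) (fderiv ℝ τ (c t + r • h) v) (fderiv ℝ τ (c t + r • h) w) := by
      have : Tendsto (fun r : ℝ => c t + r • h) (𝓝 0) (𝓝 (c t)) := by
        have := hline.continuousAt.tendsto
        rwa [h00] at this
      filter_upwards [this.eventually hrel] with r hr
      exact hr v w
    have := e2.unique (f5.congr_of_eventuallyEq hev)
    rw [this]
    simp only [add_apply, zero_smul, add_zero]
  have hG12 : ∀ v w, G₁ (c t) v w = G₂ (τ (c t)) (fderiv ℝ τ (c t) v) (fderiv ℝ τ (c t) w) :=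
    hrel.self_of_nhds
  intro w'
  obtain ⟨w, rfl⟩ := hsurj w'
  have hgeo := h w
  rw [hd1', hd2]
  rw [hG12, hDG, hDG] at hgeo
  have hsa := hsymm w (deriv c t)
  have hsb := hs (fderiv ℝ (fderiv ℝ τ) (c t) (deriv c t) w) (fderiv ℝ τ (c t) (deriv c t))
  simp only [map_add, add_apply] at hgeo ⊢
  rw [hsa] at hgeo
  rw [hsb] at hgeo
  linarith

end Pool.Agent.H16.LL
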