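import Pool.Agent.H16.LL2

set_option autoImplicit false
open Set Filter Topology
open scoped ContDiff

namespace Pool.Agent.H16.LL

variable {V : Type*} [NormedAddCommGroup V] [NormedSpace ℝ V]

/-- the first-order part of the geodesic equation -/
noncomputable def chr (G : V → V →L[ℝ] V →L[ℝ] ℝ) (y v : V) : V →L[ℝ] ℝ :=
  (fderiv ℝ G y v) v - (1 / 2 : ℝ) • ((ContinuousLinearMap.apply ℝ ℝ v).comp
    ((ContinuousLinearMap.apply ℝ (V →L[ℝ] ℝ) v).comp (fderiv ℝ G y)))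

lemma chr_apply (G : V → V →L[ℝ] V →L[ℝ] ℝ) (y v w : V) :
    chr G y v w = (fderiv ℝ G y v) v w - (1 / 2) * (fderiv ℝ G y w) v v := by
  simp [chr]

lemma chr_smul (G : V → V →L[ℝ] V →L[ℝ] ℝ) (y v : V) (r : ℝ) :
    chr G y (r • v) = (r ^ 2) • chr G y v := by
  ext w
  rw [smul_apply, chr_apply, chr_apply]
  simp only [map_smul, smul_apply, smul_eq_mul]
  ring

lemma geodEqF_iff (G : V → V →L[ℝ] V →L[ℝ] ℝ) (c : ℝ → V) (t : ℝ) :
    GeodEqF G c t ↔ G (c t) (deriv (deriv c) t) = - chr G (c t) (deriv c t) := by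
  unfold GeodEqF
  constructor
  · intro h
    ext w
    have := h w
    rw [neg_apply, chr_apply]
    linarith
  · intro h w
    have := congrArg (fun L : V →L[ℝ] ℝ => L w) h
    simp only [neg_apply, chr_apply] at this
    linarith

/-- the geodesic spray -/
noncomputable def spr (G : V → V →L[ℝ] V →L[ℝ] ℝ) (y v : V) : V :=
  - (ContinuousLinearMap.inverse (G y)) (chr G y v)

lemma spr_smul (G : V → V →L[ℝ] V →L[ℝ] ℝ) (y v : V) (r : ℝ) :
    spr G y (r • v) = (r ^ 2) • spr G y v := by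
  unfold spr
  rw [chr_smul, map_smul, smul_neg]

lemma equiv_of_nondeg [FiniteDimensional ℝ V] (B : V →L[ℝ] V →L[ℝ] ℝ)
    (h : ∀ v, (∀ w, B v w = 0) → v = 0) :
    ∃ e : V ≃L[ℝ] (V →L[ℝ] ℝ), (e : V →L[ℝ] (V →L[ℝ] ℝ)) = B := by
  have hinj : Function.Injective (B : V →ₗ[ℝ] (V →L[ℝ] ℝ)) := by
    rw [injective_iff_map_eq_zero]
    intro v hv
    refine h v (fun w => ?_)
    have : B v = 0 := hv
    rw [this]; rfl
  have hfr : Module.finrank ℝ V = Module.finrank ℝ (V →L[ℝ] ℝ) := by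
    rw [← Subspace.dual_finrank_eq (K := ℝ) (V := V)]
    exact (LinearMap.toContinuousLinearMap (𝕜 := ℝ) (E := V) (F' := ℝ)).finrank_eq
  let e := LinearEquiv.ofInjectiveOfFinrankEq (B : V →ₗ[ℝ] (V →L[ℝ] ℝ)) hinj hfr
  refine ⟨e.toContinuousLinearEquiv, ?_⟩
  ext v w
  rfl

lemma spr_eq {G : V → V →L[ℝ] V →L[ℝ] ℝ} {y v a : V} (e : V ≃L[ℝ] (V →L[ℝ] ℝ))
    (he : (e : V →L[ℝ] (V →L[ℝ] ℝ)) = G y) (h : G y a = - chr G y v) : a = spr G y v := by
  unfold spr
  rw [← he, ContinuousLinearMap.inverse_equiv]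
  rw [← he] at h
  have h1 : e a = - chr G y v := h
  have h2 := congrArg e.symm h1
  rw [e.symm_apply_apply, map_neg] at h2
  exact h2

lemma G_spr {G : V → V →L[ℝ] V →L[ℝ] ℝ} {y v : V} (e : V ≃L[ℝ] (V →L[ℝ] ℝ))
    (he : (e : V →L[ℝ] (V →L[ℝ] ℝ)) = G y) : G y (spr G y v) = - chr G y v := by
  unfold spr
  rw [← he, ContinuousLinearMap.inverse_equiv, map_neg]
  congr 1
  exact e.apply_symm_apply _

set_option maxSynthPendingDepth 4 in
lemma chr_contDiffAt {G : V → V →L[ℝ] V →L[ℝ] ℝ} {y v : V} (hG : ContDiffAt ℝ ∞ G y) :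
    ContDiffAt ℝ 1 (fun p : V × V => chr G p.1 p.2) (y, v) := by
  have h1 : ContDiffAt ℝ 1 (fun p : V × V => fderiv ℝ G p.1) (y, v) := by
    have : ContDiffAt ℝ 1 (fderiv ℝ G) y :=
      (hG.of_le (m := 2) (by norm_cast)).fderiv_right (m := 1) (by norm_num)
    exact this.comp (y, v) contDiffAt_fst
  have h2 : ContDiffAt ℝ 1 (fun p : V × V => p.2) (y, v) := contDiffAt_snd
  have h3 := (h1.clm_apply h2).clm_apply h2
  have h4 : ContDiffAt ℝ 1 (fun p : V × V => ContinuousLinearMap.apply ℝ (V →L[ℝ] ℝ) p.2) (y, v) :=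
    (ContinuousLinearMap.apply ℝ (V →L[ℝ] ℝ)).contDiff.contDiffAt.comp (y, v) h2
  have h5 : ContDiffAt ℝ 1 (fun p : V × V => ContinuousLinearMap.apply ℝ ℝ p.2) (y, v) :=
    (ContinuousLinearMap.apply ℝ ℝ).contDiff.contDiffAt.comp (y, v) h2
  have h6 := h5.clm_comp (h4.clm_comp h1)
  exact h3.sub (h6.const_smul (1 / 2 : ℝ))

variable [FiniteDimensional ℝ V]

lemma spr_contDiffAt {G : V → V →L[ℝ] V →L[ℝ] ℝ} {y v : V} (hG : ContDiffAt ℝ ∞ G y)
    (hnd : ∀ v, (∀ w, G y v w = 0) → v = 0) :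
    ContDiffAt ℝ 1 (fun p : V × V => spr G p.1 p.2) (y, v) := by
  have : CompleteSpace V := FiniteDimensional.complete ℝ V
  obtain ⟨e, he⟩ := equiv_of_nondeg (G y) hnd
  have h1 : ContDiffAt ℝ 1 (fun p : V × V => G p.1) (y, v) :=
    (hG.of_le (m := 1) (by norm_cast)).comp (y, v) contDiffAt_fst
  have h2 : ContDiffAt ℝ 1 (fun p : V × V => ContinuousLinearMap.inverse (G p.1)) (y, v) := by
    have h3 : ContDiffAt ℝ 1 (ContinuousLinearMap.inverse : (V →L[ℝ] (V →L[ℝ] ℝ)) → _) (G y) := by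
      rw [← he]; exact contDiffAt_map_inverse e
    exact ContDiffAt.comp (y, v) h3 h1
  exact (h2.clm_apply (chr_contDiffAt hG)).neg

/-- local existence of geodesics in a chart -/
lemma exists_local {G : V → V →L[ℝ] V →L[ℝ] ℝ} {U : Set V} (hU : IsOpen U)
    (hG : ContDiffOn ℝ ∞ G U) (hnd : ∀ y ∈ U, ∀ v, (∀ w, G y v w = 0) → v = 0)
    {x : V} (hx : x ∈ U) (u : V) :
    ∃ ε > 0, ∃ c : ℝ → V, c 0 = x ∧ deriv c 0 = u ∧ ContDiffOn ℝ 2 c (Ioo (-ε) ε) ∧
      (∀ t ∈ Ioo (-ε) ε, c t ∈ U) ∧ ∀ t ∈ Ioo (-ε) ε, GeodEqF G c t := by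
  have : CompleteSpace V := FiniteDimensional.complete ℝ V
  have hGa : ∀ y ∈ U, ContDiffAt ℝ ∞ G y := fun y hy => hG.contDiffAt (hU.mem_nhds hy)
  set F : V × V → V × V := fun p => (p.2, spr G p.1 p.2) with hF
  have hFc : ContDiffAt ℝ 1 F (x, u) :=
    contDiffAt_snd.prodMk (spr_contDiffAt (hGa x hx) (hnd x hx))
  obtain ⟨α, hα0, ε, hε, hα⟩ :=
    hFc.exists_forall_mem_closedBall_exists_eq_forall_mem_Ioo_hasDerivAt₀ 0
  have hαc : ContinuousAt α 0 := (hα 0 (by constructor <;> linarith)).continuousAt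
  have hnhd : ∀ᶠ t in 𝓝 (0 : ℝ), (α t).1 ∈ U := by
    have : ContinuousAt (fun t => (α t).1) 0 := hαc.fst
    apply this.eventually_mem (hU.mem_nhds _)
    rw [hα0]; exact hx
  obtain ⟨δ, hδ, hδ'⟩ := Metric.eventually_nhds_iff.1 hnhd
  set r := min ε δ with hr
  have hrpos : 0 < r := lt_min hε hδ
  have hin : ∀ t ∈ Ioo (-r) r, (α t).1 ∈ U := by
    intro t ht
    apply hδ'
    rw [Real.dist_eq, sub_zero, abs_lt]
    exact ⟨by linarith [ht.1, min_le_right ε δ], by linarith [ht.2, min_le_right ε δ]⟩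
  have hd : ∀ t ∈ Ioo (-r) r, HasDerivAt α (F (α t)) t := by
    intro t ht
    apply hα
    exact ⟨by linarith [ht.1, min_le_left ε δ], by linarith [ht.2, min_le_left ε δ]⟩
  have hd1 : ∀ t ∈ Ioo (-r) r, HasDerivAt (fun t => (α t).1) (α t).2 t := fun t ht => (hd t ht).fst
  have hd2 : ∀ t ∈ Ioo (-r) r, HasDerivAt (fun t => (α t).2) (spr G (α t).1 (α t).2) t :=
    fun t ht => (hd t ht).snd
  have hde : ∀ t ∈ Ioo (-r) r, deriv (fun t => (α t).1) t = (α t).2 := fun t ht => (hd1 t ht).deriv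
  have hde2 : ∀ t ∈ Ioo (-r) r, deriv (deriv (fun t => (α t).1)) t = spr G (α t).1 (α t).2 := by
    intro t ht
    have : deriv (fun t => (α t).1) =ᶠ[𝓝 t] fun t => (α t).2 := by
      filter_upwards [isOpen_Ioo.mem_nhds ht] with s hs using hde s hs
    rw [this.deriv_eq]
    exact (hd2 t ht).deriv
  refine ⟨r, hrpos, fun t => (α t).1, by simp [hα0], ?_, ?_, hin, ?_⟩
  · rw [hde 0 ⟨by linarith, hrpos⟩, hα0]
  · have hsnd : ContDiffOn ℝ 1 (fun t => (α t).2) (Ioo (-r) r) := by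
      have : (1 : WithTop ℕ∞) = 0 + 1 := by norm_num
      rw [this, contDiffOn_succ_iff_deriv_of_isOpen isOpen_Ioo]
      refine ⟨fun t ht => (hd2 t ht).differentiableAt.differentiableWithinAt, by simp, ?_⟩
      rw [contDiffOn_zero]
      intro t ht
      have h1 : ContinuousAt (fun p : V × V => spr G p.1 p.2) (α t) :=
        (spr_contDiffAt (v := (α t).2) (hGa _ (hin t ht)) (hnd _ (hin t ht))).continuousAt
      have h2 : ContinuousAt (fun t => spr G (α t).1 (α t).2) t :=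
        ContinuousAt.comp (g := fun p : V × V => spr G p.1 p.2) h1 (hd t ht).continuousAt
      refine (h2.congr ?_).continuousWithinAt
      filter_upwards [isOpen_Ioo.mem_nhds ht] with s hs using (hd2 s hs).deriv.symm
    have : (2 : WithTop ℕ∞) = 1 + 1 := by norm_num
    rw [this, contDiffOn_succ_iff_deriv_of_isOpen isOpen_Ioo]
    refine ⟨fun t ht => (hd1 t ht).differentiableAt.differentiableWithinAt, by simp, ?_⟩
    exact hsnd.congr (fun t ht => hde t ht)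
  · intro t ht
    rw [geodEqF_iff, hde t ht, hde2 t ht]
    obtain ⟨e, he⟩ := equiv_of_nondeg (G (α t).1) (hnd _ (hin t ht))
    exact G_spr e he

end Pool.Agent.H16.LL
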