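import Pool.Agent.H16.LL1
import Pool.Agent.H16.LL3

set_option autoImplicit false
open Set Filter Topology
open scoped Manifold ContDiff

namespace Pool.Agent.H16.LL

universe u v
variable {E : Type u} [NormedAddCommGroup E] [NormedSpace ℝ E]
  {M : Type v} [TopologicalSpace M] [ChartedSpace E M]
  [IsManifold 𝓘(ℝ, E) ∞ M] [FiniteDimensional ℝ E]

omit [IsManifold 𝓘(ℝ, E) ∞ M] in
lemma coord_contDiffAt (g : SemiRiemannianMetric E M) (q : M) {y : E}
    (hy : y ∈ (extChartAt 𝓘(ℝ, E) q).target) : ContDiffAt ℝ ∞ (bilinCoord g.val q) y :=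
  (g.smooth q).contDiffAt ((isOpen_extChartAt_target q).mem_nhds hy)

omit [IsManifold 𝓘(ℝ, E) ∞ M] in
lemma form_contDiffAt (η : OneForm E M) (q : M) {y : E}
    (hy : y ∈ (extChartAt 𝓘(ℝ, E) q).target) : ContDiffAt ℝ ∞ (formCoord η.val q) y :=
  (η.smooth q).contDiffAt ((isOpen_extChartAt_target q).mem_nhds hy)

lemma trans_surj {q₁ q₂ : M} {y : E} (hy : y ∈ (extChartAt 𝓘(ℝ, E) q₁).target)
    (hy' : (extChartAt 𝓘(ℝ, E) q₁).symm y ∈ (extChartAt 𝓘(ℝ, E) q₂).source)
    (w : E) : ∃ v, fderiv ℝ (trans q₁ q₂) y v = w := by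
  have hz : trans q₁ q₂ y ∈ (extChartAt 𝓘(ℝ, E) q₂).target :=
    (extChartAt 𝓘(ℝ, E) q₂).map_source hy'
  obtain ⟨e₁, h11, h12⟩ := dParam_inv q₁ hy
  obtain ⟨e₂, h21, h22⟩ := dParam_inv q₂ hz
  refine ⟨e₁ (dParam q₂ (trans q₁ q₂ y) w), ?_⟩
  have h := h12 (dParam q₂ (trans q₁ q₂ y) w)
  rw [dParam_trans hy hy'] at h
  have h3 := congrArg e₂ h
  rw [h21, ContinuousLinearMap.comp_apply, h21] at h3
  exact h3

/-- existence of complete geodesics with prescribed initial velocity -/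
theorem exists_geodesic (g : SemiRiemannianMetric E M) (hg : g.Complete) (q : M) {x : E}
    (hx : x ∈ (extChartAt 𝓘(ℝ, E) q).target) (u : E) :
    ∃ γ : ℝ → M, g.IsGeodesicOn γ univ ∧ γ 0 = (extChartAt 𝓘(ℝ, E) q).symm x ∧
      deriv (inChart E q γ) 0 = u := by
  obtain ⟨ε, hε, c, hc0, hc1, hc2, hcU, hcg⟩ := exists_local (G := bilinCoord g.val q)
    (isOpen_extChartAt_target (I := 𝓘(ℝ, E)) q) (g.smooth q)
    (fun y hy => coord_nondeg g q hy) hx u
  set γ₀ : ℝ → M := fun t => (extChartAt 𝓘(ℝ, E) q).symm (c t) with hγ₀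
  have hgeo : g.IsGeodesicOn γ₀ (Ioo (-ε) ε) := by
    constructor
    · have h1 : ContMDiffOn 𝓘(ℝ, E) 𝓘(ℝ, E) 2 (extChartAt 𝓘(ℝ, E) q).symm
          (extChartAt 𝓘(ℝ, E) q).target :=
        (contMDiffOn_extChartAt_symm (n := ∞) q).of_le (by norm_cast)
      exact h1.comp hc2.contMDiffOn (fun t ht => hcU t ht)
    · intro t ht q₂ hq₂
      have hy := hcU t ht
      have hcc := (hc2 t ht).contDiffAt (isOpen_Ioo.mem_nhds ht)
      have hrel : ∀ᶠ y in 𝓝 (c t), ∀ v w, bilinCoord g.val q y v w =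
          bilinCoord g.val q₂ (trans q q₂ y) (fderiv ℝ (trans q q₂) y v)
            (fderiv ℝ (trans q q₂) y w) := by
        have e1 : ∀ᶠ y in 𝓝 (c t), y ∈ (extChartAt 𝓘(ℝ, E) q).target :=
          (isOpen_extChartAt_target q).mem_nhds hy
        have e2 : ∀ᶠ y in 𝓝 (c t), (extChartAt 𝓘(ℝ, E) q).symm y ∈
            (extChartAt 𝓘(ℝ, E) q₂).source :=
          (continuousAt_extChartAt_symm'' hy).eventually
            ((isOpen_extChartAt_source q₂).mem_nhds hq₂)
        filter_upwards [e1, e2] with y hy1 hy2 v w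
        exact bilinCoord_trans g.val hy1 hy2 v w
      have hz : trans q q₂ (c t) ∈ (extChartAt 𝓘(ℝ, E) q₂).target :=
        (extChartAt 𝓘(ℝ, E) q₂).map_source hq₂
      have := geodEqF_comp (G₂ := bilinCoord g.val q₂) hcc (trans_contDiffAt hy hq₂)
        ((coord_contDiffAt g q hy).differentiableAt (by simp))
        ((coord_contDiffAt g q₂ hz).differentiableAt (by simp))
        (fun v w => coord_symm g q₂ _ v w) hrel (trans_surj hy hq₂) (hcg t ht)
      exact (geodEq_iff_F ((coord_contDiffAt g q₂ hz).differentiableAt (by simp))).2 this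
  obtain ⟨γ, hγ, hγe⟩ := hg (-ε) ε γ₀ (by linarith) hgeo
  have h0 : (0 : ℝ) ∈ Ioo (-ε) ε := ⟨by linarith, hε⟩
  refine ⟨γ, hγ, ?_, ?_⟩
  · rw [hγe h0]; simp only [hγ₀]; rw [hc0]
  · have : inChart E q γ =ᶠ[𝓝 0] c := by
      filter_upwards [isOpen_Ioo.mem_nhds h0] with s hs
      unfold inChart
      rw [hγe hs]
      exact (extChartAt 𝓘(ℝ, E) q).right_inv (hcU s hs)
    rw [this.deriv_eq, hc1]

/-- conservation of the energy of a geodesic -/
theorem energy_const (g : SemiRiemannianMetric E M) {γ : ℝ → M} (hγ : g.IsGeodesicOn γ univ)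
    (t : ℝ) : g.val (γ t) (velocity E γ t) (velocity E γ t) =
      g.val (γ 0) (velocity E γ 0) (velocity E γ 0) := by
  have hd : ∀ t, HasDerivAt (fun s => (g.val (γ s) (velocity E γ s) (velocity E γ s) : ℝ)) 0 t := by
    intro t
    have hct : ∀ s, ContMDiffAt 𝓘(ℝ, ℝ) 𝓘(ℝ, E) 2 γ s :=
      fun s => hγ.1.contMDiffAt univ_mem
    have hsrc : γ t ∈ (extChartAt 𝓘(ℝ, E) (γ t)).source := mem_extChartAt_source _
    have hy : inChart E (γ t) γ t ∈ (extChartAt 𝓘(ℝ, E) (γ t)).target :=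
      (extChartAt 𝓘(ℝ, E) (γ t)).map_source hsrc
    have hev : ∀ᶠ s in 𝓝 t, γ s ∈ (extChartAt 𝓘(ℝ, E) (γ t)).source :=
      (hct t).continuousAt.eventually ((isOpen_extChartAt_source (γ t)).mem_nhds hsrc)
    have h1 := energy_deriv (G := bilinCoord g.val (γ t)) (c := inChart E (γ t) γ) (t := t)
      ((coord_contDiffAt g (γ t) hy).differentiableAt (by simp))
      (fun v w => coord_symm g (γ t) _ v w) (inChart_contDiffAt (hct t) hsrc)
      ((geodEq_iff_F ((coord_contDiffAt g (γ t) hy).differentiableAt (by simp))).1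
        (hγ.2 t (mem_univ _) (γ t) hsrc))
    refine h1.congr_of_eventuallyEq ?_
    filter_upwards [hev] with s hs
    exact metric_velocity g (hct s) hs
  have := is_const_of_deriv_eq_zero (f := fun s => (g.val (γ s) (velocity E γ s) (velocity E γ s) : ℝ))
    (fun t => (hd t).differentiableAt) (fun t => (hd t).deriv) t 0
  exact this

end Pool.Agent.H16.LL
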