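import Pool.Agent.H16.LL4

set_option autoImplicit false
open Set Filter Topology
open scoped Manifold ContDiff

namespace Pool.Agent.H16.LL

universe u v
variable {E : Type u} [NormedAddCommGroup E] [NormedSpace ℝ E]
  {M : Type v} [TopologicalSpace M] [ChartedSpace E M]
  [IsManifold 𝓘(ℝ, E) ∞ M] [FiniteDimensional ℝ E]

/-- `(∇_v η)(v)` in a chart -/
noncomputable def slope (g : SemiRiemannianMetric E M) (η : OneForm E M) (q : M) (y v : E) :
    ℝ :=
  (fderiv ℝ (formCoord η.val q) y v) v + formCoord η.val q y (spr (bilinCoord g.val q) y v)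

omit [IsManifold 𝓘(ℝ, E) ∞ M] in
lemma slope_smul (g : SemiRiemannianMetric E M) (η : OneForm E M) (q : M) (y v : E) (r : ℝ) :
    slope g η q y (r • v) = r ^ 2 * slope g η q y v := by
  unfold slope
  rw [spr_smul]
  simp only [map_smul, smul_apply, smul_eq_mul]
  ring

lemma slope_continuousAt (g : SemiRiemannianMetric E M) (η : OneForm E M) (q : M) {y : E}
    (hy : y ∈ (extChartAt 𝓘(ℝ, E) q).target) (v : E) :
    ContinuousAt (fun p : E × E => slope g η q p.1 p.2) (y, v) := by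
  have h1 : ContDiffAt ℝ 1 (fun p : E × E => fderiv ℝ (formCoord η.val q) p.1) (y, v) := by
    have : ContDiffAt ℝ 1 (fderiv ℝ (formCoord η.val q)) y :=
      ((form_contDiffAt η q hy).of_le (m := 2) (by norm_cast)).fderiv_right (m := 1) (by norm_num)
    exact this.comp (y, v) contDiffAt_fst
  have h2 : ContDiffAt ℝ 1 (fun p : E × E => p.2) (y, v) := contDiffAt_snd
  have h3 := (h1.clm_apply h2).clm_apply h2
  have h4 := spr_contDiffAt (v := v) (coord_contDiffAt g q hy) (coord_nondeg g q hy)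
  have h5 : ContDiffAt ℝ 1 (fun p : E × E => formCoord η.val q p.1) (y, v) :=
    ((form_contDiffAt η q hy).of_le (m := 1) (by norm_cast)).comp (y, v) contDiffAt_fst
  exact (h3.add (h5.clm_apply h4)).continuousAt

lemma slope_eq (g : SemiRiemannianMetric E M) (η : OneForm E M) {γ : ℝ → M}
    (hγ : g.IsGeodesicOn γ univ) {C₁ C₂ : ℝ}
    (h : ∀ t : ℝ, η.val (γ t) (velocity E γ t) = C₁ * t + C₂) {q : M} {t : ℝ}
    (ht : γ t ∈ (extChartAt 𝓘(ℝ, E) q).source) :
    slope g η q (inChart E q γ t) (deriv (inChart E q γ) t) = C₁ := by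
  have hct : ∀ s, ContMDiffAt 𝓘(ℝ, ℝ) 𝓘(ℝ, E) 2 γ s :=
    fun s => hγ.1.contMDiffAt univ_mem
  have hy : inChart E q γ t ∈ (extChartAt 𝓘(ℝ, E) q).target :=
    (extChartAt 𝓘(ℝ, E) q).map_source ht
  have hev : ∀ᶠ s in 𝓝 t, γ s ∈ (extChartAt 𝓘(ℝ, E) q).source :=
    (hct t).continuousAt.eventually ((isOpen_extChartAt_source q).mem_nhds ht)
  obtain ⟨h1, h2⟩ := hasDerivAt_of_C2 (inChart_contDiffAt (hct t) ht)
  have hc1 : HasDerivAt (inChart E q γ) (deriv (inChart E q γ) t) t := h1.self_of_nhds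
  have hH : HasFDerivAt (formCoord η.val q) (fderiv ℝ (formCoord η.val q) (inChart E q γ t))
      (inChart E q γ t) := ((form_contDiffAt η q hy).differentiableAt (by simp)).hasFDerivAt
  have h4 : HasDerivAt (fun s => formCoord η.val q (inChart E q γ s))
      (fderiv ℝ (formCoord η.val q) (inChart E q γ t) (deriv (inChart E q γ) t)) t :=
    HasFDerivAt.comp_hasDerivAt (l := formCoord η.val q) t hH hc1
  have h5 := h4.clm_apply h2
  have h6 : HasDerivAt (fun s : ℝ => C₁ * s + C₂) C₁ t := by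
    simpa using ((hasDerivAt_id t).const_mul C₁).add_const C₂
  have h7 : (fun s => formCoord η.val q (inChart E q γ s) (deriv (inChart E q γ) s)) =ᶠ[𝓝 t]
      fun s : ℝ => C₁ * s + C₂ := by
    filter_upwards [hev] with s hs
    rw [← form_velocity η (hct s) hs]
    exact h s
  have h8 := h5.unique (h6.congr_of_eventuallyEq h7)
  have h9 : deriv (deriv (inChart E q γ)) t =
      spr (bilinCoord g.val q) (inChart E q γ t) (deriv (inChart E q γ) t) := by
    obtain ⟨e, he⟩ := equiv_of_nondeg (bilinCoord g.val q (inChart E q γ t)) (coord_nondeg g q hy)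
    exact spr_eq e he ((geodEqF_iff _ _ _).1 ((geodEq_iff_F
      ((coord_contDiffAt g q hy).differentiableAt (by simp))).1 (hγ.2 t (mem_univ _) q ht)))
  unfold slope
  rw [← h9]
  exact h8

/-- light-like geodesics with prescribed initial velocity -/
lemma exists_lightlike (g : SemiRiemannianMetric E M) (hg : g.Complete) (q : M) {x : E}
    (hx : x ∈ (extChartAt 𝓘(ℝ, E) q).target) {u : E} (hu : u ≠ 0)
    (hnull : bilinCoord g.val q x u u = 0) :
    ∃ γ : ℝ → M, g.IsLightLikeGeodesic γ ∧ γ 0 ∈ (extChartAt 𝓘(ℝ, E) q).source ∧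
      inChart E q γ 0 = x ∧ deriv (inChart E q γ) 0 = u := by
  obtain ⟨γ, hγ, h0, h1⟩ := exists_geodesic g hg q hx u
  have hsrc : γ 0 ∈ (extChartAt 𝓘(ℝ, E) q).source := by
    rw [h0]; exact (extChartAt 𝓘(ℝ, E) q).map_target hx
  have hx0 : inChart E q γ 0 = x := by
    unfold inChart
    rw [h0]; exact (extChartAt 𝓘(ℝ, E) q).right_inv hx
  refine ⟨γ, ⟨hγ, ?_, fun t => ?_⟩, hsrc, hx0, h1⟩
  · rintro ⟨p, hp⟩
    apply hu
    rw [← h1]
    have : inChart E q γ = fun _ => extChartAt 𝓘(ℝ, E) q p := by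
      funext t; unfold inChart; rw [hp t]
    rw [this, deriv_const]
  · rw [energy_const g hγ t, metric_velocity g (hγ.1.contMDiffAt univ_mem) hsrc, hx0, h1]
    exact hnull

lemma exists_null {V : Type*} [NormedAddCommGroup V] [NormedSpace ℝ V]
    (B : V →L[ℝ] V →L[ℝ] ℝ)
    {v w : V} (hv : B v v < 0) (hw : 0 < B w w) :
    ∃ u, u ≠ 0 ∧ B u u = 0 := by
  have hc : Continuous (fun s : ℝ => B ((1 - s) • v + s • w) ((1 - s) • v + s • w)) := by
    fun_prop
  have h0 : B ((1 - (0 : ℝ)) • v + (0 : ℝ) • w) ((1 - (0 : ℝ)) • v + (0 : ℝ) • w) = B v v := by simp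
  have h1 : B ((1 - (1 : ℝ)) • v + (1 : ℝ) • w) ((1 - (1 : ℝ)) • v + (1 : ℝ) • w) = B w w := by simp
  have := intermediate_value_Icc (zero_le_one' ℝ) hc.continuousOn
  obtain ⟨s, hs1, hs2⟩ := this (show (0 : ℝ) ∈ Icc _ _ by
    simp only [h0, h1]; exact ⟨hv.le, hw.le⟩)
  refine ⟨(1 - s) • v + s • w, ?_, hs2⟩
  intro hz
  -- (1-s) v = - s w
  have h2 : (1 - s) • v = -(s • w) := eq_neg_of_add_eq_zero_left hz
  have h3 : (1 - s) ^ 2 * B v v = s ^ 2 * B w w := by
    have e1 : B ((1 - s) • v) ((1 - s) • v) = (1 - s) ^ 2 * B v v := by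
      simp only [map_smul, smul_apply, smul_eq_mul]; ring
    have e2 : B (-(s • w)) (-(s • w)) = s ^ 2 * B w w := by
      simp only [map_neg, neg_apply, map_smul, smul_apply, smul_eq_mul]; ring
    rw [← e1, ← e2, h2]
  have h4 : (1 - s) ^ 2 * B v v ≤ 0 := mul_nonpos_of_nonneg_of_nonpos (sq_nonneg _) hv.le
  have h5 : 0 ≤ s ^ 2 * B w w := mul_nonneg (sq_nonneg _) hw.le
  have h6 : s ^ 2 * B w w = 0 := le_antisymm (by linarith) h5
  have h7 : (1 - s) ^ 2 * B v v = 0 := by linarith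
  have h8 : s = 0 := by
    rcases mul_eq_zero.1 h6 with h | h
    · exact pow_eq_zero_iff (two_ne_zero) |>.1 h
    · linarith
  have h9 : 1 - s = 0 := by
    rcases mul_eq_zero.1 h7 with h | h
    · exact pow_eq_zero_iff (two_ne_zero) |>.1 h
    · linarith
  linarith

lemma tendsto_bilin {V : Type*} [NormedAddCommGroup V] [NormedSpace ℝ V] {ι : Type*}
    {l : Filter ι} {B : ι → V →L[ℝ] V →L[ℝ] ℝ} {B₀ : V →L[ℝ] V →L[ℝ] ℝ} {u : ι → V} {a : V}
    (hB : Tendsto B l (𝓝 B₀)) (hu : Tendsto u l (𝓝 a)) :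
    Tendsto (fun i => B i (u i) (u i)) l (𝓝 (B₀ a a)) := by
  have key : Continuous (fun z : (V →L[ℝ] V →L[ℝ] ℝ) × V => z.1 z.2 z.2) := by
    fun_prop
  exact (key.tendsto (B₀, a)).comp (hB.prodMk_nhds hu)

theorem main [CompactSpace M] (g : SemiRiemannianMetric E M) (hg : g.Complete)
    (hi : ∃ x, g.IndefiniteAt x) (η : OneForm E M) :
    ∃ γ : ℝ → M, g.IsLightLikeGeodesic γ ∧
      ¬ ∃ C₁ C₂ : ℝ, C₁ ≠ 0 ∧ ∀ t : ℝ, η.val (γ t) (velocity E γ t) = C₁ * t + C₂ := by
  by_contra hcon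
  push Not at hcon
  -- a null vector
  obtain ⟨x, v, w, hv, hw⟩ := hi
  have hxs : x ∈ (extChartAt 𝓘(ℝ, E) x).source := mem_extChartAt_source x
  have hxt : extChartAt 𝓘(ℝ, E) x x ∈ (extChartAt 𝓘(ℝ, E) x).target :=
    (extChartAt 𝓘(ℝ, E) x).map_source hxs
  obtain ⟨e, he1, he2⟩ := dParam_inv x hxt
  have hval : ∀ a : E, bilinCoord g.val x (extChartAt 𝓘(ℝ, E) x x) (e a) (e a) =
      (g.val x : E →L[ℝ] E →L[ℝ] ℝ) a a := by
    intro a
    rw [bilinCoord_apply, he2]
    exact val_congr g.val ((extChartAt 𝓘(ℝ, E) x).left_inv hxs) a a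
  obtain ⟨u, hu, hnull⟩ := exists_null (bilinCoord g.val x (extChartAt 𝓘(ℝ, E) x x))
    (v := e v) (w := e w)
    (lt_of_eq_of_lt (hval v) hv) (lt_of_lt_of_eq hw (hval w).symm)
  obtain ⟨γ, hγ, -, -, -⟩ := exists_lightlike g hg x hxt hu hnull
  obtain ⟨C₁, C₂, hC, hη⟩ := hcon γ hγ
  have hct : ∀ s, ContMDiffAt 𝓘(ℝ, ℝ) 𝓘(ℝ, E) 2 γ s :=
    fun s => hγ.1.1.contMDiffAt univ_mem
  -- an ultrafilter limit
  let F : Ultrafilter ℝ := Ultrafilter.of atTop
  have hF : (F : Filter ℝ) ≤ atTop := Ultrafilter.of_le atTop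
  obtain ⟨p, -, hp⟩ := isCompact_univ.ultrafilter_le_nhds (F.map γ) (by simp)
  have hp' : Tendsto γ F (𝓝 p) := hp
  have hps : p ∈ (extChartAt 𝓘(ℝ, E) p).source := mem_extChartAt_source p
  have hpt : extChartAt 𝓘(ℝ, E) p p ∈ (extChartAt 𝓘(ℝ, E) p).target :=
    (extChartAt 𝓘(ℝ, E) p).map_source hps
  have hsrc : ∀ᶠ t in F, γ t ∈ (extChartAt 𝓘(ℝ, E) p).source :=
    hp'.eventually ((isOpen_extChartAt_source p).mem_nhds hps)
  have hc : Tendsto (inChart E p γ) F (𝓝 (extChartAt 𝓘(ℝ, E) p p)) :=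
    (continuousAt_extChartAt p).tendsto.comp hp'
  set c := inChart E p γ with hcdef
  set x₀ := extChartAt 𝓘(ℝ, E) p p with hx₀
  -- the norm of the velocity tends to infinity
  have hHc : Tendsto (fun t => formCoord η.val p (c t)) F (𝓝 (formCoord η.val p x₀)) :=
    (form_contDiffAt η p hpt).continuousAt.tendsto.comp hc
  have hB : ∀ᶠ t in F, ‖formCoord η.val p (c t)‖ < ‖formCoord η.val p x₀‖ + 1 :=
    hHc.norm.eventually_lt_const (by linarith)
  set B := ‖formCoord η.val p x₀‖ + 1 with hBdef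
  have hBpos : 0 < B := by positivity
  have hN : ∀ᶠ t in F, |C₁ * t + C₂| / B ≤ ‖deriv c t‖ := by
    filter_upwards [hsrc, hB] with t ht1 ht2
    rw [div_le_iff₀ hBpos, ← hη t, form_velocity η (hct t) ht1]
    calc |formCoord η.val p (c t) (deriv c t)| ≤ ‖formCoord η.val p (c t)‖ * ‖deriv c t‖ :=
          (formCoord η.val p (c t)).le_opNorm _
      _ ≤ B * ‖deriv c t‖ := by gcongr
      _ = ‖deriv c t‖ * B := mul_comm _ _
  have hlin : Tendsto (fun t : ℝ => |C₁ * t + C₂| / B) atTop atTop := by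
    apply Tendsto.atTop_div_const hBpos
    rcases lt_or_gt_of_ne hC with h | h
    · have : Tendsto (fun t : ℝ => C₁ * t + C₂) atTop atBot :=
        tendsto_atBot_add_const_right _ _ ((tendsto_const_mul_atBot_of_neg h).2 tendsto_id)
      exact tendsto_abs_atBot_atTop.comp this
    · have : Tendsto (fun t : ℝ => C₁ * t + C₂) atTop atTop :=
        tendsto_atTop_add_const_right _ _ ((tendsto_const_mul_atTop_of_pos h).2 tendsto_id)
      exact tendsto_abs_atTop_atTop.comp this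
  have hNinf : Tendsto (fun t => ‖deriv c t‖) F atTop :=
    tendsto_atTop_mono' _ hN (hlin.mono_left hF)
  have hNpos : ∀ᶠ t in F, 0 < ‖deriv c t‖ := hNinf.eventually_gt_atTop 0
  -- unit vectors
  set U : ℝ → E := fun t => ‖deriv c t‖⁻¹ • deriv c t with hUdef
  have hU1 : ∀ t, U t ∈ Metric.closedBall (0 : E) 1 := by
    intro t
    rw [mem_closedBall_zero_iff, hUdef]
    simp only
    rw [norm_smul, norm_inv, norm_norm]
    exact inv_mul_le_one
  obtain ⟨a, -, ha⟩ := (isCompact_closedBall (0 : E) 1).ultrafilter_le_nhds (F.map U)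
    (by
      rw [le_principal_iff]
      exact Ultrafilter.mem_map.2 (Filter.Eventually.of_forall hU1))
  have ha' : Tendsto U F (𝓝 a) := ha
  have hUn : ∀ᶠ t in F, ‖U t‖ = 1 := by
    filter_upwards [hNpos] with t ht
    rw [hUdef]; simp only
    rw [norm_smul, norm_inv, norm_norm, inv_mul_cancel₀ ht.ne']
  have han : ‖a‖ = 1 := by
    refine tendsto_nhds_unique (ha'.norm) ?_
    exact (tendsto_const_nhds).congr' (hUn.mono (fun t ht => ht.symm))
  have ha0 : a ≠ 0 := by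
    intro h; rw [h, norm_zero] at han; exact zero_ne_one han
  -- the limit is null
  have hGc : Tendsto (fun t => bilinCoord g.val p (c t) (U t) (U t)) F
      (𝓝 (bilinCoord g.val p x₀ a a)) := by
    have h1 : Tendsto (fun t => bilinCoord g.val p (c t)) F (𝓝 (bilinCoord g.val p x₀)) :=
      (coord_contDiffAt g p hpt).continuousAt.tendsto.comp hc
    exact tendsto_bilin h1 ha'
  have hanull : bilinCoord g.val p x₀ a a = 0 := by
    refine tendsto_nhds_unique hGc ?_
    refine (tendsto_const_nhds (x := (0 : ℝ))).congr' ?_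
    filter_upwards [hsrc] with t ht
    have h1 := hγ.2.2 t
    rw [metric_velocity g (hct t) ht] at h1
    simp only [hUdef, map_smul, smul_apply, smul_eq_mul]
    rw [show bilinCoord g.val p (c t) (deriv c t) (deriv c t) = 0 from h1]
    ring
  -- the slope at the limit is zero
  have hS : Tendsto (fun t => slope g η p (c t) (U t)) F (𝓝 (slope g η p x₀ a)) := by
    have := (slope_continuousAt g η p hpt a).tendsto.comp (hc.prodMk_nhds ha')
    exact this
  have hS0 : slope g η p x₀ a = 0 := by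
    refine tendsto_nhds_unique hS ?_
    have h1 : Tendsto (fun t => (‖deriv c t‖⁻¹) ^ 2 * C₁) F (𝓝 (0 ^ 2 * C₁)) :=
      ((tendsto_inv_atTop_zero.comp hNinf).pow 2).mul_const C₁
    simp only [ne_eq, OfNat.ofNat_ne_zero, not_false_eq_true, zero_pow, zero_mul] at h1
    refine h1.congr' ?_
    filter_upwards [hsrc] with t ht
    rw [hUdef]; simp only
    rw [slope_smul, slope_eq g η hγ.1 hη ht]
  -- contradiction
  obtain ⟨γ₂, hγ₂, h2s, h20, h21⟩ := exists_lightlike g hg p hpt ha0 hanull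
  obtain ⟨D₁, D₂, hD, hη₂⟩ := hcon γ₂ hγ₂
  apply hD
  rw [← slope_eq g η hγ₂.1 hη₂ h2s, h20, h21, hS0]

end Pool.Agent.H16.LL
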