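import Mathlib

/-!
Semi-Riemannian metrics, 1-forms and geodesics on a smooth manifold without boundary, in the
language of charts.  The model space `E` is a (finite-dimensional) real normed space.  (In Mathlib
the tangent space `TangentSpace 𝓘(ℝ, E) x` is by definition a copy of the model space `E`.)
-/

set_option autoImplicit false
open Set Filter Topology
open scoped Manifold ContDiff

namespace Pool.Agent.H16.LL

universe u v

section

variable {E : Type u} [NormedAddCommGroup E] [NormedSpace ℝ E]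
variable {M : Type v} [TopologicalSpace M] [ChartedSpace E M]

/-- For `y` in the target of the chart `φ = extChartAt q` of `M` at `q`: the differential at `y` of
the local parametrisation `φ⁻¹`, a linear map from `E` to the tangent space of `M` at `φ⁻¹ y`. -/
noncomputable def dParam (q : M) (y : E) : E →L[ℝ] E :=
  mfderiv 𝓘(ℝ, E) 𝓘(ℝ, E) (extChartAt 𝓘(ℝ, E) q).symm y

/-- The coefficients of a field `B` of bilinear forms on the tangent spaces of `M` in the chart `φ`
at `q`: at `y` in the target of `φ`, the bilinear form `(v, w) ↦ B (dφ⁻¹ v) (dφ⁻¹ w)` on `E`. -/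
noncomputable def bilinCoord
    (B : ∀ x : M, TangentSpace 𝓘(ℝ, E) x →L[ℝ] TangentSpace 𝓘(ℝ, E) x →L[ℝ] ℝ)
    (q : M) (y : E) : E →L[ℝ] E →L[ℝ] ℝ :=
  ContinuousLinearMap.bilinearComp (E := E) (F := E)
    (B ((extChartAt 𝓘(ℝ, E) q).symm y)) (dParam q y) (dParam q y)

/-- The coefficients of a 1-form `η` on `M` in the chart `φ` at `q`: at `y` in the target of `φ`,
the linear form `v ↦ η (dφ⁻¹ v)` on `E`. -/
noncomputable def formCoord (η : ∀ x : M, TangentSpace 𝓘(ℝ, E) x →L[ℝ] ℝ)
    (q : M) (y : E) : E →L[ℝ] ℝ :=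
  ContinuousLinearMap.comp (M₂ := E) (η ((extChartAt 𝓘(ℝ, E) q).symm y)) (dParam q y)

variable (E M) in
/-- A smooth semi-Riemannian metric on `M`: a symmetric nondegenerate bilinear form on
every tangent space, whose coefficients are smooth in every chart of `M`. -/
structure SemiRiemannianMetric where
  /-- the bilinear form on the tangent space at `x` -/
  val : ∀ x : M, TangentSpace 𝓘(ℝ, E) x →L[ℝ] TangentSpace 𝓘(ℝ, E) x →L[ℝ] ℝ
  symm : ∀ (x : M) (v w : TangentSpace 𝓘(ℝ, E) x), val x v w = val x w v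
  nondeg : ∀ (x : M) (v : TangentSpace 𝓘(ℝ, E) x), (∀ w, val x v w = 0) → v = 0
  smooth : ∀ q : M, ContDiffOn ℝ ∞ (bilinCoord val q) (extChartAt 𝓘(ℝ, E) q).target

variable (E M) in
/-- A smooth 1-form on `M`: a linear form on every tangent space, whose coefficients are smooth in
every chart of `M`. -/
structure OneForm where
  /-- the linear form on the tangent space at `x` -/
  val : ∀ x : M, TangentSpace 𝓘(ℝ, E) x →L[ℝ] ℝ
  smooth : ∀ q : M, ContDiffOn ℝ ∞ (formCoord val q) (extChartAt 𝓘(ℝ, E) q).target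

variable (E) in
/-- The velocity `γ'(t)` of a curve `γ : ℝ → M`, a tangent vector of `M` at `γ t`. -/
noncomputable def velocity (γ : ℝ → M) (t : ℝ) : TangentSpace 𝓘(ℝ, E) (γ t) :=
  mfderiv 𝓘(ℝ, ℝ) 𝓘(ℝ, E) γ t (1 : ℝ)

variable (E) in
/-- The curve `γ` in the chart of `M` at `q`. -/
noncomputable def inChart (q : M) (γ : ℝ → M) (t : ℝ) : E :=
  extChartAt 𝓘(ℝ, E) q (γ t)

/-- The geodesic equation at time `t` for a curve `c` in an open subset of `E`, with respect to a
metric with coefficients `G`: `G_c(c'', w) + (∂_{c'} G)(c', w) - ½ (∂_w G)(c', c') = 0` for all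
`w`, where `∂_u` is the directional derivative in the direction `u`; that is
`c''ᵏ + Γᵏᵢⱼ c'ⁱ c'ʲ = 0` with the Christoffel symbols
`Γᵏᵢⱼ = ½ Gᵏˡ (∂ᵢ G_{jl} + ∂ⱼ G_{il} - ∂_l G_{ij})` of the Levi-Civita connection
(with the index `k` lowered by `G`). -/
def GeodEq (G : E → E →L[ℝ] E →L[ℝ] ℝ) (c : ℝ → E) (t : ℝ) : Prop :=
  ∀ w : E, G (c t) (deriv (deriv c) t) w
    + lineDeriv ℝ (fun y => G y (deriv c t) w) (c t) (deriv c t)
    - (1 / 2) * lineDeriv ℝ (fun y => G y (deriv c t) (deriv c t)) (c t) w = 0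

/-- `γ` is a geodesic of the metric `g` on the open set of times `J`: it is of class `C²` there and
in every chart of `M` the coordinate curve satisfies the geodesic equation. -/
def SemiRiemannianMetric.IsGeodesicOn (g : SemiRiemannianMetric E M) (γ : ℝ → M) (J : Set ℝ) :
    Prop :=
  ContMDiffOn 𝓘(ℝ, ℝ) 𝓘(ℝ, E) 2 γ J ∧
    ∀ t ∈ J, ∀ q : M, γ t ∈ (extChartAt 𝓘(ℝ, E) q).source →
      GeodEq (bilinCoord g.val q) (inChart E q γ) t

/-- `g` is (geodesically) complete: every geodesic `(a, b) → M` extends to a geodesic `ℝ → M`. -/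
def SemiRiemannianMetric.Complete (g : SemiRiemannianMetric E M) : Prop :=
  ∀ (a b : ℝ) (γ : ℝ → M), a < b → g.IsGeodesicOn γ (Ioo a b) →
    ∃ γ' : ℝ → M, g.IsGeodesicOn γ' univ ∧ EqOn γ' γ (Ioo a b)

/-- `g` is indefinite at the point `x`. -/
def SemiRiemannianMetric.IndefiniteAt (g : SemiRiemannianMetric E M) (x : M) : Prop :=
  ∃ v w : TangentSpace 𝓘(ℝ, E) x, g.val x v v < 0 ∧ 0 < g.val x w w

/-- `γ : ℝ → M` is a light-like geodesic: a non-constant geodesic with `g(γ', γ') = 0`. -/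
def SemiRiemannianMetric.IsLightLikeGeodesic (g : SemiRiemannianMetric E M) (γ : ℝ → M) : Prop :=
  g.IsGeodesicOn γ univ ∧ (¬ ∃ p : M, ∀ t, γ t = p) ∧
    ∀ t : ℝ, g.val (γ t) (velocity E γ t) (velocity E γ t) = 0

end

end Pool.Agent.H16.LL
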