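import Mathlib

set_option autoImplicit false
open Finset Matrix Classical

namespace Pool.Agent.H16.NW

section general
variable {V : Type} [Fintype V] [DecidableEq V]

/-- total neighbour weight -/
noncomputable def nb (G : SimpleGraph V) (W : V → ℝ) (u : V) : ℝ :=
  ∑ w : V, if G.Adj u w then W w else 0

noncomputable def KK (G : SimpleGraph V) (W : V → ℝ) : Matrix V V ℝ :=
  Matrix.of (fun u v : V => (if u = v then (1/2 : ℝ) else 0) +
            (if G.Adj u v then W v / (2 * (∑ w : V, if G.Adj u w then W w else 0)) else 0))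

noncomputable def st (G : SimpleGraph V) (W : V → ℝ) (y : V) : ℝ :=
  W y * (∑ w : V, if G.Adj y w then W w else 0) /
              (∑ z : V, W z * (∑ w : V, if G.Adj z w then W w else 0))

noncomputable def TV (G : SimpleGraph V) (W : V → ℝ) (t : ℕ) (x : V) : ℝ :=
  (1/2 : ℝ) * ∑ y : V, |((KK G W) ^ t) x y - st G W y|

end general

/-- transport to another type -/
lemma TV_transport {V U : Type} [Fintype V] [DecidableEq V] [Fintype U] [DecidableEq U]
    (e : U ≃ V) (G : SimpleGraph V) (W : V → ℝ) (t : ℕ) (x : U) :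
    TV (G.comap e) (fun u => W (e u)) t x = TV G W t (e x) := by
  have hs : ∀ u : U, (∑ w : U, if (G.comap e).Adj u w then W (e w) else 0) =
      ∑ w : V, if G.Adj (e u) w then W w else 0 := by
    intro u
    rw [← Equiv.sum_comp e]
    rfl
  have hK : KK (G.comap e) (fun u => W (e u)) = (KK G W).submatrix e e := by
    ext u v
    simp only [KK, Matrix.of_apply, Matrix.submatrix_apply, hs]
    have h1 : (u = v) ↔ (e u = e v) := e.injective.eq_iff.symm
    have h2 : (G.comap e).Adj u v ↔ G.Adj (e u) (e v) := Iff.rfl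
    simp only [h1, h2]
  have hpow : ∀ n : ℕ, ((KK G W).submatrix e e) ^ n = ((KK G W) ^ n).submatrix e e := by
    intro n
    induction n with
    | zero => simp
    | succ n ih => rw [pow_succ, pow_succ, ih, Matrix.submatrix_mul_equiv]
  have hst : ∀ u : U, st (G.comap e) (fun u => W (e u)) u = st G W (e u) := by
    intro u
    unfold st
    simp only [hs]
    rw [← Equiv.sum_comp e (fun z => W z * (∑ w : V, if G.Adj z w then W w else 0))]
  unfold TV
  rw [hK, hpow, ← Equiv.sum_comp e (fun y => |((KK G W) ^ t) (e x) y - st G W y|)]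
  simp only [Matrix.submatrix_apply, hst]

section cont
variable {V : Type} [Fintype V] [DecidableEq V]

/-- rescaled kernel, meaningful at `u = 0` -/
noncomputable def Kh (G : SimpleGraph V) (a : V → ℝ) (dep D : V → ℕ) (u : ℝ) : Matrix V V ℝ :=
  Matrix.of (fun x y : V => (if x = y then (1/2 : ℝ) else 0) +
    (if G.Adj x y then a y * u ^ (dep y - D x) /
      (2 * (∑ w : V, if G.Adj x w then a w * u ^ (dep w - D x) else 0)) else 0))

lemma Kh_eq (G : SimpleGraph V) (a : V → ℝ) (dep D : V → ℕ)
    (hD : ∀ x y, G.Adj x y → D x ≤ dep y) (u : ℝ) (hu : 0 < u) :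
    KK G (fun v => a v * u ^ dep v) = Kh G a dep D u := by
  ext x y
  simp only [KK, Kh, Matrix.of_apply]
  congr 1
  by_cases h : G.Adj x y
  · rw [if_pos h, if_pos h]
    have h1 : (∑ w : V, if G.Adj x w then a w * u ^ dep w else 0) =
        u ^ (D x) * ∑ w : V, if G.Adj x w then a w * u ^ (dep w - D x) else 0 := by
      rw [Finset.mul_sum]
      refine Finset.sum_congr rfl (fun w _ => ?_)
      by_cases hw : G.Adj x w
      · rw [if_pos hw, if_pos hw]
        have : u ^ dep w = u ^ (D x) * u ^ (dep w - D x) := by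
          rw [← pow_add, Nat.add_sub_cancel' (hD x w hw)]
        rw [this]; ring
      · rw [if_neg hw, if_neg hw, mul_zero]
    have h2 : u ^ dep y = u ^ (D x) * u ^ (dep y - D x) := by
      rw [← pow_add, Nat.add_sub_cancel' (hD x y h)]
    rw [h1, h2]
    have h3 : u ^ (D x) ≠ 0 := (pow_pos hu _).ne'
    rw [show a y * (u ^ D x * u ^ (dep y - D x)) = u ^ D x * (a y * u ^ (dep y - D x)) by ring,
      show 2 * (u ^ D x * ∑ w : V, if G.Adj x w then a w * u ^ (dep w - D x) else 0) =
        u ^ D x * (2 * ∑ w : V, if G.Adj x w then a w * u ^ (dep w - D x) else 0) by ring,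
      mul_div_mul_left _ _ h3]
  · rw [if_neg h, if_neg h]

/-- the total variation distance is continuous at `u = 0` -/
lemma TV_tendsto (G : SimpleGraph V) (a : V → ℝ) (dep D : V → ℕ)
    (hD : ∀ x y, G.Adj x y → D x ≤ dep y)
    (h0 : ∀ x, (∑ w : V, if G.Adj x w then a w * (0 : ℝ) ^ (dep w - D x) else 0) ≠ 0)
    (hst : (∑ z : V, (a z * (0 : ℝ) ^ dep z) *
      (∑ w : V, if G.Adj z w then a w * (0 : ℝ) ^ dep w else 0)) ≠ 0) (t : ℕ) (x : V) :
    Filter.Tendsto (fun u : ℝ => TV G (fun v => a v * u ^ dep v) t x) (nhdsWithin 0 (Set.Ioi 0))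
      (nhds ((1/2 : ℝ) * ∑ y : V, |((Kh G a dep D 0) ^ t) x y -
        st G (fun v => a v * (0 : ℝ) ^ dep v) y|)) := by
  have hp : ∀ k : ℕ, Filter.Tendsto (fun u : ℝ => u ^ k) (nhdsWithin 0 (Set.Ioi 0))
      (nhds ((0 : ℝ) ^ k)) := fun k =>
    ((continuous_pow k).tendsto 0).mono_left nhdsWithin_le_nhds
  have hK : Filter.Tendsto (fun u : ℝ => Kh G a dep D u) (nhdsWithin 0 (Set.Ioi 0))
      (nhds (Kh G a dep D 0)) := by
    refine tendsto_pi_nhds.2 (fun x => tendsto_pi_nhds.2 (fun y => ?_))
    simp only [Kh, Matrix.of_apply]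
    refine tendsto_const_nhds.add ?_
    by_cases h : G.Adj x y
    · simp only [if_pos h]
      refine Filter.Tendsto.div (tendsto_const_nhds.mul (hp _)) ?_
        (mul_ne_zero two_ne_zero (h0 x))
      refine tendsto_const_nhds.mul (tendsto_finsetSum _ (fun w _ => ?_))
      by_cases hw : G.Adj x w
      · simp only [if_pos hw]
        exact tendsto_const_nhds.mul (hp _)
      · simp only [if_neg hw]
        exact tendsto_const_nhds
    · simp only [if_neg h]
      exact tendsto_const_nhds
  have hKt : Filter.Tendsto (fun u : ℝ => (Kh G a dep D u) ^ t) (nhdsWithin 0 (Set.Ioi 0))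
      (nhds ((Kh G a dep D 0) ^ t)) := hK.pow t
  have hnb : ∀ z, Filter.Tendsto (fun u : ℝ => ∑ w : V, if G.Adj z w then a w * u ^ dep w else 0)
      (nhdsWithin 0 (Set.Ioi 0)) (nhds (∑ w : V, if G.Adj z w then a w * (0 : ℝ) ^ dep w else 0)) := by
    intro z
    refine tendsto_finsetSum _ (fun w _ => ?_)
    by_cases hw : G.Adj z w
    · simp only [if_pos hw]
      exact tendsto_const_nhds.mul (hp _)
    · simp only [if_neg hw]
      exact tendsto_const_nhds
  have hS : ∀ y, Filter.Tendsto (fun u : ℝ => st G (fun v => a v * u ^ dep v) y)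
      (nhdsWithin 0 (Set.Ioi 0)) (nhds (st G (fun v => a v * (0 : ℝ) ^ dep v) y)) := by
    intro y
    unfold st
    refine Filter.Tendsto.div ((tendsto_const_nhds.mul (hp _)).mul (hnb y)) ?_ hst
    exact tendsto_finsetSum _ (fun z _ => (tendsto_const_nhds.mul (hp _)).mul (hnb z))
  have hmain : Filter.Tendsto (fun u : ℝ => (1/2 : ℝ) * ∑ y : V, |((Kh G a dep D u) ^ t) x y -
        st G (fun v => a v * u ^ dep v) y|) (nhdsWithin 0 (Set.Ioi 0))
      (nhds ((1/2 : ℝ) * ∑ y : V, |((Kh G a dep D 0) ^ t) x y -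
        st G (fun v => a v * (0 : ℝ) ^ dep v) y|)) := by
    refine tendsto_const_nhds.mul (tendsto_finsetSum _ (fun y _ => ?_))
    refine Filter.Tendsto.abs (Filter.Tendsto.sub ?_ (hS y))
    exact (tendsto_pi_nhds.1 (tendsto_pi_nhds.1 hKt x) y)
  refine hmain.congr' ?_
  filter_upwards [self_mem_nhdsWithin] with u hu
  unfold TV
  rw [Kh_eq G a dep D hD u hu]

end cont

end Pool.Agent.H16.NW
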