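import Pool.Agent.H16.NW1

set_option autoImplicit false
open Finset Matrix Classical

namespace Pool.Agent.H16.NW

/-- vertices: a grid of levels `s ≤ N` and heights `j ≤ J`, with a type, and two extra vertices -/
abbrev VV (N J : ℕ) : Type := (Fin (N + 1) × Fin (J + 1) × Bool) ⊕ Bool

def rel (N J : ℕ) : VV N J → VV N J → Prop
  | Sum.inl (s, j, _), Sum.inl (s', j', τ') =>
      s'.val = s.val + 1 ∧ j'.val = (if τ' then j.val - 1 else min (j.val + 1) J)
  | Sum.inl (s, j, _), Sum.inr b => b = true ∧ (j.val = 0 ∨ s.val = N)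
  | Sum.inr b, Sum.inr b' => b = true ∧ b' = false
  | Sum.inr _, Sum.inl _ => False

def Gr (N J : ℕ) : SimpleGraph (VV N J) where
  Adj x y := rel N J x y ∨ rel N J y x
  symm := ⟨fun x y h => h.symm⟩
  loopless := ⟨by
    rintro (⟨s, j, τ⟩ | b) h
    · rcases h with h | h <;> simp [rel] at h
    · rcases h with h | h <;> (simp only [rel] at h; rw [h.1] at h; exact absurd h.2 (by simp))⟩

def aa (N J : ℕ) (aL aR : ℝ) : VV N J → ℝ
  | Sum.inl (_, _, τ) => if τ then aL else aR
  | Sum.inr _ => 1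

def dep (N J : ℕ) : VV N J → ℕ
  | Sum.inl (s, _, _) => N + 1 - s.val
  | Sum.inr _ => 0

def DD (N J : ℕ) : VV N J → ℕ
  | Sum.inl (s, j, _) => if j.val = 0 ∨ s.val = N then 0 else N - s.val
  | Sum.inr _ => 0

lemma hD (N J : ℕ) (x y : VV N J) (h : (Gr N J).Adj x y) : DD N J x ≤ dep N J y := by
  rcases x with ⟨s, j, τ⟩ | b
  · rcases y with ⟨s', j', τ'⟩ | b'
    · have hs := s.2
      have hs' := s'.2
      rcases h with h | h
      · simp only [rel] at h
        simp only [DD, dep]
        split_ifs <;> omega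
      · simp only [rel] at h
        simp only [DD, dep]
        split_ifs <;> omega
    · rcases h with h | h
      · simp only [rel] at h
        simp only [DD, dep, if_pos h.2, le_refl]
      · simp only [rel] at h
  · simp [DD]

/-- coefficient of the limiting kernel -/
noncomputable def cf (N J : ℕ) (aL aR : ℝ) (x y : VV N J) : ℝ :=
  if (Gr N J).Adj x y then aa N J aL aR y * (0 : ℝ) ^ (dep N J y - DD N J x) else 0

section act
variable (N J : ℕ) (aL aR : ℝ)

lemma cf_int (s : Fin (N + 1)) (j : Fin (J + 1)) (τ : Bool) (hj : j.val ≠ 0) (hs : s.val ≠ N)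
    (y : VV N J) :
    cf N J aL aR (Sum.inl (s, j, τ)) y =
      (if y = Sum.inl (⟨s.val + 1, by omega⟩, ⟨j.val - 1, by omega⟩, true) then aL else 0) +
      (if y = Sum.inl (⟨s.val + 1, by omega⟩, ⟨min (j.val + 1) J, by omega⟩, false) then aR
        else 0) := by
  have hs2 := s.2
  have hj2 := j.2
  have hD0 : DD N J (Sum.inl (s, j, τ)) = N - s.val := by
    simp only [DD]
    rw [if_neg (by omega)]
  unfold cf
  rw [hD0]
  rcases y with ⟨s', j', τ'⟩ | b
  · have hs' := s'.2
    simp only [Gr, rel, dep, aa, Sum.inl.injEq, Prod.mk.injEq, Fin.ext_iff]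
    cases τ'
    · simp only [Bool.false_eq_true, if_false, and_false, zero_add, and_true]
      by_cases h1 : s'.val = s.val + 1 ∧ j'.val = min (j.val + 1) J
      · rw [if_pos (Or.inl h1), if_pos h1]
        have : N + 1 - s'.val - (N - s.val) = 0 := by omega
        rw [this]; simp
      · rw [if_neg h1]
        by_cases h2 : s.val = s'.val + 1 ∧ j.val = (if τ then j'.val - 1 else min (j'.val + 1) J)
        · rw [if_pos (Or.inr h2), zero_pow (by omega), mul_zero]
        · rw [if_neg (by rintro (h | h) <;> contradiction)]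
    · simp only [if_true, and_true, Bool.true_eq_false, and_false, if_false, add_zero]
      by_cases h1 : s'.val = s.val + 1 ∧ j'.val = j.val - 1
      · rw [if_pos (Or.inl h1), if_pos h1]
        have : N + 1 - s'.val - (N - s.val) = 0 := by omega
        rw [this]; simp
      · rw [if_neg h1]
        by_cases h2 : s.val = s'.val + 1 ∧ j.val = (if τ then j'.val - 1 else min (j'.val + 1) J)
        · rw [if_pos (Or.inr h2), zero_pow (by omega), mul_zero]
        · rw [if_neg (by rintro (h | h) <;> contradiction)]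
  · have hn : ¬ (Gr N J).Adj (Sum.inl (s, j, τ)) (Sum.inr b) := by
      rintro (h | h)
      · simp only [rel] at h; omega
      · exact h
    rw [if_neg hn]; simp

lemma cf_ext (s : Fin (N + 1)) (j : Fin (J + 1)) (τ : Bool) (h : j.val = 0 ∨ s.val = N)
    (y : VV N J) :
    cf N J aL aR (Sum.inl (s, j, τ)) y = if y = Sum.inr true then 1 else 0 := by
  have hD0 : DD N J (Sum.inl (s, j, τ)) = 0 := by
    simp only [DD]
    rw [if_pos h]
  unfold cf
  rw [hD0]
  rcases y with ⟨s', j', τ'⟩ | b
  · have hs' := s'.2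
    simp only [dep]
    rw [zero_pow (by omega)]
    simp
  · cases b
    · simp [Gr, rel]
    · have hn : (Gr N J).Adj (Sum.inl (s, j, τ)) (Sum.inr true) := Or.inl ⟨rfl, h⟩
      rw [if_pos hn]
      simp [aa, dep]

lemma cf_true (y : VV N J) :
    cf N J aL aR (Sum.inr true) y = if y = Sum.inr false then 1 else 0 := by
  unfold cf
  rcases y with ⟨s', j', τ'⟩ | b
  · have hs' := s'.2
    simp only [dep, DD]
    rw [zero_pow (by omega)]
    simp
  · cases b
    · simp [Gr, rel, dep, DD, aa]
    · simp [Gr, rel]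

lemma cf_false (y : VV N J) :
    cf N J aL aR (Sum.inr false) y = if y = Sum.inr true then 1 else 0 := by
  unfold cf
  rcases y with ⟨s', j', τ'⟩ | b
  · have hs' := s'.2
    simp only [dep, DD]
    rw [zero_pow (by omega)]
    simp
  · cases b
    · simp [Gr, rel]
    · simp [Gr, rel, dep, DD, aa]

/-- the limiting kernel -/
noncomputable def K0 : Matrix (VV N J) (VV N J) ℝ := Kh (Gr N J) (aa N J aL aR) (dep N J) (DD N J) 0

lemma K0_mulVec (g : VV N J → ℝ) (x : VV N J) :
    (K0 N J aL aR *ᵥ g) x = 1 / 2 * g x +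
      1 / 2 * ((∑ y, cf N J aL aR x y * g y) / (∑ y, cf N J aL aR x y)) := by
  have hS : (∑ w : VV N J, if (Gr N J).Adj x w then aa N J aL aR w *
      (0 : ℝ) ^ (dep N J w - DD N J x) else 0) = ∑ y, cf N J aL aR x y := rfl
  simp only [K0, Kh, Matrix.mulVec, dotProduct, Matrix.of_apply, hS]
  simp only [add_mul]
  rw [Finset.sum_add_distrib]
  congr 1
  · simp
  · set S := ∑ y, cf N J aL aR x y
    have h1 : 1 / 2 * ((∑ y, cf N J aL aR x y * g y) / S) =
        ∑ y, cf N J aL aR x y * g y * (1 / (2 * S)) := by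
      rw [← Finset.sum_mul]; ring
    rw [h1]
    refine Finset.sum_congr rfl (fun y _ => ?_)
    unfold cf
    by_cases h : (Gr N J).Adj x y
    · rw [if_pos h, if_pos h]
      ring
    · rw [if_neg h, if_neg h]
      ring

lemma act_int (s : Fin (N + 1)) (j : Fin (J + 1)) (τ : Bool) (hj : j.val ≠ 0) (hs : s.val ≠ N)
    (g : VV N J → ℝ) :
    (K0 N J aL aR *ᵥ g) (Sum.inl (s, j, τ)) = 1 / 2 * g (Sum.inl (s, j, τ)) +
      1 / 2 * ((aL * g (Sum.inl (⟨s.val + 1, by omega⟩, ⟨j.val - 1, by omega⟩, true)) +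
        aR * g (Sum.inl (⟨s.val + 1, by omega⟩, ⟨min (j.val + 1) J, by omega⟩, false))) /
          (aL + aR)) := by
  rw [K0_mulVec]
  simp only [cf_int N J aL aR s j τ hj hs]
  simp only [add_mul, Finset.sum_add_distrib, ite_mul, zero_mul, Finset.sum_ite_eq',
    Finset.mem_univ, if_true]

lemma act_ext (s : Fin (N + 1)) (j : Fin (J + 1)) (τ : Bool) (h : j.val = 0 ∨ s.val = N)
    (g : VV N J → ℝ) :
    (K0 N J aL aR *ᵥ g) (Sum.inl (s, j, τ)) = 1 / 2 * g (Sum.inl (s, j, τ)) +
      1 / 2 * g (Sum.inr true) := by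
  rw [K0_mulVec]
  simp only [cf_ext N J aL aR s j τ h]
  simp

lemma act_true (g : VV N J → ℝ) :
    (K0 N J aL aR *ᵥ g) (Sum.inr true) = 1 / 2 * g (Sum.inr true) +
      1 / 2 * g (Sum.inr false) := by
  rw [K0_mulVec]
  simp only [cf_true N J aL aR]
  simp

lemma act_false (g : VV N J → ℝ) :
    (K0 N J aL aR *ᵥ g) (Sum.inr false) = 1 / 2 * g (Sum.inr false) +
      1 / 2 * g (Sum.inr true) := by
  rw [K0_mulVec]
  simp only [cf_false N J aL aR]
  simp

lemma cf_sum_ne (hL : 0 < aL) (hR : 0 < aR) (x : VV N J) : (∑ y, cf N J aL aR x y) ≠ 0 := by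
  rcases x with ⟨s, j, τ⟩ | b
  · by_cases h : j.val = 0 ∨ s.val = N
    · simp only [cf_ext N J aL aR s j τ h]
      simp
    · push Not at h
      simp only [cf_int N J aL aR s j τ h.1 h.2, Finset.sum_add_distrib, Finset.sum_ite_eq',
        Finset.mem_univ, if_true]
      positivity
  · cases b
    · simp only [cf_false N J aL aR]
      simp
    · simp only [cf_true N J aL aR]
      simp

end act

end Pool.Agent.H16.NW
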