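import Pool.Agent.H16.NW2

set_option autoImplicit false
set_option linter.unusedSectionVars false
open Finset Matrix Classical

namespace Pool.Agent.H16.NW

section mono
variable {V : Type} [Fintype V] [DecidableEq V] {K : Matrix V V ℝ}

lemma mulVec_mono (hK : ∀ x y, 0 ≤ K x y) {g h : V → ℝ} (hgh : ∀ x, g x ≤ h x) (x : V) :
    (K *ᵥ g) x ≤ (K *ᵥ h) x :=
  Finset.sum_le_sum (fun y _ => mul_le_mul_of_nonneg_left (hgh y) (hK x y))

lemma pow_nonneg' (hK : ∀ x y, 0 ≤ K x y) (n : ℕ) : ∀ x y, 0 ≤ (K ^ n) x y := by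
  induction n with
  | zero =>
    intro x y
    rw [pow_zero, Matrix.one_apply]
    split_ifs <;> norm_num
  | succ n ih =>
    intro x y
    rw [pow_succ, Matrix.mul_apply]
    exact Finset.sum_nonneg (fun z _ => mul_nonneg (ih x z) (hK z y))

lemma pow_mulVec_succ (n : ℕ) (g : V → ℝ) : (K ^ (n + 1)) *ᵥ g = K *ᵥ ((K ^ n) *ᵥ g) := by
  rw [pow_succ', Matrix.mulVec_mulVec]

lemma pow_mulVec_succ' (n : ℕ) (g : V → ℝ) : (K ^ (n + 1)) *ᵥ g = (K ^ n) *ᵥ (K *ᵥ g) := by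
  rw [pow_succ, Matrix.mulVec_mulVec]

lemma contr (hK : ∀ x y, 0 ≤ K x y) {g : V → ℝ} {c : ℝ} (hc : 0 ≤ c)
    (h : ∀ x, (K *ᵥ g) x ≤ c * g x) (n : ℕ) : ∀ x, ((K ^ n) *ᵥ g) x ≤ c ^ n * g x := by
  induction n with
  | zero => intro x; simp
  | succ n ih =>
    intro x
    rw [pow_mulVec_succ]
    calc (K *ᵥ ((K ^ n) *ᵥ g)) x ≤ (K *ᵥ (c ^ n • g)) x := mulVec_mono hK ih x
      _ = c ^ n * (K *ᵥ g) x := by rw [Matrix.mulVec_smul]; rfl
      _ ≤ c ^ n * (c * g x) := by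
          have := h x
          have : 0 ≤ c ^ n := pow_nonneg hc n
          nlinarith
      _ = c ^ (n + 1) * g x := by ring

lemma one_fix (h : K *ᵥ (fun _ => 1) = fun _ => 1) (n : ℕ) :
    (K ^ n) *ᵥ (fun _ => (1 : ℝ)) = fun _ => 1 := by
  induction n with
  | zero => simp
  | succ n ih => rw [pow_mulVec_succ, ih, h]

end mono

variable (N J : ℕ)

lemma K0_nonneg (aL aR : ℝ) (hL : 0 < aL) (hR : 0 < aR) (x y : VV N J) :
    0 ≤ K0 N J aL aR x y := by
  have ha : ∀ w : VV N J, 0 ≤ aa N J aL aR w := by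
    rintro (⟨s, j, τ⟩ | b)
    · simp only [aa]; split_ifs <;> linarith
    · simp only [aa]; norm_num
  have hsum : 0 ≤ (∑ w : VV N J, if (Gr N J).Adj x w then aa N J aL aR w *
      (0 : ℝ) ^ (dep N J w - DD N J x) else 0) := by
    refine Finset.sum_nonneg (fun w _ => ?_)
    split_ifs
    · exact mul_nonneg (ha w) (by positivity)
    · exact le_rfl
  simp only [K0, Kh, Matrix.of_apply]
  refine add_nonneg (by split_ifs <;> norm_num) ?_
  split_ifs
  · exact div_nonneg (mul_nonneg (ha y) (by positivity)) (by positivity)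
  · exact le_rfl

lemma K0_one (aL aR : ℝ) (hL : 0 < aL) (hR : 0 < aR) :
    K0 N J aL aR *ᵥ (fun _ => (1 : ℝ)) = fun _ => 1 := by
  funext x
  rw [K0_mulVec]
  have := cf_sum_ne N J aL aR hL hR x
  simp only [mul_one]
  rw [div_self this]
  norm_num

/-- indicator of the grid -/
def Ig : VV N J → ℝ
  | Sum.inl _ => 1
  | Sum.inr _ => 0

noncomputable def Gf : VV N J → ℝ
  | Sum.inl (_, j, _) => (3 / 2 : ℝ) ^ (j.val + 1)
  | Sum.inr _ => 0

lemma Gf_contr (x : VV N J) : (K0 N J 2 1 *ᵥ Gf N J) x ≤ 35 / 36 * Gf N J x := by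
  rcases x with ⟨s, j, τ⟩ | b
  · by_cases h : j.val = 0 ∨ s.val = N
    · rw [act_ext N J 2 1 s j τ h]
      simp only [Gf]
      have : (0 : ℝ) < (3 / 2) ^ (j.val + 1) := by positivity
      linarith
    · push Not at h
      rw [act_int N J 2 1 s j τ h.1 h.2]
      simp only [Gf]
      obtain ⟨k, hk⟩ : ∃ k, j.val = k + 1 := ⟨j.val - 1, by omega⟩
      have h1 : (3 / 2 : ℝ) ^ (min (j.val + 1) J + 1) ≤ (3 / 2) ^ (k + 3) :=
        pow_le_pow_right₀ (by norm_num) (by omega)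
      have h2 : j.val - 1 + 1 = k + 1 := by omega
      have h3 : j.val + 1 = k + 2 := by omega
      rw [h2]
      have h4 : (3 / 2 : ℝ) ^ (j.val + 1) = (3 / 2) ^ (k + 2) := by rw [h3]
      rw [h4]
      have h5 : (3 / 2 : ℝ) ^ (k + 3) = (3 / 2) ^ (k + 1) * (9 / 4) := by ring
      have h6 : (3 / 2 : ℝ) ^ (k + 2) = (3 / 2) ^ (k + 1) * (3 / 2) := by ring
      rw [h6]
      rw [h5] at h1
      have : (0 : ℝ) < (3 / 2) ^ (k + 1) := by positivity
      linarith
  · cases b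
    · rw [act_false]; simp [Gf]
    · rw [act_true]; simp [Gf]

/-- mass on the grid, upper bound -/
lemma grid_mass (t : ℕ) (x : VV N J) :
    ((K0 N J 2 1 ^ t) *ᵥ Ig N J) x ≤ (35 / 36 : ℝ) ^ t * (3 / 2) ^ (J + 1) := by
  have hK := K0_nonneg N J 2 1 (by norm_num) (by norm_num)
  have h1 : ∀ x, Ig N J x ≤ Gf N J x := by
    rintro (⟨s, j, τ⟩ | b)
    · simp only [Ig, Gf]
      exact one_le_pow₀ (by norm_num)
    · simp [Ig, Gf]
  have h2 : Gf N J x ≤ (3 / 2) ^ (J + 1) := by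
    rcases x with ⟨s, j, τ⟩ | b
    · simp only [Gf]
      have := j.2
      exact pow_le_pow_right₀ (by norm_num) (by omega)
    · simp only [Gf]; positivity
  calc ((K0 N J 2 1 ^ t) *ᵥ Ig N J) x ≤ ((K0 N J 2 1 ^ t) *ᵥ Gf N J) x :=
        mulVec_mono (pow_nonneg' hK t) h1 x
    _ ≤ (35 / 36) ^ t * Gf N J x := contr hK (by norm_num) (Gf_contr N J) t x
    _ ≤ _ := by gcongr

/-- the limiting stationary distribution -/
noncomputable def pi0 : VV N J → ℝ
  | Sum.inl _ => 0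
  | Sum.inr _ => 1 / 2

lemma nb0 (aL aR : ℝ) (z : VV N J) : (∑ w : VV N J, if (Gr N J).Adj z w then aa N J aL aR w *
    (0 : ℝ) ^ dep N J w else 0) = if (∃ b, (Gr N J).Adj z (Sum.inr b)) then 1 else 0 := by
  have hterm : ∀ w : VV N J, (if (Gr N J).Adj z w then aa N J aL aR w * (0 : ℝ) ^ dep N J w else 0)
      = match w with
        | Sum.inl _ => 0
        | Sum.inr b => if (Gr N J).Adj z (Sum.inr b) then 1 else 0 := by
    rintro (⟨s, j, τ⟩ | b)
    · have hs := s.2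
      simp only [dep]
      rw [zero_pow (by omega)]
      simp
    · simp [dep, aa]
  rw [Finset.sum_congr rfl (fun w _ => hterm w), Fintype.sum_sum_type]
  simp only [Finset.sum_const_zero, zero_add, Fintype.sum_bool]
  have hnot : ¬ ((Gr N J).Adj z (Sum.inr true) ∧ (Gr N J).Adj z (Sum.inr false)) := by
    rintro ⟨h1, h2⟩
    rcases z with ⟨s, j, τ⟩ | b
    · rcases h2 with h2 | h2
      · simp [rel] at h2
      · simp [rel] at h2
    · cases b
      · rcases h2 with h2 | h2 <;> simp [rel] at h2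
      · rcases h1 with h1 | h1 <;> simp [rel] at h1
  by_cases h1 : (Gr N J).Adj z (Sum.inr true)
  · have h2 : ¬ (Gr N J).Adj z (Sum.inr false) := fun h => hnot ⟨h1, h⟩
    rw [if_pos h1, if_neg h2, if_pos ⟨_, h1⟩, add_zero]
  · by_cases h2 : (Gr N J).Adj z (Sum.inr false)
    · rw [if_neg h1, if_pos h2, if_pos ⟨_, h2⟩, zero_add]
    · rw [if_neg h1, if_neg h2, if_neg, add_zero]
      rintro ⟨b, hb⟩
      cases b
      · exact h2 hb
      · exact h1 hb

lemma st0_num (aL aR : ℝ) (z : VV N J) : (aa N J aL aR z * (0 : ℝ) ^ dep N J z) *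
    (∑ w : VV N J, if (Gr N J).Adj z w then aa N J aL aR w * (0 : ℝ) ^ dep N J w else 0) =
    2 * pi0 N J z := by
  rw [nb0]
  rcases z with ⟨s, j, τ⟩ | b
  · have hs := s.2
    simp only [dep, pi0]
    rw [zero_pow (by omega)]
    simp
  · have : ∃ b', (Gr N J).Adj (Sum.inr b) (Sum.inr b') := by
      cases b
      · exact ⟨true, Or.inr ⟨rfl, rfl⟩⟩
      · exact ⟨false, Or.inl ⟨rfl, rfl⟩⟩
    rw [if_pos this]
    simp [dep, aa, pi0]

lemma st0_den (aL aR : ℝ) : (∑ z : VV N J, (aa N J aL aR z * (0 : ℝ) ^ dep N J z) *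
    (∑ w : VV N J, if (Gr N J).Adj z w then aa N J aL aR w * (0 : ℝ) ^ dep N J w else 0)) = 2 := by
  rw [Finset.sum_congr rfl (fun z _ => st0_num N J aL aR z), ← Finset.mul_sum,
    Fintype.sum_sum_type]
  simp [pi0]

lemma st0 (aL aR : ℝ) (y : VV N J) :
    st (Gr N J) (fun v => aa N J aL aR v * (0 : ℝ) ^ dep N J v) y = pi0 N J y := by
  unfold st
  rw [st0_den, st0_num]
  ring

/-- limiting total variation -/
noncomputable def TV0 (aL aR : ℝ) (t : ℕ) (x : VV N J) : ℝ :=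
  (1/2 : ℝ) * ∑ y : VV N J, |((K0 N J aL aR) ^ t) x y - pi0 N J y|

lemma row_split (aL aR : ℝ) (hL : 0 < aL) (hR : 0 < aR) (t : ℕ) (x : VV N J) :
    (∑ y, (K0 N J aL aR ^ t) x (Sum.inl y)) + (K0 N J aL aR ^ t) x (Sum.inr true) +
      (K0 N J aL aR ^ t) x (Sum.inr false) = 1 := by
  have h := congrFun (one_fix (K0_one N J aL aR hL hR) t) x
  simp only [Matrix.mulVec, dotProduct, mul_one] at h
  rw [Fintype.sum_sum_type, Fintype.sum_bool] at h
  linarith

lemma TV0_eq (aL aR : ℝ) (hL : 0 < aL) (hR : 0 < aR) (t : ℕ) (x : VV N J) :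
    TV0 N J aL aR t x = 1 / 2 * ((∑ y, (K0 N J aL aR ^ t) x (Sum.inl y)) +
      (|(K0 N J aL aR ^ t) x (Sum.inr true) - 1 / 2| +
        |(K0 N J aL aR ^ t) x (Sum.inr false) - 1 / 2|)) := by
  unfold TV0
  rw [Fintype.sum_sum_type, Fintype.sum_bool]
  congr 2
  refine Finset.sum_congr rfl (fun y _ => ?_)
  simp only [pi0, sub_zero]
  exact abs_of_nonneg (pow_nonneg' (K0_nonneg N J aL aR hL hR) t _ _)

lemma mulVec_Ig (K : Matrix (VV N J) (VV N J) ℝ) (x : VV N J) :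
    (K *ᵥ Ig N J) x = ∑ y, K x (Sum.inl y) := by
  simp only [Matrix.mulVec, dotProduct]
  rw [Fintype.sum_sum_type, Fintype.sum_bool]
  simp [Ig]

/-- after mixing -/
lemma TV0_upper (t : ℕ) (x : VV N J) :
    TV0 N J 2 1 (t + 1) x ≤ (35 / 36 : ℝ) ^ t * (3 / 2) ^ (J + 1) := by
  have hK := K0_nonneg N J 2 1 (by norm_num) (by norm_num)
  have h1 := row_split N J 2 1 (by norm_num) (by norm_num) (t + 1) x
  rw [TV0_eq N J 2 1 (by norm_num) (by norm_num)]
  set q := ((K0 N J 2 1 ^ t) *ᵥ Ig N J) x with hq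
  have hqle := grid_mass N J t x
  rw [← hq] at hqle
  have hb : ∀ b : Bool, 1 / 2 - q / 2 ≤ (K0 N J 2 1 ^ (t + 1)) x (Sum.inr b) := by
    intro b
    have e1 : (K0 N J 2 1 ^ (t + 1)) x (Sum.inr b) =
        ((K0 N J 2 1 ^ (t + 1)) *ᵥ Pi.single (Sum.inr b) 1) x := by
      simp
    rw [e1, pow_mulVec_succ']
    have e2 : ∀ y, (1 / 2 : ℝ) * (1 - Ig N J y) ≤
        (K0 N J 2 1 *ᵥ Pi.single (Sum.inr b) 1) y := by
      rintro (⟨s, j, τ⟩ | b')
      · simp only [Ig]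
        have : (0 : ℝ) ≤ (K0 N J 2 1 *ᵥ Pi.single (Sum.inr b) 1) (Sum.inl (s, j, τ)) := by
          simp only [Matrix.mulVec_single_one]
          exact hK _ _
        linarith
      · cases b' <;> cases b <;> simp [act_true, act_false, Ig]
    have e3 : ((K0 N J 2 1 ^ t) *ᵥ (fun y => (1 / 2 : ℝ) * (1 - Ig N J y))) x = 1 / 2 - q / 2 := by
      have h2 := congrFun (one_fix (K0_one N J 2 1 (by norm_num) (by norm_num)) t) x
      have e4 : (fun y => (1 / 2 : ℝ) * (1 - Ig N J y)) =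
          (1 / 2 : ℝ) • ((fun _ => (1 : ℝ)) - Ig N J) := by
        funext y; simp
      rw [e4, Matrix.mulVec_smul, Matrix.mulVec_sub]
      simp only [Pi.smul_apply, Pi.sub_apply, smul_eq_mul, h2, ← hq]
      ring
    rw [← e3]
    exact mulVec_mono (pow_nonneg' hK t) e2 x
  have ht := hb true
  have hf := hb false
  have hq0 : 0 ≤ q := by
    rw [hq, mulVec_Ig]
    exact Finset.sum_nonneg (fun y _ => pow_nonneg' hK t _ _)
  have a1 : |(K0 N J 2 1 ^ (t + 1)) x (Sum.inr true) - 1 / 2| ≤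
      (K0 N J 2 1 ^ (t + 1)) x (Sum.inr true) - 1 / 2 + q := by
    rw [abs_le]; constructor <;> linarith
  have a2 : |(K0 N J 2 1 ^ (t + 1)) x (Sum.inr false) - 1 / 2| ≤
      (K0 N J 2 1 ^ (t + 1)) x (Sum.inr false) - 1 / 2 + q := by
    rw [abs_le]; constructor <;> linarith
  linarith

/-- mass outside the grid for the reversed weights -/
lemma out_mass (n : ℕ) : ∀ (s : Fin (N + 1)) (j : Fin (J + 1)) (τ : Bool), s.val + n ≤ N →
    ((K0 N J 1 2 ^ n) *ᵥ (fun y => 1 - Ig N J y)) (Sum.inl (s, j, τ)) ≤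
      (2 / 3 : ℝ) ^ j.val + n * (2 / 3) ^ J := by
  have hK := K0_nonneg N J 1 2 (by norm_num) (by norm_num)
  induction n with
  | zero =>
    intro s j τ _
    simp only [pow_zero, Matrix.one_mulVec, Ig]
    have : (0 : ℝ) < (2 / 3) ^ j.val := by positivity
    simp only [sub_self, Nat.cast_zero, zero_mul, add_zero]
    exact this.le
  | succ n ih =>
    intro s j τ hs
    have hpJ : (0 : ℝ) < (2 / 3) ^ J := by positivity
    by_cases hj : j.val = 0
    · -- trivial bound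
      have h1 : ((K0 N J 1 2 ^ (n + 1)) *ᵥ (fun y => 1 - Ig N J y)) (Sum.inl (s, j, τ)) ≤
          ((K0 N J 1 2 ^ (n + 1)) *ᵥ (fun _ => (1 : ℝ))) (Sum.inl (s, j, τ)) := by
        refine mulVec_mono (pow_nonneg' hK _) (fun y => ?_) _
        rcases y with y | y <;> simp [Ig]
      rw [one_fix (K0_one N J 1 2 (by norm_num) (by norm_num))] at h1
      rw [hj, pow_zero]
      have : (0 : ℝ) ≤ ((n + 1 : ℕ) : ℝ) * (2 / 3) ^ J := by positivity
      simp only at h1
      linarith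
    · rw [pow_mulVec_succ, act_int N J 1 2 s j τ hj (by omega)]
      have i1 := ih s j τ (by omega)
      have i2 := ih ⟨s.val + 1, by omega⟩ ⟨j.val - 1, by omega⟩ true (by simp; omega)
      have i3 := ih ⟨s.val + 1, by omega⟩ ⟨min (j.val + 1) J, by omega⟩ false (by simp; omega)
      simp only at i2 i3
      obtain ⟨k, hk⟩ : ∃ k, j.val = k + 1 := ⟨j.val - 1, by omega⟩
      have e1 : j.val - 1 = k := by omega
      have e5 : (2 / 3 : ℝ) ^ (j.val - 1) = (2 / 3) ^ k := by rw [e1]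
      have e6 : (2 / 3 : ℝ) ^ j.val = 2 / 3 * (2 / 3) ^ k := by rw [hk]; ring
      have e7 : (2 / 3 : ℝ) ^ (min (j.val + 1) J) ≤ 4 / 9 * (2 / 3) ^ k + 1 / 3 * (2 / 3) ^ J := by
        have hj2 := j.2
        have e4 : (2 / 3 : ℝ) ^ (k + 2) = 4 / 9 * (2 / 3) ^ k := by ring
        by_cases h : j.val + 1 ≤ J
        · rw [min_eq_left h, hk, e4]
          linarith
        · have h5 : J = k + 1 := by omega
          rw [min_eq_right (by omega), h5]
          have : (2 / 3 : ℝ) ^ (k + 1) = 2 / 3 * (2 / 3) ^ k := by ring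
          rw [this]
          linarith
      have hk0 : (0 : ℝ) < (2 / 3) ^ k := by positivity
      rw [e5] at i2
      rw [e6] at i1 ⊢
      push_cast
      have key : ∀ A B C P Q R n' : ℝ, 0 < P → 0 < Q → A ≤ 2 / 3 * P + n' * Q →
          B ≤ P + n' * Q → C ≤ R + n' * Q → R ≤ 4 / 9 * P + 1 / 3 * Q →
          1 / 2 * A + 1 / 2 * ((1 * B + 2 * C) / (1 + 2)) ≤ 2 / 3 * P + (n' + 1) * Q := by
        intro A B C P Q R n' hP hQ h1 h2 h3 h4
        linarith
      exact key _ _ _ _ _ _ _ hk0 hpJ i1 i2 i3 e7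

lemma TV0_lower (n : ℕ) (hn : n ≤ N) :
    1 - ((n : ℝ) + 1) * (2 / 3) ^ J ≤
      TV0 N J 1 2 n (Sum.inl (⟨0, by omega⟩, ⟨J, by omega⟩, true)) := by
  set x : VV N J := Sum.inl (⟨0, by omega⟩, ⟨J, by omega⟩, true) with hx
  have h1 := row_split N J 1 2 (by norm_num) (by norm_num) n x
  rw [TV0_eq N J 1 2 (by norm_num) (by norm_num)]
  have h2 := out_mass N J n ⟨0, by omega⟩ ⟨J, by omega⟩ true (by simpa using hn)
  have h3 : ((K0 N J 1 2 ^ n) *ᵥ (fun y => 1 - Ig N J y)) x =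
      (K0 N J 1 2 ^ n) x (Sum.inr true) + (K0 N J 1 2 ^ n) x (Sum.inr false) := by
    simp only [Matrix.mulVec, dotProduct]
    rw [Fintype.sum_sum_type, Fintype.sum_bool]
    simp [Ig]
  rw [← hx, h3] at h2
  simp only at h2
  have a1 := neg_abs_le ((K0 N J 1 2 ^ n) x (Sum.inr true) - 1 / 2)
  have a2 := neg_abs_le ((K0 N J 1 2 ^ n) x (Sum.inr false) - 1 / 2)
  linarith

end Pool.Agent.H16.NW
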