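import Pool.Agent.H16.NW3

set_option autoImplicit false
set_option linter.unusedSectionVars false
open Finset Matrix Classical Filter

namespace Pool.Agent.H16.NW

variable (N J : ℕ)

lemma reach_top (d : ℕ) : ∀ (s : Fin (N + 1)) (j : Fin (J + 1)) (τ : Bool), N - s.val = d →
    (Gr N J).Reachable (Sum.inl (s, j, τ)) (Sum.inr true) := by
  induction d with
  | zero =>
    intro s j τ h
    have hs := s.2
    have : (Gr N J).Adj (Sum.inl (s, j, τ)) (Sum.inr true) := Or.inl ⟨rfl, Or.inr (by omega)⟩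
    exact this.reachable
  | succ d ih =>
    intro s j τ h
    have hs := s.2
    have hj := j.2
    have h1 : (Gr N J).Adj (Sum.inl (s, j, τ))
        (Sum.inl (⟨s.val + 1, by omega⟩, ⟨j.val - 1, by omega⟩, true)) :=
      Or.inl ⟨rfl, by simp⟩
    exact h1.reachable.trans (ih _ _ _ (by simp only; omega))

lemma conn : (Gr N J).Connected := by
  have hz : ∀ x : VV N J, (Gr N J).Reachable x (Sum.inr true) := by
    rintro (⟨s, j, τ⟩ | b)
    · exact reach_top N J _ s j τ rfl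
    · cases b
      · have : (Gr N J).Adj (Sum.inr false) (Sum.inr true) := Or.inr ⟨rfl, rfl⟩
        exact this.reachable
      · exact SimpleGraph.Reachable.refl _
  have : Nonempty (VV N J) := ⟨Sum.inr true⟩
  exact SimpleGraph.Connected.mk (fun x y => (hz x).trans (hz y).symm)

lemma h0' (aL aR : ℝ) (hL : 0 < aL) (hR : 0 < aR) (x : VV N J) :
    (∑ w : VV N J, if (Gr N J).Adj x w then aa N J aL aR w * (0 : ℝ) ^ (dep N J w - DD N J x)
      else 0) ≠ 0 := cf_sum_ne N J aL aR hL hR x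

lemma hst' (aL aR : ℝ) :
    (∑ z : VV N J, (aa N J aL aR z * (0 : ℝ) ^ dep N J z) *
      (∑ w : VV N J, if (Gr N J).Adj z w then aa N J aL aR w * (0 : ℝ) ^ dep N J w else 0)) ≠ 0 := by
  rw [st0_den]; norm_num

lemma lim (aL aR : ℝ) (hL : 0 < aL) (hR : 0 < aR) (t : ℕ) (x : VV N J) :
    Tendsto (fun u : ℝ => TV (Gr N J) (fun v => aa N J aL aR v * u ^ dep N J v) t x)
      (nhdsWithin 0 (Set.Ioi 0)) (nhds (TV0 N J aL aR t x)) := by
  have h := TV_tendsto (Gr N J) (aa N J aL aR) (dep N J) (DD N J) (hD N J)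
    (h0' N J aL aR hL hR) (hst' N J aL aR) t x
  unfold TV0 K0
  simp only [st0] at h
  exact h

/-- the main example, on an arbitrary finite type -/
theorem example' (K : ℝ) : ∃ (N J : ℕ) (u : ℝ) (t : ℕ), 0 < u ∧
    (∀ x, TV (Gr N J) (fun v => aa N J 2 1 v * u ^ dep N J v) t x ≤ 1 / 4) ∧
    ∃ x, 1 / 4 < TV (Gr N J) (fun v => aa N J 1 2 v * u ^ dep N J v) ⌈K * (t : ℝ)⌉₊ x := by
  -- choose `J`
  have h1 : ∀ᶠ J : ℕ in atTop, ((J : ℝ) ^ 2 + 1) * (2 / 3 : ℝ) ^ J ≤ 1 / 4 := by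
    have ha : Tendsto (fun J : ℕ => (J : ℝ) ^ 2 * (2 / 3 : ℝ) ^ J) atTop (nhds 0) :=
      tendsto_pow_const_mul_const_pow_of_abs_lt_one 2 (by rw [abs_of_pos] <;> norm_num)
    have hb : Tendsto (fun J : ℕ => (2 / 3 : ℝ) ^ J) atTop (nhds 0) :=
      tendsto_pow_atTop_nhds_zero_of_lt_one (by norm_num) (by norm_num)
    have hc := ha.add hb
    rw [add_zero] at hc
    filter_upwards [hc.eventually (gt_mem_nhds (show (0 : ℝ) < 1 / 4 by norm_num))] with J hJ
    have : ((J : ℝ) ^ 2 + 1) * (2 / 3 : ℝ) ^ J = (J : ℝ) ^ 2 * (2 / 3 : ℝ) ^ J + (2 / 3) ^ J := by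
      ring
    rw [this]
    exact hJ.le
  have h2 : ∀ᶠ J : ℕ in atTop, K * ((20 * J + 1 : ℕ) : ℝ) + 1 ≤ (J : ℝ) ^ 2 := by
    have ha : Tendsto (fun J : ℕ => (J : ℝ)) atTop atTop := tendsto_natCast_atTop_atTop
    filter_upwards [ha.eventually_ge_atTop (21 * |K| + 1), eventually_ge_atTop 1] with J hJ hJ1
    have hJ1' : (1 : ℝ) ≤ J := by exact_mod_cast hJ1
    have h3 : K * ((20 * J + 1 : ℕ) : ℝ) ≤ |K| * (21 * J) := by
      push_cast
      have : K ≤ |K| := le_abs_self K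
      have h4 : 0 ≤ |K| := abs_nonneg K
      calc K * (20 * (J : ℝ) + 1) ≤ |K| * (20 * J + 1) := by
            apply mul_le_mul_of_nonneg_right this; positivity
        _ ≤ |K| * (21 * J) := by
            apply mul_le_mul_of_nonneg_left _ h4; linarith
    have h4 : 0 ≤ |K| := abs_nonneg K
    nlinarith
  obtain ⟨J, hJ1, hJ2, hJ3⟩ := (h1.and (h2.and (eventually_ge_atTop 20))).exists
  set t := 20 * J + 1 with ht
  set n := ⌈K * (t : ℝ)⌉₊ with hn
  have hnN : n ≤ J ^ 2 := by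
    rw [hn, Nat.ceil_le]
    push_cast
    linarith
  -- strict inequalities in the limit
  have hup : ∀ x, TV0 (J ^ 2) J 2 1 t x < 1 / 4 := by
    intro x
    refine (TV0_upper (J ^ 2) J (20 * J) x).trans_lt ?_
    have e1 : (35 / 36 : ℝ) ^ (20 * J) * (3 / 2) ^ (J + 1) =
        ((35 / 36 : ℝ) ^ 20 * (3 / 2)) ^ J * (3 / 2) := by
      rw [pow_mul, mul_pow, pow_succ]; ring
    rw [e1]
    have e2 : (35 / 36 : ℝ) ^ 20 * (3 / 2) ≤ 6 / 7 := by norm_num
    calc ((35 / 36 : ℝ) ^ 20 * (3 / 2)) ^ J * (3 / 2) ≤ (6 / 7) ^ J * (3 / 2) := by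
          gcongr
      _ ≤ (6 / 7) ^ 20 * (3 / 2) := by
          apply mul_le_mul_of_nonneg_right _ (by norm_num)
          exact pow_le_pow_of_le_one (by norm_num) (by norm_num) hJ3
      _ < 1 / 4 := by norm_num
  have hlow : 1 / 4 < TV0 (J ^ 2) J 1 2 n (Sum.inl (⟨0, by omega⟩, ⟨J, by omega⟩, true)) := by
    refine lt_of_lt_of_le ?_ (TV0_lower (J ^ 2) J n hnN)
    have e1 : ((n : ℝ) + 1) * (2 / 3 : ℝ) ^ J ≤ 1 / 4 := by
      refine le_trans ?_ hJ1
      have : (n : ℝ) ≤ (J : ℝ) ^ 2 := by exact_mod_cast hnN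
      gcongr
    linarith
  have hev1 : ∀ᶠ u : ℝ in nhdsWithin 0 (Set.Ioi 0), ∀ x,
      TV (Gr (J ^ 2) J) (fun v => aa (J ^ 2) J 2 1 v * u ^ dep (J ^ 2) J v) t x < 1 / 4 := by
    rw [Filter.eventually_all]
    intro x
    exact (lim (J ^ 2) J 2 1 (by norm_num) (by norm_num) t x).eventually (gt_mem_nhds (hup x))
  have hev2 := (lim (J ^ 2) J 1 2 (by norm_num) (by norm_num) n
    (Sum.inl (⟨0, by omega⟩, ⟨J, by omega⟩, true))).eventually (lt_mem_nhds hlow)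
  obtain ⟨u, hu1, hu2, hu3⟩ := (hev1.and (hev2.and self_mem_nhdsWithin)).exists
  exact ⟨J ^ 2, J, u, t, hu3, fun x => (hu1 x).le, _, hu2⟩

end Pool.Agent.H16.NW
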