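import Pool.Agent.H16.QueueDefs

set_option autoImplicit false

open MeasureTheory Filter Topology ENNReal

namespace Pool.Agent.H16.Queue

/-- put a number in front of a sequence -/
def cons (q : (ℕ → ℝ) × ℝ) : ℕ → ℝ := fun n => Nat.casesOn n q.2 q.1

theorem cons_zero (q : (ℕ → ℝ) × ℝ) : cons q 0 = q.2 := rfl
theorem cons_succ (q : (ℕ → ℝ) × ℝ) (n : ℕ) : cons q (n + 1) = q.1 n := rfl

theorem measurable_cons : Measurable cons := by
  apply measurable_pi_lambda
  intro n
  cases n with
  | zero => exact measurable_snd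
  | succ n => exact (measurable_pi_apply n).comp measurable_fst

theorem cons_law (σ : Measure ℝ) [IsProbabilityMeasure σ] :
    ((Measure.infinitePi (fun _ : ℕ => σ)).prod σ).map cons = Measure.infinitePi (fun _ : ℕ => σ) := by
  classical
  apply Measure.eq_infinitePi
  intro s t ht
  rw [Measure.map_apply measurable_cons (MeasurableSet.pi s.countable_toSet (fun i _ => ht i))]
  let s' : Finset ℕ := (s.filter (fun n => n ≠ 0)).image Nat.pred
  have hs' : ∀ m, m ∈ s' ↔ m + 1 ∈ s := by
    intro m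
    simp only [s', Finset.mem_image, Finset.mem_filter]
    constructor
    · rintro ⟨n, ⟨h1, h2⟩, h3⟩
      cases n with
      | zero => exact absurd rfl h2
      | succ n => rw [Nat.pred_succ] at h3; rw [← h3]; exact h1
    · intro h
      exact ⟨m + 1, ⟨h, Nat.succ_ne_zero m⟩, rfl⟩
  let t0 : Set ℝ := if 0 ∈ s then t 0 else Set.univ
  have hpre : cons ⁻¹' (Set.pi s t) = (Set.pi s' (fun m => t (m + 1))) ×ˢ t0 := by
    ext q
    simp only [Set.mem_preimage, Set.mem_pi, Set.mem_prod, Finset.mem_coe]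
    constructor
    · intro h
      refine ⟨fun m hm => h (m + 1) ((hs' m).1 hm), ?_⟩
      simp only [t0]
      split_ifs with h0
      · exact h 0 h0
      · trivial
    · rintro ⟨h1, h2⟩ n hn
      cases n with
      | zero =>
        simp only [t0, if_pos hn] at h2
        exact h2
      | succ n => exact h1 n ((hs' n).2 hn)
  rw [hpre, Measure.prod_prod, Measure.infinitePi_pi _ (fun i _ => ht (i + 1))]
  have hprod : ∏ i ∈ s.filter (fun n => n ≠ 0), σ (t i) = ∏ m ∈ s', σ (t (m + 1)) := by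
    simp only [s']
    rw [Finset.prod_image]
    · apply Finset.prod_congr rfl
      intro i hi
      rw [Finset.mem_filter] at hi
      rw [Nat.pred_eq_sub_one, Nat.sub_add_cancel (Nat.one_le_iff_ne_zero.2 hi.2)]
    · intro a ha b hb hab
      simp only [Finset.coe_filter, Set.mem_ofPred_eq] at ha hb
      have h1 := Nat.succ_pred_eq_of_pos (Nat.pos_of_ne_zero ha.2)
      have h2 := Nat.succ_pred_eq_of_pos (Nat.pos_of_ne_zero hb.2)
      rw [← h1, ← h2, hab]
  rw [← hprod]
  by_cases h0 : 0 ∈ s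
  · have hins : s = insert 0 (s.filter (fun n => n ≠ 0)) := by
      ext n
      simp only [Finset.mem_insert, Finset.mem_filter]
      by_cases hn : n = 0
      · simp [hn, h0]
      · simp [hn]
    conv_rhs => rw [hins]
    rw [Finset.prod_insert (by simp), mul_comm]
    simp only [t0, if_pos h0]
  · have hins : s = s.filter (fun n => n ≠ 0) := by
      ext n
      simp only [Finset.mem_filter]
      constructor
      · intro h; exact ⟨h, fun h' => h0 (h' ▸ h)⟩
      · exact fun h => h.1
    simp only [t0, if_neg h0, measure_univ, mul_one]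
    conv_rhs => rw [hins]

variable {k : ℕ} [NeZero k]

/-- Loynes' backward recursion -/
noncomputable def Z (k : ℕ) [NeZero k] (c : ℝ) : ℕ → (ℕ → ℝ) → (Fin k → ℝ)
  | 0 => fun _ => 0
  | n + 1 => fun ω => step (Z k c n (fun m => ω (m + 1))) (ω 0) c

attribute [local irreducible] step

theorem Z_measurable (hF : Measurable (fun q : (Fin k → ℝ) × ℝ × ℝ => step q.1 q.2.2 q.2.1))
    (c : ℝ) (n : ℕ) : Measurable (Z k c n) := by
  induction n with
  | zero => exact measurable_const
  | succ n ih =>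
    have h1 : Measurable (fun ω : ℕ → ℝ => (Z k c n (fun m => ω (m + 1)), c, ω 0)) :=
      (ih.comp (measurable_pi_lambda _ (fun m => measurable_pi_apply (m + 1)))).prodMk
        (measurable_const.prodMk (measurable_pi_apply 0))
    have h2 : Z k c (n + 1) = (fun q : (Fin k → ℝ) × ℝ × ℝ => step q.1 q.2.2 q.2.1) ∘
      (fun ω : ℕ → ℝ => (Z k c n (fun m => ω (m + 1)), c, ω 0)) := rfl
    rw [h2]
    exact hF.comp h1

theorem Z_cons (c : ℝ) (n : ℕ) (q : (ℕ → ℝ) × ℝ) :
    Z k c (n + 1) (cons q) = step (Z k c n q.1) q.2 c := rfl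

theorem law_eq (hF : Measurable (fun q : (Fin k → ℝ) × ℝ × ℝ => step q.1 q.2.2 q.2.1)) (c : ℝ)
    (σ : Measure ℝ) [IsProbabilityMeasure σ] (n : ℕ) :
    law k (Measure.dirac c) σ n = (Measure.infinitePi (fun _ : ℕ => σ)).map (Z k c n) := by
  induction n with
  | zero =>
    show Measure.dirac 0 = _
    have : Z k c 0 = fun _ => (0 : Fin k → ℝ) := rfl
    rw [this, Measure.map_const, measure_univ, one_smul]
  | succ n ih =>
    show ((law k (Measure.dirac c) σ n).prod ((Measure.dirac c).prod σ)).map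
      (fun q => step q.1 q.2.2 q.2.1) = _
    have hZ := Z_measurable hF c n
    have hZ1 := Z_measurable hF c (n + 1)
    rw [ih, Measure.dirac_prod, Measure.map_prod_map _ _ hZ measurable_prodMk_left,
      Measure.map_map hF (hZ.prodMap measurable_prodMk_left)]
    conv_rhs => rw [← cons_law σ, Measure.map_map hZ1 measurable_cons]
    rfl

/-- the integral over one step for a two-point service law -/
noncomputable def sg (a b : ℝ) : Measure ℝ :=
  ENNReal.ofReal (7 / 8) • Measure.dirac a + ENNReal.ofReal (1 / 8) • Measure.dirac b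

instance (a b : ℝ) : IsProbabilityMeasure (sg a b) := by
  constructor
  unfold sg
  rw [Measure.add_apply, Measure.smul_apply, Measure.smul_apply, measure_univ, measure_univ]
  simp only [smul_eq_mul, mul_one]
  rw [← ENNReal.ofReal_add (by norm_num) (by norm_num)]
  norm_num

theorem lintegral_sg (a b : ℝ) (f : ℝ → ℝ≥0∞) :
    ∫⁻ s, f s ∂(sg a b) = ENNReal.ofReal (7 / 8) * f a + ENNReal.ofReal (1 / 8) * f b := by
  unfold sg
  rw [lintegral_add_measure, lintegral_smul_measure, lintegral_smul_measure, lintegral_dirac,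
    lintegral_dirac]
  rfl

theorem lintegral_Z_succ (hF : Measurable (fun q : (Fin k → ℝ) × ℝ × ℝ => step q.1 q.2.2 q.2.1))
    (c a b : ℝ) (n : ℕ) (f : (Fin k → ℝ) → ℝ≥0∞) (hf : Measurable f) :
    ∫⁻ ω, f (Z k c (n + 1) ω) ∂(Measure.infinitePi (fun _ : ℕ => sg a b)) =
      ∫⁻ ω, (ENNReal.ofReal (7 / 8) * f (step (Z k c n ω) a c) +
        ENNReal.ofReal (1 / 8) * f (step (Z k c n ω) b c))
        ∂(Measure.infinitePi (fun _ : ℕ => sg a b)) := by
  have hZ := Z_measurable hF c n
  have hZ1 := Z_measurable hF c (n + 1)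
  have hstep : Measurable (fun q : (Fin k → ℝ) × ℝ => step q.1 q.2 c) :=
    hF.comp (measurable_fst.prodMk (measurable_const.prodMk measurable_snd))
  have e1 : ∫⁻ ω, (f ∘ Z k c (n + 1)) ω ∂(Measure.infinitePi (fun _ : ℕ => sg a b)) =
      ∫⁻ q, (f ∘ Z k c (n + 1)) (cons q)
        ∂((Measure.infinitePi (fun _ : ℕ => sg a b)).prod (sg a b)) := by
    conv_lhs => rw [← cons_law (sg a b)]
    exact lintegral_map (hf.comp hZ1) measurable_cons
  have e2 := lintegral_prod (μ := Measure.infinitePi (fun _ : ℕ => sg a b)) (ν := sg a b)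
    (fun q => (f ∘ Z k c (n + 1)) (cons q)) ((hf.comp hZ1).comp measurable_cons).aemeasurable
  refine (e1.trans e2).trans (lintegral_congr fun ω => ?_)
  exact lintegral_sg a b (fun s => f (step (Z k c n ω) s c))

/-! ### monotonicity and the limit -/

/-- the properties of `step` that are used -/
structure Good (k : ℕ) [NeZero k] (c : ℝ) : Prop where
  meas : Measurable (fun q : (Fin k → ℝ) × ℝ × ℝ => step q.1 q.2.2 q.2.1)
  mono : ∀ (w w' : Fin k → ℝ) (s : ℝ), w ≤ w' → step w s c ≤ step w' s c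
  nonneg : ∀ (w : Fin k → ℝ) (s : ℝ), 0 ≤ step w s c

theorem Z_mono {c : ℝ} (h : Good k c) (n : ℕ) (ω : ℕ → ℝ) : Z k c n ω ≤ Z k c (n + 1) ω := by
  induction n generalizing ω with
  | zero => exact h.nonneg _ _
  | succ n ih => exact h.mono _ _ _ (ih _)

theorem Z_monotone {c : ℝ} (h : Good k c) (ω : ℕ → ℝ) : Monotone (fun n => Z k c n ω) :=
  monotone_nat_of_le_succ (fun n => Z_mono h n ω)

theorem Z_nonneg {c : ℝ} (h : Good k c) (n : ℕ) (ω : ℕ → ℝ) : 0 ≤ Z k c n ω :=
  Z_monotone h ω (Nat.zero_le n)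

/-- the mean of the coordinate `i` -/
noncomputable def m (k : ℕ) [NeZero k] (c a b : ℝ) (i : Fin k) (n : ℕ) : ℝ≥0∞ :=
  ∫⁻ ω, ENNReal.ofReal (Z k c n ω i) ∂(Measure.infinitePi (fun _ : ℕ => sg a b))

theorem loynes {c : ℝ} (h : Good k c) (a b : ℝ) (C : ℝ≥0∞) (hC : C ≠ ⊤)
    (hm : ∀ n i, m k c a b i n ≤ C) :
    ∃ π : Measure (Fin k → ℝ), IsLimitLaw k (Measure.dirac c) (sg a b) π ∧
      meanWait π = ⨆ n, m k c a b 0 n := by
  classical
  let P := Measure.infinitePi (fun _ : ℕ => sg a b)
  have hZm := Z_measurable h.meas c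
  have hcm : ∀ n i, Measurable (fun ω => ENNReal.ofReal (Z k c n ω i)) := fun n i =>
    ((measurable_pi_apply i).comp (hZm n)).ennreal_ofReal
  -- the supremum is a.s. finite
  have hmono : ∀ i, Monotone (fun n ω => ENNReal.ofReal (Z k c n ω i)) := by
    intro i n n' hnn ω
    exact ENNReal.ofReal_le_ofReal (Z_monotone h ω hnn i)
  have hsup : ∀ i, ∫⁻ ω, ⨆ n, ENNReal.ofReal (Z k c n ω i) ∂P ≤ C := by
    intro i
    rw [lintegral_iSup (fun n => hcm n i) (hmono i)]
    exact iSup_le fun n => hm n i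
  have hfin : ∀ᵐ ω ∂P, ∀ i, ⨆ n, ENNReal.ofReal (Z k c n ω i) < ⊤ := by
    rw [ae_all_iff]
    intro i
    apply ae_lt_top (Measurable.iSup fun n => hcm n i)
    exact ((hsup i).trans_lt (lt_top_iff_ne_top.2 hC)).ne
  -- the limit
  let Zi : (ℕ → ℝ) → (Fin k → ℝ) := fun ω i => (⨆ n, ENNReal.ofReal (Z k c n ω i)).toReal
  have hZi : Measurable Zi := by
    apply measurable_pi_lambda
    intro i
    exact (Measurable.iSup fun n => hcm n i).ennreal_toReal
  have hlim : ∀ᵐ ω ∂P, Tendsto (fun n => Z k c n ω) atTop (𝓝 (Zi ω)) := by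
    filter_upwards [hfin] with ω hω
    rw [tendsto_pi_nhds]
    intro i
    have h1 : Tendsto (fun n => ENNReal.ofReal (Z k c n ω i)) atTop
        (𝓝 (⨆ n, ENNReal.ofReal (Z k c n ω i))) :=
      tendsto_atTop_iSup (fun n n' hnn => hmono i hnn ω)
    have h2 := (ENNReal.tendsto_toReal (hω i).ne).comp h1
    refine h2.congr fun n => ?_
    exact ENNReal.toReal_ofReal (Z_nonneg h n ω i)
  have hPp : IsProbabilityMeasure P := inferInstance
  refine ⟨P.map Zi, ⟨Measure.isProbabilityMeasure_map hZi.aemeasurable, ?_⟩, ?_⟩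
  · intro f
    have h1 : ∀ n, ∫ w, f w ∂(law k (Measure.dirac c) (sg a b) n) = ∫ ω, f (Z k c n ω) ∂P := by
      intro n
      rw [law_eq h.meas c (sg a b) n]
      exact integral_map (hZm n).aemeasurable f.continuous.aestronglyMeasurable
    have h2 : ∫ w, f w ∂(P.map Zi) = ∫ ω, f (Zi ω) ∂P :=
      integral_map hZi.aemeasurable f.continuous.aestronglyMeasurable
    rw [h2]
    simp only [h1]
    apply tendsto_integral_of_dominated_convergence (fun _ => ‖f‖)
    · intro n
      exact (f.continuous.measurable.comp (hZm n)).aestronglyMeasurable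
    · exact integrable_const _
    · intro n
      exact Eventually.of_forall fun ω => f.norm_coe_le_norm _
    · filter_upwards [hlim] with ω hω
      exact (f.continuous.tendsto _).comp hω
  · unfold meanWait
    rw [lintegral_map ((measurable_pi_apply 0).ennreal_ofReal) hZi]
    have h3 : ∀ᵐ ω ∂P, ENNReal.ofReal (Zi ω 0) = ⨆ n, ENNReal.ofReal (Z k c n ω 0) := by
      filter_upwards [hfin] with ω hω
      exact ENNReal.ofReal_toReal (hω 0).ne
    rw [lintegral_congr_ae h3, lintegral_iSup (fun n => hcm n 0) (hmono 0)]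
    rfl

/-- a drift condition bounds the mean -/
theorem drift {c : ℝ} (h : Good k c) (a b : ℝ) (i : Fin k) (f : (Fin k → ℝ) → ℝ≥0∞)
    (hf : Measurable f) (hf0 : f 0 = 0) (β : ℝ≥0∞) (hβ : β ≠ ⊤)
    (hd : ∀ n ω, ENNReal.ofReal (7 / 8) * f (step (Z k c n ω) a c) +
        ENNReal.ofReal (1 / 8) * f (step (Z k c n ω) b c) + ENNReal.ofReal (Z k c n ω i) ≤
        f (Z k c n ω) + β) (n : ℕ) : m k c a b i n ≤ β := by
  let P := Measure.infinitePi (fun _ : ℕ => sg a b)
  have hPp : IsProbabilityMeasure P := inferInstance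
  have hZm := Z_measurable h.meas c
  have hmm : Monotone (m k c a b i) := by
    intro n n' hnn
    apply lintegral_mono
    intro ω
    exact ENNReal.ofReal_le_ofReal (Z_monotone h ω hnn i)
  have hstep : ∀ n, ∫⁻ ω, f (Z k c (n + 1) ω) ∂P + m k c a b i n ≤ ∫⁻ ω, f (Z k c n ω) ∂P + β := by
    intro n
    rw [lintegral_Z_succ h.meas c a b n f hf]
    unfold m
    have hc1 : Measurable (fun ω => ENNReal.ofReal (Z k c n ω i)) :=
      ((measurable_pi_apply i).comp (hZm n)).ennreal_ofReal
    rw [← lintegral_add_right _ hc1]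
    calc _ ≤ ∫⁻ ω, (f (Z k c n ω) + β) ∂P := lintegral_mono fun ω => hd n ω
      _ = _ := by
        rw [lintegral_add_right _ measurable_const, lintegral_const, measure_univ, mul_one]
  have hsum : ∀ N, ∫⁻ ω, f (Z k c N ω) ∂P + ∑ j ∈ Finset.range N, m k c a b i j ≤ N * β := by
    intro N
    induction N with
    | zero =>
      have h0 : ∀ ω, f (Z k c 0 ω) = 0 := fun ω => hf0
      simp [h0]
    | succ N ih =>
      rw [Finset.sum_range_succ]
      calc _ = (∫⁻ ω, f (Z k c (N + 1) ω) ∂P + m k c a b i N) +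
            ∑ j ∈ Finset.range N, m k c a b i j := by ring
        _ ≤ (∫⁻ ω, f (Z k c N ω) ∂P + β) + ∑ j ∈ Finset.range N, m k c a b i j := by
            exact add_le_add (hstep N) le_rfl
        _ = (∫⁻ ω, f (Z k c N ω) ∂P + ∑ j ∈ Finset.range N, m k c a b i j) + β := by ring
        _ ≤ N * β + β := by gcongr
        _ = ((N + 1 : ℕ) : ℝ≥0∞) * β := by push_cast; ring
  have hkey : ∀ M : ℕ, (M : ℝ≥0∞) * m k c a b i n ≤ ((n + M : ℕ) : ℝ≥0∞) * β := by
    intro M
    have h1 : (M : ℝ≥0∞) * m k c a b i n ≤ ∑ j ∈ Finset.range (n + M), m k c a b i j := by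
      rw [Finset.sum_range_add]
      calc (M : ℝ≥0∞) * m k c a b i n = ∑ j ∈ Finset.range M, m k c a b i n := by
            rw [Finset.sum_const, Finset.card_range, nsmul_eq_mul]
        _ ≤ ∑ j ∈ Finset.range M, m k c a b i (n + j) :=
            Finset.sum_le_sum fun j _ => hmm (Nat.le_add_right n j)
        _ ≤ _ := le_add_self
    exact h1.trans ((le_add_self).trans (hsum (n + M)))
  have hmfin : m k c a b i n ≠ ⊤ := by
    have := hkey 1
    rw [Nat.cast_one, one_mul] at this
    exact ne_top_of_le_ne_top (ENNReal.mul_ne_top (ENNReal.natCast_ne_top _) hβ) this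
  by_contra hcon
  push Not at hcon
  have hcon' : β.toReal < (m k c a b i n).toReal := (ENNReal.toReal_lt_toReal hβ hmfin).2 hcon
  obtain ⟨M, hM⟩ := exists_nat_gt (n * β.toReal / ((m k c a b i n).toReal - β.toReal))
  have h2 := ENNReal.toReal_mono (ENNReal.mul_ne_top (ENNReal.natCast_ne_top _) hβ) (hkey M)
  rw [ENNReal.toReal_mul, ENNReal.toReal_mul, ENNReal.toReal_natCast, ENNReal.toReal_natCast] at h2
  rw [div_lt_iff₀ (by linarith)] at hM
  push_cast at h2
  nlinarith

end Pool.Agent.H16.Queue
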