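import Pool.Agent.H16.Queue1

set_option autoImplicit false

open MeasureTheory Filter Topology ENNReal

namespace Pool.Agent.H16.Queue

theorem step_one (w : Fin 1 → ℝ) (s t : ℝ) : step w s t = fun _ => max (w 0 + s - t) 0 := by
  funext i
  unfold step
  have h : Tuple.sort (Function.update w 0 (w 0 + s)) i = 0 := Subsingleton.elim _ _
  show max (Function.update w 0 (w 0 + s)
    (Tuple.sort (Function.update w 0 (w 0 + s)) i) - t) 0 = _
  rw [h, Function.update_self]

theorem step_two (w : Fin 2 → ℝ) (s t : ℝ) : step w s t =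
    ![max (min (w 0 + s) (w 1) - t) 0, max (max (w 0 + s) (w 1) - t) 0] := by
  have key : ∀ v : Fin 2 → ℝ, v (Tuple.sort v 0) = min (v 0) (v 1) ∧
      v (Tuple.sort v 1) = max (v 0) (v 1) := by
    intro v
    have hm := Tuple.monotone_sort v
    have h01 : v (Tuple.sort v 0) ≤ v (Tuple.sort v 1) := hm (by decide : (0 : Fin 2) ≤ 1)
    have hne : Tuple.sort v 0 ≠ Tuple.sort v 1 := fun h => by
      have := (Tuple.sort v).injective h
      exact absurd this (by decide)
    generalize Tuple.sort v 0 = a at *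
    generalize Tuple.sort v 1 = b at *
    fin_cases a <;> fin_cases b
    · exact absurd rfl hne
    · simp only [Fin.zero_eta, Fin.mk_one] at *
      exact ⟨(min_eq_left h01).symm, (max_eq_right h01).symm⟩
    · simp only [Fin.zero_eta, Fin.mk_one] at *
      exact ⟨(min_eq_right h01).symm, (max_eq_left h01).symm⟩
    · exact absurd rfl hne
  have hk := key (Function.update w 0 (w 0 + s))
  rw [Function.update_self, Function.update_of_ne (by decide : (1 : Fin 2) ≠ 0)] at hk
  funext i
  unfold step
  fin_cases i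
  · show max (Function.update w 0 (w 0 + s)
      (Tuple.sort (Function.update w 0 (w 0 + s)) 0) - t) 0 = max (min (w 0 + s) (w 1) - t) 0
    rw [hk.1]
  · show max (Function.update w 0 (w 0 + s)
      (Tuple.sort (Function.update w 0 (w 0 + s)) 1) - t) 0 = max (max (w 0 + s) (w 1) - t) 0
    rw [hk.2]

attribute [local irreducible] step

theorem good_one (c : ℝ) : Good 1 c := by
  refine ⟨?_, ?_, ?_⟩
  · have : (fun q : (Fin 1 → ℝ) × ℝ × ℝ => step q.1 q.2.2 q.2.1) =
        fun q => fun _ => max (q.1 0 + q.2.2 - q.2.1) 0 := by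
      funext q; rw [step_one]
    rw [this]
    apply Continuous.measurable
    fun_prop
  · intro w w' s hw
    rw [step_one, step_one]
    intro i
    have := hw 0
    exact max_le_max (by linarith) le_rfl
  · intro w s i
    rw [step_one]
    exact le_max_right _ _

theorem good_two (c : ℝ) : Good 2 c := by
  refine ⟨?_, ?_, ?_⟩
  · have : (fun q : (Fin 2 → ℝ) × ℝ × ℝ => step q.1 q.2.2 q.2.1) =
        fun q => ![max (min (q.1 0 + q.2.2) (q.1 1) - q.2.1) 0,
          max (max (q.1 0 + q.2.2) (q.1 1) - q.2.1) 0] := by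
      funext q; rw [step_two]
    rw [this]
    apply Continuous.measurable
    apply continuous_pi
    intro i
    fin_cases i
    · simp only [Fin.zero_eta, Matrix.cons_val_zero]; fun_prop
    · simp only [Fin.mk_one, Matrix.cons_val_one]
      show Continuous fun q : (Fin 2 → ℝ) × ℝ × ℝ => max (max (q.1 0 + q.2.2) (q.1 1) - q.2.1) 0
      fun_prop
  · intro w w' s hw
    rw [step_two, step_two]
    have h0 := hw 0
    have h1 := hw 1
    have h2 : w 0 + s ≤ w' 0 + s := by linarith
    intro i
    fin_cases i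
    · show max (min (w 0 + s) (w 1) - c) 0 ≤ max (min (w' 0 + s) (w' 1) - c) 0
      exact max_le_max (by linarith [min_le_min h2 h1]) le_rfl
    · show max (max (w 0 + s) (w 1) - c) 0 ≤ max (max (w' 0 + s) (w' 1) - c) 0
      exact max_le_max (by linarith [max_le_max h2 h1]) le_rfl
  · intro w s i
    rw [step_two]
    fin_cases i
    · exact le_max_right _ _
    · exact le_max_right _ _

theorem Z_sorted (c : ℝ) (n : ℕ) (ω : ℕ → ℝ) : Z 2 c n ω 0 ≤ Z 2 c n ω 1 := by
  cases n with
  | zero => exact le_rfl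
  | succ n =>
    show step (Z 2 c n (fun m => ω (m + 1))) (ω 0) c 0 ≤ step (Z 2 c n (fun m => ω (m + 1))) (ω 0) c 1
    rw [step_two]
    show max (min _ _ - c) 0 ≤ max (max _ _ - c) 0
    have hmm := min_le_max (a := Z 2 c n (fun m => ω (m + 1)) 0 + ω 0)
      (b := Z 2 c n (fun m => ω (m + 1)) 1)
    exact max_le_max (by linarith) le_rfl

theorem bound_one (n : ℕ) (i : Fin 1) : m 1 8 6 9 i n ≤ ENNReal.ofReal (19 / 96) := by
  apply drift (good_one 8) 6 9 i (fun w => ENNReal.ofReal (w 0 ^ 2 / 3 + 5 * w 0 / 4)) ?_ ?_ _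
    ENNReal.ofReal_ne_top
  · intro n ω
    have hi : i = 0 := Subsingleton.elim _ _
    subst hi
    have hx : 0 ≤ Z 1 8 n ω 0 := Z_nonneg (good_one 8) n ω 0
    simp only [step_one]
    generalize Z 1 8 n ω 0 = x at *
    have hy : 0 ≤ max (x + 6 - 8) 0 := le_max_right _ _
    have hz : 0 ≤ max (x + 9 - 8) 0 := le_max_right _ _
    rw [← ENNReal.ofReal_mul (by norm_num), ← ENNReal.ofReal_mul (by norm_num),
      ← ENNReal.ofReal_add (by positivity) (by positivity),
      ← ENNReal.ofReal_add (by positivity) hx, ← ENNReal.ofReal_add (by positivity) (by norm_num)]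
    apply ENNReal.ofReal_le_ofReal
    have e1 : max (x + 9 - 8) 0 = x + 1 := by rw [max_eq_left (by linarith)]; ring
    rw [e1]
    rcases le_total x 2 with h | h
    · rw [max_eq_right (by linarith)]
      nlinarith
    · rw [max_eq_left (by linarith)]
      nlinarith
  · apply Measurable.ennreal_ofReal
    apply Continuous.measurable
    fun_prop
  · simp

theorem bound_two (n : ℕ) (i : Fin 2) : m 2 8 12 18 i n ≤ ENNReal.ofReal (181 / 13) := by
  apply drift (good_two 8) 12 18 i (fun w => ENNReal.ofReal ((w 0 ^ 2 + w 1 ^ 2) / (13 / 2))) ?_ ?_ _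
    ENNReal.ofReal_ne_top
  · intro n ω
    have hx : 0 ≤ Z 2 8 n ω 0 := Z_nonneg (good_two 8) n ω 0
    have hxy : Z 2 8 n ω 0 ≤ Z 2 8 n ω 1 := Z_sorted 8 n ω
    have hi : Z 2 8 n ω i ≤ Z 2 8 n ω 1 := by
      fin_cases i
      · exact hxy
      · exact le_rfl
    have hi0 : 0 ≤ Z 2 8 n ω i := Z_nonneg (good_two 8) n ω i
    simp only [step_two, Matrix.cons_val_zero, Matrix.cons_val_one]
    generalize Z 2 8 n ω i = zi at *
    generalize Z 2 8 n ω 0 = x at *
    generalize Z 2 8 n ω 1 = y at *
    rw [← ENNReal.ofReal_mul (by norm_num), ← ENNReal.ofReal_mul (by norm_num),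
      ← ENNReal.ofReal_add (by positivity) (by positivity),
      ← ENNReal.ofReal_add (by positivity) hi0, ← ENNReal.ofReal_add (by positivity) (by norm_num)]
    apply ENNReal.ofReal_le_ofReal
    have key : ∀ s : ℝ, 12 ≤ s → max (min (x + s) y - 8) 0 ^ 2 + max (max (x + s) y - 8) 0 ^ 2 ≤
        (x + s - 8) ^ 2 + (y - 8) ^ 2 := by
      intro s hs
      have e1 : max (x + s - 8) 0 = x + s - 8 := max_eq_left (by linarith)
      have e2 : max (y - 8) 0 ^ 2 ≤ (y - 8) ^ 2 := by
        rcases le_total y 8 with h | h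
        · rw [max_eq_right (by linarith)]; nlinarith [sq_nonneg (y - 8)]
        · rw [max_eq_left (by linarith)]
      rcases le_total (x + s) y with h | h
      · rw [min_eq_left h, max_eq_right h, e1]; linarith
      · rw [min_eq_right h, max_eq_left h, e1]; linarith
    have k1 := key 12 le_rfl
    have k2 := key 18 (by norm_num)
    nlinarith
  · apply Measurable.ennreal_ofReal
    apply Continuous.measurable
    fun_prop
  · simp

theorem lower_two : ENNReal.ofReal (1 / 4) ≤ m 2 8 12 18 0 2 := by
  have hg := (good_two 8).meas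
  let f : (Fin 2 → ℝ) → ℝ≥0∞ := fun w => ENNReal.ofReal (w 0)
  have hf : Measurable f := (measurable_pi_apply 0).ennreal_ofReal
  have hs : ∀ s : ℝ, Measurable (fun w : Fin 2 → ℝ => step w s 8) := fun s =>
    hg.comp (measurable_id.prodMk (measurable_const.prodMk measurable_const))
  let f1 : (Fin 2 → ℝ) → ℝ≥0∞ := fun w => ENNReal.ofReal (7 / 8) * f (step w 12 8) +
    ENNReal.ofReal (1 / 8) * f (step w 18 8)
  have hf1 : Measurable f1 :=
    ((hf.comp (hs 12)).const_mul _).add ((hf.comp (hs 18)).const_mul _)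
  have e1 : m 2 8 12 18 0 2 = ∫⁻ ω, f1 (Z 2 8 1 ω)
      ∂(Measure.infinitePi (fun _ : ℕ => sg 12 18)) := lintegral_Z_succ hg 8 12 18 1 f hf
  have e2 := lintegral_Z_succ hg 8 12 18 0 f1 hf1
  rw [e1, e2]
  have h0 : ∀ ω, Z 2 8 0 ω = 0 := fun ω => rfl
  simp only [h0]
  rw [lintegral_const, measure_univ, mul_one]
  have e3 : f1 (step 0 18 8) = ENNReal.ofReal 2 := by
    simp only [f1, f, step_two, Matrix.cons_val_zero, Matrix.cons_val_one, Pi.zero_apply]
    rw [← ENNReal.ofReal_mul (by norm_num), ← ENNReal.ofReal_mul (by norm_num),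
      ← ENNReal.ofReal_add (by positivity) (by positivity)]
    congr 1
    norm_num
  rw [e3]
  refine le_trans ?_ le_add_self
  rw [← ENNReal.ofReal_mul (by norm_num)]
  apply ENNReal.ofReal_le_ofReal
  norm_num

theorem integrable_sg (a b : ℝ) (f : ℝ → ℝ) (hf : StronglyMeasurable f) : Integrable f (sg a b) := by
  unfold sg
  apply Integrable.add_measure
  · exact (integrable_dirac' hf (by simp)).smul_measure ENNReal.ofReal_ne_top
  · exact (integrable_dirac' hf (by simp)).smul_measure ENNReal.ofReal_ne_top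

theorem integral_sg (a b : ℝ) : ∫ s, s ∂(sg a b) = 7 / 8 * a + 1 / 8 * b := by
  have hf : StronglyMeasurable (fun s : ℝ => s) := stronglyMeasurable_id
  unfold sg
  rw [integral_add_measure, integral_smul_measure, integral_smul_measure, integral_dirac,
    integral_dirac, ENNReal.toReal_ofReal (by norm_num), ENNReal.toReal_ofReal (by norm_num)]
  · rfl
  · exact (integrable_dirac' hf (by simp)).smul_measure ENNReal.ofReal_ne_top
  · exact (integrable_dirac' hf (by simp)).smul_measure ENNReal.ofReal_ne_top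

theorem sg_neg (a b : ℝ) (ha : 0 ≤ a) (hb : 0 ≤ b) : sg a b (Set.Iio 0) = 0 := by
  unfold sg
  rw [Measure.add_apply, Measure.smul_apply, Measure.smul_apply,
    Measure.dirac_apply' _ measurableSet_Iio, Measure.dirac_apply' _ measurableSet_Iio,
    Set.indicator_of_notMem (by simpa using ha), Set.indicator_of_notMem (by simpa using hb)]
  simp

theorem sg_map (a b : ℝ) (g : ℝ → ℝ) (hg : Measurable g) : (sg a b).map g = sg (g a) (g b) := by
  unfold sg
  rw [Measure.map_add _ _ hg, Measure.map_smul, Measure.map_smul, Measure.map_dirac' hg,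
    Measure.map_dirac' hg]

end Pool.Agent.H16.Queue
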