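import Mathlib

set_option autoImplicit false

open MeasureTheory Filter Topology

namespace Pool.Agent.H16.Queue

/-- one step `W_(n) ↦ W_(n+1)` of the Kiefer–Wolfowitz recursion for `k` servers, with service time
`s` and interarrival time `t`: add `s` to the first (smallest) coordinate, rearrange in increasing
order (`Tuple.sort`), subtract `t` and take positive parts -/
noncomputable def step {k : ℕ} [NeZero k] (w : Fin k → ℝ) (s t : ℝ) : Fin k → ℝ :=
  let v : Fin k → ℝ := Function.update w 0 (w 0 + s)
  fun i => max (v (Tuple.sort v i) - t) 0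

/-- the law of the workload vector `W_(n)` of the GI/GI/k queue started empty (`W_(0) = 0`) with
interarrival law `τ` and service law `σ` -/
noncomputable def law (k : ℕ) [NeZero k] (τ σ : Measure ℝ) : ℕ → Measure (Fin k → ℝ)
  | 0 => Measure.dirac 0
  | n + 1 => ((law k τ σ n).prod (τ.prod σ)).map (fun q => step q.1 q.2.2 q.2.1)

/-- `π` is the law of the stationary workload vector: `W_(n)` converges in distribution to `π` -/
def IsLimitLaw (k : ℕ) [NeZero k] (τ σ : Measure ℝ) (π : Measure (Fin k → ℝ)) : Prop :=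
  IsProbabilityMeasure π ∧ ∀ f : BoundedContinuousFunction (Fin k → ℝ) ℝ,
    Tendsto (fun n => ∫ w, f w ∂(law k τ σ n)) atTop (𝓝 (∫ w, f w ∂π))

/-- the mean of the first coordinate (the mean waiting time), in `[0, ∞]` -/
noncomputable def meanWait {k : ℕ} [NeZero k] (π : Measure (Fin k → ℝ)) : ENNReal :=
  ∫⁻ w, ENNReal.ofReal (w 0) ∂π

/-- a law on `[0, ∞)` with finite positive mean -/
def IsTimeLaw (τ : Measure ℝ) : Prop :=
  IsProbabilityMeasure τ ∧ τ (Set.Iio 0) = 0 ∧ Integrable (fun t : ℝ => t) τ ∧ 0 < ∫ t, t ∂τ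

end Pool.Agent.H16.Queue
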