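import Mathlib

set_option autoImplicit false

open MeasureTheory Set Filter Topology

namespace Pool.Agent.H16.Smp

noncomputable section

def tau (k : ℕ) : ℝ := Real.exp (-((k : ℝ) + 1))
def del (k : ℕ) : ℝ := Real.exp (-((k : ℝ) + 1) ^ 2 - 3)

lemma tau_pos (k : ℕ) : 0 < tau k := Real.exp_pos _
lemma del_pos (k : ℕ) : 0 < del k := Real.exp_pos _

lemma exp_neg_one_le : Real.exp (-1) ≤ 1 / 2 := by
  have h := Real.add_one_le_exp (1 : ℝ)
  rw [Real.exp_neg]
  rw [inv_le_comm₀ (Real.exp_pos 1) (by norm_num)]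
  linarith

lemma exp_neg_three_le : Real.exp (-3) ≤ 1 / 8 := by
  have h := exp_neg_one_le
  have e : Real.exp (-3) = Real.exp (-1) ^ 3 := by
    rw [← Real.exp_nat_mul]; norm_num
  rw [e]
  have h0 := Real.exp_pos (-1)
  calc Real.exp (-1) ^ 3 ≤ (1 / 2) ^ 3 := pow_le_pow_left₀ h0.le h 3
    _ = 1 / 8 := by norm_num

lemma tau_le_half (k : ℕ) : tau k ≤ 1 / 2 := by
  refine le_trans ?_ exp_neg_one_le
  apply Real.exp_le_exp.2
  have : (0 : ℝ) ≤ k := Nat.cast_nonneg k
  linarith

lemma tau_succ_le (k : ℕ) : tau (k + 1) ≤ tau k / 2 := by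
  have : tau (k + 1) = tau k * Real.exp (-1) := by
    unfold tau
    rw [← Real.exp_add]; congr 1; push_cast; ring
  rw [this]
  have := exp_neg_one_le
  have := tau_pos k
  nlinarith

lemma del_le (k : ℕ) : del k ≤ tau k / 8 := by
  have h : del k ≤ tau k * Real.exp (-3) := by
    unfold del tau
    rw [← Real.exp_add]
    apply Real.exp_le_exp.2
    have : (0 : ℝ) ≤ k := Nat.cast_nonneg k
    nlinarith
  have := exp_neg_three_le
  have := tau_pos k
  nlinarith

lemma del_anti (k : ℕ) : del (k + 1) ≤ del k := by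
  unfold del
  apply Real.exp_le_exp.2
  push_cast
  have : (0 : ℝ) ≤ k := Nat.cast_nonneg k
  nlinarith

lemma tau_anti : Antitone tau := by
  apply antitone_nat_of_succ_le
  intro k
  have := tau_succ_le k
  have := tau_pos k
  linarith

lemma tau_lt_of_lt {j k : ℕ} (h : j < k) : tau k ≤ tau j / 2 :=
  (tau_anti (Nat.succ_le_of_lt h)).trans (tau_succ_le j)

/-- the k-th tent -/
def tent (k : ℕ) (t : ℝ) : ℝ := max 0 (del k - |t - tau k|)

def hh (t : ℝ) : ℝ := ∑' k, tent k t

lemma tent_nonneg (k : ℕ) (t : ℝ) : 0 ≤ tent k t := le_max_left _ _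
lemma tent_le (k : ℕ) (t : ℝ) : tent k t ≤ del k :=
  max_le (del_pos k).le (by linarith [abs_nonneg (t - tau k)])
lemma tent_cont (k : ℕ) : Continuous (tent k) := by
  unfold tent
  fun_prop

lemma del_le_geom (k : ℕ) : del k ≤ (1 / 2 : ℝ) ^ k := by
  have h : del k ≤ Real.exp (-1) ^ k := by
    rw [← Real.exp_nat_mul]
    unfold del
    apply Real.exp_le_exp.2
    have : (0 : ℝ) ≤ k := Nat.cast_nonneg k
    nlinarith
  exact h.trans (pow_le_pow_left₀ (Real.exp_pos _).le exp_neg_one_le k)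

lemma del_summable : Summable del :=
  Summable.of_nonneg_of_le (fun k => (del_pos k).le) del_le_geom
    (summable_geometric_of_lt_one (by norm_num) (by norm_num))

lemma tau_le_geom (k : ℕ) : tau k ≤ (1 / 2 : ℝ) ^ k := by
  have h : tau k ≤ Real.exp (-1) ^ k := by
    rw [← Real.exp_nat_mul]
    unfold tau
    apply Real.exp_le_exp.2
    linarith
  exact h.trans (pow_le_pow_left₀ (Real.exp_pos _).le exp_neg_one_le k)

lemma hh_cont : Continuous hh := by
  apply continuous_tsum tent_cont del_summable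
  intro k t
  rw [Real.norm_eq_abs, abs_of_nonneg (tent_nonneg k t)]
  exact tent_le k t

lemma hh_nonneg (t : ℝ) : 0 ≤ hh t := tsum_nonneg fun k => tent_nonneg k t

lemma tent_eq_zero {k : ℕ} {t : ℝ} (h : del k ≤ |t - tau k|) : tent k t = 0 :=
  max_eq_left (by linarith)

lemma hh_zero {t : ℝ} (ht : t ≤ 0) : hh t = 0 := by
  unfold hh
  have : ∀ k, tent k t = 0 := by
    intro k
    apply tent_eq_zero
    have h1 := del_le k
    have h2 := tau_pos k
    rw [abs_of_nonpos (by linarith)]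
    linarith
  simp [this]

lemma disj {j k : ℕ} (hjk : j < k) {t : ℝ} (hj : |t - tau j| < del j) (hk : |t - tau k| < del k) :
    False := by
  have h1 := tau_lt_of_lt hjk
  have h2 := del_le j
  have h3 := del_le k
  have h4 := tau_pos j
  have h5 := tau_pos k
  rw [abs_lt] at hj hk
  linarith [hj.1, hj.2, hk.1, hk.2]

lemma hh_eq {k : ℕ} {t : ℝ} (hk : |t - tau k| < del k) : hh t = tent k t := by
  unfold hh
  apply tsum_eq_single
  intro j hj
  apply tent_eq_zero
  by_contra hcon
  push Not at hcon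
  rcases lt_or_gt_of_ne hj with h | h
  · exact disj h hcon hk
  · exact disj h hk hcon

lemma hh_le {k : ℕ} {t : ℝ} (hk : |t - tau k| < del k) : hh t ≤ del k := by
  rw [hh_eq hk]; exact tent_le k t

lemma hh_ge {k : ℕ} {t : ℝ} (hk : |t - tau k| ≤ del k / 2) : del k / 2 ≤ hh t := by
  have h0 := del_pos k
  rw [hh_eq (lt_of_le_of_lt hk (by linarith))]
  unfold tent
  apply le_trans _ (le_max_right _ _)
  linarith

lemma hh_ne {t : ℝ} (h : hh t ≠ 0) : ∃ k, |t - tau k| < del k := by
  by_contra hcon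
  push Not at hcon
  apply h
  unfold hh
  have : ∀ k, tent k t = 0 := fun k => tent_eq_zero (hcon k)
  simp [this]

def gg (t : ℝ) : ℝ := ∫ s in (0 : ℝ)..t, hh s
def GG (t : ℝ) : ℝ := ∫ s in (0 : ℝ)..t, gg s

lemma gg_deriv (t : ℝ) : HasDerivAt gg (hh t) t :=
  intervalIntegral.integral_hasDerivAt_right (hh_cont.intervalIntegrable _ _)
    hh_cont.aestronglyMeasurable.stronglyMeasurableAtFilter hh_cont.continuousAt

lemma gg_cont : Continuous gg :=
  continuous_iff_continuousAt.2 fun t => (gg_deriv t).continuousAt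

lemma GG_deriv (t : ℝ) : HasDerivAt GG (gg t) t :=
  intervalIntegral.integral_hasDerivAt_right (gg_cont.intervalIntegrable _ _)
    gg_cont.aestronglyMeasurable.stronglyMeasurableAtFilter gg_cont.continuousAt

lemma GG_cont : Continuous GG :=
  continuous_iff_continuousAt.2 fun t => (GG_deriv t).continuousAt

lemma gg_zero {t : ℝ} (ht : t ≤ 0) : gg t = 0 := by
  unfold gg
  rw [intervalIntegral.integral_symm]
  have : ∫ s in t..(0 : ℝ), hh s = ∫ s in t..(0 : ℝ), (0 : ℝ) := by
    apply intervalIntegral.integral_congr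
    intro s hs
    rw [uIcc_of_le ht] at hs
    exact hh_zero hs.2
  rw [this]; simp

lemma gg_nonneg (t : ℝ) : 0 ≤ gg t := by
  rcases le_total t 0 with h | h
  · rw [gg_zero h]
  · unfold gg
    exact intervalIntegral.integral_nonneg h fun s _ => hh_nonneg s

lemma GG_zero {t : ℝ} (ht : t ≤ 0) : GG t = 0 := by
  unfold GG
  rw [intervalIntegral.integral_symm]
  have : ∫ s in t..(0 : ℝ), gg s = ∫ s in t..(0 : ℝ), (0 : ℝ) := by
    apply intervalIntegral.integral_congr
    intro s hs
    rw [uIcc_of_le ht] at hs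
    exact gg_zero hs.2
  rw [this]; simp

lemma gg_sub {a b m : ℝ} (hab : a ≤ b) (hm : ∀ t ∈ Icc a b, m ≤ hh t) :
    (b - a) * m ≤ gg b - gg a := by
  have h1 : gg b - gg a = ∫ s in a..b, hh s := by
    unfold gg
    rw [intervalIntegral.integral_interval_sub_left (hh_cont.intervalIntegrable _ _)
      (hh_cont.intervalIntegrable _ _)]
  rw [h1]
  have h2 : ∫ s in a..b, m ≤ ∫ s in a..b, hh s :=
    intervalIntegral.integral_mono_on hab (by simp) (hh_cont.intervalIntegrable _ _) hm
  simpa using h2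

lemma GG_sub {a b m : ℝ} (hab : a ≤ b) (hm : ∀ t ∈ Icc a b, m ≤ gg t) :
    (b - a) * m ≤ GG b - GG a := by
  have h1 : GG b - GG a = ∫ s in a..b, gg s := by
    unfold GG
    rw [intervalIntegral.integral_interval_sub_left (gg_cont.intervalIntegrable _ _)
      (gg_cont.intervalIntegrable _ _)]
  rw [h1]
  have h2 : ∫ s in a..b, m ≤ ∫ s in a..b, gg s :=
    intervalIntegral.integral_mono_on hab (by simp) (gg_cont.intervalIntegrable _ _) hm
  simpa using h2

lemma gg_mono {a b : ℝ} (hab : a ≤ b) : gg a ≤ gg b := by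
  have := gg_sub (m := 0) hab fun t _ => hh_nonneg t
  linarith

lemma GG_mono {a b : ℝ} (hab : a ≤ b) : GG a ≤ GG b := by
  have := GG_sub (m := 0) hab fun t _ => gg_nonneg t
  linarith

lemma GG_nonneg (t : ℝ) : 0 ≤ GG t := by
  rcases le_total t 0 with h | h
  · rw [GG_zero h]
  · have := GG_mono h
    rw [GG_zero le_rfl] at this
    exact this

lemma GG_lower {k : ℕ} {t : ℝ} (ht : tau k - del k ≤ t) :
    del (k + 1) ^ 2 * tau k / 16 ≤ GG t := by
  set a := tau (k + 1) with ha
  set b := tau (k + 1) + del (k + 1) / 2 with hb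
  have h1 := del_pos (k + 1)
  have h2 := del_le k
  have h3 := del_le (k + 1)
  have h4 := tau_succ_le k
  have h5 := tau_pos k
  have hgb : del (k + 1) ^ 2 / 4 ≤ gg b := by
    have := gg_sub (a := a) (b := b) (m := del (k + 1) / 2) (by rw [hb]; linarith) (by
      intro s hs
      apply hh_ge
      rw [abs_of_nonneg (by linarith [hs.1])]
      linarith [hs.2])
    have h6 := gg_nonneg a
    have h7 : b - a = del (k + 1) / 2 := by rw [hb, ha]; ring
    rw [h7] at this
    nlinarith
  have hbt : b + tau k / 4 ≤ t := by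
    rw [hb]
    linarith
  have := GG_sub (a := b) (b := t) (m := del (k + 1) ^ 2 / 4) (by linarith) (by
    intro s hs
    exact hgb.trans (gg_mono hs.1))
  have h8 := GG_nonneg b
  have h9 : (0 : ℝ) ≤ del (k + 1) ^ 2 / 4 := by positivity
  nlinarith

lemma GG_pos {t : ℝ} (ht : 0 < t) : 0 < GG t := by
  obtain ⟨k, hk⟩ := exists_pow_lt_of_lt_one ht (by norm_num : (1 / 2 : ℝ) < 1)
  have h1 := tau_le_geom k
  have h2 := del_pos k
  have h3 := GG_lower (k := k) (t := t) (by linarith)
  have h4 := del_pos (k + 1)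
  have h5 := tau_pos k
  exact lt_of_lt_of_le (by positivity) h3

lemma hh_div_le {k : ℕ} {t : ℝ} (hk : |t - tau k| < del k) :
    hh t / GG t ≤ 16 * del k / (del (k + 1) ^ 2 * tau k) := by
  have h1 := hh_le hk
  have h2 : tau k - del k ≤ t := by
    rw [abs_lt] at hk; linarith [hk.1]
  have h3 := GG_lower h2
  have h4 := del_pos (k + 1)
  have h5 := tau_pos k
  have h6 : 0 < del (k + 1) ^ 2 * tau k / 16 := by positivity
  calc hh t / GG t ≤ del k / (del (k + 1) ^ 2 * tau k / 16) := by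
        apply div_le_div₀ (del_pos k).le h1 h6 h3
    _ = _ := by field_simp

/-- exponent estimate -/
lemma term_summable (p A : ℝ) (hp : 0 < p) (hp2 : p < 2) (hA : 0 < A) :
    Summable fun k : ℕ => (A * (16 * del k / (del (k + 1) ^ 2 * tau k))) ^ (p / 2) * del k := by
  set c := 1 - p / 2 with hc
  have hc0 : 0 < c := by rw [hc]; linarith
  have hform : ∀ k : ℕ, (A * (16 * del k / (del (k + 1) ^ 2 * tau k))) ^ (p / 2) * del k =
      (A * 16) ^ (p / 2) * Real.exp ((p / 2) * (-((k : ℝ) + 1) ^ 2 - 3 + 2 * (((k : ℝ) + 2) ^ 2 + 3)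
        + ((k : ℝ) + 1)) + (-((k : ℝ) + 1) ^ 2 - 3)) := by
    intro k
    have e1 : A * (16 * del k / (del (k + 1) ^ 2 * tau k)) = (A * 16) *
        Real.exp (-((k : ℝ) + 1) ^ 2 - 3 + 2 * (((k : ℝ) + 2) ^ 2 + 3) + ((k : ℝ) + 1)) := by
      unfold del tau
      rw [← Real.exp_nat_mul, ← Real.exp_add]
      rw [mul_div_assoc, ← Real.exp_sub, mul_assoc]
      congr 3
      push_cast
      ring
    rw [e1, Real.mul_rpow (by positivity) (Real.exp_pos _).le, mul_assoc]
    congr 1
    rw [← Real.exp_mul]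
    unfold del
    rw [← Real.exp_add]
    congr 1
    ring
  simp_rw [hform]
  apply Summable.mul_left
  -- eventually exponent ≤ -k
  have hlim : ∀ᶠ k : ℕ in atTop, (p / 2) * (-((k : ℝ) + 1) ^ 2 - 3 + 2 * (((k : ℝ) + 2) ^ 2 + 3)
        + ((k : ℝ) + 1)) + (-((k : ℝ) + 1) ^ 2 - 3) ≤ -(k : ℝ) := by
    obtain ⟨K, hK⟩ := exists_nat_gt (40 / c)
    rw [eventually_atTop]
    refine ⟨K + 1, fun k hk => ?_⟩
    have hk1 : (K : ℝ) + 1 ≤ k := by exact_mod_cast hk
    have hk2 : 40 < c * k := by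
      rw [div_lt_iff₀ hc0] at hK
      nlinarith
    have hk3 : (1 : ℝ) ≤ k := by
      have : (0 : ℝ) ≤ K := Nat.cast_nonneg K
      linarith
    have hp' : p / 2 = 1 - c := by rw [hc]; ring
    rw [hp']
    have hc1 : c < 1 := by rw [hc]; linarith
    nlinarith [mul_pos hc0 (by linarith : (0 : ℝ) < k), mul_nonneg hc0.le (sq_nonneg (k : ℝ))]
  apply Summable.of_norm_bounded_eventually_nat (g := fun k : ℕ => Real.exp (-(k : ℝ)))
  · have : (fun k : ℕ => Real.exp (-(k : ℝ))) = fun k : ℕ => Real.exp (-1) ^ k := by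
      ext k
      rw [← Real.exp_nat_mul]; congr 1; ring
    rw [this]
    exact summable_geometric_of_lt_one (Real.exp_pos _).le (by
      have := exp_neg_one_le
      linarith)
  · filter_upwards [hlim] with k hk
    rw [Real.norm_eq_abs, abs_of_pos (Real.exp_pos _)]
    exact Real.exp_le_exp.2 hk

end

end Pool.Agent.H16.Smp
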