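import Pool.Agent.H16.Smp1

set_option autoImplicit false

open MeasureTheory Set Filter Topology Metric

namespace Pool.Agent.H16.Smp

noncomputable section

variable {N : ℕ}

abbrev EE (N : ℕ) : Type := EuclideanSpace ℝ (Fin N)

def qq (x0 : EE N) (r : ℝ) (x : EE N) : ℝ := ‖x - x0‖ ^ 2 / r ^ 2

def uu (x0 : EE N) (r : ℝ) (x : EE N) : ℝ := GG (1 - qq x0 r x)

def vv (x0 : EE N) (r : ℝ) (x : EE N) : ℝ :=
  (4 / r ^ 2) * (hh (1 - qq x0 r x) / GG (1 - qq x0 r x))

/-- first derivative of `uu` in direction `v` -/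
def u1 (x0 : EE N) (r : ℝ) (v : EE N) (x : EE N) : ℝ :=
  gg (1 - qq x0 r x) * (-(2 / r ^ 2) * inner ℝ (x - x0) v)

def u2 (x0 : EE N) (r : ℝ) (v : EE N) (x : EE N) : ℝ :=
  hh (1 - qq x0 r x) * (-(2 / r ^ 2) * inner ℝ (x - x0) v) ^ 2 +
    gg (1 - qq x0 r x) * (-(2 / r ^ 2) * inner ℝ v v)

lemma qq_cont (x0 : EE N) (r : ℝ) : Continuous (qq x0 r) := by
  unfold qq; fun_prop

lemma uu_cont (x0 : EE N) (r : ℝ) : Continuous (uu x0 r) :=
  GG_cont.comp (continuous_const.sub (qq_cont x0 r))

lemma u1_cont (x0 : EE N) (r : ℝ) (v : EE N) : Continuous (u1 x0 r v) := by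
  unfold u1
  have h1 : Continuous fun x => gg (1 - qq x0 r x) :=
    gg_cont.comp (continuous_const.sub (qq_cont x0 r))
  fun_prop

lemma u2_cont (x0 : EE N) (r : ℝ) (v : EE N) : Continuous (u2 x0 r v) := by
  unfold u2
  have h1 : Continuous fun x => gg (1 - qq x0 r x) :=
    gg_cont.comp (continuous_const.sub (qq_cont x0 r))
  have h2 : Continuous fun x => hh (1 - qq x0 r x) :=
    hh_cont.comp (continuous_const.sub (qq_cont x0 r))
  fun_prop

lemma qq_line (x0 : EE N) (r : ℝ) (v x : EE N) :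
    HasDerivAt (fun t : ℝ => 1 - qq x0 r (x + t • v)) (-(2 / r ^ 2) * inner ℝ (x - x0) v) 0 := by
  unfold qq
  have h1 : HasDerivAt (fun t : ℝ => x + t • v - x0) v 0 := by
    have h := ((hasDerivAt_id (0 : ℝ)).smul_const v).const_add x |>.sub_const x0
    simpa using h
  have h2 := h1.norm_sq
  have h3 := (h2.div_const (r ^ 2)).const_sub 1
  refine h3.congr_deriv ?_
  rw [zero_smul, add_zero]
  ring

lemma uu_line (x0 : EE N) (r : ℝ) (v x : EE N) :
    HasLineDerivAt ℝ (uu x0 r) (u1 x0 r v x) x v := by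
  have h := (GG_deriv (1 - qq x0 r (x + (0 : ℝ) • v))).comp (0 : ℝ) (qq_line x0 r v x)
  unfold HasLineDerivAt u1
  rw [zero_smul, add_zero] at h
  exact h

lemma u1_line (x0 : EE N) (r : ℝ) (v x : EE N) :
    HasLineDerivAt ℝ (u1 x0 r v) (u2 x0 r v x) x v := by
  have h := (gg_deriv (1 - qq x0 r (x + (0 : ℝ) • v))).comp (0 : ℝ) (qq_line x0 r v x)
  have h1 : HasDerivAt (fun t : ℝ => x + t • v - x0) v 0 := by
    have h := ((hasDerivAt_id (0 : ℝ)).smul_const v).const_add x |>.sub_const x0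
    simpa using h
  have h2 : HasDerivAt (fun t : ℝ => inner ℝ (x + t • v - x0) v) (inner ℝ v v : ℝ) 0 := by
    have := h1.inner ℝ (hasDerivAt_const (0 : ℝ) v)
    simpa using this
  have h3 := h2.const_mul (-(2 / r ^ 2))
  have h4 := h.mul h3
  unfold HasLineDerivAt u2
  refine h4.congr_deriv ?_
  simp only [zero_smul, add_zero, Function.comp]
  ring

lemma qq_ge_one {x0 : EE N} {r : ℝ} (hr : 0 < r) {x : EE N} (hx : x ∉ closedBall x0 r) :
    1 - qq x0 r x ≤ 0 := by
  unfold qq
  rw [mem_closedBall, dist_eq_norm] at hx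
  push Not at hx
  have : 1 ≤ ‖x - x0‖ ^ 2 / r ^ 2 := by
    rw [le_div_iff₀ (by positivity)]
    nlinarith
  linarith

lemma uu_supp {x0 : EE N} {r : ℝ} (hr : 0 < r) : HasCompactSupport (uu x0 r) :=
  HasCompactSupport.intro (isCompact_closedBall x0 r) fun _ hx => GG_zero (qq_ge_one hr hx)

lemma uu_tsupp {x0 : EE N} {r : ℝ} (hr : 0 < r) : tsupport (uu x0 r) ⊆ closedBall x0 r := by
  apply closure_minimal _ isClosed_closedBall
  intro x hx
  by_contra hcon
  exact hx (GG_zero (qq_ge_one hr hcon))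

lemma u1_supp {x0 : EE N} {r : ℝ} (hr : 0 < r) (v : EE N) : HasCompactSupport (u1 x0 r v) :=
  HasCompactSupport.intro (isCompact_closedBall x0 r) fun _ hx => by
    simp [u1, gg_zero (qq_ge_one hr hx)]

lemma u2_supp {x0 : EE N} {r : ℝ} (hr : 0 < r) (v : EE N) : HasCompactSupport (u2 x0 r v) :=
  HasCompactSupport.intro (isCompact_closedBall x0 r) fun _ hx => by
    simp [u2, gg_zero (qq_ge_one hr hx), hh_zero (qq_ge_one hr hx)]

lemma ibp_one (x0 : EE N) {r : ℝ} (hr : 0 < r) (v : EE N) (φ : EE N → ℝ)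
    (hφ : ContDiff ℝ 2 φ) :
    ∫ x, uu x0 r x * iteratedFDeriv ℝ 2 φ x ![v, v] = ∫ x, u2 x0 r v x * φ x := by
  have hd1 : ∀ x, HasFDerivAt φ (fderiv ℝ φ x) x := fun x =>
    (hφ.differentiable (by norm_num) x).hasFDerivAt
  have hφ1 : ContDiff ℝ 1 (fderiv ℝ φ) := hφ.fderiv_right (by norm_num)
  have hd2 : ∀ x, HasFDerivAt (fderiv ℝ φ) (fderiv ℝ (fderiv ℝ φ) x) x := fun x =>
    (hφ1.differentiable (by norm_num) x).hasFDerivAt
  have hc0 : Continuous φ := hφ.continuous
  have hc1 : Continuous (fderiv ℝ φ) := hφ1.continuous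
  have hc2 : Continuous (fderiv ℝ (fderiv ℝ φ)) :=
    (hφ1.fderiv_right (m := 0) (by norm_num)).continuous
  have hl1 : ∀ x, HasLineDerivAt ℝ φ (fderiv ℝ φ x v) x v := fun x =>
    (hd1 x).hasLineDerivAt v
  have hl2 : ∀ x, HasLineDerivAt ℝ (fun y => fderiv ℝ φ y v) (fderiv ℝ (fderiv ℝ φ) x v v) x v := by
    intro x
    have := ((hd2 x).clm_apply (hasFDerivAt_const v x)).hasLineDerivAt v
    simpa using this
  have e1 := integral_bilinear_hasLineDerivAt_right_eq_neg_left_of_integrable
    (μ := (volume : Measure (EE N))) (f := uu x0 r) (f' := u1 x0 r v)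
    (g := fun y => fderiv ℝ φ y v) (g' := fun x => fderiv ℝ (fderiv ℝ φ) x v v) (v := v)
    (B := ContinuousLinearMap.mul ℝ ℝ)
    (by
      apply Continuous.integrable_of_hasCompactSupport
      · have := u1_cont x0 r v
        simp only [ContinuousLinearMap.mul_apply']
        fun_prop
      · exact (u1_supp hr v).mul_right)
    (by
      apply Continuous.integrable_of_hasCompactSupport
      · have := uu_cont x0 r
        simp only [ContinuousLinearMap.mul_apply']
        fun_prop
      · exact (uu_supp hr).mul_right)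
    (by
      apply Continuous.integrable_of_hasCompactSupport
      · have := uu_cont x0 r
        simp only [ContinuousLinearMap.mul_apply']
        fun_prop
      · exact (uu_supp hr).mul_right)
    (fun x _ => uu_line x0 r v x) (fun x _ => hl2 x)
  have e2 := integral_bilinear_hasLineDerivAt_right_eq_neg_left_of_integrable
    (μ := (volume : Measure (EE N))) (f := u1 x0 r v) (f' := u2 x0 r v)
    (g := φ) (g' := fun x => fderiv ℝ φ x v) (v := v)
    (B := ContinuousLinearMap.mul ℝ ℝ)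
    (by
      apply Continuous.integrable_of_hasCompactSupport
      · have := u2_cont x0 r v
        simp only [ContinuousLinearMap.mul_apply']
        fun_prop
      · exact (u2_supp hr v).mul_right)
    (by
      apply Continuous.integrable_of_hasCompactSupport
      · have := u1_cont x0 r v
        simp only [ContinuousLinearMap.mul_apply']
        fun_prop
      · exact (u1_supp hr v).mul_right)
    (by
      apply Continuous.integrable_of_hasCompactSupport
      · have := u1_cont x0 r v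
        simp only [ContinuousLinearMap.mul_apply']
        fun_prop
      · exact (u1_supp hr v).mul_right)
    (fun x _ => u1_line x0 r v x) (fun x _ => hl1 x)
  simp only [ContinuousLinearMap.mul_apply'] at e1 e2
  have e3 : ∀ x, iteratedFDeriv ℝ 2 φ x ![v, v] = fderiv ℝ (fderiv ℝ φ) x v v := by
    intro x
    rw [iteratedFDeriv_two_apply]
    simp
  simp_rw [e3]
  rw [e1, e2, neg_neg]

lemma sum_u2_le (x0 : EE N) {r : ℝ} (hr : 0 < r) (x : EE N)
    (b : OrthonormalBasis (Fin N) ℝ (EE N)) :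
    ∑ i, u2 x0 r (b i) x ≤ (4 / r ^ 2) * hh (1 - qq x0 r x) := by
  unfold u2
  rw [Finset.sum_add_distrib, ← Finset.mul_sum]
  have h1 : ∑ i, (-(2 / r ^ 2) * inner ℝ (x - x0) (b i)) ^ 2 = (4 / r ^ 2) * qq x0 r x := by
    have := b.sum_sq_inner_left (x - x0)
    unfold qq
    rw [← this, Finset.sum_div, Finset.mul_sum]
    apply Finset.sum_congr rfl
    intro i _
    field_simp
    ring
  rw [h1]
  have h2 : ∑ i, gg (1 - qq x0 r x) * (-(2 / r ^ 2) * inner ℝ (b i) (b i)) ≤ 0 := by
    apply Finset.sum_nonpos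
    intro i _
    have h3 : (0 : ℝ) ≤ inner ℝ (b i) (b i) := real_inner_self_nonneg
    have h4 := gg_nonneg (1 - qq x0 r x)
    have h5 : 0 ≤ 2 / r ^ 2 := by positivity
    have := mul_nonneg h4 (mul_nonneg h5 h3)
    linarith
  rcases le_or_gt (qq x0 r x) 1 with hq | hq
  · have h6 := hh_nonneg (1 - qq x0 r x)
    have h7 : 0 ≤ 4 / r ^ 2 := by positivity
    have h8 : hh (1 - qq x0 r x) * ((4 / r ^ 2) * qq x0 r x) ≤ (4 / r ^ 2) * hh (1 - qq x0 r x) := by
      have := mul_le_mul_of_nonneg_left hq (mul_nonneg h7 h6)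
      linarith
    linarith
  · rw [hh_zero (by linarith : 1 - qq x0 r x ≤ 0)] at *
    linarith

lemma vv_mul_uu (x0 : EE N) (r : ℝ) (x : EE N) :
    vv x0 r x * uu x0 r x = (4 / r ^ 2) * hh (1 - qq x0 r x) := by
  unfold vv uu
  rcases le_or_gt (1 - qq x0 r x) 0 with h | h
  · rw [hh_zero h, GG_zero h]; simp
  · have := GG_pos h
    field_simp

open Laplacian in
lemma weak_ineq (x0 : EE N) {r : ℝ} (hr : 0 < r) (φ : EE N → ℝ)
    (hφ : ContDiff ℝ 2 φ) (hφ0 : ∀ x, 0 ≤ φ x) :
    ∫ x, uu x0 r x * (Δ φ) x ≤ ∫ x, vv x0 r x * uu x0 r x * φ x := by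
  set b := stdOrthonormalBasis ℝ (EE N) with hb
  let b' : OrthonormalBasis (Fin N) ℝ (EE N) := b.reindex (finCongr (by simp))
  rw [InnerProductSpace.laplacian_eq_iteratedFDeriv_orthonormalBasis φ b']
  have hint1 : ∀ i ∈ (Finset.univ : Finset (Fin N)),
      Integrable (fun x => uu x0 r x * iteratedFDeriv ℝ 2 φ x ![b' i, b' i]) := by
    intro i _
    apply Continuous.integrable_of_hasCompactSupport
    · have h1 := uu_cont x0 r
      have h2 : Continuous (iteratedFDeriv ℝ 2 φ) := hφ.continuous_iteratedFDeriv (by norm_num)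
      have h3 : Continuous fun x => iteratedFDeriv ℝ 2 φ x ![b' i, b' i] := by
        exact (ContinuousMultilinearMap.apply ℝ (fun _ : Fin 2 => EE N) ℝ
          ![b' i, b' i]).continuous.comp h2
      exact h1.mul h3
    · exact (uu_supp hr).mul_right
  have hint2 : ∀ i ∈ (Finset.univ : Finset (Fin N)),
      Integrable (fun x => u2 x0 r (b' i) x * φ x) := by
    intro i _
    apply Continuous.integrable_of_hasCompactSupport
    · exact (u2_cont x0 r (b' i)).mul hφ.continuous
    · exact (u2_supp hr (b' i)).mul_right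
  simp_rw [Finset.mul_sum]
  rw [integral_finsetSum _ hint1]
  simp_rw [ibp_one x0 hr _ φ hφ]
  rw [← integral_finsetSum _ hint2]
  apply integral_mono
  · exact integrable_finsetSum _ hint2
  · simp_rw [vv_mul_uu]
    apply Continuous.integrable_of_hasCompactSupport
    · exact (continuous_const.mul (hh_cont.comp (continuous_const.sub (qq_cont x0 r)))).mul
        hφ.continuous
    · apply HasCompactSupport.mul_right
      exact HasCompactSupport.intro (isCompact_closedBall x0 r) fun x hx => by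
        simp [hh_zero (qq_ge_one hr hx)]
  · intro x
    simp only
    rw [← Finset.sum_mul, vv_mul_uu]
    exact mul_le_mul_of_nonneg_right (sum_u2_le x0 hr x b') (hφ0 x)

end

end Pool.Agent.H16.Smp
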