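import Pool.Agent.H16.Smp2

set_option autoImplicit false

open MeasureTheory Set Filter Topology Metric

namespace Pool.Agent.H16.Smp

noncomputable section

variable {N : ℕ}

lemma pow_sub_le {a b : ℝ} (ha : 0 ≤ a) (hab : a ≤ b) (hb : b ≤ 1) (n : ℕ) :
    b ^ n - a ^ n ≤ n * (b - a) := by
  induction n with
  | zero => simp
  | succ n ih =>
    have h1 : b ^ n ≤ 1 := pow_le_one₀ (ha.trans hab) hb
    have h2 : 0 ≤ b - a := by linarith
    have h3 : a ≤ 1 := hab.trans hb
    have h4 : 0 ≤ b ^ n - a ^ n := by linarith [pow_le_pow_left₀ ha hab n]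
    have h5 : b ^ (n + 1) - a ^ (n + 1) = b ^ n * (b - a) + a * (b ^ n - a ^ n) := by ring
    rw [h5]
    have h6 : b ^ n * (b - a) ≤ 1 * (b - a) := mul_le_mul_of_nonneg_right h1 h2
    have h7 : a * (b ^ n - a ^ n) ≤ 1 * (b ^ n - a ^ n) := mul_le_mul_of_nonneg_right h3 h4
    push_cast
    linarith

def shell (x0 : EE N) (r : ℝ) (k : ℕ) : Set (EE N) := {x | |1 - qq x0 r x - tau k| < del k}

lemma shell_meas (x0 : EE N) (r : ℝ) (k : ℕ) : MeasurableSet (shell x0 r k) := by
  apply IsOpen.measurableSet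
  have := qq_cont x0 r
  exact isOpen_lt (by fun_prop) continuous_const

lemma shell_le [NeZero N] (x0 : EE N) {r : ℝ} (hr : 0 < r) (k : ℕ) :
    volume (shell x0 r k) ≤
      ENNReal.ofReal (r ^ N * N * 4 * (volume (ball (0 : EE N) 1)).toReal * del k) := by
  have hd := del_pos k
  have h1 := del_le k
  have h2 := tau_pos k
  have h3 := tau_le_half k
  set A := 1 - tau k - del k with hA
  set B := 1 - tau k + del k with hB
  have hA0 : 0 < A := by linarith
  have hAB : A < B := by linarith
  have hB1 : B ≤ 1 := by linarith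
  have hB2 : 1 / 4 ≤ B := by linarith
  set a := Real.sqrt A with ha
  set b := Real.sqrt B with hb
  have ha0 : 0 ≤ a := Real.sqrt_nonneg _
  have hb0 : 0 ≤ b := Real.sqrt_nonneg _
  have hsa : a ^ 2 = A := Real.sq_sqrt hA0.le
  have hsb : b ^ 2 = B := Real.sq_sqrt (by linarith)
  have hab : a < b := Real.sqrt_lt_sqrt hA0.le hAB
  have hb1 : b ≤ 1 := by nlinarith
  have hb2 : 1 / 2 ≤ b := by nlinarith
  have hba : b - a ≤ 4 * del k := by nlinarith
  have hsub : shell x0 r k ⊆ ball x0 (r * b) \ closedBall x0 (r * a) := by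
    intro x hx
    have hx' : |1 - qq x0 r x - tau k| < del k := hx
    rw [abs_lt] at hx'
    have q1 : qq x0 r x < B := by linarith [hx'.1]
    have q2 : A < qq x0 r x := by linarith [hx'.2]
    unfold qq at q1 q2
    rw [div_lt_iff₀ (by positivity), ← hsb] at q1
    rw [lt_div_iff₀ (by positivity), ← hsa] at q2
    refine ⟨?_, ?_⟩
    · rw [mem_ball, dist_eq_norm]
      have : ‖x - x0‖ ^ 2 < (r * b) ^ 2 := by rw [mul_pow]; linarith
      exact lt_of_pow_lt_pow_left₀ 2 (by positivity) this
    · rw [mem_closedBall, dist_eq_norm]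
      push Not
      have : (r * a) ^ 2 < ‖x - x0‖ ^ 2 := by rw [mul_pow]; linarith
      exact lt_of_pow_lt_pow_left₀ 2 (norm_nonneg _) this
  have : Nonempty (Fin N) := ⟨⟨0, Nat.pos_of_ne_zero (NeZero.ne N)⟩⟩
  have : Nontrivial (EE N) := by
    apply Module.nontrivial_of_finrank_pos (R := ℝ)
    rw [finrank_euclideanSpace_fin]
    exact Nat.pos_of_ne_zero (NeZero.ne N)
  have hballfin : volume (ball (0 : EE N) 1) ≠ ⊤ := measure_ball_lt_top.ne
  calc volume (shell x0 r k) ≤ volume (ball x0 (r * b) \ closedBall x0 (r * a)) :=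
        measure_mono hsub
    _ = volume (ball x0 (r * b)) - volume (closedBall x0 (r * a)) := by
        apply measure_sdiff
        · exact closedBall_subset_ball (by nlinarith)
        · exact measurableSet_closedBall.nullMeasurableSet
        · exact (isCompact_closedBall x0 _).measure_lt_top.ne
    _ = (ENNReal.ofReal ((r * b) ^ N) - ENNReal.ofReal ((r * a) ^ N)) *
          volume (ball (0 : EE N) 1) := by
        rw [Measure.addHaar_ball volume x0 (by positivity : 0 ≤ r * b),
          Measure.addHaar_closedBall volume x0 (by positivity : 0 ≤ r * a),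
          finrank_euclideanSpace_fin, ENNReal.sub_mul]
        intro _ _
        exact hballfin
    _ = ENNReal.ofReal ((r * b) ^ N - (r * a) ^ N) * volume (ball (0 : EE N) 1) := by
        rw [ENNReal.ofReal_sub _ (by positivity)]
    _ = ENNReal.ofReal (((r * b) ^ N - (r * a) ^ N) * (volume (ball (0 : EE N) 1)).toReal) := by
        rw [ENNReal.ofReal_mul (by
          have : (r * a) ^ N ≤ (r * b) ^ N := pow_le_pow_left₀ (by positivity) (by nlinarith) N
          linarith), ENNReal.ofReal_toReal hballfin]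
    _ ≤ _ := by
        apply ENNReal.ofReal_le_ofReal
        have hv : 0 ≤ (volume (ball (0 : EE N) 1)).toReal := ENNReal.toReal_nonneg
        have h5 : (r * b) ^ N - (r * a) ^ N ≤ r ^ N * (N * (4 * del k)) := by
          rw [mul_pow, mul_pow, ← mul_sub]
          apply mul_le_mul_of_nonneg_left _ (by positivity)
          calc b ^ N - a ^ N ≤ N * (b - a) := pow_sub_le ha0 hab.le hb1 N
            _ ≤ N * (4 * del k) := mul_le_mul_of_nonneg_left hba (Nat.cast_nonneg N)
        calc _ ≤ r ^ N * (N * (4 * del k)) * (volume (ball (0 : EE N) 1)).toReal :=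
              mul_le_mul_of_nonneg_right h5 hv
          _ = _ := by ring

lemma vv_nonneg (x0 : EE N) (r : ℝ) (x : EE N) : 0 ≤ vv x0 r x := by
  unfold vv
  have h1 := hh_nonneg (1 - qq x0 r x)
  have h2 := GG_nonneg (1 - qq x0 r x)
  positivity

lemma vv_meas (x0 : EE N) (r : ℝ) : Measurable (vv x0 r) := by
  unfold vv
  have h1 : Continuous fun x => hh (1 - qq x0 r x) :=
    hh_cont.comp (continuous_const.sub (qq_cont x0 r))
  have h2 : Continuous fun x => GG (1 - qq x0 r x) :=
    GG_cont.comp (continuous_const.sub (qq_cont x0 r))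
  exact (h1.measurable.div h2.measurable).const_mul _

lemma vv_shell (x0 : EE N) {r : ℝ} (hr : 0 < r) {k : ℕ} {x : EE N} (hx : x ∈ shell x0 r k) :
    vv x0 r x ≤ (4 / r ^ 2) * (16 * del k / (del (k + 1) ^ 2 * tau k)) := by
  unfold vv
  exact mul_le_mul_of_nonneg_left (hh_div_le hx) (by positivity)

lemma vv_memLp [NeZero N] (x0 : EE N) {r : ℝ} (hr : 0 < r) {p : ℝ} (hp : 0 < p) (hp2 : p < 2) :
    MemLp (fun x => Real.sqrt (max (vv x0 r x) 0)) (ENNReal.ofReal p)
      (volume : Measure (EE N)) := by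
  have hfun : (fun x => Real.sqrt (max (vv x0 r x) 0)) = fun x => Real.sqrt (vv x0 r x) := by
    ext x; rw [max_eq_left (vv_nonneg x0 r x)]
  rw [hfun]
  refine ⟨(vv_meas x0 r).sqrt.aestronglyMeasurable, ?_⟩
  rw [eLpNorm_lt_top_iff_lintegral_rpow_enorm_lt_top (by
    rw [Ne, ENNReal.ofReal_eq_zero]; push Not; exact hp) ENNReal.ofReal_ne_top,
    ENNReal.toReal_ofReal hp.le]
  set F : EE N → ENNReal := fun x => ‖Real.sqrt (vv x0 r x)‖ₑ ^ p with hF
  have hFeq : ∀ x, F x = ENNReal.ofReal (vv x0 r x ^ (p / 2)) := by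
    intro x
    have h0 := vv_nonneg x0 r x
    simp only [hF]
    rw [Real.enorm_eq_ofReal (Real.sqrt_nonneg _),
      ENNReal.ofReal_rpow_of_nonneg (Real.sqrt_nonneg _) hp.le, Real.sqrt_eq_rpow,
      ← Real.rpow_mul h0]
    congr 2; ring
  have hsuppF : Function.support F ⊆ ⋃ k, shell x0 r k := by
    intro x hx
    have hx' : F x ≠ 0 := hx
    rw [hFeq] at hx'
    have h1 : hh (1 - qq x0 r x) ≠ 0 := by
      intro h0
      apply hx'
      have : vv x0 r x = 0 := by unfold vv; rw [h0]; simp
      rw [this, Real.zero_rpow (by positivity)]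
      simp
    obtain ⟨k, hk⟩ := hh_ne h1
    exact mem_iUnion.2 ⟨k, hk⟩
  set M := r ^ N * N * 4 * (volume (ball (0 : EE N) 1)).toReal with hM
  have hM0 : 0 ≤ M := by
    rw [hM]
    have : 0 ≤ (volume (ball (0 : EE N) 1)).toReal := ENNReal.toReal_nonneg
    positivity
  set c : ℕ → ℝ := fun k => ((4 / r ^ 2) * (16 * del k / (del (k + 1) ^ 2 * tau k))) ^ (p / 2)
    with hc
  have hc0 : ∀ k, 0 ≤ c k := by
    intro k
    have := del_pos k
    have := del_pos (k + 1)
    have := tau_pos k
    simp only [hc]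
    positivity
  calc ∫⁻ x, F x = ∫⁻ x in ⋃ k, shell x0 r k, F x := by
        rw [← lintegral_indicator (MeasurableSet.iUnion (shell_meas x0 r))]
        congr 1
        ext x
        by_cases hx : x ∈ ⋃ k, shell x0 r k
        · rw [indicator_of_mem hx]
        · rw [indicator_of_notMem hx]
          by_contra hcon
          exact hx (hsuppF hcon)
    _ ≤ ∑' k, ∫⁻ x in shell x0 r k, F x := lintegral_iUnion_le _ _
    _ ≤ ∑' k, ENNReal.ofReal (M * (c k * del k)) := by
        apply ENNReal.tsum_le_tsum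
        intro k
        calc ∫⁻ x in shell x0 r k, F x ≤ ∫⁻ x in shell x0 r k, ENNReal.ofReal (c k) := by
              apply setLIntegral_mono measurable_const
              intro x hx
              rw [hFeq]
              apply ENNReal.ofReal_le_ofReal
              exact Real.rpow_le_rpow (vv_nonneg x0 r x) (vv_shell x0 hr hx) (by positivity)
          _ = ENNReal.ofReal (c k) * volume (shell x0 r k) := by
              rw [setLIntegral_const]
          _ ≤ ENNReal.ofReal (c k) * ENNReal.ofReal (M * del k) := by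
              gcongr
              exact shell_le x0 hr k
          _ = ENNReal.ofReal (M * (c k * del k)) := by
              rw [← ENNReal.ofReal_mul (hc0 k)]
              congr 1; ring
    _ < ⊤ := by
        have hs : Summable fun k => M * (c k * del k) :=
          (term_summable p (4 / r ^ 2) hp hp2 (by positivity)).mul_left M
        rw [← ENNReal.ofReal_tsum_of_nonneg _ hs]
        · exact ENNReal.ofReal_lt_top
        · intro k
          have := del_pos k
          have := hc0 k
          positivity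

open Laplacian in
theorem main (N : ℕ) (hN : 1 ≤ N) (Ω : Set (EE N)) (hΩ : IsOpen Ω) (hne : Ω.Nonempty) :
    ∃ V u : EE N → ℝ,
      Measurable V ∧ (∀ x, 0 ≤ V x) ∧
      (∀ p : ℝ, 0 < p → p < 2 →
        MemLp (fun x => Real.sqrt (max (V x) 0)) (ENNReal.ofReal p) (volume.restrict Ω)) ∧
      Continuous u ∧ (∀ x, 0 ≤ u x) ∧ IntegrableOn u Ω ∧
      HasCompactSupport u ∧ tsupport u ⊆ Ω ∧
      IntegrableOn (fun x => V x * u x) Ω ∧
      (∀ φ : EE N → ℝ, ContDiff ℝ (⊤ : ℕ∞) φ → HasCompactSupport φ → tsupport φ ⊆ Ω →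
        (∀ x, 0 ≤ φ x) → ∫ x in Ω, u x * (Δ φ) x ≤ ∫ x in Ω, V x * u x * φ x) ∧
      ∃ x ∈ Ω, u x ≠ 0 := by
  have : NeZero N := ⟨by omega⟩
  obtain ⟨x0, hx0⟩ := hne
  obtain ⟨r, hr, hrΩ⟩ := Metric.nhds_basis_closedBall.mem_iff.1 (hΩ.mem_nhds hx0)
  have hts : tsupport (uu x0 r) ⊆ Ω := (uu_tsupp hr).trans hrΩ
  have hVu : (fun x => vv x0 r x * uu x0 r x) = fun x => (4 / r ^ 2) * hh (1 - qq x0 r x) := by
    ext x; exact vv_mul_uu x0 r x
  have hVuint : Integrable (fun x => vv x0 r x * uu x0 r x) := by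
    rw [hVu]
    apply Continuous.integrable_of_hasCompactSupport
    · exact continuous_const.mul (hh_cont.comp (continuous_const.sub (qq_cont x0 r)))
    · exact HasCompactSupport.intro (isCompact_closedBall x0 r) fun x hx => by
        simp [hh_zero (qq_ge_one hr hx)]
  refine ⟨vv x0 r, uu x0 r, vv_meas x0 r, vv_nonneg x0 r, fun p hp hp2 => ?_, uu_cont x0 r,
    fun x => GG_nonneg _, ?_, uu_supp hr, hts, hVuint.integrableOn, ?_, x0, hx0, ?_⟩
  · exact (vv_memLp x0 hr hp hp2).restrict Ω
  · exact ((uu_cont x0 r).integrable_of_hasCompactSupport (uu_supp hr)).integrableOn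
  · intro φ hφ _ _ hφ0
    rw [setIntegral_eq_integral_of_forall_compl_eq_zero, setIntegral_eq_integral_of_forall_compl_eq_zero]
    · exact weak_ineq x0 hr φ (contDiff_infty.1 hφ 2) hφ0
    · intro x hx
      have : uu x0 r x = 0 := image_eq_zero_of_notMem_tsupport fun h => hx (hts h)
      rw [this]; simp
    · intro x hx
      have : uu x0 r x = 0 := image_eq_zero_of_notMem_tsupport fun h => hx (hts h)
      rw [this]; simp
  · apply ne_of_gt
    unfold uu qq
    apply GG_pos
    simp

end

end Pool.Agent.H16.Smp
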