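import Mathlib

set_option autoImplicit false

open Finset

namespace Pool.Agent.H16.Sqs

/-- potential -/
noncomputable def zz (w q : ℝ) : ℝ := (3 * w + Real.sqrt (3 * w ^ 2 - 6 * q)) / 2

theorem zz_unpert (q n : ℝ) (hq : 0 ≤ q) (hqn : q ≤ n)
    (hc : (1 + n) ^ 2 ≤ 3 * (q + n ^ 2)) : 2 * zz 1 q ≤ zz (1 + n) (q + n ^ 2) := by
  unfold zz
  have hn : 0 ≤ n := hq.trans hqn
  have key : 3 + 2 * Real.sqrt (3 * 1 ^ 2 - 6 * q) - 3 * n ≤
      Real.sqrt (3 * (1 + n) ^ 2 - 6 * (q + n ^ 2)) := by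
    rcases le_or_gt (3 + 2 * Real.sqrt (3 * 1 ^ 2 - 6 * q) - 3 * n) 0 with h0 | h0
    · exact h0.trans (Real.sqrt_nonneg _)
    · apply Real.le_sqrt_of_sq_le
      rcases le_or_gt 0 (3 * 1 ^ 2 - 6 * q) with h1 | h1
      · have hS := Real.sq_sqrt h1
        have hS0 := Real.sqrt_nonneg (3 * 1 ^ 2 - 6 * q)
        set S := Real.sqrt (3 * 1 ^ 2 - 6 * q) with hSdef
        have hS3 : S < 3 := by nlinarith
        have hmin : 1 + S ≤ 2 * n := by
          have h2 : S ^ 2 ≤ (2 * n - 1) ^ 2 := by nlinarith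
          rcases le_or_gt 0 (2 * n - 1) with h3 | h3
          · nlinarith [abs_le_of_sq_le_sq' h2 h3]
          · have h4 : S ≤ 1 - 2 * n := by nlinarith
            have h5 : S * (3 - S) ≤ 0 := by nlinarith
            have h6 : S = 0 := by
              by_contra hne
              have : 0 < S := lt_of_le_of_ne hS0 (Ne.symm hne)
              nlinarith
            rw [h6] at hS h2
            nlinarith
        nlinarith
      · rw [Real.sqrt_eq_zero_of_nonpos h1.le] at h0 ⊢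
        nlinarith
  generalize Real.sqrt (3 * 1 ^ 2 - 6 * q) = S at key ⊢
  generalize Real.sqrt (3 * (1 + n) ^ 2 - 6 * (q + n ^ 2)) = S' at key ⊢
  linarith

/-- homogeneity -/
theorem zz_homog (t w q : ℝ) (ht : 0 ≤ t) : zz (t * w) (t ^ 2 * q) = t * zz w q := by
  unfold zz
  have h : 3 * (t * w) ^ 2 - 6 * (t ^ 2 * q) = t ^ 2 * (3 * w ^ 2 - 6 * q) := by ring
  rw [h, Real.sqrt_mul (sq_nonneg t), Real.sqrt_sq ht]
  ring

theorem zz_lower (w q : ℝ) : 3 / 2 * w ≤ zz w q := by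
  unfold zz
  have := Real.sqrt_nonneg (3 * w ^ 2 - 6 * q)
  linarith

theorem zz_upper (w q : ℝ) (hw : 0 ≤ w) (hq : 0 ≤ q) : zz w q ≤ 5 / 2 * w := by
  unfold zz
  have h1 : Real.sqrt (3 * w ^ 2 - 6 * q) ≤ 2 * w := by
    apply Real.sqrt_le_iff.2
    constructor
    · positivity
    · nlinarith [sq_nonneg w]
  linarith

theorem zz_cont : Continuous fun p : ℝ × ℝ => zz p.1 p.2 := by
  unfold zz
  fun_prop

/-- compactness -/
theorem pert1 (g : ℝ) (hg : g < 2) : ∃ η : ℝ, 0 < η ∧ ∀ q n : ℝ, 0 ≤ q → q ≤ 1 → q ≤ n →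
    n ≤ 10 → (1 + n) ^ 2 ≤ 3 * (1 + η) * (q + n ^ 2) → g * zz 1 q ≤ zz (1 + n) (q + n ^ 2) := by
  let K : Set (ℝ × ℝ × ℝ) := {p | p.2.1 ≤ p.2.2 ∧ (1 + p.2.2) ^ 2 ≤ 3 * p.1 * (p.2.1 + p.2.2 ^ 2) ∧
    zz (1 + p.2.2) (p.2.1 + p.2.2 ^ 2) ≤ g * zz 1 p.2.1} ∩
      (Set.Icc 1 2 ×ˢ (Set.Icc 0 1 ×ˢ Set.Icc 0 10))
  have hK : IsCompact K := by
    apply IsCompact.inter_left
    · exact isCompact_Icc.prod (isCompact_Icc.prod isCompact_Icc)
    · apply IsClosed.and
      · exact isClosed_le (by fun_prop) (by fun_prop)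
      · apply IsClosed.and
        · exact isClosed_le (by fun_prop) (by fun_prop)
        · apply isClosed_le
          · exact zz_cont.comp (by fun_prop : Continuous fun p : ℝ × ℝ × ℝ =>
              ((1 + p.2.2, p.2.1 + p.2.2 ^ 2) : ℝ × ℝ))
          · exact continuous_const.mul (zz_cont.comp (by fun_prop : Continuous fun p : ℝ × ℝ × ℝ =>
              ((1, p.2.1) : ℝ × ℝ)))
  have hP : IsClosed (Prod.fst '' K) := (hK.image continuous_fst).isClosed
  have h1 : (1 : ℝ) ∈ (Prod.fst '' K)ᶜ := by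
    rintro ⟨⟨l, q, n⟩, ⟨⟨h1, h2, h3⟩, h4⟩, h5⟩
    simp only at h1 h2 h3 h5
    subst h5
    simp only [Set.mem_prod, Set.mem_Icc] at h4
    have h6 := zz_unpert q n h4.2.1.1 h1 (by linarith)
    have h7 := zz_lower 1 q
    nlinarith
  obtain ⟨η, hη, hball⟩ := Metric.isOpen_iff.1 hP.isOpen_compl 1 h1
  refine ⟨min (η / 2) 1, by positivity, fun q n hq hq1 hqn hn hc => ?_⟩
  by_contra hcon
  push Not at hcon
  have h2 : (1 + min (η / 2) 1 : ℝ) ∈ Metric.ball (1:ℝ) η := by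
    rw [Metric.mem_ball, Real.dist_eq]
    have h3 : (1 + min (η / 2) 1 - 1 : ℝ) = min (η / 2) 1 := by ring
    rw [h3, abs_of_nonneg (by positivity)]
    have := min_le_left (η / 2) 1
    linarith
  apply hball h2
  refine ⟨(1 + min (η / 2) 1, q, n), ⟨⟨hqn, hc, hcon.le⟩, ?_⟩, rfl⟩
  have h5 : 0 < min (η / 2) 1 := by positivity
  have h6 := min_le_right (η / 2) 1
  refine ⟨⟨by simp only; linarith, by simp only; linarith⟩, ⟨hq, hq1⟩, ⟨hq.trans hqn, hn⟩⟩

theorem pert (g : ℝ) (hg0 : 0 < g) (hg : g < 2) : ∃ η : ℝ, 0 < η ∧ ∀ w q n : ℝ, 0 < w → 0 ≤ q →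
    q ≤ w ^ 2 → q ≤ n * w → (w + n) ^ 2 ≤ 3 * (1 + η) * (q + n ^ 2) →
      g * zz w q ≤ zz (w + n) (q + n ^ 2) := by
  obtain ⟨η, hη, h⟩ := pert1 g hg
  refine ⟨η, hη, fun w q n hw hq hq1 hqn hc => ?_⟩
  have hn : 0 ≤ n := by
    by_contra hn
    push Not at hn
    nlinarith
  rcases le_or_gt n (10 * w) with h10 | h10
  · have h1 := h (q / w ^ 2) (n / w) (by positivity) (by rw [div_le_one (by positivity)]; exact hq1)
      (by rw [div_le_div_iff₀ (by positivity) hw]; nlinarith) (by rw [div_le_iff₀ hw]; exact h10)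
      (by
        have e1 : (1 + n / w) ^ 2 = (w + n) ^ 2 / w ^ 2 := by field_simp
        have e2 : 3 * (1 + η) * (q / w ^ 2 + (n / w) ^ 2) = 3 * (1 + η) * (q + n ^ 2) / w ^ 2 := by
          field_simp
        rw [e1, e2]
        gcongr)
    have h2 := zz_homog w 1 (q / w ^ 2) hw.le
    have h3 := zz_homog w (1 + n / w) (q / w ^ 2 + (n / w) ^ 2) hw.le
    have e3 : w * 1 = w := mul_one w
    have e4 : w ^ 2 * (q / w ^ 2) = q := by field_simp
    have e5 : w * (1 + n / w) = w + n := by field_simp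
    have e6 : w ^ 2 * (q / w ^ 2 + (n / w) ^ 2) = q + n ^ 2 := by field_simp
    rw [e3, e4] at h2
    rw [e5, e6] at h3
    rw [h2, h3]
    calc g * (w * zz 1 (q / w ^ 2)) = w * (g * zz 1 (q / w ^ 2)) := by ring
      _ ≤ _ := by gcongr
  · have h1 := zz_upper w q hw.le hq
    have h2 := zz_lower (w + n) (q + n ^ 2)
    have h3 := zz_lower w q
    nlinarith

section count

variable {α : Type*} [Fintype α] [DecidableEq α]

theorem block_uniq (B : Finset (Finset α))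
    (hT : ∀ T : Finset α, T.card = 3 → ∃! b, b ∈ B ∧ T ⊆ b) {T : Finset α} (h3 : T.card = 3)
    {b b' : Finset α} (hb : b ∈ B) (hTb : T ⊆ b) (hb' : b' ∈ B) (hTb' : T ⊆ b') : b = b' :=
  (hT T h3).unique ⟨hb, hTb⟩ ⟨hb', hTb'⟩

theorem fourth (B : Finset (Finset α)) (hB : ∀ b ∈ B, b.card = 4)
    (hT : ∀ T : Finset α, T.card = 3 → ∃! b, b ∈ B ∧ T ⊆ b) (x p q : α) (h1 : x ≠ p) (h2 : x ≠ q)
    (h3 : p ≠ q) : ∃ r, r ≠ x ∧ r ≠ p ∧ r ≠ q ∧ ({x, p, q, r} : Finset α) ∈ B := by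
  have hc : ({x, p, q} : Finset α).card = 3 := card_eq_three.2 ⟨x, p, q, h1, h2, h3, rfl⟩
  obtain ⟨b, ⟨hb, hsub⟩, -⟩ := hT _ hc
  have h4 := hB b hb
  have h5 : (b \ {x, p, q}).card = 1 := by
    rw [card_sdiff_of_subset hsub, h4, hc]
  obtain ⟨r, hr⟩ := card_eq_one.1 h5
  have h6 : r ∈ b \ {x, p, q} := by rw [hr]; exact mem_singleton_self r
  rw [mem_sdiff] at h6
  simp only [mem_insert, mem_singleton, not_or] at h6
  refine ⟨r, h6.2.1, h6.2.2.1, h6.2.2.2, ?_⟩
  have h7 : ({x, p, q, r} : Finset α) = b := by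
    apply eq_of_subset_of_card_le
    · intro y hy
      simp only [mem_insert, mem_singleton] at hy
      rcases hy with rfl | rfl | rfl | rfl
      · exact hsub (by simp)
      · exact hsub (by simp)
      · exact hsub (by simp)
      · exact h6.1
    · rw [h4]
      have : ({x, p, q, r} : Finset α).card = 4 :=
        card_eq_succ.2 ⟨x, {p, q, r}, by
          simp only [mem_insert, mem_singleton, not_or]
          exact ⟨h1, h2, Ne.symm h6.2.1⟩, rfl, card_eq_three.2 ⟨p, q, r, h3, Ne.symm h6.2.2.1, Ne.symm h6.2.2.2, rfl⟩⟩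
      omega
  rw [h7]; exact hb

theorem class_ineq (B : Finset (Finset α)) (hB : ∀ b ∈ B, b.card = 4)
    (hT : ∀ T : Finset α, T.card = 3 → ∃! b, b ∈ B ∧ T ⊆ b)
    (c : α → ℕ) (hc : ∀ b ∈ B, ∃ x ∈ b, ∃ y ∈ b, x ≠ y ∧ c x = c y)
    (x : α) (T : Finset ℕ) (hxT : c x ∉ T) :
    (∑ i ∈ T, (univ.filter fun y => c y = i).card) ^ 2 +
      3 * (∑ i ∈ T, (univ.filter fun y => c y = i).card) ≤
    3 * (∑ i ∈ T, (univ.filter fun y => c y = i).card ^ 2) +
      (univ.filter fun y => c y = c x).card * (∑ i ∈ T, (univ.filter fun y => c y = i).card) := by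
  have hex : ∀ p q : α, ∃ r, x ≠ p → x ≠ q → p ≠ q →
      (r ≠ x ∧ r ≠ p ∧ r ≠ q ∧ ({x, p, q, r} : Finset α) ∈ B) := by
    intro p q
    by_cases h1 : x ≠ p ∧ x ≠ q ∧ p ≠ q
    · obtain ⟨r, hr⟩ := fourth B hB hT x p q h1.1 h1.2.1 h1.2.2
      exact ⟨r, fun _ _ _ => hr⟩
    · exact ⟨x, fun h2 h3 h4 => absurd ⟨h2, h3, h4⟩ h1⟩
  choose f hf using hex
  have hinv : ∀ p q : α, x ≠ p → x ≠ q → p ≠ q → f p (f p q) = q := by
    intro p q h1 h2 h3
    obtain ⟨h4, h5, h6, h7⟩ := hf p q h1 h2 h3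
    obtain ⟨h8, h9, h10, h11⟩ := hf p (f p q) h1 h4.symm h5.symm
    have hcard : ({x, p, f p q} : Finset α).card = 3 :=
      card_eq_three.2 ⟨x, p, f p q, h1, h4.symm, h5.symm, rfl⟩
    have heq := block_uniq B hT hcard h7 (by intro y; simp; tauto) h11 (by intro y; simp; tauto)
    have h12 : f p (f p q) ∈ ({x, p, q, f p q} : Finset α) := by rw [heq]; simp
    simp only [mem_insert, mem_singleton] at h12
    rcases h12 with h | h | h | h
    · exact absurd h h8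
    · exact absurd h h9
    · exact h
    · exact absurd h h10
  have hsymm : ∀ p q : α, x ≠ p → x ≠ q → p ≠ q → f p q = f q p := by
    intro p q h1 h2 h3
    obtain ⟨h4, h5, h6, h7⟩ := hf p q h1 h2 h3
    obtain ⟨h8, h9, h10, h11⟩ := hf q p h2 h1 h3.symm
    have hcard : ({x, p, q} : Finset α).card = 3 :=
      card_eq_three.2 ⟨x, p, q, h1, h2, h3, rfl⟩
    have heq := block_uniq B hT hcard h7 (by intro y; simp; tauto) h11 (by intro y; simp; tauto)
    have h12 : f p q ∈ ({x, q, p, f q p} : Finset α) := by rw [← heq]; simp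
    simp only [mem_insert, mem_singleton] at h12
    rcases h12 with h | h | h | h
    · exact absurd h h4
    · exact absurd h h6
    · exact absurd h h5
    · exact h
  set W : Finset α := univ.filter fun y => c y ∈ T with hW
  have hWx : ∀ p ∈ W, x ≠ p := by
    intro p hp h
    rw [hW, mem_filter] at hp
    rw [h] at hxT
    exact hxT hp.2
  have hWcard : W.card = ∑ i ∈ T, (univ.filter fun y => c y = i).card := by
    rw [card_eq_sum_card_fiberwise (f := c) (t := T)]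
    · apply sum_congr rfl
      intro i hi
      congr 1
      ext y
      simp only [hW, mem_filter, mem_univ, true_and]
      constructor
      · exact fun h => h.2
      · exact fun h => ⟨by rw [h]; exact hi, h⟩
    · intro y hy
      simpa [hW] using hy
  set E : Finset (α × α) := (W ×ˢ W).filter fun p => c p.1 = c p.2 with hE
  have hEcard : E.card = ∑ i ∈ T, (univ.filter fun y => c y = i).card ^ 2 := by
    rw [card_eq_sum_card_fiberwise (f := fun p => c p.1) (t := T)]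
    · apply sum_congr rfl
      intro i hi
      rw [sq, ← card_product]
      congr 1
      ext ⟨y, z⟩
      simp only [hE, hW, mem_filter, mem_product, mem_univ, true_and]
      constructor
      · rintro ⟨⟨⟨h1, h2⟩, h3⟩, h4⟩
        exact ⟨h4, by rw [← h3]; exact h4⟩
      · rintro ⟨h1, h2⟩
        exact ⟨⟨⟨by rw [h1]; exact hi, by rw [h2]; exact hi⟩, by rw [h1, h2]⟩, h1⟩
    · rintro ⟨y, z⟩ hy
      simp only [hE, hW, coe_filter, mem_product, mem_filter, mem_univ, true_and, Set.mem_ofPred_eq] at hy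
      exact hy.1.1
  set P : Finset (α × α) := (W ×ˢ W).filter fun p => ¬ c p.1 = c p.2 with hP
  have hEP : E.card + P.card = W.card ^ 2 := by
    rw [hE, hP, card_filter_add_card_filter_not, card_product, sq]
  set M : Finset (α × α) := E.filter fun p => ¬ p.1 = p.2 with hM
  have hMW : W.card + M.card = E.card := by
    have h1 : (E.filter fun p => p.1 = p.2).card = W.card := by
      symm
      apply card_bij (fun y _ => (y, y))
      · intro y hy
        exact mem_filter.2 ⟨mem_filter.2 ⟨mem_product.2 ⟨hy, hy⟩, rfl⟩, rfl⟩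
      · intro y _ z _ h
        exact (Prod.mk.inj h).1
      · rintro ⟨y, z⟩ h
        simp only [hE, mem_filter, mem_product] at h
        exact ⟨y, h.1.1.1, by rw [h.2]⟩
    rw [← h1, hM, card_filter_add_card_filter_not]
  have hPprop : ∀ p ∈ P, p.1 ∈ W ∧ p.2 ∈ W ∧ x ≠ p.1 ∧ x ≠ p.2 ∧ p.1 ≠ p.2 ∧ c p.1 ≠ c p.2 := by
    intro p hp
    simp only [hP, mem_filter, mem_product] at hp
    exact ⟨hp.1.1, hp.1.2, hWx _ hp.1.1, hWx _ hp.1.2, fun h => hp.2 (by rw [h]), hp.2⟩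
  have hsub : P ⊆ (P.filter fun p => c (f p.1 p.2) = c x) ∪ ((P.filter fun p => c (f p.1 p.2) = c p.1) ∪
      (P.filter fun p => c (f p.1 p.2) = c p.2)) := by
    intro p hp
    obtain ⟨h1, h2, h3, h4, h5, h6⟩ := hPprop p hp
    obtain ⟨h7, h8, h9, h10⟩ := hf p.1 p.2 h3 h4 h5
    have hx1 : c x ≠ c p.1 := fun h => by
      apply hxT; rw [h]; simpa [hW] using h1
    have hx2 : c x ≠ c p.2 := fun h => by
      apply hxT; rw [h]; simpa [hW] using h2
    obtain ⟨y, hy, z, hz, hyz, hcyz⟩ := hc _ h10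
    simp only [mem_union, mem_filter]
    simp only [mem_insert, mem_singleton] at hy hz
    rcases hy with rfl | rfl | rfl | rfl <;> rcases hz with rfl | rfl | rfl | rfl
    · exact absurd rfl hyz
    · exact absurd hcyz hx1
    · exact absurd hcyz hx2
    · left; exact ⟨hp, hcyz.symm⟩
    · exact absurd hcyz.symm hx1
    · exact absurd rfl hyz
    · exact absurd hcyz h6
    · right; left; exact ⟨hp, hcyz.symm⟩
    · exact absurd hcyz.symm hx2
    · exact absurd hcyz.symm h6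
    · exact absurd rfl hyz
    · right; right; exact ⟨hp, hcyz.symm⟩
    · left; exact ⟨hp, hcyz⟩
    · right; left; exact ⟨hp, hcyz⟩
    · right; right; exact ⟨hp, hcyz⟩
    · exact absurd rfl hyz
  have hP1 : (P.filter fun p => c (f p.1 p.2) = c x).card ≤
      (W ×ˢ ((univ.filter fun y => c y = c x).erase x)).card := by
    apply card_le_card_of_injOn (fun p => (p.1, f p.1 p.2))
    · intro p hp
      rw [mem_coe, mem_filter] at hp
      obtain ⟨h1, h2, h3, h4, h5, h6⟩ := hPprop p hp.1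
      obtain ⟨h7, h8, h9, h10⟩ := hf p.1 p.2 h3 h4 h5
      simp only [mem_coe, mem_product, mem_erase, mem_filter, mem_univ, true_and]
      exact ⟨h1, h7, hp.2⟩
    · intro p hp p' hp' heq
      rw [mem_coe, mem_filter] at hp hp'
      obtain ⟨h1, h2, h3, h4, h5, h6⟩ := hPprop p hp.1
      obtain ⟨h1', h2', h3', h4', h5', h6'⟩ := hPprop p' hp'.1
      obtain ⟨e1, e2⟩ := Prod.mk.inj heq
      have i1 := hinv p.1 p.2 h3 h4 h5
      have i2 := hinv p'.1 p'.2 h3' h4' h5'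
      apply Prod.ext e1
      rw [← i1, ← i2, e2, e1]
  have hP2 : (P.filter fun p => c (f p.1 p.2) = c p.1).card ≤ M.card := by
    apply card_le_card_of_injOn (fun p => (p.1, f p.1 p.2))
    · intro p hp
      rw [mem_coe, mem_filter] at hp
      obtain ⟨h1, h2, h3, h4, h5, h6⟩ := hPprop p hp.1
      obtain ⟨h7, h8, h9, h10⟩ := hf p.1 p.2 h3 h4 h5
      have h11 : c p.1 ∈ T := by simpa [hW] using h1
      simp only [mem_coe, hM, hE, hW, mem_product, mem_filter, mem_univ, true_and]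
      exact ⟨⟨⟨h11, by rw [hp.2]; exact h11⟩, hp.2.symm⟩, h8.symm⟩
    · intro p hp p' hp' heq
      rw [mem_coe, mem_filter] at hp hp'
      obtain ⟨h1, h2, h3, h4, h5, h6⟩ := hPprop p hp.1
      obtain ⟨h1', h2', h3', h4', h5', h6'⟩ := hPprop p' hp'.1
      obtain ⟨e1, e2⟩ := Prod.mk.inj heq
      have i1 := hinv p.1 p.2 h3 h4 h5
      have i2 := hinv p'.1 p'.2 h3' h4' h5'
      apply Prod.ext e1
      rw [← i1, ← i2, e2, e1]
  have hP3 : (P.filter fun p => c (f p.1 p.2) = c p.2).card ≤ M.card := by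
    apply card_le_card_of_injOn (fun p => (p.2, f p.1 p.2))
    · intro p hp
      rw [mem_coe, mem_filter] at hp
      obtain ⟨h1, h2, h3, h4, h5, h6⟩ := hPprop p hp.1
      obtain ⟨h7, h8, h9, h10⟩ := hf p.1 p.2 h3 h4 h5
      have h11 : c p.2 ∈ T := by simpa [hW] using h2
      simp only [mem_coe, hM, hE, hW, mem_product, mem_filter, mem_univ, true_and]
      exact ⟨⟨⟨h11, by rw [hp.2]; exact h11⟩, hp.2.symm⟩, h9.symm⟩
    · intro p hp p' hp' heq
      rw [mem_coe, mem_filter] at hp hp'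
      obtain ⟨h1, h2, h3, h4, h5, h6⟩ := hPprop p hp.1
      obtain ⟨h1', h2', h3', h4', h5', h6'⟩ := hPprop p' hp'.1
      obtain ⟨e1, e2⟩ := Prod.mk.inj heq
      rw [hsymm _ _ h3 h4 h5, hsymm _ _ h3' h4' h5'] at e2
      have i1 := hinv p.2 p.1 h4 h3 h5.symm
      have i2 := hinv p'.2 p'.1 h4' h3' h5'.symm
      refine Prod.ext ?_ e1
      rw [← i1, ← i2, e2, e1]
  have hcardP := (card_le_card hsub).trans (card_union_le _ _)
  have hcardP2 := card_union_le (P.filter fun p => c (f p.1 p.2) = c p.1)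
      (P.filter fun p => c (f p.1 p.2) = c p.2)
  have hA : ((univ.filter fun y => c y = c x).erase x).card + 1 = (univ.filter fun y => c y = c x).card :=
    card_erase_add_one (by simp)
  rw [card_product] at hP1
  rw [← hWcard, ← hEcard]
  have hA' : W.card * ((univ.filter fun y => c y = c x).erase x).card + W.card =
      (univ.filter fun y => c y = c x).card * W.card := by
    rw [← hA]; ring
  nlinarith

end count

theorem growth (g : ℝ) (hg0 : 0 < g) (η : ℝ)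
    (hpert : ∀ w q n : ℝ, 0 < w → 0 ≤ q →
    q ≤ w ^ 2 → q ≤ n * w → (w + n) ^ 2 ≤ 3 * (1 + η) * (q + n ^ 2) →
      g * zz w q ≤ zz (w + n) (q + n ^ 2)) (n : ℕ → ℝ) (S : Finset ℕ) (hn : ∀ i ∈ S, 1 ≤ n i)
    (hS : ∀ T ⊆ S, T.Nonempty → (∑ i ∈ T, n i) ^ 2 ≤ 3 * (1 + η) * ∑ i ∈ T, n i ^ 2) :
    ∀ (m : ℕ) (T : Finset ℕ), T ⊆ S → T.card = m + 1 →
      g ^ m ≤ zz (∑ i ∈ T, n i) (∑ i ∈ T, n i ^ 2) := by
  intro m
  induction m with
  | zero =>
    intro T hT hcard
    obtain ⟨i, rfl⟩ := card_eq_one.1 hcard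
    have h1 := hn i (hT (mem_singleton_self i))
    have h2 := zz_lower (∑ i ∈ {i}, n i) (∑ i ∈ {i}, n i ^ 2)
    rw [sum_singleton] at h2 ⊢
    rw [pow_zero]
    linarith
  | succ m ih =>
    intro T hT hcard
    have hne : T.Nonempty := card_pos.1 (by omega)
    obtain ⟨j, hj, hmax⟩ := exists_max_image T n hne
    have hcard' : (T.erase j).card = m + 1 := by rw [card_erase_of_mem hj]; omega
    have hsub : T.erase j ⊆ T := erase_subset _ _
    have h1 := ih (T.erase j) (hsub.trans hT) hcard'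
    have hne' : (T.erase j).Nonempty := card_pos.1 (by omega)
    have e1 : ∑ i ∈ T, n i = ∑ i ∈ T.erase j, n i + n j := (sum_erase_add _ _ hj).symm
    have e2 : ∑ i ∈ T, n i ^ 2 = ∑ i ∈ T.erase j, n i ^ 2 + n j ^ 2 := (sum_erase_add _ _ hj).symm
    have hpos : ∀ i ∈ T.erase j, 0 ≤ n i := fun i hi => by
      have := hn i (hT (hsub hi)); linarith
    have h2 : 0 < ∑ i ∈ T.erase j, n i :=
      sum_pos (fun i hi => by have := hn i (hT (hsub hi)); linarith) hne'
    have h3 : 0 ≤ ∑ i ∈ T.erase j, n i ^ 2 := sum_nonneg fun i _ => sq_nonneg _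
    have h4 : ∑ i ∈ T.erase j, n i ^ 2 ≤ (∑ i ∈ T.erase j, n i) ^ 2 := by
      rw [sq, sum_mul]
      apply sum_le_sum
      intro i hi
      rw [sq]
      exact mul_le_mul_of_nonneg_left (single_le_sum hpos hi) (hpos i hi)
    have h5 : ∑ i ∈ T.erase j, n i ^ 2 ≤ n j * ∑ i ∈ T.erase j, n i := by
      rw [mul_sum]
      apply sum_le_sum
      intro i hi
      rw [sq]
      exact mul_le_mul_of_nonneg_right (hmax i (hsub hi)) (hpos i hi)
    have h6 := hS T hT hne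
    rw [e1, e2] at h6 ⊢
    have h7 := hpert _ _ _ h2 h3 h4 h5 h6
    calc g ^ (m + 1) = g * g ^ m := by ring
      _ ≤ g * zz (∑ i ∈ T.erase j, n i) (∑ i ∈ T.erase j, n i ^ 2) := by gcongr
      _ ≤ _ := h7

/-- the upper bound with explicit constants -/
theorem upper (g : ℝ) (hg0 : 1 < g) (hg : g < 2) : ∃ C : ℕ, ∀ v : ℕ, 1 ≤ v →
    ∀ B : Finset (Finset (Fin v)),
      (∀ b ∈ B, b.card = 4) →
      (∀ T : Finset (Fin v), T.card = 3 → ∃! b, b ∈ B ∧ T ⊆ b) →
      ∀ c : Fin v → ℕ, (∀ b ∈ B, ∃ x ∈ b, ∃ y ∈ b, x ≠ y ∧ c x = c y) →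
      ∃ m : ℕ, (univ.image c).card ≤ m + C ∧ g ^ m ≤ 3 * v := by
  obtain ⟨η, hη, hpert⟩ := pert g (by linarith) hg
  obtain ⟨K, hK⟩ := exists_nat_gt (1 + 1 / η)
  have hK1 : (1 : ℝ) < K := by
    have : 0 < 1 / η := by positivity
    linarith
  have hKη : 1 ≤ η * (K - 1) := by
    have h1 : 1 / η < K - 1 := by linarith
    rw [div_lt_iff₀ hη] at h1
    linarith
  refine ⟨3 * K + 3, fun v hv B hB hT c hc => ?_⟩
  haveI : Nonempty (Fin v) := ⟨⟨0, hv⟩⟩
  let N : ℕ → ℕ := fun i => (univ.filter fun y => c y = i).card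
  obtain ⟨x, -, hx⟩ := exists_min_image (univ : Finset (Fin v)) (fun x => N (c x)) univ_nonempty
  have hNpos : ∀ i ∈ univ.image c, 1 ≤ N i := by
    intro i hi
    obtain ⟨y, _, rfl⟩ := mem_image.1 hi
    exact card_pos.2 ⟨y, by simp⟩
  have hNmin : ∀ i ∈ univ.image c, N (c x) ≤ N i := by
    intro i hi
    obtain ⟨y, _, rfl⟩ := mem_image.1 hi
    exact hx y (mem_univ y)
  have hineq : ∀ T : Finset ℕ, c x ∉ T →
      (∑ i ∈ T, N i) ^ 2 + 3 * (∑ i ∈ T, N i) ≤
        3 * (∑ i ∈ T, N i ^ 2) + N (c x) * (∑ i ∈ T, N i) :=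
    fun T hxT => class_ineq B hB hT c hc x T hxT
  have ha1 : 1 ≤ N (c x) := hNpos _ (mem_image_of_mem c (mem_univ x))
  -- small and big colours
  set S : Finset ℕ := ((univ.image c).erase (c x)).filter fun i => N i < K * N (c x) with hS
  set L : Finset ℕ := ((univ.image c).erase (c x)).filter fun i => ¬ N i < K * N (c x) with hL
  have hcardSL : S.card + L.card + 1 = (univ.image c).card := by
    rw [hS, hL, card_filter_add_card_filter_not]
    exact card_erase_add_one (mem_image_of_mem c (mem_univ x))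
  have hSmem : ∀ i ∈ S, i ∈ univ.image c ∧ i ≠ c x ∧ N i < K * N (c x) := by
    intro i hi
    rw [hS, mem_filter, mem_erase] at hi
    exact ⟨hi.1.2, hi.1.1, hi.2⟩
  have hLmem : ∀ i ∈ L, i ∈ univ.image c ∧ i ≠ c x ∧ K * N (c x) ≤ N i := by
    intro i hi
    rw [hL, mem_filter, mem_erase] at hi
    exact ⟨hi.1.2, hi.1.1, not_lt.1 hi.2⟩
  have hScard : S.card ≤ 3 * K + 1 := by
    have h1 := hineq S (fun h => (hSmem _ h).2.1 rfl)
    have h2 : ∑ i ∈ S, N i ^ 2 ≤ K * N (c x) * ∑ i ∈ S, N i := by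
      rw [mul_sum]
      apply sum_le_sum
      intro i hi
      rw [sq]
      exact Nat.mul_le_mul_right _ (hSmem i hi).2.2.le
    have h3 : S.card * N (c x) ≤ ∑ i ∈ S, N i := by
      rw [← smul_eq_mul]
      exact card_nsmul_le_sum _ _ _ fun i hi => hNmin i (hSmem i hi).1
    by_contra hcon
    push Not at hcon
    generalize hw : ∑ i ∈ S, N i = w at h1 h2 h3
    generalize ∑ i ∈ S, N i ^ 2 = q at h1 h2
    generalize N (c x) = a at h1 h2 h3 ha1
    have h4 : (3 * K + 2) * a ≤ w := le_trans (Nat.mul_le_mul_right a hcon) h3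
    have h5 : 0 < w := by nlinarith
    have h6 : w * w + 3 * w ≤ w * ((3 * K + 1) * a) := by nlinarith
    have h7 : w * ((3 * K + 1) * a) ≤ w * w := Nat.mul_le_mul_left w (by nlinarith)
    omega
  have hLineq : ∀ T ⊆ L, T.Nonempty →
      (∑ i ∈ T, (N i : ℝ)) ^ 2 ≤ 3 * (1 + η) * ∑ i ∈ T, (N i : ℝ) ^ 2 := by
    intro T hTL hne
    have h1 := hineq T (fun h => (hLmem _ (hTL h)).2.1 rfl)
    have h2 : K * N (c x) ≤ ∑ i ∈ T, N i := by
      obtain ⟨i, hi⟩ := hne
      exact (hLmem i (hTL hi)).2.2.trans (single_le_sum (fun _ _ => Nat.zero_le _) hi)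
    have h1' : (∑ i ∈ T, (N i : ℝ)) ^ 2 + 3 * (∑ i ∈ T, (N i : ℝ)) ≤
        3 * (∑ i ∈ T, (N i : ℝ) ^ 2) + (N (c x) : ℝ) * (∑ i ∈ T, (N i : ℝ)) := by exact_mod_cast h1
    have h2' : (K : ℝ) * (N (c x) : ℝ) ≤ ∑ i ∈ T, (N i : ℝ) := by exact_mod_cast h2
    have ha : (1 : ℝ) ≤ (N (c x) : ℝ) := by exact_mod_cast ha1
    generalize ∑ i ∈ T, (N i : ℝ) = w at *
    generalize ∑ i ∈ T, (N i : ℝ) ^ 2 = q at *
    generalize (N (c x) : ℝ) = a at *
    have hw : 0 < w := by nlinarith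
    -- w² ≤ 3q + a w ≤ 3 q + w²/K
    have h3 : (K : ℝ) * (a * w) ≤ w ^ 2 := by nlinarith
    have h4 : (K : ℝ) * w ^ 2 ≤ 3 * K * q + w ^ 2 := by nlinarith
    have h5 : ((K : ℝ) - 1) * w ^ 2 ≤ 3 * K * q := by linarith
    have hq : 0 ≤ q := by
      by_contra hq
      push Not at hq
      have : 0 ≤ ((K : ℝ) - 1) * w ^ 2 := mul_nonneg (by linarith) (sq_nonneg _)
      nlinarith
    have h6 : (K : ℝ) ≤ (1 + η) * (K - 1) := by nlinarith
    have h7 : ((K : ℝ) - 1) * w ^ 2 ≤ (K - 1) * (3 * (1 + η) * q) := by nlinarith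
    exact le_of_mul_le_mul_left h7 (by linarith)
  rcases Nat.eq_zero_or_pos L.card with h0 | h0
  · refine ⟨0, by omega, ?_⟩
    rw [pow_zero]
    have : (1 : ℝ) ≤ v := by exact_mod_cast hv
    linarith
  · refine ⟨L.card - 1, by omega, ?_⟩
    have h1 := growth g (by linarith) η hpert (fun i => (N i : ℝ)) L
      (fun i hi => by exact_mod_cast hNpos i (hLmem i hi).1) hLineq (L.card - 1) L subset_rfl (by omega)
    have h2 := zz_upper (∑ i ∈ L, (N i : ℝ)) (∑ i ∈ L, (N i : ℝ) ^ 2)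
      (sum_nonneg fun _ _ => Nat.cast_nonneg _) (sum_nonneg fun _ _ => sq_nonneg _)
    have h3 : ∑ i ∈ L, N i ≤ v := by
      have h4 : ∑ i ∈ univ.image c, N i = v := by
        have := card_eq_sum_card_image c (univ : Finset (Fin v))
        rw [card_univ, Fintype.card_fin] at this
        exact this.symm
      calc ∑ i ∈ L, N i ≤ ∑ i ∈ univ.image c, N i :=
            sum_le_sum_of_subset fun i hi => (hLmem i hi).1
        _ = v := h4
    have h3' : ∑ i ∈ L, (N i : ℝ) ≤ v := by exact_mod_cast h3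
    have h5 : (0 : ℝ) ≤ v := Nat.cast_nonneg _
    linarith

theorem upper_final (ε : ℝ) (hε : 0 < ε) : ∃ N : ℕ, ∀ v : ℕ, N ≤ v → ∀ B : Finset (Finset (Fin v)),
      (∀ b ∈ B, b.card = 4) →
      (∀ T : Finset (Fin v), T.card = 3 → ∃! b, b ∈ B ∧ T ⊆ b) →
      ∀ c : Fin v → ℕ, (∀ b ∈ B, ∃ x ∈ b, ∃ y ∈ b, x ≠ y ∧ c x = c y) →
      ((univ.image c).card : ℝ) ≤ (1 + ε) * Real.logb 2 (v : ℝ) := by
  -- g = 2 ^ β, β = 1 / (1 + ε / 2)
  have hβ0 : (0:ℝ) < 1 / (1 + ε / 2) := by positivity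
  have hβ1 : 1 / (1 + ε / 2) < 1 := by
    rw [div_lt_one (by positivity)]; linarith
  have hg1 : (1 : ℝ) < (2 : ℝ) ^ (1 / (1 + ε / 2)) := Real.one_lt_rpow (by norm_num) hβ0
  have hg2 : (2 : ℝ) ^ (1 / (1 + ε / 2)) < 2 := by
    calc (2 : ℝ) ^ (1 / (1 + ε / 2)) < (2 : ℝ) ^ (1 : ℝ) :=
          Real.rpow_lt_rpow_of_exponent_lt (by norm_num) hβ1
      _ = 2 := Real.rpow_one 2
  obtain ⟨C, hC⟩ := upper _ hg1 hg2
  -- need C + (1 + ε/2) (2 + l) ≤ (1 + ε) l
  obtain ⟨M, hM⟩ := exists_nat_gt ((C + (1 + ε / 2) * 2) / (ε / 2))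
  refine ⟨2 ^ M, fun v hv B hB hT c hc => ?_⟩
  have hv1 : 1 ≤ v := le_trans Nat.one_le_two_pow hv
  obtain ⟨m, hm1, hm2⟩ := hC v hv1 B hB hT c hc
  have hvpos : (0 : ℝ) < v := by exact_mod_cast hv1
  have hl : (M : ℝ) ≤ Real.logb 2 v := by
    have h1 : Real.logb 2 ((2 : ℝ) ^ M) ≤ Real.logb 2 v :=
      Real.logb_le_logb_of_le (by norm_num) (by positivity) (by exact_mod_cast hv)
    rwa [Real.logb_pow, Real.logb_self_eq_one (by norm_num), mul_one] at h1
  have hm3 : (m : ℝ) * (1 / (1 + ε / 2)) ≤ 2 + Real.logb 2 v := by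
    have h1 : Real.logb 2 (((2 : ℝ) ^ (1 / (1 + ε / 2))) ^ m) ≤ Real.logb 2 (4 * v) :=
      Real.logb_le_logb_of_le (by norm_num) (by positivity) (hm2.trans (by linarith))
    rw [Real.logb_pow, Real.logb_rpow (by norm_num) (by norm_num),
      Real.logb_mul (by norm_num) hvpos.ne', show (4 : ℝ) = 2 ^ (2 : ℕ) by norm_num, Real.logb_pow,
      Real.logb_self_eq_one (by norm_num)] at h1
    push_cast at h1
    linarith
  have hm4 : (m : ℝ) ≤ (1 + ε / 2) * (2 + Real.logb 2 v) := by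
    rw [mul_one_div, div_le_iff₀ (by positivity)] at hm3
    linarith
  have hk : ((univ.image c).card : ℝ) ≤ m + C := by exact_mod_cast hm1
  have hM2 : (C + (1 + ε / 2) * 2) < (M : ℝ) * (ε / 2) := by
    rwa [div_lt_iff₀ (by positivity)] at hM
  have : (M : ℝ) * (ε / 2) ≤ Real.logb 2 v * (ε / 2) := by gcongr
  nlinarith

end Pool.Agent.H16.Sqs
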