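import Mathlib

set_option autoImplicit false

open Finset

namespace Pool.Agent.H16.Sqs

/-- colour of a vector: one plus the highest coordinate where it is nonzero (zero for zero) -/
def colV {m : ℕ} (u : Fin m → ZMod 2) : ℕ := (univ.filter fun i : Fin m => u i ≠ 0).sup fun i => (i : ℕ) + 1

theorem lower_aux (m : ℕ) : ∃ B : Finset (Finset (Fin (2 ^ m))),
      (∀ b ∈ B, b.card = 4) ∧
      (∀ T : Finset (Fin (2 ^ m)), T.card = 3 → ∃! b, b ∈ B ∧ T ⊆ b) ∧
      ∃ c : Fin (2 ^ m) → ℕ, (∀ b ∈ B, ∃ x ∈ b, ∃ y ∈ b, x ≠ y ∧ c x = c y) ∧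
      m + 1 ≤ (univ.image c).card := by
  have hcardV : Fintype.card (Fin m → ZMod 2) = 2 ^ m := by simp
  let φ : Fin (2 ^ m) ≃ (Fin m → ZMod 2) := (Fintype.equivFinOfCardEq hcardV).symm
  have hchar : ∀ u : Fin m → ZMod 2, u + u = 0 := by
    intro u; funext i
    exact CharTwo.add_self_eq_zero (u i)
  refine ⟨univ.filter fun b => b.card = 4 ∧ ∑ x ∈ b, φ x = 0, ?_, ?_, fun x => colV (φ x), ?_, ?_⟩
  · intro b hb
    exact (mem_filter.1 hb).2.1
  · intro T hT
    set s := ∑ x ∈ T, φ x with hs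
    have hd : φ.symm s ∉ T := by
      intro hd
      have h1 : ∑ x ∈ T.erase (φ.symm s), φ x = 0 := by
        have := sum_erase_add T (fun x => φ x) hd
        simp only [Equiv.apply_symm_apply] at this
        rw [← hs] at this
        exact add_eq_right.1 this
      have h2 : (T.erase (φ.symm s)).card = 2 := by rw [card_erase_of_mem hd, hT]
      obtain ⟨y, z, hyz, he⟩ := card_eq_two.1 h2
      rw [he, sum_pair hyz] at h1
      apply hyz
      apply φ.injective
      have h3 := hchar (φ z)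
      calc φ y = φ y + (φ z + φ z) := by rw [h3, add_zero]
        _ = (φ y + φ z) + φ z := by rw [add_assoc]
        _ = φ z := by rw [h1, zero_add]
    refine ⟨insert (φ.symm s) T, ⟨?_, subset_insert _ _⟩, ?_⟩
    · rw [mem_filter]
      refine ⟨mem_univ _, ?_, ?_⟩
      · rw [card_insert_of_notMem hd, hT]
      · rw [sum_insert hd, Equiv.apply_symm_apply, ← hs]
        exact hchar s
    · rintro b ⟨hb, hTb⟩
      obtain ⟨-, hb4, hbs⟩ := mem_filter.1 hb
      have h1 : (b \ T).card = 1 := by rw [card_sdiff_of_subset hTb, hb4, hT]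
      obtain ⟨d, hdd⟩ := card_eq_one.1 h1
      have h2 : ∑ x ∈ b \ T, φ x + ∑ x ∈ T, φ x = 0 := by
        rw [sum_sdiff hTb]; exact hbs
      rw [hdd, sum_singleton, ← hs] at h2
      have h3 : φ d = s := by
        calc φ d = φ d + (s + s) := by rw [hchar s, add_zero]
          _ = (φ d + s) + s := by rw [add_assoc]
          _ = s := by rw [h2, zero_add]
      have h4 : d = φ.symm s := by rw [← h3, Equiv.symm_apply_apply]
      rw [← h4, ← sdiff_union_of_subset hTb, hdd]
      rfl
  · intro b hb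
    obtain ⟨-, hb4, hbs⟩ := mem_filter.1 hb
    by_contra hcon
    push Not at hcon
    have hne : b.Nonempty := card_pos.1 (by omega)
    obtain ⟨x, hx, hmax⟩ := exists_max_image b (fun x => colV (φ x)) hne
    have hlt : ∀ y ∈ b, y ≠ x → colV (φ y) < colV (φ x) := fun y hy hyx =>
      lt_of_le_of_ne (hmax y hy) (hcon y hy x hx hyx)
    obtain ⟨y, hy, hyx⟩ : ∃ y ∈ b, y ≠ x := exists_mem_ne (by omega) x
    have hpos : 0 < colV (φ x) := lt_of_le_of_lt (Nat.zero_le _) (hlt y hy hyx)
    obtain ⟨i, hi, hie⟩ : ∃ i ∈ univ.filter (fun i : Fin m => φ x i ≠ 0), colV (φ x) = (i : ℕ) + 1 := by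
      apply exists_mem_eq_sup
      by_contra hemp
      rw [not_nonempty_iff_eq_empty] at hemp
      unfold colV at hpos
      rw [hemp, sup_empty] at hpos
      exact absurd hpos (by simp)
    have hothers : ∀ z ∈ b, z ≠ x → φ z i = 0 := by
      intro z hz hzx
      by_contra hzi
      have h1 : (i : ℕ) + 1 ≤ colV (φ z) :=
        le_sup (f := fun i : Fin m => (i : ℕ) + 1) (by simp [hzi] : i ∈ univ.filter fun i : Fin m => φ z i ≠ 0)
      have h2 := hlt z hz hzx
      omega
    have h1 : (∑ z ∈ b, φ z) i = 0 := by rw [hbs]; rfl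
    rw [Finset.sum_apply, ← add_sum_erase b _ hx, sum_eq_zero (fun z hz => hothers z (mem_of_mem_erase hz) (ne_of_mem_erase hz)),
      add_zero] at h1
    exact (mem_filter.1 hi).2 h1
  · have hsub : (range (m + 1)) ⊆ univ.image fun x => colV (φ x) := by
      intro k hk
      rw [mem_range] at hk
      rw [mem_image]
      rcases Nat.eq_zero_or_pos k with rfl | hk0
      · refine ⟨φ.symm 0, mem_univ _, ?_⟩
        rw [Equiv.apply_symm_apply]
        simp [colV]
      · refine ⟨φ.symm (Pi.single ⟨k - 1, by omega⟩ 1), mem_univ _, ?_⟩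
        rw [Equiv.apply_symm_apply]
        have h1 : (univ.filter fun i : Fin m => (Pi.single (⟨k - 1, by omega⟩ : Fin m) (1 : ZMod 2) : Fin m → ZMod 2) i ≠ 0) =
            {(⟨k - 1, by omega⟩ : Fin m)} := by
          ext i
          simp only [mem_filter, mem_univ, true_and, mem_singleton, Pi.single_apply]
          split_ifs with h
          · simp [h]
          · simp [h]
        unfold colV
        rw [h1, sup_singleton]
        show k - 1 + 1 = k
        omega
    have := card_le_card hsub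
    rwa [card_range] at this

theorem lower_final (ε : ℝ) (hε : 0 < ε) (N : ℕ) : ∃ v : ℕ, N ≤ v ∧ ∃ B : Finset (Finset (Fin v)),
      (∀ b ∈ B, b.card = 4) ∧
      (∀ T : Finset (Fin v), T.card = 3 → ∃! b, b ∈ B ∧ T ⊆ b) ∧
      ∃ c : Fin v → ℕ, (∀ b ∈ B, ∃ x ∈ b, ∃ y ∈ b, x ≠ y ∧ c x = c y) ∧
      (1 - ε) * Real.logb 2 (v : ℝ) ≤ ((univ.image c).card : ℝ) := by
  obtain ⟨B, h1, h2, c, h3, h4⟩ := lower_aux N
  refine ⟨2 ^ N, Nat.lt_two_pow_self.le, B, h1, h2, c, h3, ?_⟩
  have h5 : Real.logb 2 ((2 ^ N : ℕ) : ℝ) = N := by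
    push_cast
    rw [Real.logb_pow, Real.logb_self_eq_one (by norm_num), mul_one]
  rw [h5]
  have h6 : ((N + 1 : ℕ) : ℝ) ≤ ((univ.image c).card : ℝ) := by exact_mod_cast h4
  push_cast at h6
  have h7 : (0 : ℝ) ≤ N := Nat.cast_nonneg _
  nlinarith

end Pool.Agent.H16.Sqs
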