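import Mathlib

set_option autoImplicit false
set_option linter.unusedSectionVars false
open Finset Matrix
open scoped Kronecker

namespace Pool.Agent.H16.TG

attribute [local instance] Matrix.linftyOpNormedAddCommGroup Matrix.linftyOpNormedSpace
  Matrix.linftyOpNormedRing Matrix.linftyOpNormedAlgebra

section norm

variable {V : Type} [Fintype V] [DecidableEq V]

lemma row_le (A : Matrix V V ℝ) (x : V) : ∑ y, |A x y| ≤ ‖A‖ := by
  rw [Matrix.linfty_opNorm_def]
  have h : (∑ y, ‖A x y‖₊ : NNReal) ≤ Finset.univ.sup fun i => ∑ j, ‖A i j‖₊ :=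
    Finset.le_sup (f := fun i => ∑ j, ‖A i j‖₊) (Finset.mem_univ x)
  have h2 : ((∑ y, ‖A x y‖₊ : NNReal) : ℝ) ≤ _ := NNReal.coe_le_coe.2 h
  refine le_trans (le_of_eq ?_) h2
  push_cast
  rfl

lemma norm_le_of_row {A : Matrix V V ℝ} {C : ℝ} (hC : 0 ≤ C) (h : ∀ x, ∑ y, |A x y| ≤ C) :
    ‖A‖ ≤ C := by
  rw [Matrix.linfty_opNorm_def]
  have : Finset.univ.sup (fun i => ∑ j, ‖A i j‖₊) ≤ (⟨C, hC⟩ : NNReal) := by
    refine Finset.sup_le (fun x _ => ?_)
    have h3 : ((∑ j, ‖A x j‖₊ : NNReal) : ℝ) ≤ C := by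
      refine le_trans (le_of_eq ?_) (h x)
      push_cast
      rfl
    exact h3
  exact_mod_cast this

lemma pow_mul_eq {R : Type} [Ring R] {M X Z : R} (h : M * Z = X * Z) (hc : X * Z = Z * X) (n : ℕ) :
    M ^ n * Z = X ^ n * Z := by
  induction n with
  | zero => simp
  | succ n ih =>
    rw [pow_succ, mul_assoc, h, hc, ← mul_assoc, ih, mul_assoc, ← hc, ← mul_assoc, ← pow_succ]

end norm

variable {H L : Type} [AddCommGroup H] [Fintype H] [DecidableEq H]
  [AddCommGroup L] [Fintype L] [DecidableEq L]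

/-- simple random walk on the Cayley graph of `S` -/
noncomputable def walk {G : Type} [AddCommGroup G] [Fintype G] [DecidableEq G] (S : Finset G) :
    Matrix G G ℝ := fun x y => if y - x ∈ S then 1 / (S.card : ℝ) else 0

/-- all entries `1 / |V|` -/
noncomputable def J (V : Type) [Fintype V] : Matrix V V ℝ := fun _ _ => 1 / (Fintype.card V : ℝ)

/-- shift by `e` -/
noncomputable def E (e : L) : Matrix L L ℝ := fun x y => if y - x = e then 1 else 0

/-- uniform step not equal to `e` -/
noncomputable def B (e : L) : Matrix L L ℝ :=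
  fun x y => if y - x = e then 0 else 1 / ((Fintype.card L : ℝ) - 1)

/-- the generating set -/
def gen (A : Finset H) (e : L) : Finset (H × L) := univ.filter (fun x => x.2 = e ∨ x.1 ∈ A)

lemma gen_card (A : Finset H) (e : L) :
    ((gen A e).card : ℝ) = Fintype.card H + A.card * ((Fintype.card L : ℝ) - 1) := by
  have h1 : gen A e = (univ ×ˢ {e}) ∪ (A ×ˢ (univ.erase e)) := by
    ext x
    simp only [gen, mem_filter, mem_univ, true_and, mem_union, mem_product, mem_singleton,
      mem_erase, and_true, ne_eq]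
    tauto
  have hd : Disjoint ((univ : Finset H) ×ˢ ({e} : Finset L)) (A ×ˢ (univ.erase e)) := by
    rw [Finset.disjoint_left]
    rintro x h2 h3
    simp only [mem_product, mem_singleton, mem_erase] at h2 h3
    exact h3.2.1 h2.2
  rw [h1, card_union_of_disjoint hd, card_product, card_product, card_singleton,
    card_erase_of_mem (mem_univ e), card_univ, card_univ, mul_one]
  have : 1 ≤ Fintype.card L := Fintype.card_pos_iff.2 ⟨e⟩
  push_cast [this]
  ring

/-- the weight of the uniform step -/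
noncomputable def th (A : Finset H) (L : Type) [Fintype L] : ℝ :=
  Fintype.card H / (Fintype.card H + A.card * ((Fintype.card L : ℝ) - 1))

lemma cardpos {V : Type} [Fintype V] [Nonempty V] : (0 : ℝ) < Fintype.card V := by
  exact_mod_cast Fintype.card_pos

lemma walk_eq (A : Finset H) (hA : A.Nonempty) (e : L) (hL : 1 < Fintype.card L) :
    walk (gen A e) = th A L • (J H ⊗ₖ E e) + (1 - th A L) • (walk A ⊗ₖ B e) := by
  have hh : (0 : ℝ) < Fintype.card H := cardpos
  have ha : (0 : ℝ) < A.card := by exact_mod_cast hA.card_pos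
  have hl : (0 : ℝ) < (Fintype.card L : ℝ) - 1 := by
    have : (1 : ℝ) < Fintype.card L := by exact_mod_cast hL
    linarith
  have hs : (0 : ℝ) < Fintype.card H + A.card * ((Fintype.card L : ℝ) - 1) := by positivity
  ext ⟨x, k⟩ ⟨y, l⟩
  simp only [walk, Matrix.add_apply, Matrix.smul_apply, Matrix.kroneckerMap_apply, smul_eq_mul,
    gen_card, J, E, B, th]
  have hmem : ((y, l) - (x, k) ∈ gen A e) ↔ (l - k = e ∨ y - x ∈ A) := by
    simp [gen]
  by_cases h1 : l - k = e
  · rw [if_pos (hmem.2 (Or.inl h1)), if_pos h1, if_pos h1]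
    field_simp
    ring
  · by_cases h2 : y - x ∈ A
    · rw [if_pos (hmem.2 (Or.inr h2)), if_neg h1, if_neg h1, if_pos h2]
      field_simp
      ring
    · rw [if_neg (fun h => by rcases hmem.1 h with h | h <;> contradiction), if_neg h1, if_neg h1,
        if_neg h2]
      ring

section sums

variable {G : Type} [AddCommGroup G] [Fintype G] [DecidableEq G]

lemma sum_sub_right (f : G → ℝ) (x : G) : ∑ y, f (y - x) = ∑ y, f y :=
  Equiv.sum_comp (Equiv.subRight x) f

lemma sum_sub_left (f : G → ℝ) (x : G) : ∑ y, f (x - y) = ∑ y, f y :=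
  Equiv.sum_comp (Equiv.subLeft x) f

lemma walk_row (S : Finset G) (hS : S.Nonempty) (x : G) : ∑ y, walk S x y = 1 := by
  have ha : (S.card : ℝ) ≠ 0 := by exact_mod_cast hS.card_pos.ne'
  unfold walk
  rw [sum_sub_right (fun z => if z ∈ S then 1 / (S.card : ℝ) else 0) x, Finset.sum_ite_mem,
    Finset.univ_inter, Finset.sum_const, nsmul_eq_mul]
  field_simp

lemma walk_col (S : Finset G) (hS : S.Nonempty) (y : G) : ∑ x, walk S x y = 1 := by
  have ha : (S.card : ℝ) ≠ 0 := by exact_mod_cast hS.card_pos.ne'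
  unfold walk
  rw [sum_sub_left (fun z => if z ∈ S then 1 / (S.card : ℝ) else 0) y, Finset.sum_ite_mem,
    Finset.univ_inter, Finset.sum_const, nsmul_eq_mul]
  field_simp

lemma walk_nonneg (S : Finset G) (x y : G) : 0 ≤ walk S x y := by
  unfold walk; split_ifs <;> positivity

lemma J_mul (A : Matrix G G ℝ) (h : ∀ y, ∑ x, A x y = 1) : J G * A = J G := by
  ext x y
  simp only [Matrix.mul_apply, J]
  rw [← Finset.mul_sum, h, mul_one]

lemma mul_J (A : Matrix G G ℝ) (h : ∀ x, ∑ y, A x y = 1) : A * J G = J G := by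
  ext x y
  simp only [Matrix.mul_apply, J]
  rw [← Finset.sum_mul, h, one_mul]

lemma J_col [Nonempty G] (y : G) : ∑ x, J G x y = 1 := by
  unfold J
  rw [Finset.sum_const, card_univ, nsmul_eq_mul]
  have : (Fintype.card G : ℝ) ≠ 0 := cardpos.ne'
  field_simp

lemma J_row [Nonempty G] (x : G) : ∑ y, J G x y = 1 := by
  unfold J
  rw [Finset.sum_const, card_univ, nsmul_eq_mul]
  have : (Fintype.card G : ℝ) ≠ 0 := cardpos.ne'
  field_simp

lemma J_sq [Nonempty G] : J G * J G = J G := mul_J _ J_row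

lemma E_row (e x : G) : ∑ y, E e x y = 1 := by
  unfold E
  rw [sum_sub_right (fun z => if z = e then (1 : ℝ) else 0) x]
  simp

lemma E_col (e y : G) : ∑ x, E e x y = 1 := by
  unfold E
  rw [sum_sub_left (fun z => if z = e then (1 : ℝ) else 0) y]
  simp

lemma B_eq (e : G) (hL : 1 < Fintype.card G) :
    B e = (1 / ((Fintype.card G : ℝ) - 1)) • ((Fintype.card G : ℝ) • J G - E e) := by
  have hl : (0 : ℝ) < (Fintype.card G : ℝ) - 1 := by
    have : (1 : ℝ) < Fintype.card G := by exact_mod_cast hL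
    linarith
  have hg : (0 : ℝ) < Fintype.card G := by linarith
  ext x y
  simp only [B, J, E, Matrix.smul_apply, Matrix.sub_apply, smul_eq_mul]
  split_ifs <;> field_simp <;> ring

lemma B_row (e : G) (hL : 1 < Fintype.card G) (x : G) : ∑ y, B e x y = 1 := by
  have hl : (0 : ℝ) < (Fintype.card G : ℝ) - 1 := by
    have : (1 : ℝ) < Fintype.card G := by exact_mod_cast hL
    linarith
  have : Nonempty G := ⟨e⟩
  rw [B_eq e hL]
  simp only [Matrix.smul_apply, Matrix.sub_apply, smul_eq_mul]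
  rw [← Finset.mul_sum, Finset.sum_sub_distrib, ← Finset.mul_sum, J_row, E_row]
  field_simp

lemma B_nonneg (e : G) (hL : 1 < Fintype.card G) (x y : G) : 0 ≤ B e x y := by
  have hl : (0 : ℝ) < (Fintype.card G : ℝ) - 1 := by
    have : (1 : ℝ) < Fintype.card G := by exact_mod_cast hL
    linarith
  unfold B; split_ifs <;> positivity

lemma E_nonneg (e x y : G) : 0 ≤ E e x y := by
  unfold E; split_ifs <;> norm_num

end sums

lemma kron_row (X : Matrix H H ℝ) (Y : Matrix L L ℝ) (hX : ∀ x, ∑ y, X x y = 1)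
    (hY : ∀ x, ∑ y, Y x y = 1) (z : H × L) : ∑ w, (X ⊗ₖ Y) z w = 1 := by
  rw [Fintype.sum_prod_type]
  simp only [Matrix.kroneckerMap_apply]
  simp_rw [← Finset.mul_sum, hY, mul_one, hX]

lemma norm_stoch {V : Type} [Fintype V] [DecidableEq V] {X : Matrix V V ℝ} (h0 : ∀ x y, 0 ≤ X x y)
    {C : ℝ} (hC : 0 ≤ C) (h : ∀ x, ∑ y, X x y = C) : ‖X‖ ≤ C := by
  refine norm_le_of_row hC (fun x => ?_)
  rw [← h x]
  exact (Finset.sum_congr rfl (fun y _ => abs_of_nonneg (h0 x y))).le

end Pool.Agent.H16.TG
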