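import Pool.Agent.H16.TG9

set_option autoImplicit false
set_option linter.unusedSectionVars false
open Finset Matrix Filter Topology

namespace Pool.Agent.H16.Cut

open Pool.Agent.H16.TG (tv lz W walk)

lemma lz_symm {G : Type} [AddCommGroup G] [Fintype G] [DecidableEq G] (S : Finset G)
    (hS : ∀ s ∈ S, -s ∈ S) : (lz S).IsSymm := by
  apply Matrix.IsSymm.ext
  intro x y
  have h1 : (x - y ∈ S) ↔ (y - x ∈ S) := by
    constructor
    · intro h; have := hS _ h; simpa using this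
    · intro h; have := hS _ h; simpa using this
  have h2 : (x = y) ↔ (y = x) := eq_comm
  simp only [lz, W, walk, Matrix.add_apply, Matrix.smul_apply, smul_eq_mul, Matrix.one_apply, h1,
    h2]

lemma lz_nonneg {G : Type} [AddCommGroup G] [Fintype G] [DecidableEq G] (S : Finset G) (t : ℕ)
    (x y : G) : 0 ≤ (lz S ^ t) x y := by
  refine (TG.pow_mono (Q := lz S) (P := lz S) (fun x y => ?_) (fun _ _ => le_rfl) t x y).1
  exact TG.W_nonneg (by norm_num) (by norm_num) (TG.walk_nonneg S) x y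

section one
variable {V : Type} [Fintype V] [DecidableEq V]

lemma sep_le_dist (P : Matrix V V ℝ) (t : ℕ) (x y : V) :
    1 - (P ^ t) x y / (1 / (Fintype.card V : ℝ)) ≤ sepDist P t :=
  le_ciSup (f := fun q : V × V => 1 - (P ^ t) q.1 q.2 / (1 / (Fintype.card V : ℝ)))
    (Set.finite_range _).bddAbove (x, y)

lemma sepDist_le [Nonempty V] {P : Matrix V V ℝ} {t : ℕ} {c : ℝ}
    (h : ∀ x y, 1 - (P ^ t) x y / (1 / (Fintype.card V : ℝ)) ≤ c) :
    sepDist P t ≤ c := ciSup_le (fun q => h q.1 q.2)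

lemma tSep_le {P : Matrix V V ℝ} {t : ℕ} {ε : ℝ} (h : sepDist P t ≤ ε) : tSep P ε ≤ t :=
  Nat.sInf_le h

lemma lt_tSep {P : Matrix V V ℝ} {t : ℕ} {ε : ℝ} (hne : ∃ s, sepDist P s ≤ ε)
    (h : ∀ s ≤ t, ε < sepDist P s) : t < tSep P ε := by
  by_contra h2
  push Not at h2
  have h3 : sepDist P (tSep P ε) ≤ ε := Nat.sInf_mem (s := {t : ℕ | sepDist P t ≤ ε}) hne
  exact absurd h3 (not_le.2 (h _ h2))

end one

theorem no_sep_cutoff (V : ℕ → Type) [∀ n, Fintype (V n)] [∀ n, DecidableEq (V n)]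
    [∀ n, Nonempty (V n)] (P : ∀ n, Matrix (V n) (V n) ℝ)
    (hsym : ∀ n, (P n).IsSymm) (hrow : ∀ n t x, ∑ y, (P n ^ t) x y = 1)
    (hnn : ∀ n t x y, 0 ≤ (P n ^ t) x y)
    (h2 : ∀ n, ∀ x, tv (P n ^ (4 * (n + 10 + 2))) x ≤ 1 / 5)
    (h3 : ∀ n, ∀ ε : ℝ, 0 < ε → ∃ t, ∀ x, tv (P n ^ t) x ≤ ε)
    (h7 : ∀ n, ∀ t ≤ 20 * (n + 10), ∀ x, ∃ y,
      (Fintype.card (V n) : ℝ) * (P n ^ t) x y ≤ 1 - (1 / 2) ^ 20) :
    (∀ n, ∀ ε : ℝ, 0 < ε → ∃ s, sepDist (P n) s ≤ ε) ∧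
    ∃ ε : ℝ, 0 < ε ∧ ε < 1 / 2 ∧
      ¬ Tendsto (fun n => (tSep (P n) ε : ℝ) / (tSep (P n) (1 - ε) : ℝ)) atTop (𝓝 1) := by
  have hne : ∀ n, ∀ ε : ℝ, 0 < ε → ∃ s, sepDist (P n) s ≤ ε := by
    intro n ε hε
    obtain ⟨t, ht⟩ := h3 n (min (ε / 4) (1 / 2)) (by positivity)
    refine ⟨2 * t, sepDist_le (fun x y => ?_)⟩
    refine (sep_le (P n) (hsym n) t (min (ε / 4) (1 / 2)) (min_le_right _ _) ht (hrow n t)
      (hnn n t) x y).trans ?_
    have := min_le_left (ε / 4) (1 / 2)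
    linarith
  have hlow : ∀ n, ∀ t ≤ 20 * (n + 10), (1 / 2 : ℝ) ^ 20 ≤ sepDist (P n) t := by
    intro n t ht
    obtain ⟨x⟩ := (inferInstance : Nonempty (V n))
    obtain ⟨y, hy⟩ := h7 n t ht x
    refine le_trans ?_ (sep_le_dist (P n) t x y)
    rw [div_div_eq_mul_div, div_one, mul_comm]
    linarith
  have hupp : ∀ n, sepDist (P n) (2 * (4 * (n + 10 + 2))) ≤ 4 / 5 := by
    intro n
    refine sepDist_le (fun x y => ?_)
    refine (sep_le (P n) (hsym n) (4 * (n + 10 + 2)) (1 / 5) (by norm_num) (h2 n) (hrow n _)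
      (hnn n _) x y).trans (by norm_num)
  refine ⟨hne, 1 / 10 ^ 7, by norm_num, by norm_num, ?_⟩
  intro hlim
  have hev : ∀ᶠ n : ℕ in atTop,
      (3 / 2 : ℝ) ≤ (tSep (P n) (1 / 10 ^ 7) : ℝ) / (tSep (P n) (1 - 1 / 10 ^ 7) : ℝ) := by
    filter_upwards [eventually_ge_atTop 10] with n hn
    have ha : 20 * (n + 10) < tSep (P n) (1 / 10 ^ 7) :=
      lt_tSep (hne n _ (by norm_num))
        (fun s hs => lt_of_lt_of_le (by norm_num) (hlow n s hs))
    have hb : tSep (P n) (1 - 1 / 10 ^ 7) ≤ 2 * (4 * (n + 10 + 2)) :=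
      tSep_le ((hupp n).trans (by norm_num))
    have hc : 0 < tSep (P n) (1 - 1 / 10 ^ 7) := by
      refine lt_tSep (hne n _ (by norm_num)) (fun s hs => ?_)
      obtain rfl : s = 0 := by omega
      -- at time 0 the separation is 1
      by_contra hcon
      push Not at hcon
      obtain ⟨x⟩ := (inferInstance : Nonempty (V n))
      have hd : ∀ y, (1 : ℝ) / 10 ^ 7 ≤ (P n ^ 0) x y / (1 / (Fintype.card (V n) : ℝ)) := by
        intro y
        have := (sep_le_dist (P n) 0 x y).trans hcon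
        linarith
      obtain ⟨y, hy⟩ := h7 n 0 (by omega) x
      -- every entry of the row is positive, so `V n` is a singleton
      have hsing : ∀ y, y = x := by
        intro y
        by_contra hyx
        have := hd y
        rw [pow_zero, Matrix.one_apply_ne (Ne.symm hyx)] at this
        norm_num at this
      have hcard : Fintype.card (V n) = 1 := by
        rw [Fintype.card_eq_one_iff]
        exact ⟨x, hsing⟩
      rw [hcard, hsing y, pow_zero, Matrix.one_apply_eq] at hy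
      norm_num at hy
    have hcR : (0 : ℝ) < tSep (P n) (1 - 1 / 10 ^ 7) := by exact_mod_cast hc
    rw [le_div_iff₀ hcR]
    have h9 : 3 * tSep (P n) (1 - 1 / 10 ^ 7) ≤ 2 * tSep (P n) (1 / 10 ^ 7) := by omega
    have h10 : (3 : ℝ) * tSep (P n) (1 - 1 / 10 ^ 7) ≤ 2 * tSep (P n) (1 / 10 ^ 7) := by
      exact_mod_cast h9
    linarith
  have := ge_of_tendsto hlim hev
  norm_num at this

end Pool.Agent.H16.Cut
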