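import Pool.Agent.H16.TG9

set_option autoImplicit false
set_option linter.unusedSectionVars false
open Finset Matrix

namespace Pool.Agent.H16.TG

section heat
variable {V : Type} [Fintype V] [DecidableEq V]

set_option backward.isDefEq.respectTransparency false in
lemma exp_hasSum (A : Matrix V V ℝ) :
    HasSum (fun n : ℕ => ((n.factorial : ℝ)⁻¹) • A ^ n) (NormedSpace.exp A) := by
  open scoped Matrix.Norms.Operator in
  exact NormedSpace.exp_series_hasSum_exp' (𝕂 := ℝ) A

lemma exp_entry (A : Matrix V V ℝ) (x y : V) :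
    HasSum (fun n : ℕ => ((n.factorial : ℝ)⁻¹) * (A ^ n) x y) ((NormedSpace.exp A) x y) := by
  have h := exp_hasSum A
  have h2 := (Pi.hasSum.1 (Pi.hasSum.1 h x) y)
  simpa using h2

lemma exp_shift (M : Matrix V V ℝ) (s : ℝ) :
    NormedSpace.exp (s • (M - 1)) = Real.exp (-s) • NormedSpace.exp (s • M) := by
  have h1 : s • (M - 1) = s • M + (-s) • (1 : Matrix V V ℝ) := by
    rw [smul_sub, neg_smul, sub_eq_add_neg]
  have hc : Commute (s • M) ((-s) • (1 : Matrix V V ℝ)) := by
    unfold Commute SemiconjBy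
    simp
  rw [h1, Matrix.exp_add_of_commute _ _ hc]
  have h2 : (-s) • (1 : Matrix V V ℝ) = Matrix.diagonal (fun _ => -s) := by
    rw [← Matrix.diagonal_one, ← Matrix.diagonal_smul]
    congr 1
    funext x
    simp
  have h3 : NormedSpace.exp ((-s) • (1 : Matrix V V ℝ)) = Real.exp (-s) • (1 : Matrix V V ℝ) := by
    rw [h2, Matrix.exp_diagonal, ← Matrix.diagonal_one, ← Matrix.diagonal_smul]
    congr 1
    funext x
    rw [Pi.coe_exp]
    simp [Real.exp_eq_exp_ℝ]
  rw [h3]
  simp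

/-- Poissonisation -/
lemma heat_entry (M : Matrix V V ℝ) (s : ℝ) (x y : V) :
    HasSum (fun n : ℕ => Real.exp (-s) * (s ^ n / n.factorial) * (M ^ n) x y)
      ((NormedSpace.exp (s • (M - 1))) x y) := by
  rw [exp_shift]
  have h := (exp_entry (s • M) x y).mul_left (Real.exp (-s))
  simp only [Matrix.smul_apply, smul_eq_mul]
  have e : (fun n : ℕ => Real.exp (-s) * (s ^ n / n.factorial) * (M ^ n) x y) =
      fun i : ℕ => Real.exp (-s) * ((i.factorial : ℝ)⁻¹ * ((s • M) ^ i) x y) := by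
    funext n
    rw [smul_pow, Matrix.smul_apply, smul_eq_mul]
    ring
  rw [e]
  exact h

lemma pois (s q : ℝ) : HasSum (fun n : ℕ => Real.exp (-s) * (s ^ n / n.factorial) * q ^ n)
    (Real.exp (-(1 - q) * s)) := by
  have h := (NormedSpace.expSeries_div_hasSum_exp (q * s)).mul_left (Real.exp (-s))
  rw [← Real.exp_eq_exp_ℝ, ← Real.exp_add] at h
  have e : -s + q * s = -(1 - q) * s := by ring
  rw [e] at h
  have e2 : (fun n : ℕ => Real.exp (-s) * (s ^ n / n.factorial) * q ^ n) =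
      fun i : ℕ => Real.exp (-s) * ((q * s) ^ i / (i.factorial : ℝ)) := by
    funext n
    rw [mul_pow]
    ring
  rw [e2]
  exact h

/-- upper bound for the heat kernel from bounds on powers -/
lemma heat_upper (M : Matrix V V ℝ) (θ : ℝ)
    (x : V) (hU : ∀ n : ℕ, 1 / 2 * ∑ y, |(M ^ n) x y - 1 / (Fintype.card V : ℝ)| ≤
      (1 - θ) ^ n + (1 / 2) ^ n) (s : ℝ) (hs : 0 ≤ s) :
    1 / 2 * ∑ y, |(NormedSpace.exp (s • (M - 1))) x y - 1 / (Fintype.card V : ℝ)| ≤
      Real.exp (-θ * s) + Real.exp (-(s / 2)) := by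
  set N : ℝ := (Fintype.card V : ℝ) with hN
  set w : ℕ → ℝ := fun n => Real.exp (-s) * (s ^ n / n.factorial) with hw
  have hw0 : ∀ n, 0 ≤ w n := fun n => by simp only [hw]; positivity
  have hw1 : HasSum w 1 := by
    have := pois s 1
    simpa [hw] using this
  have h1 : ∀ y, HasSum (fun n => w n * ((M ^ n) x y - 1 / N))
      ((NormedSpace.exp (s • (M - 1))) x y - 1 / N) := by
    intro y
    have ha := (heat_entry M s x y).sub (hw1.mul_right (1 / N))
    rw [one_mul] at ha
    have e : (fun n => w n * ((M ^ n) x y - 1 / N)) =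
        fun n => Real.exp (-s) * (s ^ n / n.factorial) * (M ^ n) x y - w n * (1 / N) := by
      funext n
      simp only [hw]
      ring
    rw [e]
    exact ha
  have hub : HasSum (fun n => w n * ((1 - θ) ^ n + (1 / 2) ^ n))
      (Real.exp (-θ * s) + Real.exp (-(s / 2))) := by
    have ha := (pois s (1 - θ)).add (pois s (1 / 2))
    have e1 : -(1 - (1 - θ)) * s = -θ * s := by ring
    have e2 : -(1 - 1 / 2) * s = -(s / 2) := by ring
    rw [e1, e2] at ha
    have e : (fun n => w n * ((1 - θ) ^ n + (1 / 2) ^ n)) =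
        fun n => Real.exp (-s) * (s ^ n / n.factorial) * (1 - θ) ^ n +
          Real.exp (-s) * (s ^ n / n.factorial) * (1 / 2) ^ n := by
      funext n
      simp only [hw]
      ring
    rw [e]
    exact ha
  have hbd : ∀ n y, |(M ^ n) x y - 1 / N| ≤ 2 * ((1 - θ) ^ n + (1 / 2) ^ n) := by
    intro n y
    have ha := hU n
    have hb : |(M ^ n) x y - 1 / N| ≤ ∑ y, |(M ^ n) x y - 1 / N| :=
      Finset.single_le_sum (f := fun y => |(M ^ n) x y - 1 / N|) (fun _ _ => abs_nonneg _)
        (mem_univ y)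
    linarith
  have hsum : ∀ y, Summable (fun n => |w n * ((M ^ n) x y - 1 / N)|) := by
    intro y
    refine Summable.of_nonneg_of_le (fun n => abs_nonneg _) (fun n => ?_) (hub.summable.mul_left 2)
    rw [abs_mul, abs_of_nonneg (hw0 n)]
    have := hbd n y
    have := hw0 n
    nlinarith
  have hle : ∀ y, |(NormedSpace.exp (s • (M - 1))) x y - 1 / N| ≤
      ∑' n, |w n * ((M ^ n) x y - 1 / N)| := by
    intro y
    rw [← (h1 y).tsum_eq]
    exact norm_tsum_le_tsum_norm (f := fun n => w n * ((M ^ n) x y - 1 / N)) (hsum y)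
  calc 1 / 2 * ∑ y, |(NormedSpace.exp (s • (M - 1))) x y - 1 / N|
      ≤ 1 / 2 * ∑ y, ∑' n, |w n * ((M ^ n) x y - 1 / N)| := by
        gcongr with y _
        exact hle y
    _ = ∑' n, 1 / 2 * ∑ y, |w n * ((M ^ n) x y - 1 / N)| := by
        rw [← Summable.tsum_finsetSum (fun y _ => hsum y), tsum_mul_left]
    _ ≤ ∑' n, w n * ((1 - θ) ^ n + (1 / 2) ^ n) := by
        refine Summable.tsum_le_tsum (fun n => ?_) ?_ hub.summable
        · have ha := hU n
          have hb : ∑ y, |w n * ((M ^ n) x y - 1 / N)| =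
              w n * ∑ y, |(M ^ n) x y - 1 / N| := by
            rw [Finset.mul_sum]
            refine Finset.sum_congr rfl (fun y _ => ?_)
            rw [abs_mul, abs_of_nonneg (hw0 n)]
          rw [hb]
          have := hw0 n
          nlinarith
        · exact (summable_sum (fun y _ => hsum y)).mul_left (1 / 2)
    _ = _ := hub.tsum_eq

/-- lower bound for the heat kernel mass of a set -/
lemma heat_lower (M : Matrix V V ℝ) (hnn : ∀ (n : ℕ) x y, 0 ≤ (M ^ n) x y) (θ : ℝ) (h0 : 0 ≤ θ)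
    (h1 : θ ≤ 1) (n0 : ℕ) (x : V) (R : Finset V)
    (hR : ∀ m ≤ n0, (1 - θ) ^ m ≤ ∑ y ∈ R, (M ^ m) x y) (s : ℝ) (hs : 0 ≤ s) :
    Real.exp (-θ * s) - (1 / 2) ^ n0 * Real.exp s ≤
      ∑ y ∈ R, (NormedSpace.exp (s • (M - 1))) x y := by
  have hub : HasSum (fun n => Real.exp (-s) * (s ^ n / n.factorial) *
      ((1 - θ) ^ n - (1 / 2) ^ n0 * 2 ^ n)) (Real.exp (-θ * s) - (1 / 2) ^ n0 * Real.exp s) := by
    have ha := (pois s (1 - θ)).sub ((pois s 2).mul_left ((1 / 2) ^ n0))
    have e1 : -(1 - (1 - θ)) * s = -θ * s := by ring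
    have e2 : -(1 - (2 : ℝ)) * s = s := by ring
    rw [e1, e2] at ha
    have e : (fun n : ℕ => Real.exp (-s) * (s ^ n / n.factorial) *
        ((1 - θ) ^ n - (1 / 2) ^ n0 * 2 ^ n)) =
        fun n : ℕ => Real.exp (-s) * (s ^ n / n.factorial) * (1 - θ) ^ n -
          (1 / 2) ^ n0 * (Real.exp (-s) * (s ^ n / n.factorial) * 2 ^ n) := by
      funext n
      ring
    rw [e]
    exact ha
  have h2 : HasSum (fun n => ∑ y ∈ R, Real.exp (-s) * (s ^ n / n.factorial) * (M ^ n) x y)
      (∑ y ∈ R, (NormedSpace.exp (s • (M - 1))) x y) :=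
    hasSum_sum (fun y _ => heat_entry M s x y)
  refine hasSum_le (fun n => ?_) hub h2
  rw [← Finset.mul_sum]
  refine mul_le_mul_of_nonneg_left ?_ (by positivity)
  by_cases hn : n ≤ n0
  · have := hR n hn
    have : (0 : ℝ) ≤ (1 / 2) ^ n0 * 2 ^ n := by positivity
    linarith
  · push Not at hn
    have h3 : (1 - θ) ^ n ≤ 1 := pow_le_one₀ (by linarith) (by linarith)
    have h4 : (1 : ℝ) ≤ (1 / 2) ^ n0 * 2 ^ n := by
      obtain ⟨k, rfl⟩ := Nat.exists_eq_add_of_lt hn
      rw [add_assoc, pow_add, ← mul_assoc, ← mul_pow]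
      norm_num
      exact one_le_pow₀ (by norm_num)
    have h5 : 0 ≤ ∑ y ∈ R, (M ^ n) x y := Finset.sum_nonneg (fun y _ => hnn n x y)
    linarith

lemma heat_row (M : Matrix V V ℝ) (hrow : ∀ (n : ℕ) x, ∑ y, (M ^ n) x y = 1) (s : ℝ) (x : V) :
    ∑ y, (NormedSpace.exp (s • (M - 1))) x y = 1 := by
  have h2 : HasSum (fun n => ∑ y, Real.exp (-s) * (s ^ n / n.factorial) * (M ^ n) x y)
      (∑ y, (NormedSpace.exp (s • (M - 1))) x y) :=
    hasSum_sum (fun y _ => heat_entry M s x y)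
  have h3 : HasSum (fun n : ℕ => Real.exp (-s) * (s ^ n / n.factorial)) 1 := by
    have := pois s 1
    simpa using this
  refine h2.unique ?_
  have e : (fun n : ℕ => ∑ y, Real.exp (-s) * (s ^ n / n.factorial) * (M ^ n) x y) =
      fun n : ℕ => Real.exp (-s) * (s ^ n / n.factorial) := by
    funext n
    rw [← Finset.mul_sum, hrow, mul_one]
  rw [e]
  exact h3

end heat

end Pool.Agent.H16.TG
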