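import Pool.Agent.H16.TG11
import Pool.Agent.H16.TG10
import Pool.Agent.H16.CTDefs

set_option autoImplicit false
set_option linter.unusedSectionVars false
open Finset Matrix

namespace Pool.Agent.H16.TG

section grp
variable {G : Type} [AddCommGroup G] [Fintype G] [DecidableEq G]

lemma walk_shift (S : Finset G) (x y : G) : walk S x y = walk S 0 (y - x) := by
  unfold walk
  rw [sub_zero]

lemma walk_pow_shift (S : Finset G) (n : ℕ) : ∀ x y : G,
    (walk S ^ n) x y = (walk S ^ n) 0 (y - x) := by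
  induction n with
  | zero =>
    intro x y
    rw [pow_zero, Matrix.one_apply, Matrix.one_apply]
    have : (x = y) ↔ (0 = y - x) := by
      rw [eq_comm (a := (0 : G)), sub_eq_zero, eq_comm]
    simp only [this]
  | succ n ih =>
    intro x y
    rw [pow_succ, Matrix.mul_apply, Matrix.mul_apply]
    rw [← Equiv.sum_comp (Equiv.subRight x) (fun z => (walk S ^ n) 0 z * walk S z (y - x))]
    refine Finset.sum_congr rfl (fun z _ => ?_)
    rw [ih x z, walk_shift S z y]
    simp only [Equiv.subRight_apply]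
    rw [walk_shift S (z - x) (y - x)]
    congr 2
    abel

lemma hk_shift (S : Finset G) (s : ℝ) (x y : G) :
    (NormedSpace.exp (s • (walk S - 1))) x y = (NormedSpace.exp (s • (walk S - 1))) 0 (y - x) := by
  have h1 := heat_entry (walk S) s x y
  have h2 := heat_entry (walk S) s 0 (y - x)
  simp only [walk_pow_shift S _ x y] at h1
  exact h1.unique h2

lemma tv_shift (S : Finset G) (s : ℝ) (x : G) :
    tv (NormedSpace.exp (s • (walk S - 1))) x = tv (NormedSpace.exp (s • (walk S - 1))) 0 := by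
  unfold tv
  congr 1
  rw [← Equiv.sum_comp (Equiv.subRight x)
    (fun y => |(NormedSpace.exp (s • (walk S - 1))) 0 y - 1 / (Fintype.card G : ℝ)|)]
  refine Finset.sum_congr rfl (fun y _ => ?_)
  rw [hk_shift]
  simp

end grp

lemma W_zero {V : Type} [Fintype V] [DecidableEq V] (M : Matrix V V ℝ) : W 0 M = M := by
  unfold W; simp

/-- The continuous-time family -/
theorem cont (j : ℕ) (hj : 10 ≤ j) :
    ∃ (G : Type) (_ : AddCommGroup G) (_ : Fintype G) (_ : DecidableEq G) (S : Finset G),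
      (∀ s ∈ S, -s ∈ S) ∧ (0 : G) ∉ S ∧ (∀ g : G, ∃ a ∈ S, ∃ b ∈ S, g = a + b) ∧
      j ≤ Fintype.card G ∧
      (∀ x, tv (NormedSpace.exp ((2 * ((j : ℝ) + 2)) • (walk S - 1))) x ≤ 1 / 4) ∧
      (∀ s : ℝ, 0 ≤ s → s ≤ 20 * j → ∀ x,
        Real.exp (-(s / j)) - 1 / 100 ≤ tv (NormedSpace.exp (s • (walk S - 1))) x) ∧
      (∀ (f : G → ℂ) (lam : ℂ), f ≠ 0 → walkC S *ᵥ f = lam • f →
        ‖lam‖ ≤ 1 / 2 ∨ (lam = 1 ∧ ∑ x, f x ≠ 0)) := by
  obtain ⟨G, i1, i2, i3, S, θ, hsym, h0, hgen, hcard, ht1, ht2, hU, hR, hsep, hspec⟩ := family j hj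
  have hjR : (10 : ℝ) ≤ j := by exact_mod_cast hj
  have hθ0 : 0 < θ := lt_of_lt_of_le (by positivity) ht1
  have hθ1 : θ ≤ 1 / 10 := ht2.trans (by
    rw [div_le_div_iff₀ (by linarith) (by norm_num)]; linarith)
  have hS : S.Nonempty := by
    obtain ⟨a, ha, -⟩ := hgen 0
    exact ⟨a, ha⟩
  have hrow : ∀ (n : ℕ) x, ∑ y, (walk S ^ n) x y = 1 := by
    intro n x
    rw [pow_row (walk_row S hS)]
    simp
  have hnn : ∀ (n : ℕ) x y, 0 ≤ (walk S ^ n) x y := by
    intro n x y
    exact (pow_mono (walk_nonneg S) (fun _ _ => le_rfl) n x y).1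
  have e2 : Real.exp (-2) ≤ 1 / 5 := by
    have h1 : (1 + 2 + 2 : ℝ) ≤ Real.exp 2 := by
      have := Real.quadratic_le_exp_of_nonneg (x := 2) (by norm_num)
      linarith
    rw [Real.exp_neg, ← one_div]
    exact one_div_le_one_div_of_le (by norm_num) (by linarith)
  refine ⟨G, i1, i2, i3, S, hsym, h0, hgen, hcard, ?_, ?_, hspec⟩
  · intro x
    have h1 := heat_upper (walk S) θ x (fun n => by
      have := hU 0 le_rfl zero_le_one n x
      rw [W_zero] at this
      simpa using this) (2 * ((j : ℝ) + 2)) (by positivity)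
    have h2 : Real.exp (-θ * (2 * ((j : ℝ) + 2))) ≤ Real.exp (-2) := by
      apply Real.exp_le_exp.2
      have : 1 ≤ ((j : ℝ) + 2) * θ := by
        calc (1 : ℝ) = ((j : ℝ) + 2) * (1 / ((j : ℝ) + 2)) := by field_simp
          _ ≤ ((j : ℝ) + 2) * θ := by gcongr
      nlinarith
    have h3 : Real.exp (-(2 * ((j : ℝ) + 2) / 2)) ≤ (1 / 5) ^ 6 := by
      calc Real.exp (-(2 * ((j : ℝ) + 2) / 2)) ≤ Real.exp (((6 : ℕ) : ℝ) * (-2)) := by
            apply Real.exp_le_exp.2
            push_cast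
            linarith
        _ = Real.exp (-2) ^ 6 := by rw [Real.exp_nat_mul]
        _ ≤ (1 / 5) ^ 6 := pow_le_pow_left₀ (Real.exp_pos _).le e2 6
    have h4 : (1 / 5 : ℝ) + (1 / 5) ^ 6 ≤ 1 / 4 := by norm_num
    unfold tv
    linarith
  · intro s hs0 hs x
    obtain ⟨R, hR1, hR2⟩ := hR 0 le_rfl zero_le_one (50 * j) le_rfl x
    have h1 := heat_lower (walk S) hnn θ hθ0.le (by linarith) (50 * j) x R (fun m hm => by
      have := hR2 m hm
      rw [W_zero] at this
      simpa using this) s hs0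
    have : Nonempty G := ⟨0⟩
    have h2 := tv_lower (NormedSpace.exp (s • (walk S - 1))) x (heat_row _ hrow s x) R
    have h3 : Real.exp (-(s / j)) ≤ Real.exp (-θ * s) := by
      apply Real.exp_le_exp.2
      have : θ * s ≤ 1 / j * s := by gcongr
      have e : 1 / (j : ℝ) * s = s / j := by ring
      linarith
    have h4 : (1 / 2 : ℝ) ^ (50 * j) * Real.exp s ≤ 1 / 1000 := by
      have e1 : Real.exp 1 ≤ 4 := by
        have := Real.exp_one_lt_d9
        linarith
      have h5 : Real.exp s ≤ 2 ^ (40 * j) := by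
        calc Real.exp s ≤ Real.exp (((20 * j : ℕ) : ℝ) * 1) := by
              apply Real.exp_le_exp.2
              push_cast
              linarith
          _ = Real.exp 1 ^ (20 * j) := by rw [Real.exp_nat_mul]
          _ ≤ 4 ^ (20 * j) := pow_le_pow_left₀ (Real.exp_pos _).le e1 _
          _ = 2 ^ (40 * j) := by
              rw [show (4 : ℝ) = 2 ^ 2 by norm_num, ← pow_mul]
              congr 1
              ring
      calc (1 / 2 : ℝ) ^ (50 * j) * Real.exp s ≤ (1 / 2) ^ (50 * j) * 2 ^ (40 * j) := by gcongr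
        _ = (1 / 2) ^ (10 * j) * ((1 / 2) ^ (40 * j) * 2 ^ (40 * j)) := by
            rw [← mul_assoc, ← pow_add]
            congr 2
            ring
        _ = (1 / 2) ^ (10 * j) := by rw [← mul_pow]; norm_num
        _ ≤ (1 / 2) ^ 10 := pow_le_pow_of_le_one (by norm_num) (by norm_num) (by omega)
        _ ≤ 1 / 1000 := by norm_num
    linarith

/-- existence of a nonzero eigenvalue -/
lemma exists_eig {V : Type} [Fintype V] [DecidableEq V] (A : Matrix V V ℝ) (hA : A.IsSymm)
    (h : A ≠ 0) : ∃ r : ℝ, r ≠ 0 ∧ ∃ f : V → ℝ, f ≠ 0 ∧ A *ᵥ f = r • f := by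
  have hH : A.IsHermitian := by
    unfold Matrix.IsHermitian
    rw [Matrix.conjTranspose_eq_transpose_of_trivial]
    exact hA
  have h1 : hH.eigenvalues ≠ 0 := fun h0 => h (hH.eigenvalues_eq_zero_iff.1 h0)
  obtain ⟨i, hi⟩ := Function.ne_iff.1 h1
  refine ⟨hH.eigenvalues i, hi, ⇑(hH.eigenvectorBasis i), ?_, hH.mulVec_eigenvectorBasis i⟩
  intro h0
  have h2 := hH.eigenvectorBasis.toBasis.ne_zero i
  apply h2
  ext j
  have := congrFun h0 j
  simpa using this

end Pool.Agent.H16.TG
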