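import Pool.Agent.H16.TG12

set_option autoImplicit false
set_option linter.unusedSectionVars false
open Finset Matrix Filter Topology

namespace Pool.Agent.H16.CT

open Pool.Agent.H16.TG

/-- uniform distribution -/
noncomputable def unif (V : Type) [Fintype V] : V → ℝ := fun _ => 1 / (Fintype.card V : ℝ)

section one
variable {G : Type} [AddCommGroup G] [Fintype G] [DecidableEq G]

/-- the generator -/
noncomputable def QQ (S : Finset G) : Matrix G G ℝ := walk S - 1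

lemma dist_eq (S : Finset G) (x : G) (t : ℝ) :
    dist (QQ S) (unif G) x t = tv (NormedSpace.exp (t • (walk S - 1))) x := rfl

lemma dist_shift (S : Finset G) (x : G) (t : ℝ) :
    dist (QQ S) (unif G) x t = dist (QQ S) (unif G) 0 t := by
  rw [dist_eq, dist_eq, tv_shift]

lemma tau_shift (S : Finset G) (x : G) : tau (QQ S) (unif G) x = tau (QQ S) (unif G) 0 := by
  unfold tau
  congr 1
  ext t
  simp only [Set.mem_ofPred_eq, dist_shift S x t]

lemma mass_univ' : mass (unif G) Set.univ = 1 := by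
  unfold mass
  simp only [Set.indicator_univ, unif]
  rw [Finset.sum_const, card_univ, nsmul_eq_mul]
  have : (Fintype.card G : ℝ) ≠ 0 := TG.cardpos.ne'
  field_simp

lemma mass_empty' : mass (unif G) ∅ = 0 := by
  unfold mass
  simp

lemma mass_const (p : Prop) [Decidable p] : mass (unif G) {_x : G | p} = if p then 1 else 0 := by
  by_cases h : p
  · have : {_x : G | p} = Set.univ := by ext; simp [h]
    rw [this, mass_univ', if_pos h]
  · have : {_x : G | p} = ∅ := by ext; simp [h]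
    rw [this, mass_empty', if_neg h]

lemma median_iff (S : Finset G) (m : ℝ) :
    IsMedian (QQ S) (unif G) m ↔ m = tau (QQ S) (unif G) 0 := by
  classical
  unfold IsMedian
  simp only [tau_shift S]
  rw [mass_const, mass_const]
  constructor
  · rintro ⟨h1, h2⟩
    by_cases h3 : tau (QQ S) (unif G) 0 ≤ m
    · by_cases h4 : m ≤ tau (QQ S) (unif G) 0
      · exact le_antisymm h4 h3
      · rw [if_neg h4] at h2; norm_num at h2
    · rw [if_neg h3] at h1; norm_num at h1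
  · rintro rfl
    simp
    norm_num

lemma tau_bounds (S : Finset G) (j : ℕ) (hj : 10 ≤ j)
    (h1 : ∀ x, tv (NormedSpace.exp ((2 * ((j : ℝ) + 2)) • (walk S - 1))) x ≤ 1 / 4)
    (h2 : ∀ s : ℝ, 0 ≤ s → s ≤ 20 * j → ∀ x,
        Real.exp (-(s / j)) - 1 / 100 ≤ tv (NormedSpace.exp (s • (walk S - 1))) x) (x : G) :
    {t : ℝ | 0 ≤ t ∧ dist (QQ S) (unif G) x t ≤ 1 / 4}.Nonempty ∧
    (j : ℝ) ≤ tau (QQ S) (unif G) x ∧ tau (QQ S) (unif G) x ≤ 2 * ((j : ℝ) + 2) := by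
  have hjR : (10 : ℝ) ≤ j := by exact_mod_cast hj
  have hne : (2 * ((j : ℝ) + 2)) ∈ {t : ℝ | 0 ≤ t ∧ dist (QQ S) (unif G) x t ≤ 1 / 4} :=
    ⟨by positivity, h1 x⟩
  have hbdd : BddBelow {t : ℝ | 0 ≤ t ∧ dist (QQ S) (unif G) x t ≤ 1 / 4} := ⟨0, fun t ht => ht.1⟩
  refine ⟨⟨_, hne⟩, ?_, csInf_le hbdd hne⟩
  refine le_csInf ⟨_, hne⟩ ?_
  rintro t ⟨ht0, ht⟩
  by_contra hlt
  push Not at hlt
  have h3 := h2 t ht0 (by linarith) x
  rw [dist_eq] at ht
  have h4 : Real.exp (-1) ≤ Real.exp (-(t / j)) := by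
    apply Real.exp_le_exp.2
    have : t / j ≤ 1 := by rw [div_le_one (by linarith)]; exact hlt.le
    linarith
  have h5 : (1 / 3 : ℝ) ≤ Real.exp (-1) := by
    rw [Real.exp_neg, ← one_div]
    apply one_div_le_one_div_of_le (Real.exp_pos 1)
    have := Real.exp_one_lt_d9
    linarith
  linarith

lemma late (S : Finset G) (j : ℕ) (hj : 10 ≤ j)
    (h1 : ∀ x, tv (NormedSpace.exp ((2 * ((j : ℝ) + 2)) • (walk S - 1))) x ≤ 1 / 4)
    (h2 : ∀ s : ℝ, 0 ≤ s → s ≤ 20 * j → ∀ x,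
        Real.exp (-(s / j)) - 1 / 100 ≤ tv (NormedSpace.exp (s • (walk S - 1))) x) (x : G) :
    1 / 40 ≤ dist (QQ S) (unif G) x ((1 + 1 / 40) * tau (QQ S) (unif G) 0) := by
  have hjR : (10 : ℝ) ≤ j := by exact_mod_cast hj
  obtain ⟨-, ha, hb⟩ := tau_bounds S j hj h1 h2 0
  set t := tau (QQ S) (unif G) 0
  have ht0 : 0 ≤ t := by linarith
  have h3 := h2 ((1 + 1 / 40) * t) (by positivity) (by nlinarith) x
  rw [dist_eq]
  refine le_trans ?_ h3
  have h4 : Real.exp (-3) ≤ Real.exp (-((1 + 1 / 40) * t / j)) := by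
    apply Real.exp_le_exp.2
    have : (1 + 1 / 40) * t / j ≤ 3 := by
      rw [div_le_iff₀ (by linarith)]
      nlinarith
    linarith
  have h5 : (1 / 25 : ℝ) ≤ Real.exp (-3) := by
    have e1 : Real.exp 3 ≤ 25 := by
      have h6 : Real.exp 3 = Real.exp 1 ^ 3 := by
        rw [← Real.exp_nat_mul]; norm_num
      rw [h6]
      have h7 := Real.exp_one_lt_d9
      calc Real.exp 1 ^ 3 ≤ (2.7182818286 : ℝ) ^ 3 :=
            pow_le_pow_left₀ (Real.exp_pos _).le h7.le 3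
        _ ≤ 25 := by norm_num
    rw [Real.exp_neg, ← one_div]
    exact one_div_le_one_div_of_le (Real.exp_pos 3) e1
  have : (1 : ℝ) / 40 + 1 / 100 ≤ 1 / 25 := by norm_num
  linarith

lemma mulVec_C (S : Finset G) (f : G → ℂ) (z : ℂ)
    (h : ((-(QQ S)).map (fun a : ℝ => (a : ℂ))) *ᵥ f = z • f) : walkC S *ᵥ f = (1 - z) • f := by
  have h1 : (-(QQ S)).map (fun a : ℝ => (a : ℂ)) = 1 - walkC S := by
    ext x y
    simp only [QQ, walkC, Matrix.map_apply, Matrix.neg_apply, Matrix.sub_apply, walk,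
      Matrix.one_apply]
    split_ifs <;> push_cast <;> ring
  rw [h1, Matrix.sub_mulVec, Matrix.one_mulVec] at h
  rw [sub_smul, one_smul, ← h]
  abel

lemma gap_elt (S : Finset G)
    (h : ∀ (f : G → ℂ) (lam : ℂ), f ≠ 0 → walkC S *ᵥ f = lam • f →
        ‖lam‖ ≤ 1 / 2 ∨ (lam = 1 ∧ ∑ x, f x ≠ 0)) (f : G → ℂ) (hf : f ≠ 0) (z : ℂ) (hz : z ≠ 0)
    (he : ((-(QQ S)).map (fun a : ℝ => (a : ℂ))) *ᵥ f = z • f) : 1 / 2 ≤ z.re := by
  rcases h f (1 - z) hf (mulVec_C S f z he) with h1 | h1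
  · have h2 := (Complex.abs_re_le_norm (1 - z)).trans h1
    rw [Complex.sub_re, Complex.one_re] at h2
    have := (abs_le.1 h2).2
    linarith
  · exact absurd (by linear_combination -h1.1) hz

lemma real_to_C (S : Finset G) (f : G → ℝ) (r : ℝ) (h : (-(QQ S)) *ᵥ f = r • f) :
    ((-(QQ S)).map (fun a : ℝ => (a : ℂ))) *ᵥ (fun x => (f x : ℂ)) =
      (r : ℂ) • (fun x => (f x : ℂ)) := by
  funext x
  have h1 := congrFun h x
  simp only [Matrix.mulVec, dotProduct, Pi.smul_apply, smul_eq_mul, Matrix.map_apply] at h1 ⊢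
  have h3 := congrArg (fun z : ℝ => (z : ℂ)) h1
  rw [Complex.ofReal_mul] at h3
  rw [← h3, Complex.ofReal_sum]
  refine Finset.sum_congr rfl (fun y _ => ?_)
  push_cast
  ring

lemma ofReal_ne {f : G → ℝ} (hf : f ≠ 0) : (fun x => (f x : ℂ)) ≠ 0 := by
  intro h0
  apply hf
  funext x
  have := congrFun h0 x
  simpa using this

lemma walk_symm (S : Finset G) (hS : ∀ s ∈ S, -s ∈ S) : (walk S).IsSymm := by
  apply Matrix.IsSymm.ext
  intro x y
  have h1 : (x - y ∈ S) ↔ (y - x ∈ S) := by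
    constructor
    · intro h; have := hS _ h; simpa using this
    · intro h; have := hS _ h; simpa using this
  simp only [walk, h1]

lemma exists_eig' (S : Finset G) (hS : ∀ s ∈ S, -s ∈ S) (h0 : (0 : G) ∉ S) :
    ∃ r : ℝ, r ≠ 0 ∧ ∃ f : G → ℝ, f ≠ 0 ∧ (-(QQ S)) *ᵥ f = r • f := by
  refine exists_eig _ ?_ ?_
  · unfold QQ
    exact ((walk_symm S hS).sub (Matrix.isSymm_one)).neg
  · intro h
    have := congrFun (congrFun h 0) 0
    simp [QQ, walk, h0] at this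

lemma gapR_ge (S : Finset G) (hS : ∀ s ∈ S, -s ∈ S) (h0 : (0 : G) ∉ S)
    (h : ∀ (f : G → ℂ) (lam : ℂ), f ≠ 0 → walkC S *ᵥ f = lam • f →
        ‖lam‖ ≤ 1 / 2 ∨ (lam = 1 ∧ ∑ x, f x ≠ 0)) : 1 / 2 ≤ gapR (QQ S) := by
  refine le_csInf (exists_eig' S hS h0) ?_
  rintro r ⟨hr, f, hf, he⟩
  have := gap_elt S h _ (ofReal_ne hf) (r : ℂ) (by exact_mod_cast hr) (real_to_C S f r he)
  simpa using this

lemma gapC_ge (S : Finset G) (hS : ∀ s ∈ S, -s ∈ S) (h0 : (0 : G) ∉ S)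
    (h : ∀ (f : G → ℂ) (lam : ℂ), f ≠ 0 → walkC S *ᵥ f = lam • f →
        ‖lam‖ ≤ 1 / 2 ∨ (lam = 1 ∧ ∑ x, f x ≠ 0)) : 1 / 2 ≤ gapC (QQ S) := by
  refine le_csInf ?_ ?_
  · obtain ⟨r, hr, f, hf, he⟩ := exists_eig' S hS h0
    exact ⟨r, (r : ℂ), by exact_mod_cast hr, by simp, _, ofReal_ne hf, real_to_C S f r he⟩
  · rintro r ⟨z, hz, rfl, f, hf, he⟩
    exact gap_elt S h f hf z hz he

end one

/-- no cutoff from a typical start -/
theorem ct_no_cutoff (G : ℕ → Type) [∀ n, AddCommGroup (G n)] [∀ n, Fintype (G n)]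
    [∀ n, DecidableEq (G n)] (S : ∀ n, Finset (G n))
    (h1 : ∀ n x, tv (NormedSpace.exp ((2 * (((n + 10 : ℕ) : ℝ) + 2)) • (walk (S n) - 1))) x ≤ 1 / 4)
    (h2 : ∀ n, ∀ s : ℝ, 0 ≤ s → s ≤ 20 * ((n + 10 : ℕ) : ℝ) → ∀ x,
      Real.exp (-(s / ((n + 10 : ℕ) : ℝ))) - 1 / 100 ≤
        tv (NormedSpace.exp (s • (walk (S n) - 1))) x)
    (gap : ℕ → ℝ) (hgap : ∀ n, 1 / 2 ≤ gap n) :
    Tendsto (fun n => tau (QQ (S n)) (unif (G n)) 0 / (1 / gap n)) atTop atTop ∧
    ∃ ε : ℝ, 0 < ε ∧ ε < 1 ∧ ¬ Tendsto (fun n => mass (unif (G n))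
      {x | dist (QQ (S n)) (unif (G n)) x ((1 + ε) * tau (QQ (S n)) (unif (G n)) 0) < ε})
        atTop (𝓝 1) := by
  constructor
  · have hkey : ∀ n : ℕ, (n : ℝ) / 2 ≤ tau (QQ (S n)) (unif (G n)) 0 / (1 / gap n) := by
      intro n
      obtain ⟨-, ha, -⟩ := tau_bounds (S n) (n + 10) (by omega) (h1 n) (h2 n) 0
      have := hgap n
      push_cast at ha
      rw [div_div_eq_mul_div, div_one]
      have : (0 : ℝ) ≤ n := by positivity
      nlinarith
    refine tendsto_atTop_mono hkey ?_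
    exact Filter.Tendsto.atTop_div_const (by norm_num) tendsto_natCast_atTop_atTop
  · refine ⟨1 / 40, by norm_num, by norm_num, ?_⟩
    intro hlim
    have hz : ∀ n, mass (unif (G n)) {x | dist (QQ (S n)) (unif (G n)) x
        ((1 + 1 / 40) * tau (QQ (S n)) (unif (G n)) 0) < 1 / 40} = 0 := by
      intro n
      have : {x | dist (QQ (S n)) (unif (G n)) x
        ((1 + 1 / 40) * tau (QQ (S n)) (unif (G n)) 0) < 1 / 40} = ∅ := by
        ext x
        simp only [Set.mem_ofPred_eq, Set.mem_empty_iff_false, iff_false, not_lt]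
        exact late (S n) (n + 10) (by omega) (h1 n) (h2 n) x
      rw [this, mass_empty']
    simp only [hz] at hlim
    have := tendsto_nhds_unique hlim tendsto_const_nhds
    norm_num at this

end Pool.Agent.H16.CT
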