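import Pool.Agent.H16.TG13

set_option autoImplicit false
set_option linter.unusedSectionVars false
open Finset Matrix Filter Topology

namespace Pool.Agent.H16.CT

open Pool.Agent.H16.TG Pool.Agent.H16.Cut

variable {G : Type} [AddCommGroup G] [Fintype G] [DecidableEq G]

lemma srw_eq (S : Finset G) (hS : ∀ s ∈ S, -s ∈ S) (h0 : (0 : G) ∉ S) :
    srw (cay S hS h0) = QQ S := by
  ext x y
  simp only [srw, QQ, SimpleGraph.adjMatrix_apply, cay_degree, Matrix.sub_apply, walk]
  have e : (cay S hS h0).Adj x y ↔ y - x ∈ S := Iff.rfl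
  simp only [e]
  split_ifs <;> simp

lemma stat_eq (S : Finset G) (hS : ∀ s ∈ S, -s ∈ S) (h0 : (0 : G) ∉ S) (hne : S.Nonempty) :
    statDist (cay S hS h0) = unif G := by
  funext x
  have h1 := (cay S hS h0).sum_degrees_eq_twice_card_edges
  simp only [cay_degree, Finset.sum_const, card_univ, smul_eq_mul] at h1
  have h2 : (Fintype.card G : ℝ) * S.card = 2 * ((cay S hS h0).edgeFinset.card : ℝ) := by
    exact_mod_cast h1
  have h3 : (0 : ℝ) < S.card := by exact_mod_cast hne.card_pos
  have h4 : (0 : ℝ) < Fintype.card G := TG.cardpos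
  rw [statDist, unif, ← h2, cay_degree]
  field_simp

lemma QQ_gen (S : Finset G) (hne : S.Nonempty) : IsGenerator (QQ S) := by
  constructor
  · intro x y hxy
    simp only [QQ, Matrix.sub_apply, Matrix.one_apply_ne hxy, sub_zero]
    exact walk_nonneg S x y
  · intro x
    simp only [QQ, Matrix.sub_apply]
    rw [Finset.sum_sub_distrib, walk_row S hne]
    simp [Matrix.one_apply]

lemma QQ_irr (S : Finset G) (h0 : (0 : G) ∉ S)
    (hgen : ∀ g : G, ∃ a ∈ S, ∃ b ∈ S, g = a + b) : IsIrreducible (QQ S) := by
  intro x y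
  obtain ⟨a, ha, b, hb, hab⟩ := hgen (y - x)
  have hpos : ∀ u v : G, v - u ∈ S → u ≠ v ∧ 0 < QQ S u v := by
    intro u v h
    have hne : u ≠ v := by
      rintro rfl
      rw [sub_self] at h
      exact h0 h
    refine ⟨hne, ?_⟩
    simp only [QQ, Matrix.sub_apply, Matrix.one_apply_ne hne, sub_zero, walk, if_pos h]
    have : (0 : ℝ) < S.card := by exact_mod_cast (Finset.card_pos.2 ⟨_, h⟩)
    positivity
  have h1 := hpos x (x + a) (by simpa using ha)
  have h2 := hpos (x + a) y (by
    have : y - (x + a) = b := by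
      have : y - (x + a) = (y - x) - a := by abel
      rw [this, hab]; abel
    rwa [this])
  refine Relation.ReflTransGen.tail (b := x + a) (Relation.ReflTransGen.single ?_) ?_
  · exact h1
  · exact h2

lemma QQ_stat (S : Finset G) (hne : S.Nonempty) : IsStationary (QQ S) (unif G) := by
  have h4 : (0 : ℝ) < Fintype.card G := TG.cardpos
  refine ⟨fun x => by unfold unif; positivity, ?_, ?_⟩
  · unfold unif
    rw [Finset.sum_const, card_univ, nsmul_eq_mul]
    field_simp
  · funext y
    simp only [Matrix.vecMul, dotProduct, unif, QQ, Matrix.sub_apply, Pi.zero_apply]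
    rw [← Finset.mul_sum, Finset.sum_sub_distrib, walk_col S hne]
    simp [Matrix.one_apply]

end Pool.Agent.H16.CT
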