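import Pool.Agent.H16.TG1

set_option autoImplicit false
set_option linter.unusedSectionVars false
open Finset Matrix
open scoped Kronecker

namespace Pool.Agent.H16.TG

attribute [local instance] Matrix.linftyOpNormedAddCommGroup Matrix.linftyOpNormedSpace
  Matrix.linftyOpNormedRing Matrix.linftyOpNormedAlgebra

variable {H L : Type} [AddCommGroup H] [Fintype H] [DecidableEq H]
  [AddCommGroup L] [Fintype L] [DecidableEq L]

noncomputable def cc (A : Finset H) (L : Type) [Fintype L] : ℝ :=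
  th A L - (1 - th A L) / ((Fintype.card L : ℝ) - 1)

noncomputable def X (A : Finset H) (e : L) : Matrix (H × L) (H × L) ℝ :=
  (1 - th A L) • (walk A ⊗ₖ B e)

noncomputable def Y (A : Finset H) (e : L) : Matrix (H × L) (H × L) ℝ :=
  cc A L • ((1 : Matrix H H ℝ) ⊗ₖ E e)

noncomputable def Z1 (H L : Type) [Fintype H] [DecidableEq H] [DecidableEq L] :
    Matrix (H × L) (H × L) ℝ := 1 - (J H ⊗ₖ (1 : Matrix L L ℝ))

noncomputable def Z2 (H L : Type) [Fintype H] [Fintype L] [DecidableEq L] :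
    Matrix (H × L) (H × L) ℝ := J H ⊗ₖ (1 - J L)

lemma J_prod : J (H × L) = J H ⊗ₖ J L := by
  ext ⟨x, k⟩ ⟨y, l⟩
  simp only [J, Matrix.kroneckerMap_apply, Fintype.card_prod]
  push_cast
  rw [one_div_mul_one_div]

lemma Z_add : (1 : Matrix (H × L) (H × L) ℝ) - J (H × L) = Z1 H L + Z2 H L := by
  rw [Z1, Z2, J_prod]
  ext ⟨x, k⟩ ⟨y, l⟩
  simp only [Matrix.kroneckerMap_apply, Matrix.sub_apply, Matrix.add_apply]
  ring

lemma th_pos (A : Finset H) (hL : 1 < Fintype.card L) : 0 < th A L := by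
  have hh : (0 : ℝ) < Fintype.card H := cardpos
  have hl : (0 : ℝ) < (Fintype.card L : ℝ) - 1 := by
    have : (1 : ℝ) < Fintype.card L := by exact_mod_cast hL
    linarith
  unfold th
  positivity

lemma th_le (A : Finset H) (hL : 1 < Fintype.card L) : th A L ≤ 1 := by
  have hh : (0 : ℝ) < Fintype.card H := cardpos
  have hl : (0 : ℝ) < (Fintype.card L : ℝ) - 1 := by
    have : (1 : ℝ) < Fintype.card L := by exact_mod_cast hL
    linarith
  unfold th
  rw [div_le_one (by positivity)]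
  have : 0 ≤ (A.card : ℝ) * ((Fintype.card L : ℝ) - 1) := by positivity
  linarith

lemma X_Z1 (A : Finset H) (hA : A.Nonempty) (e : L) : X A e * Z1 H L = Z1 H L * X A e := by
  unfold X Z1
  rw [Matrix.mul_sub, Matrix.sub_mul, Matrix.mul_one, Matrix.one_mul, Matrix.smul_mul,
    Matrix.mul_smul, ← Matrix.mul_kronecker_mul, ← Matrix.mul_kronecker_mul, Matrix.mul_one,
    Matrix.one_mul, mul_J _ (walk_row A hA), J_mul _ (walk_col A hA)]

lemma walk_Z1 (A : Finset H) (hA : A.Nonempty) (e : L) (hL : 1 < Fintype.card L) :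
    walk (gen A e) * Z1 H L = X A e * Z1 H L := by
  rw [walk_eq A hA e hL, X, Matrix.add_mul]
  have : (J H ⊗ₖ E e) * Z1 H L = 0 := by
    unfold Z1
    rw [Matrix.mul_sub, Matrix.mul_one, ← Matrix.mul_kronecker_mul, J_sq, Matrix.mul_one, sub_self]
  rw [Matrix.smul_mul, this, smul_zero, zero_add]

lemma Y_Z2 (A : Finset H) (e : L) : Y A e * Z2 H L = Z2 H L * Y A e := by
  have : Nonempty L := ⟨e⟩
  unfold Y Z2
  rw [Matrix.smul_mul, Matrix.mul_smul, ← Matrix.mul_kronecker_mul, ← Matrix.mul_kronecker_mul,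
    Matrix.mul_one, Matrix.one_mul, Matrix.mul_sub, Matrix.sub_mul, Matrix.mul_one, Matrix.one_mul,
    mul_J _ (E_row e), J_mul _ (E_col e)]

lemma walk_Z2 (A : Finset H) (hA : A.Nonempty) (e : L) (hL : 1 < Fintype.card L) :
    walk (gen A e) * Z2 H L = Y A e * Z2 H L := by
  have : Nonempty L := ⟨e⟩
  have hl : (0 : ℝ) < (Fintype.card L : ℝ) - 1 := by
    have : (1 : ℝ) < Fintype.card L := by exact_mod_cast hL
    linarith
  rw [walk_eq A hA e hL, Y, Z2, Matrix.add_mul, Matrix.smul_mul, Matrix.smul_mul, Matrix.smul_mul,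
    ← Matrix.mul_kronecker_mul, ← Matrix.mul_kronecker_mul, ← Matrix.mul_kronecker_mul,
    J_sq, mul_J _ (walk_row A hA), Matrix.one_mul, B_eq e hL, Matrix.mul_sub, Matrix.mul_sub,
    Matrix.mul_one, Matrix.mul_one, mul_J _ (E_row e), Matrix.smul_mul, Matrix.sub_mul,
    Matrix.smul_mul, J_sq, mul_J _ (E_row e)]
  ext ⟨x, k⟩ ⟨y, l⟩
  simp only [Matrix.kroneckerMap_apply, Matrix.sub_apply, Matrix.add_apply, Matrix.smul_apply,
    smul_eq_mul, cc]
  field_simp
  ring

/-- the lazy version -/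
noncomputable def W {V : Type} [DecidableEq V] (a : ℝ) (M : Matrix V V ℝ) : Matrix V V ℝ :=
  a • (1 : Matrix V V ℝ) + (1 - a) • M

section W
variable {V : Type} [Fintype V] [DecidableEq V]

lemma W_mul (a : ℝ) {M X Z : Matrix V V ℝ} (h : M * Z = X * Z) : W a M * Z = W a X * Z := by
  unfold W
  rw [Matrix.add_mul, Matrix.add_mul, Matrix.smul_mul, Matrix.smul_mul, Matrix.smul_mul, h]

lemma W_comm (a : ℝ) {X Z : Matrix V V ℝ} (h : X * Z = Z * X) : W a X * Z = Z * W a X := by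
  unfold W
  rw [Matrix.add_mul, Matrix.mul_add, Matrix.smul_mul, Matrix.mul_smul, Matrix.smul_mul,
    Matrix.mul_smul, h, Matrix.one_mul, Matrix.mul_one]

lemma norm_one_le : ‖(1 : Matrix V V ℝ)‖ ≤ 1 := by
  refine norm_stoch (fun x y => ?_) zero_le_one (fun x => ?_)
  · rw [Matrix.one_apply]; split_ifs <;> norm_num
  · simp [Matrix.one_apply]

lemma W_norm {a : ℝ} (h0 : 0 ≤ a) (h1 : a ≤ 1) {X : Matrix V V ℝ} {b : ℝ} (hX : ‖X‖ ≤ b) :
    ‖W a X‖ ≤ a + (1 - a) * b := by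
  unfold W
  refine (norm_add_le _ _).trans ?_
  rw [norm_smul, norm_smul, Real.norm_eq_abs, Real.norm_eq_abs, abs_of_nonneg h0,
    abs_of_nonneg (by linarith : (0 : ℝ) ≤ 1 - a)]
  have := norm_one_le (V := V)
  nlinarith

lemma norm_pow_le' {X : Matrix V V ℝ} {b : ℝ} (hX : ‖X‖ ≤ b) (n : ℕ) : ‖X ^ n‖ ≤ b ^ n := by
  have hb : 0 ≤ b := (norm_nonneg _).trans hX
  induction n with
  | zero => simpa using norm_one_le (V := V)
  | succ n ih =>
    rw [pow_succ, pow_succ]
    refine (norm_mul_le _ _).trans ?_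
    gcongr

lemma W_row (a : ℝ) {M : Matrix V V ℝ} {b : ℝ} (h : ∀ x, ∑ y, M x y = b) (x : V) :
    ∑ y, W a M x y = a + (1 - a) * b := by
  unfold W
  simp only [Matrix.add_apply, Matrix.smul_apply, smul_eq_mul]
  rw [Finset.sum_add_distrib, ← Finset.mul_sum, ← Finset.mul_sum, h]
  simp [Matrix.one_apply]

lemma pow_row {M : Matrix V V ℝ} {b : ℝ} (h : ∀ x, ∑ y, M x y = b) (n : ℕ) (x : V) :
    ∑ y, (M ^ n) x y = b ^ n := by
  induction n with
  | zero => simp [Matrix.one_apply]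
  | succ n ih =>
    rw [pow_succ]
    simp only [Matrix.mul_apply]
    rw [Finset.sum_comm]
    simp_rw [← Finset.mul_sum, h]
    rw [← Finset.sum_mul, ih, pow_succ]

lemma pow_mono {Q P : Matrix V V ℝ} (h0 : ∀ x y, 0 ≤ Q x y) (h : ∀ x y, Q x y ≤ P x y) (n : ℕ) :
    ∀ x y, 0 ≤ (Q ^ n) x y ∧ (Q ^ n) x y ≤ (P ^ n) x y := by
  induction n with
  | zero =>
    intro x y
    simp only [pow_zero, Matrix.one_apply]
    split_ifs <;> norm_num
  | succ n ih =>
    intro x y
    rw [pow_succ, pow_succ, Matrix.mul_apply, Matrix.mul_apply]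
    constructor
    · exact Finset.sum_nonneg (fun z _ => mul_nonneg (ih x z).1 (h0 z y))
    · refine Finset.sum_le_sum (fun z _ => ?_)
      exact mul_le_mul (ih x z).2 (h z y) (h0 z y) ((ih x z).1.trans (ih x z).2)

lemma W_nonneg {a : ℝ} (h0 : 0 ≤ a) (h1 : a ≤ 1) {M : Matrix V V ℝ} (h : ∀ x y, 0 ≤ M x y)
    (x y : V) : 0 ≤ W a M x y := by
  unfold W
  simp only [Matrix.add_apply, Matrix.smul_apply, smul_eq_mul]
  have : 0 ≤ (1 : Matrix V V ℝ) x y := by
    rw [Matrix.one_apply]; split_ifs <;> norm_num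
  have := h x y
  have : 0 ≤ 1 - a := by linarith
  positivity

lemma W_mono {a : ℝ} (h1 : a ≤ 1) {M N : Matrix V V ℝ} (h : ∀ x y, M x y ≤ N x y)
    (x y : V) : W a M x y ≤ W a N x y := by
  unfold W
  simp only [Matrix.add_apply, Matrix.smul_apply, smul_eq_mul]
  have := h x y
  have : 0 ≤ 1 - a := by linarith
  nlinarith

end W

lemma norm_X (A : Finset H) (hA : A.Nonempty) (e : L) (hL : 1 < Fintype.card L) :
    ‖X A e‖ ≤ 1 - th A L := by
  have h1 := th_le A hL
  refine norm_stoch (fun x y => ?_) (by linarith) (fun x => ?_)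
  · obtain ⟨x, k⟩ := x
    obtain ⟨y, l⟩ := y
    simp only [X, Matrix.smul_apply, Matrix.kroneckerMap_apply, smul_eq_mul]
    exact mul_nonneg (by linarith) (mul_nonneg (walk_nonneg A x y) (B_nonneg e hL k l))
  · simp only [X, Matrix.smul_apply, smul_eq_mul]
    rw [← Finset.mul_sum, kron_row _ _ (walk_row A hA) (B_row e hL), mul_one]

lemma norm_Y (A : Finset H) (e : L) : ‖Y A e‖ ≤ |cc A L| := by
  unfold Y
  rw [norm_smul, Real.norm_eq_abs]
  have : ‖((1 : Matrix H H ℝ) ⊗ₖ E e)‖ ≤ 1 := by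
    refine norm_stoch (fun x y => ?_) zero_le_one (fun x => ?_)
    · obtain ⟨x, k⟩ := x
      obtain ⟨y, l⟩ := y
      simp only [Matrix.kroneckerMap_apply]
      refine mul_nonneg ?_ (E_nonneg e k l)
      rw [Matrix.one_apply]; split_ifs <;> norm_num
    · exact kron_row _ _ (fun x => by simp [Matrix.one_apply]) (E_row e) x
  nlinarith [abs_nonneg (cc A L)]

lemma norm_J {V : Type} [Fintype V] [DecidableEq V] [Nonempty V] : ‖J V‖ ≤ 1 := by
  refine norm_stoch (fun x y => ?_) zero_le_one (fun x => J_row_all x)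
  unfold J; positivity
  where
  J_row_all {V : Type} [Fintype V] [Nonempty V] (x : V) : ∑ y, J V x y = 1 := by
    unfold J
    rw [Finset.sum_const, card_univ, nsmul_eq_mul]
    have : (Fintype.card V : ℝ) ≠ 0 := cardpos.ne'
    field_simp

lemma norm_Z1 : ‖Z1 H L‖ ≤ 2 := by
  unfold Z1
  refine (norm_sub_le _ _).trans ?_
  have h1 := norm_one_le (V := H × L)
  have h2 : ‖J H ⊗ₖ (1 : Matrix L L ℝ)‖ ≤ 1 := by
    refine norm_stoch (fun x y => ?_) zero_le_one (fun x => ?_)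
    · obtain ⟨x, k⟩ := x
      obtain ⟨y, l⟩ := y
      simp only [Matrix.kroneckerMap_apply]
      refine mul_nonneg ?_ ?_
      · unfold J; positivity
      · rw [Matrix.one_apply]; split_ifs <;> norm_num
    · exact kron_row _ _ J_row (fun x => by simp [Matrix.one_apply]) x
  linarith

lemma norm_Z2 [Nonempty L] : ‖Z2 H L‖ ≤ 2 := by
  have : Z2 H L = (J H ⊗ₖ (1 : Matrix L L ℝ)) - (J H ⊗ₖ J L) := by
    unfold Z2
    ext ⟨x, k⟩ ⟨y, l⟩
    simp only [Matrix.kroneckerMap_apply, Matrix.sub_apply]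
    ring
  rw [this, ← J_prod]
  refine (norm_sub_le _ _).trans ?_
  have h1 := norm_J (V := H × L)
  have h2 : ‖J H ⊗ₖ (1 : Matrix L L ℝ)‖ ≤ 1 := by
    refine norm_stoch (fun x y => ?_) zero_le_one (fun x => ?_)
    · obtain ⟨x, k⟩ := x
      obtain ⟨y, l⟩ := y
      simp only [Matrix.kroneckerMap_apply]
      refine mul_nonneg ?_ ?_
      · unfold J; positivity
      · rw [Matrix.one_apply]; split_ifs <;> norm_num
    · exact kron_row _ _ J_row (fun x => by simp [Matrix.one_apply]) x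
  linarith

lemma gen_nonempty (A : Finset H) (e : L) : (gen A e).Nonempty :=
  ⟨(0, e), by simp [gen]⟩

/-- the decomposition of powers -/
lemma pow_eq (A : Finset H) (hA : A.Nonempty) (e : L) (hL : 1 < Fintype.card L) (a : ℝ) (n : ℕ) :
    W a (walk (gen A e)) ^ n - J (H × L) =
      W a (X A e) ^ n * Z1 H L + W a (Y A e) ^ n * Z2 H L := by
  have : Nonempty L := ⟨e⟩
  have hJ : W a (walk (gen A e)) ^ n * J (H × L) = J (H × L) := by
    refine mul_J _ (fun x => ?_)
    rw [pow_row (W_row a (walk_row _ (gen_nonempty A e)))]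
    simp
  have h1 := pow_mul_eq (W_mul a (walk_Z1 A hA e hL)) (W_comm a (X_Z1 A hA e)) n
  have h2 := pow_mul_eq (W_mul a (walk_Z2 A hA e hL)) (W_comm a (Y_Z2 A e)) n
  have h3 : W a (walk (gen A e)) ^ n - J (H × L) = W a (walk (gen A e)) ^ n * (1 - J (H × L)) := by
    rw [Matrix.mul_sub, Matrix.mul_one, hJ]
  rw [h3, Z_add, Matrix.mul_add, h1, h2]

lemma norm_pow_sub (A : Finset H) (hA : A.Nonempty) (e : L) (hL : 1 < Fintype.card L) {a : ℝ}
    (h0 : 0 ≤ a) (h1 : a ≤ 1) (n : ℕ) :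
    ‖W a (walk (gen A e)) ^ n - J (H × L)‖ ≤
      2 * (a + (1 - a) * (1 - th A L)) ^ n + 2 * (a + (1 - a) * |cc A L|) ^ n := by
  have : Nonempty L := ⟨e⟩
  rw [pow_eq A hA e hL a n]
  refine (norm_add_le _ _).trans (add_le_add ?_ ?_)
  · refine (norm_mul_le _ _).trans ?_
    have := norm_pow_le' (W_norm h0 h1 (norm_X A hA e hL)) n
    have h3 := norm_Z1 (H := H) (L := L)
    have h4 := norm_nonneg (Z1 H L)
    have h5 := norm_nonneg (W a (X A e) ^ n)
    nlinarith
  · refine (norm_mul_le _ _).trans ?_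
    have := norm_pow_le' (W_norm h0 h1 (norm_Y A e)) n
    have h3 := norm_Z2 (H := H) (L := L)
    have h4 := norm_nonneg (Z2 H L)
    have h5 := norm_nonneg (W a (Y A e) ^ n)
    nlinarith

/-- row version, `ℓ¹` distance -/
lemma upper_row (A : Finset H) (hA : A.Nonempty) (e : L) (hL : 1 < Fintype.card L) {a : ℝ}
    (h0 : 0 ≤ a) (h1 : a ≤ 1) (n : ℕ) (x : H × L) :
    ∑ y, |(W a (walk (gen A e)) ^ n) x y - 1 / (Fintype.card (H × L) : ℝ)| ≤
      2 * (a + (1 - a) * (1 - th A L)) ^ n + 2 * (a + (1 - a) * |cc A L|) ^ n := by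
  refine le_trans ?_ (norm_pow_sub A hA e hL h0 h1 n)
  exact row_le (W a (walk (gen A e)) ^ n - J (H × L)) x

end Pool.Agent.H16.TG
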