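import Pool.Agent.H16.TG2

set_option autoImplicit false
set_option linter.unusedSectionVars false
open Finset Matrix
open scoped Kronecker Pointwise

namespace Pool.Agent.H16.TG

variable {H L : Type} [AddCommGroup H] [Fintype H] [DecidableEq H]
  [AddCommGroup L] [Fintype L] [DecidableEq L]

/-- points reachable in at most `n` steps -/
def reach (A : Finset H) : ℕ → Finset H
  | 0 => {0}
  | n + 1 => reach A n ∪ (reach A n + A)

lemma reach_card (A : Finset H) (n : ℕ) : (reach A n).card ≤ (A.card + 1) ^ n := by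
  induction n with
  | zero => simp [reach]
  | succ n ih =>
    rw [reach]
    calc _ ≤ (reach A n).card + (reach A n + A).card := card_union_le _ _
      _ ≤ (reach A n).card + (reach A n).card * A.card := by
          gcongr; exact Finset.card_add_le
      _ = (reach A n).card * (A.card + 1) := by ring
      _ ≤ (A.card + 1) ^ n * (A.card + 1) := by gcongr
      _ = _ := by rw [pow_succ]

lemma reach_mono (A : Finset H) {m n : ℕ} (h : m ≤ n) : reach A m ⊆ reach A n := by
  induction n, h using Nat.le_induction with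
  | base => exact subset_rfl
  | succ n _ ih => exact ih.trans (by rw [reach]; exact subset_union_left)

lemma X_nonneg (A : Finset H) (e : L) (hL : 1 < Fintype.card L) (x y : H × L) :
    0 ≤ X A e x y := by
  obtain ⟨x, k⟩ := x
  obtain ⟨y, l⟩ := y
  have h1 := th_le A hL
  simp only [X, Matrix.smul_apply, Matrix.kroneckerMap_apply, smul_eq_mul]
  exact mul_nonneg (by linarith) (mul_nonneg (walk_nonneg A x y) (B_nonneg e hL k l))

lemma X_le (A : Finset H) (hA : A.Nonempty) (e : L) (hL : 1 < Fintype.card L) (x y : H × L) :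
    X A e x y ≤ walk (gen A e) x y := by
  rw [walk_eq A hA e hL, X, Matrix.add_apply]
  have : 0 ≤ (th A L • (J H ⊗ₖ E e)) x y := by
    obtain ⟨x, k⟩ := x
    obtain ⟨y, l⟩ := y
    simp only [Matrix.smul_apply, Matrix.kroneckerMap_apply, smul_eq_mul]
    have h2 := th_pos A hL
    refine mul_nonneg h2.le (mul_nonneg ?_ (E_nonneg e k l))
    unfold J; positivity
  linarith

lemma X_row (A : Finset H) (hA : A.Nonempty) (e : L) (hL : 1 < Fintype.card L) (x : H × L) :
    ∑ y, X A e x y = 1 - th A L := by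
  simp only [X, Matrix.smul_apply, smul_eq_mul]
  rw [← Finset.mul_sum, kron_row _ _ (walk_row A hA) (B_row e hL), mul_one]

lemma X_supp (A : Finset H) (e : L) (x y : H × L) (h : X A e x y ≠ 0) : y.1 - x.1 ∈ A := by
  obtain ⟨x, k⟩ := x
  obtain ⟨y, l⟩ := y
  by_contra h2
  apply h
  simp only [X, Matrix.smul_apply, Matrix.kroneckerMap_apply, smul_eq_mul, walk]
  rw [if_neg h2]
  ring

lemma W_supp (A : Finset H) (e : L) (a : ℝ) (x y : H × L) (h : W a (X A e) x y ≠ 0) :
    y.1 = x.1 ∨ y.1 - x.1 ∈ A := by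
  by_contra h2
  push Not at h2
  apply h
  have h3 : X A e x y = 0 := by
    by_contra h3
    exact h2.2 (X_supp A e x y h3)
  unfold W
  simp only [Matrix.add_apply, Matrix.smul_apply, smul_eq_mul]
  rw [h3, Matrix.one_apply_ne (fun h => h2.1 (by rw [h]))]
  ring

lemma pow_supp (A : Finset H) (e : L) (a : ℝ) (n : ℕ) :
    ∀ x y : H × L, (W a (X A e) ^ n) x y ≠ 0 → y.1 - x.1 ∈ reach A n := by
  induction n with
  | zero =>
    intro x y h
    rw [pow_zero] at h
    have : x = y := by
      by_contra h2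
      exact h (Matrix.one_apply_ne h2)
    simp [this, reach]
  | succ n ih =>
    intro x y h
    rw [pow_succ, Matrix.mul_apply] at h
    obtain ⟨z, -, hz⟩ := Finset.exists_ne_zero_of_sum_ne_zero h
    have h1 := ih x z (left_ne_zero_of_mul hz)
    rw [reach, mem_union]
    rcases W_supp A e a z y (right_ne_zero_of_mul hz) with h2 | h2
    · left; rw [h2]; exact h1
    · right
      rw [Finset.mem_add]
      exact ⟨_, h1, _, h2, by abel⟩

/-- points whose `H` coordinate is reachable -/
def RR (A : Finset H) (L : Type) [Fintype L] (n : ℕ) (x : H × L) : Finset (H × L) :=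
  univ.filter (fun y => y.1 - x.1 ∈ reach A n)

lemma RR_card (A : Finset H) (n : ℕ) (x : H × L) :
    (RR A L n x).card = (reach A n).card * Fintype.card L := by
  have : RR A L n x = ((reach A n).map (Equiv.addRight x.1).toEmbedding) ×ˢ (univ : Finset L) := by
    ext ⟨y, l⟩
    simp only [RR, mem_filter, mem_univ, true_and, mem_product, mem_map, and_true,
      Equiv.coe_toEmbedding, Equiv.coe_addRight]
    constructor
    · intro h
      exact ⟨_, h, by abel⟩
    · rintro ⟨z, hz, rfl⟩
      simpa using hz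
  rw [this, card_product, card_map, card_univ]

/-- mass of `W^n` on reachable points -/
lemma mass_ge (A : Finset H) (hA : A.Nonempty) (e : L) (hL : 1 < Fintype.card L) {a : ℝ}
    (h0 : 0 ≤ a) (h1 : a ≤ 1) (n : ℕ) (x : H × L) :
    (a + (1 - a) * (1 - th A L)) ^ n ≤
      ∑ y ∈ RR A L n x, (W a (walk (gen A e)) ^ n) x y := by
  have h2 : ∑ y, (W a (X A e) ^ n) x y = (a + (1 - a) * (1 - th A L)) ^ n :=
    pow_row (W_row a (X_row A hA e hL)) n x
  rw [← h2]
  have h3 : ∑ y, (W a (X A e) ^ n) x y = ∑ y ∈ RR A L n x, (W a (X A e) ^ n) x y := by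
    symm
    refine Finset.sum_subset (subset_univ _) (fun y _ hy => ?_)
    by_contra h4
    exact hy (by simp only [RR, mem_filter, mem_univ, true_and]; exact pow_supp A e a n x y h4)
  rw [h3]
  refine Finset.sum_le_sum (fun y _ => ?_)
  exact (pow_mono (W_nonneg h0 h1 (X_nonneg A e hL)) (W_mono h1 (X_le A hA e hL)) n x y).2

/-- half the `ℓ¹` norm of a sum-zero function bounds its sum over any set -/
lemma half_abs {V : Type} [Fintype V] (f : V → ℝ) (h : ∑ y, f y = 0) (R : Finset V) :
    ∑ y ∈ R, f y ≤ 1 / 2 * ∑ y, |f y| := by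
  classical
  have h1 : ∑ y ∈ R, f y + ∑ y ∈ Rᶜ, f y = 0 := by rw [Finset.sum_add_sum_compl, h]
  have h2 : ∑ y ∈ R, |f y| + ∑ y ∈ Rᶜ, |f y| = ∑ y, |f y| := Finset.sum_add_sum_compl _ _
  have h3 : ∑ y ∈ R, f y ≤ ∑ y ∈ R, |f y| := Finset.sum_le_sum (fun y _ => le_abs_self _)
  have h4 : -∑ y ∈ Rᶜ, f y ≤ ∑ y ∈ Rᶜ, |f y| := by
    rw [← Finset.sum_neg_distrib]
    exact Finset.sum_le_sum (fun y _ => neg_le_abs _)
  linarith

lemma walk_pow_row (A : Finset H) (e : L) (a : ℝ) (n : ℕ) (x : H × L) :
    ∑ y, (W a (walk (gen A e)) ^ n) x y = 1 := by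
  rw [pow_row (W_row a (walk_row _ (gen_nonempty A e)))]
  simp

lemma lower_row (A : Finset H) (hA : A.Nonempty) (e : L) (hL : 1 < Fintype.card L) {a : ℝ}
    (h0 : 0 ≤ a) (h1 : a ≤ 1) (n : ℕ) (x : H × L) :
    (a + (1 - a) * (1 - th A L)) ^ n - ((reach A n).card : ℝ) / Fintype.card H ≤
      1 / 2 * ∑ y, |(W a (walk (gen A e)) ^ n) x y - 1 / (Fintype.card (H × L) : ℝ)| := by
  have : Nonempty L := ⟨e⟩
  have hh : (0 : ℝ) < Fintype.card H := cardpos
  have hl : (0 : ℝ) < Fintype.card L := cardpos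
  refine le_trans ?_ (half_abs _ ?_ (RR A L n x))
  · rw [Finset.sum_sub_distrib, Finset.sum_const, RR_card, nsmul_eq_mul, Fintype.card_prod]
    refine sub_le_sub (mass_ge A hA e hL h0 h1 n x) (le_of_eq ?_)
    push_cast
    field_simp
  · rw [Finset.sum_sub_distrib, walk_pow_row, Finset.sum_const, card_univ, nsmul_eq_mul,
      Fintype.card_prod]
    push_cast
    field_simp
    ring

/-- separation lower bound -/
lemma sep_lower (A : Finset H) (hA : A.Nonempty) (e : L) (hL : 1 < Fintype.card L) (a : ℝ)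
    (n : ℕ) (hn : (reach A n).card < Fintype.card H) (x : H × L) :
    ∃ y : H × L, (Fintype.card (H × L) : ℝ) * (W a (walk (gen A e)) ^ n) x y ≤
      1 - (a + (1 - a) * (1 - th A L)) ^ n := by
  have : Nonempty L := ⟨e⟩
  have hh : (0 : ℝ) < Fintype.card H := cardpos
  have hl : (0 : ℝ) < Fintype.card L := cardpos
  set F : Matrix (H × L) (H × L) ℝ := W a (walk (gen A e)) ^ n - W a (X A e) ^ n with hF
  have hFZ : F * Z1 H L = 0 := by
    rw [hF, Matrix.sub_mul, pow_mul_eq (W_mul a (walk_Z1 A hA e hL)) (W_comm a (X_Z1 A hA e)) n,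
      sub_self]
  have hFJ : F = F * (J H ⊗ₖ (1 : Matrix L L ℝ)) := by
    have := hFZ
    unfold Z1 at this
    rw [Matrix.mul_sub, Matrix.mul_one, sub_eq_zero] at this
    exact this
  have hent : ∀ (h : H) (l : L), F x (h, l) = (1 / (Fintype.card H : ℝ)) * ∑ h', F x (h', l) := by
    intro h l
    conv_lhs => rw [hFJ]
    rw [Matrix.mul_apply, Fintype.sum_prod_type, Finset.mul_sum]
    refine Finset.sum_congr rfl (fun h' _ => ?_)
    simp only [Matrix.kroneckerMap_apply, J, Matrix.one_apply]
    rw [Finset.sum_eq_single l]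
    · simp; ring
    · intro b _ hb; simp [hb]
    · simp
  have htot : ∑ y, F x y = 1 - (a + (1 - a) * (1 - th A L)) ^ n := by
    rw [hF]
    simp only [Matrix.sub_apply]
    rw [Finset.sum_sub_distrib, walk_pow_row, pow_row (W_row a (X_row A hA e hL))]
  -- choose `h` outside the reachable set
  obtain ⟨g, hg⟩ : ∃ g, g ∉ reach A n := by
    by_contra h
    push Not at h
    have : reach A n = univ := by ext; simp [h]
    rw [this, card_univ] at hn
    exact lt_irrefl _ hn
  have hsum : ∑ l, F x (x.1 + g, l) = (1 / (Fintype.card H : ℝ)) *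
      (1 - (a + (1 - a) * (1 - th A L)) ^ n) := by
    rw [← htot, Fintype.sum_prod_type_right, Finset.mul_sum]
    exact Finset.sum_congr rfl (fun l _ => hent _ l)
  have hmin : ∃ l, (Fintype.card L : ℝ) * F x (x.1 + g, l) ≤ ∑ l, F x (x.1 + g, l) := by
    by_contra h
    push Not at h
    have : ∑ l' : L, ∑ l, F x (x.1 + g, l) < ∑ l' : L, (Fintype.card L : ℝ) * F x (x.1 + g, l') :=
      Finset.sum_lt_sum_of_nonempty univ_nonempty (fun l' _ => h l')
    rw [Finset.sum_const, card_univ, nsmul_eq_mul, ← Finset.mul_sum] at this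
    exact lt_irrefl _ this
  obtain ⟨l, hl2⟩ := hmin
  refine ⟨(x.1 + g, l), ?_⟩
  have hz : (W a (X A e) ^ n) x (x.1 + g, l) = 0 := by
    by_contra h
    have := pow_supp A e a n _ _ h
    simp only [add_sub_cancel_left] at this
    exact hg this
  have hFe : (W a (walk (gen A e)) ^ n) x (x.1 + g, l) = F x (x.1 + g, l) := by
    rw [hF, Matrix.sub_apply, hz, sub_zero]
  rw [hFe, Fintype.card_prod]
  push_cast
  rw [hsum] at hl2
  calc (Fintype.card H : ℝ) * Fintype.card L * F x (x.1 + g, l)
      = Fintype.card H * (Fintype.card L * F x (x.1 + g, l)) := by ring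
    _ ≤ Fintype.card H * ((1 / (Fintype.card H : ℝ)) *
        (1 - (a + (1 - a) * (1 - th A L)) ^ n)) := by gcongr
    _ = _ := by field_simp

end Pool.Agent.H16.TG
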