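import Pool.Agent.H16.TG3

set_option autoImplicit false
set_option linter.unusedSectionVars false
open Finset Matrix

namespace Pool.Agent.H16.TG

section chars
variable {G : Type} [AddCommGroup G] [Fintype G] [DecidableEq G]

lemma exists_char (f : G → ℂ) (hf : f ≠ 0) : ∃ Ψ : AddChar G ℂ, ∑ x, Ψ x * f x ≠ 0 := by
  by_contra h
  push Not at h
  apply hf
  funext x₀
  have h1 : ∑ Ψ : AddChar G ℂ, Ψ (-x₀) * ∑ x, Ψ x * f x = 0 :=
    Finset.sum_eq_zero (fun Ψ _ => by rw [h Ψ, mul_zero])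
  have h2 : ∑ Ψ : AddChar G ℂ, Ψ (-x₀) * ∑ x, Ψ x * f x =
      ∑ x, f x * ∑ Ψ : AddChar G ℂ, Ψ (x - x₀) := by
    simp_rw [Finset.mul_sum]
    rw [Finset.sum_comm]
    refine Finset.sum_congr rfl (fun x _ => Finset.sum_congr rfl (fun Ψ _ => ?_))
    rw [sub_eq_add_neg, AddChar.map_add_eq_mul]
    ring
  rw [h2] at h1
  simp_rw [AddChar.sum_apply_eq_ite] at h1
  rw [Finset.sum_eq_single x₀] at h1
  · simpa using h1
  · intro b _ hb
    rw [if_neg (sub_ne_zero.2 hb), mul_zero]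
  · simp

/-- complex version of the walk -/
noncomputable def walkC (S : Finset G) : Matrix G G ℂ :=
  fun x y => if y - x ∈ S then 1 / (S.card : ℂ) else 0

lemma eig_eq (S : Finset G) (hS : ∀ s ∈ S, -s ∈ S) (f : G → ℂ) (hf : f ≠ 0)
    (lam : ℂ) (h : walkC S *ᵥ f = lam • f) :
    ∃ Ψ : AddChar G ℂ, ∑ x, Ψ x * f x ≠ 0 ∧ lam = (∑ s ∈ S, Ψ s) / S.card := by
  obtain ⟨Ψ, hΨ⟩ := exists_char f hf
  refine ⟨Ψ, hΨ, ?_⟩
  have h1 : ∑ x, Ψ x * (walkC S *ᵥ f) x = lam * ∑ x, Ψ x * f x := by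
    rw [h, Finset.mul_sum]
    refine Finset.sum_congr rfl (fun x _ => ?_)
    simp only [Pi.smul_apply, smul_eq_mul]
    ring
  have h2 : ∑ x, Ψ x * (walkC S *ᵥ f) x = (∑ s ∈ S, Ψ s) / S.card * ∑ x, Ψ x * f x := by
    simp only [Matrix.mulVec, dotProduct, walkC]
    simp_rw [Finset.mul_sum]
    rw [Finset.sum_comm]
    refine Finset.sum_congr rfl (fun y _ => ?_)
    have h3 : ∀ x, Ψ x * ((if y - x ∈ S then 1 / (S.card : ℂ) else 0) * f y) =
        (if y - x ∈ S then Ψ (-(y - x)) else 0) * (Ψ y * f y / S.card) := by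
      intro x
      by_cases hx : y - x ∈ S
      · rw [if_pos hx, if_pos hx]
        have : Ψ (-(y - x)) * Ψ y = Ψ x := by
          rw [← AddChar.map_add_eq_mul]; congr 1; abel
        rw [← this]; ring
      · rw [if_neg hx, if_neg hx]; ring
    simp_rw [h3]
    rw [← Finset.sum_mul]
    have h4 : ∑ x, (if y - x ∈ S then Ψ (-(y - x)) else 0) = ∑ z, (if z ∈ S then Ψ (-z) else 0) :=
      Equiv.sum_comp (Equiv.subLeft y) (fun z => if z ∈ S then Ψ (-z) else 0)
    have h5 : ∑ z, (if z ∈ S then Ψ (-z) else 0) = ∑ z, (if z ∈ S then Ψ z else 0) := by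
      rw [← Equiv.sum_comp (Equiv.neg G) (fun z => if z ∈ S then Ψ z else 0)]
      refine Finset.sum_congr rfl (fun z _ => ?_)
      simp only [Equiv.neg_apply]
      by_cases hz : z ∈ S
      · rw [if_pos hz, if_pos (hS z hz)]
      · rw [if_neg hz, if_neg (fun h => hz (by simpa using hS _ h))]
    rw [h4, h5, Finset.sum_ite_mem, Finset.univ_inter]
    ring
  have h3 := h1.symm.trans h2
  exact mul_right_cancel₀ hΨ h3

end chars

variable {H L : Type} [AddCommGroup H] [Fintype H] [DecidableEq H]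
  [AddCommGroup L] [Fintype L] [DecidableEq L]

lemma char_gen (A : Finset H) (e : L) (Ψ : AddChar (H × L) ℂ) :
    ∑ s ∈ gen A e, Ψ s = Ψ (0, e) * ∑ h : H, Ψ (h, 0) +
      (∑ h ∈ A, Ψ (h, 0)) * (∑ l : L, Ψ (0, l) - Ψ (0, e)) := by
  have hsplit : ∀ (h : H) (l : L), Ψ (h, l) = Ψ (h, 0) * Ψ (0, l) := by
    intro h l
    rw [← AddChar.map_add_eq_mul]; simp
  have h1 : gen A e = (univ ×ˢ {e}) ∪ (A ×ˢ (univ.erase e)) := by
    ext x
    simp only [gen, mem_filter, mem_univ, true_and, mem_union, mem_product, mem_singleton,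
      mem_erase, and_true, ne_eq]
    tauto
  have hd : Disjoint ((univ : Finset H) ×ˢ ({e} : Finset L)) (A ×ˢ (univ.erase e)) := by
    rw [Finset.disjoint_left]
    rintro x h2 h3
    simp only [mem_product, mem_singleton, mem_erase] at h2 h3
    exact h3.2.1 h2.2
  rw [h1, Finset.sum_union hd, Finset.sum_product, Finset.sum_product]
  congr 1
  · rw [Finset.mul_sum]
    refine Finset.sum_congr rfl (fun h _ => ?_)
    rw [Finset.sum_singleton, hsplit]; ring
  · rw [Finset.sum_mul]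
    refine Finset.sum_congr rfl (fun h _ => ?_)
    rw [← Finset.sum_erase_eq_sub (mem_univ e), Finset.mul_sum]
    exact Finset.sum_congr rfl (fun l _ => hsplit h l)

lemma char_norm {G : Type} [AddCommGroup G] [Finite G] (Ψ : AddChar G ℂ) (x : G) : ‖Ψ x‖ = 1 :=
  AddChar.norm_apply Ψ x

/-- spectral bound for the generating set -/
lemma char_bound (A : Finset H) (e : L) (hL : 1 < Fintype.card L)
    (hA : ∀ χ : AddChar H ℂ, χ ≠ 1 → ‖∑ h ∈ A, χ h‖ ≤ A.card / 2)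
    (hθ : (Fintype.card H : ℝ) ≤ A.card * ((Fintype.card L : ℝ) - 1))
    (Ψ : AddChar (H × L) ℂ) (hΨ : Ψ ≠ 1) :
    ‖∑ s ∈ gen A e, Ψ s‖ ≤ (gen A e).card / 2 := by
  have hl : (1 : ℝ) ≤ (Fintype.card L : ℝ) - 1 := by
    have : (2 : ℝ) ≤ Fintype.card L := by exact_mod_cast hL
    linarith
  have hh : (0 : ℝ) < Fintype.card H := cardpos
  have hAH : (A.card : ℝ) ≤ Fintype.card H := by exact_mod_cast Finset.card_le_univ A
  have hA0 : (0 : ℝ) ≤ A.card := by positivity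
  rw [char_gen, gen_card]
  set χ : AddChar H ℂ := Ψ.compAddMonoidHom (AddMonoidHom.inl H L) with hχ
  set ψ : AddChar L ℂ := Ψ.compAddMonoidHom (AddMonoidHom.inr H L) with hψ
  have e1 : ∑ h : H, Ψ (h, 0) = ∑ h : H, χ h := rfl
  have e2 : ∑ h ∈ A, Ψ (h, 0) = ∑ h ∈ A, χ h := rfl
  have e3 : ∑ l : L, Ψ (0, l) = ∑ l : L, ψ l := rfl
  have e4 : Ψ (0, e) = ψ e := rfl
  rw [e1, e2, e3, e4]
  have hψe : ‖ψ e‖ = 1 := char_norm ψ e
  by_cases h1 : χ = 1
  · -- then `ψ ≠ 1`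
    have h2 : ψ ≠ 1 := by
      intro h2
      apply hΨ
      ext ⟨h, l⟩
      have : Ψ (h, l) = χ h * ψ l := by
        rw [hχ, hψ]
        simp only [AddChar.compAddMonoidHom_apply, AddMonoidHom.inl_apply, AddMonoidHom.inr_apply]
        rw [← AddChar.map_add_eq_mul]; simp
      rw [this, h1, h2]; simp
    have h3 : ∑ l : L, ψ l = 0 := AddChar.sum_eq_zero_iff_ne_zero.2 h2
    have h4 : ∑ h : H, χ h = (Fintype.card H : ℂ) := by rw [h1]; simp
    have h5 : ∑ h ∈ A, χ h = (A.card : ℂ) := by rw [h1]; simp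
    rw [h3, h4, h5]
    have : ψ e * (Fintype.card H : ℂ) + (A.card : ℂ) * (0 - ψ e) =
        (((Fintype.card H : ℝ) - A.card : ℝ) : ℂ) * ψ e := by push_cast; ring
    rw [this, norm_mul, hψe, mul_one, Complex.norm_real, Real.norm_eq_abs,
      abs_of_nonneg (by linarith)]
    nlinarith
  · have h3 : ∑ h : H, χ h = 0 := AddChar.sum_eq_zero_iff_ne_zero.2 h1
    rw [h3, mul_zero, zero_add, norm_mul]
    have h4 := hA χ h1
    have h5 : ‖∑ l : L, ψ l - ψ e‖ ≤ (Fintype.card L : ℝ) - 1 := by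
      rw [← Finset.sum_erase_eq_sub (mem_univ e)]
      refine (norm_sum_le _ _).trans ?_
      rw [Finset.sum_congr rfl (fun l _ => char_norm ψ l), Finset.sum_const,
        card_erase_of_mem (mem_univ e), card_univ, nsmul_eq_mul, mul_one]
      have : 1 ≤ Fintype.card L := hL.le
      push_cast [this]
      exact le_rfl
    calc ‖∑ h ∈ A, χ h‖ * ‖∑ l : L, ψ l - ψ e‖ ≤ (A.card / 2) * ((Fintype.card L : ℝ) - 1) := by
          gcongr
      _ ≤ _ := by linarith

/-- every eigenvalue of the walk is `1` or has modulus at most `1/2` -/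
lemma eig_bound (A : Finset H) (hsym : ∀ s ∈ A, -s ∈ A) (e : L) (he : -e = e)
    (hL : 1 < Fintype.card L)
    (hA : ∀ χ : AddChar H ℂ, χ ≠ 1 → ‖∑ h ∈ A, χ h‖ ≤ A.card / 2)
    (hθ : (Fintype.card H : ℝ) ≤ A.card * ((Fintype.card L : ℝ) - 1))
    (f : H × L → ℂ) (hf : f ≠ 0) (lam : ℂ) (h : walkC (gen A e) *ᵥ f = lam • f) :
    ‖lam‖ ≤ 1 / 2 ∨ (lam = 1 ∧ ∑ x, f x ≠ 0) := by
  have hS : ∀ s ∈ gen A e, -s ∈ gen A e := by
    intro s hs
    simp only [gen, mem_filter, mem_univ, true_and] at hs ⊢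
    rcases hs with hs | hs
    · left; simp [hs, he]
    · right; simpa using hsym _ hs
  obtain ⟨Ψ, hΨf, hΨ⟩ := eig_eq (gen A e) hS f hf lam h
  have hc : (0 : ℝ) < (gen A e).card := by exact_mod_cast (gen_nonempty A e).card_pos
  by_cases h1 : Ψ = 1
  · right
    refine ⟨?_, by simpa [h1] using hΨf⟩
    rw [hΨ, h1]
    have : ((gen A e).card : ℂ) ≠ 0 := by exact_mod_cast (gen_nonempty A e).card_pos.ne'
    simp [this]
  · left
    rw [hΨ, norm_div, Complex.norm_natCast, div_le_iff₀ hc]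
    have := char_bound A e hL hA hθ Ψ h1
    linarith

end Pool.Agent.H16.TG
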