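import Pool.Agent.H16.TG4

set_option autoImplicit false
set_option linter.unusedSectionVars false
open Finset Matrix

namespace Pool.Agent.H16.TG

section curve
variable {p : ℕ} [Fact p.Prime] {K : ℕ}

/-- the moment curve -/
def mv (p K : ℕ) (α : ZMod p) : Fin K → ZMod p := fun i => α ^ (i : ℕ)

/-- index set of the step set -/
def idx (p : ℕ) [Fact p.Prime] : Finset (ZMod p × ZMod p) := univ ×ˢ (univ.erase 0)

/-- steps in the directions of the moment curve -/
def curveSet (p K : ℕ) [Fact p.Prime] : Finset (Fin K → ZMod p) :=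
  (idx p).image (fun q => q.2 • mv p K q.1)

lemma addChar_sum {G : Type} [AddCommGroup G] (χ : AddChar G ℂ) {ι : Type} (s : Finset ι)
    (f : ι → G) : χ (∑ i ∈ s, f i) = ∏ i ∈ s, χ (f i) := by
  classical
  induction s using Finset.induction_on with
  | empty => simp
  | insert a s ha ih => rw [Finset.sum_insert ha, Finset.prod_insert ha, AddChar.map_add_eq_mul, ih]

lemma curve_injOn (hK : 2 ≤ K) :
    Set.InjOn (fun q : ZMod p × ZMod p => q.2 • mv p K q.1) (idx p) := by
  rintro ⟨a, b⟩ h1 ⟨a', b'⟩ h2 h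
  have h0 := congrFun h ⟨0, by omega⟩
  have h3 := congrFun h ⟨1, by omega⟩
  simp only [Pi.smul_apply, mv, pow_zero, pow_one, smul_eq_mul, mul_one] at h0 h3
  subst h0
  have hb : b ≠ 0 := by
    simp only [idx, coe_product, Set.mem_prod, mem_coe, mem_erase] at h1
    exact h1.2.1
  rw [mul_left_cancel₀ hb h3]

lemma curve_card (hK : 2 ≤ K) : (curveSet p K).card = p * (p - 1) := by
  rw [curveSet, Finset.card_image_of_injOn (curve_injOn hK), idx, card_product,
    card_erase_of_mem (mem_univ _), card_univ, ZMod.card]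

lemma curve_sym : ∀ s ∈ curveSet p K, -s ∈ curveSet p K := by
  intro s hs
  simp only [curveSet, mem_image, Prod.exists, idx, mem_product, mem_univ, true_and, mem_erase,
    and_true] at hs ⊢
  obtain ⟨a, b, hb, rfl⟩ := hs
  exact ⟨a, -b, neg_ne_zero.2 hb, by rw [neg_smul]⟩

lemma curve_zero (hK : 2 ≤ K) : (0 : Fin K → ZMod p) ∉ curveSet p K := by
  intro hs
  simp only [curveSet, mem_image, Prod.exists, idx, mem_product, mem_univ, true_and, mem_erase,
    and_true] at hs
  obtain ⟨a, b, hb, h⟩ := hs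
  have h0 := congrFun h ⟨0, by omega⟩
  simp only [Pi.smul_apply, mv, pow_zero, smul_eq_mul, mul_one, Pi.zero_apply] at h0
  exact hb h0

lemma curve_nonempty (hK : 2 ≤ K) : (curveSet p K).Nonempty := by
  rw [← Finset.card_pos, curve_card hK]
  have : 2 ≤ p := (Fact.out : p.Prime).two_le
  exact Nat.mul_pos (by omega) (by omega)

/-- the character along a line -/
noncomputable def line (χ : AddChar (Fin K → ZMod p) ℂ) (α : ZMod p) : AddChar (ZMod p) ℂ where
  toFun b := χ (b • mv p K α)
  map_zero_eq_one' := by simp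
  map_add_eq_mul' := fun a b => by rw [add_smul, AddChar.map_add_eq_mul]

lemma vand (χ : AddChar (Fin K → ZMod p) ℂ) (α : Fin K → ZMod p) (hα : Function.Injective α)
    (h : ∀ k, line χ (α k) = 1) : χ = 1 := by
  ext x
  have hdet : IsUnit (Matrix.vandermonde α).det :=
    isUnit_iff_ne_zero.2 (Matrix.det_vandermonde_ne_zero_iff.2 hα)
  set c := x ᵥ* (Matrix.vandermonde α)⁻¹ with hc
  have hx : x = ∑ k, c k • mv p K (α k) := by
    have h1 : c ᵥ* Matrix.vandermonde α = x := by
      rw [hc, Matrix.vecMul_vecMul, Matrix.nonsing_inv_mul _ hdet, Matrix.vecMul_one]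
    rw [← h1]
    ext i
    simp [Matrix.vecMul, dotProduct, mv, Matrix.vandermonde_apply, Finset.sum_apply]
  rw [hx, addChar_sum]
  simp only [AddChar.one_apply]
  refine Finset.prod_eq_one (fun k _ => ?_)
  have := DFunLike.congr_fun (h k) (c k)
  simpa [line] using this

lemma card_trivial (χ : AddChar (Fin K → ZMod p) ℂ) (hχ : χ ≠ 1) :
    (univ.filter (fun α => line χ α = 1)).card < K := by
  classical
  by_contra h
  push Not at h
  apply hχ
  obtain ⟨T, hT, hTc⟩ := Finset.exists_subset_card_eq h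
  let e := (T.equivFinOfCardEq hTc).symm
  refine vand χ (fun k => (e k : ZMod p)) ?_ ?_
  · intro a b hab
    exact e.injective (Subtype.ext hab)
  · intro k
    have := hT (e k).2
    simpa using this

lemma curve_sum (hK : 2 ≤ K) (χ : AddChar (Fin K → ZMod p) ℂ) :
    ∑ h ∈ curveSet p K, χ h =
      (p : ℂ) * ((univ.filter (fun α => line χ α = 1)).card : ℂ) - p := by
  classical
  rw [curveSet, Finset.sum_image (curve_injOn hK), idx, Finset.sum_product]
  have h1 : ∀ α : ZMod p, ∑ b ∈ univ.erase (0 : ZMod p), χ (b • mv p K α) =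
      (if line χ α = 1 then (p : ℂ) else 0) - 1 := by
    intro α
    rw [Finset.sum_erase_eq_sub (mem_univ _)]
    have h2 : ∑ b, χ (b • mv p K α) = ∑ b, line χ α b := rfl
    rw [h2]
    have h3 := AddChar.sum_eq_ite (line χ α)
    rw [h3, zero_smul, AddChar.map_zero_eq_one, ZMod.card]
    rfl
  simp only [h1]
  rw [Finset.sum_sub_distrib, ← Finset.sum_filter, Finset.sum_const, Finset.sum_const, card_univ,
    ZMod.card]
  simp [mul_comm]

lemma curve_bound (hK : 2 ≤ K) (hp : 2 * K ≤ p) (χ : AddChar (Fin K → ZMod p) ℂ) (hχ : χ ≠ 1) :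
    ‖∑ h ∈ curveSet p K, χ h‖ ≤ ((curveSet p K).card : ℝ) / 2 := by
  rw [curve_sum hK χ, curve_card hK]
  have h1 := card_trivial χ hχ
  set z := (univ.filter (fun α => line χ α = 1)).card with hz
  have h2 : (p : ℂ) * (z : ℂ) - p = (((p : ℝ) * ((z : ℝ) - 1) : ℝ) : ℂ) := by push_cast; ring
  rw [h2, Complex.norm_real, Real.norm_eq_abs, abs_mul, Nat.abs_cast]
  have h3 : (z : ℝ) + 1 ≤ K := by exact_mod_cast h1
  have h4 : 2 * (K : ℝ) ≤ p := by exact_mod_cast hp
  have h5 : (2 : ℝ) ≤ K := by exact_mod_cast hK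
  have h6 : |(z : ℝ) - 1| ≤ ((p : ℝ) - 1) / 2 := by
    rw [abs_le]
    have : (0 : ℝ) ≤ z := by positivity
    constructor <;> linarith
  have h7 : 1 ≤ p := by omega
  push_cast [h7]
  have hp0 : (0 : ℝ) < p := by linarith
  nlinarith

end curve

end Pool.Agent.H16.TG
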