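import Pool.Agent.H16.TG5

set_option autoImplicit false
set_option linter.unusedSectionVars false
open Finset Matrix

namespace Pool.Agent.H16.TG

theorem family0 (j : ℕ) (hj : 10 ≤ j) :
    ∃ (H L : Type) (_ : AddCommGroup H) (_ : Fintype H) (_ : DecidableEq H)
      (_ : AddCommGroup L) (_ : Fintype L) (_ : DecidableEq L) (A : Finset H) (e : L),
      A.Nonempty ∧ 1 < Fintype.card L ∧ (∀ s ∈ A, -s ∈ A) ∧ (0 : H) ∉ A ∧ -e = e ∧ e ≠ 0 ∧
      j ≤ Fintype.card H ∧
      (∀ χ : AddChar H ℂ, χ ≠ 1 → ‖∑ h ∈ A, χ h‖ ≤ A.card / 2) ∧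
      (Fintype.card H : ℝ) ≤ A.card * ((Fintype.card L : ℝ) - 1) ∧
      1 / ((j : ℝ) + 2) ≤ th A L ∧ th A L ≤ 1 / (j : ℝ) ∧ |cc A L| ≤ 1 / 2 ∧
      ((reach A (50 * j)).card : ℝ) / Fintype.card H ≤ 1 / 128 := by
  obtain ⟨p, hp, hprime⟩ := Nat.exists_infinite_primes (2 * (100 * j + 1))
  have : Fact p.Prime := ⟨hprime⟩
  set K := 100 * j + 1 with hK
  have hK2 : 2 ≤ K := by omega
  set h := p ^ K with hh
  set a := p * (p - 1) with ha
  have hp2 : 2 ≤ p := hprime.two_le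
  have ha0 : 0 < a := Nat.mul_pos (by omega) (by omega)
  have hah : a ≤ h := by
    rw [ha, hh]
    calc p * (p - 1) ≤ p * p := Nat.mul_le_mul_left _ (by omega)
      _ = p ^ 2 := by ring
      _ ≤ p ^ K := Nat.pow_le_pow_right (by omega) hK2
  have hh0 : 0 < h := lt_of_lt_of_le ha0 hah
  set q := (j * h) / (2 * a) with hq
  have hq1 : q * (2 * a) ≤ j * h := Nat.div_mul_le_self _ _
  have hq2 : j * h < (q + 1) * (2 * a) := by
    have h1 := Nat.div_add_mod (j * h) (2 * a)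
    have h2 := Nat.mod_lt (j * h) (show 2 * a > 0 by omega)
    calc j * h = 2 * a * q + (j * h) % (2 * a) := h1.symm
      _ < 2 * a * q + 2 * a := by omega
      _ = (q + 1) * (2 * a) := by ring
  set r := q + 1 with hr
  have hr1 : 1 ≤ r := Nat.succ_le_succ (Nat.zero_le q)
  have : NeZero r := ⟨Nat.succ_ne_zero q⟩
  have hcH : Fintype.card (Fin K → ZMod p) = h := by
    rw [Fintype.card_fun, ZMod.card, Fintype.card_fin]
  have hcL : Fintype.card (ZMod 2 × ZMod r) = 2 * r := by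
    rw [Fintype.card_prod, ZMod.card, ZMod.card]
  have hcA : (curveSet p K).card = a := curve_card hK2
  -- real versions
  have hjR : (10 : ℝ) ≤ j := by exact_mod_cast hj
  have haR : (0 : ℝ) < a := by exact_mod_cast ha0
  have hhR : (0 : ℝ) < h := by exact_mod_cast hh0
  have hahR : (a : ℝ) ≤ h := by exact_mod_cast hah
  have hq1R : (q : ℝ) * (2 * a) ≤ j * h := by exact_mod_cast hq1
  have hq2R : (j : ℝ) * h < (q + 1) * (2 * a) := by exact_mod_cast hq2
  have hN : ((2 * r : ℕ) : ℝ) - 1 = 2 * q + 1 := by rw [hr]; push_cast; ring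
  have hup : (a : ℝ) * (2 * q + 1) ≤ (j + 1) * h := by nlinarith
  have hlo : ((j : ℝ) - 1) * h ≤ a * (2 * q + 1) := by nlinarith
  have hth : th (curveSet p K) (ZMod 2 × ZMod r) = h / (h + a * (2 * q + 1)) := by
    rw [th, hcH, hcL, hcA, hN]
  have hth2 : th (curveSet p K) (ZMod 2 × ZMod r) ≤ 1 / (j : ℝ) := by
    rw [hth, div_le_div_iff₀ (by positivity) (by linarith)]
    nlinarith
  have hth1 : 1 / ((j : ℝ) + 2) ≤ th (curveSet p K) (ZMod 2 × ZMod r) := by
    rw [hth, div_le_div_iff₀ (by positivity) (by positivity)]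
    nlinarith
  have hqb : (2 : ℝ) ≤ 2 * q + 1 := by
    by_contra hcon
    push Not at hcon
    nlinarith
  refine ⟨Fin K → ZMod p, ZMod 2 × ZMod r, inferInstance, inferInstance, inferInstance,
    inferInstance, inferInstance, inferInstance, curveSet p K, (1, 0), curve_nonempty hK2, ?_,
    curve_sym, curve_zero hK2, ?_, ?_, ?_, ?_, ?_, hth1, hth2, ?_, ?_⟩
  · rw [hcL]; omega
  · simp only [Prod.neg_mk, neg_zero]; rfl
  · intro h0
    have := congrArg Prod.fst h0
    simp at this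
  · rw [hcH]
    have : K < h := Nat.lt_pow_self (by omega)
    omega
  · exact fun χ hχ => curve_bound hK2 hp χ hχ
  · rw [hcH, hcL, hcA, hN]
    nlinarith
  · rw [cc, hcL, hN]
    set θ := th (curveSet p K) (ZMod 2 × ZMod r)
    have h0 : 0 < θ := lt_of_lt_of_le (by positivity) hth1
    have h1 : θ ≤ 1 / 2 := by
      refine hth2.trans ?_
      rw [div_le_div_iff₀ (by linarith) (by norm_num)]
      linarith
    have h2 : (1 - θ) / (2 * (q : ℝ) + 1) ≤ 1 / 2 := by
      rw [div_le_div_iff₀ (by linarith) (by norm_num)]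
      nlinarith
    have h3 : 0 ≤ (1 - θ) / (2 * (q : ℝ) + 1) := by
      apply div_nonneg <;> linarith
    rw [abs_le]
    constructor <;> linarith
  · rw [hcH, div_le_div_iff₀ hhR (by norm_num), one_mul]
    have h1 : (reach (curveSet p K) (50 * j)).card ≤ p ^ (100 * j) := by
      refine (reach_card _ _).trans ?_
      rw [hcA]
      calc (a + 1) ^ (50 * j) ≤ (p ^ 2) ^ (50 * j) := by
            apply Nat.pow_le_pow_left
            rw [ha]
            obtain ⟨m, rfl⟩ : ∃ m, p = m + 1 := ⟨p - 1, by omega⟩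
            simp only [Nat.add_sub_cancel]
            nlinarith
        _ = p ^ (100 * j) := by rw [← pow_mul]; congr 1; ring
    have h2 : p ^ (100 * j) * 128 ≤ h := by
      rw [hh, hK, pow_succ]
      apply Nat.mul_le_mul_left
      omega
    exact_mod_cast (Nat.mul_le_mul_right _ h1).trans h2

/-- The family, in the form used below.  `θ ≈ 1/j`. -/
theorem family (j : ℕ) (hj : 10 ≤ j) :
    ∃ (G : Type) (_ : AddCommGroup G) (_ : Fintype G) (_ : DecidableEq G) (S : Finset G) (θ : ℝ),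
      (∀ s ∈ S, -s ∈ S) ∧ (0 : G) ∉ S ∧ (∀ g : G, ∃ a ∈ S, ∃ b ∈ S, g = a + b) ∧
      j ≤ Fintype.card G ∧ 1 / ((j : ℝ) + 2) ≤ θ ∧ θ ≤ 1 / (j : ℝ) ∧
      (∀ a : ℝ, 0 ≤ a → a ≤ 1 → ∀ (n : ℕ) (x : G),
        1 / 2 * ∑ y, |(W a (walk S) ^ n) x y - 1 / (Fintype.card G : ℝ)| ≤
          (a + (1 - a) * (1 - θ)) ^ n + (a + (1 - a) * (1 / 2)) ^ n) ∧
      (∀ a : ℝ, 0 ≤ a → a ≤ 1 → ∀ n : ℕ, n ≤ 50 * j → ∀ x : G, ∃ R : Finset G,
        (R.card : ℝ) / Fintype.card G ≤ 1 / 128 ∧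
        (∀ m : ℕ, m ≤ n → (a + (1 - a) * (1 - θ)) ^ m ≤ ∑ y ∈ R, (W a (walk S) ^ m) x y)) ∧
      (∀ a : ℝ, 0 ≤ a → a ≤ 1 → ∀ n : ℕ, n ≤ 50 * j → ∀ x : G, ∃ y : G,
        (Fintype.card G : ℝ) * (W a (walk S) ^ n) x y ≤ 1 - (a + (1 - a) * (1 - θ)) ^ n) ∧
      (∀ (f : G → ℂ) (lam : ℂ), f ≠ 0 → walkC S *ᵥ f = lam • f →
        ‖lam‖ ≤ 1 / 2 ∨ (lam = 1 ∧ ∑ x, f x ≠ 0)) := by
  obtain ⟨H, L, i1, i2, i3, i4, i5, i6, A, e, hA, hL, hsym, h0, he, he0, hcard, hχ, hθ, ht1, ht2,
    hcc, hreach⟩ := family0 j hj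
  have hh : (0 : ℝ) < Fintype.card H := cardpos
  have : Nonempty L := ⟨e⟩
  have hl : (0 : ℝ) < Fintype.card L := cardpos
  refine ⟨H × L, inferInstance, inferInstance, inferInstance, gen A e, th A L, ?_, ?_, ?_, ?_,
    ht1, ht2, ?_, ?_, ?_, ?_⟩
  · intro s hs
    simp only [gen, mem_filter, mem_univ, true_and] at hs ⊢
    rcases hs with hs | hs
    · left; simp [hs, he]
    · right; simpa using hsym _ hs
  · simp only [gen, mem_filter, mem_univ, true_and, Prod.snd_zero, Prod.fst_zero]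
    rintro (h | h)
    · exact he0 h.symm
    · exact h0 h
  · rintro ⟨x, k⟩
    obtain ⟨a0, ha0⟩ := hA
    refine ⟨(a0, k - e), by simp [gen, ha0], (x - a0, e), by simp [gen], ?_⟩
    simp
  · rw [Fintype.card_prod]
    calc j ≤ Fintype.card H := hcard
      _ = Fintype.card H * 1 := by ring
      _ ≤ _ := Nat.mul_le_mul_left _ hL.le
  · intro a ha0 ha1 n x
    have := upper_row A hA e hL ha0 ha1 n x
    have h2 : (a + (1 - a) * |cc A L|) ^ n ≤ (a + (1 - a) * (1 / 2)) ^ n := by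
      have h3 : 0 ≤ 1 - a := by linarith
      have := abs_nonneg (cc A L)
      gcongr
    linarith
  · intro a ha0 ha1 n hn x
    refine ⟨RR A L n x, ?_, ?_⟩
    · rw [RR_card, Fintype.card_prod]
      refine le_trans ?_ hreach
      have h1 : ((reach A n).card : ℝ) ≤ (reach A (50 * j)).card := by
        exact_mod_cast Finset.card_le_card (reach_mono A hn)
      push_cast
      rw [mul_div_mul_right _ _ hl.ne']
      gcongr
    · intro m hm
      refine (mass_ge A hA e hL ha0 ha1 m x).trans ?_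
      refine Finset.sum_le_sum_of_subset_of_nonneg ?_ (fun y _ _ => ?_)
      · intro y hy
        simp only [RR, mem_filter, mem_univ, true_and] at hy ⊢
        exact reach_mono A hm hy
      · exact (pow_mono (W_nonneg ha0 ha1 (walk_nonneg _)) (fun _ _ => le_rfl) m x y).1
  · intro a ha0 ha1 n hn x
    refine sep_lower A hA e hL a n ?_ x
    have h1 : ((reach A n).card : ℝ) ≤ (reach A (50 * j)).card := by
      exact_mod_cast Finset.card_le_card (reach_mono A hn)
    have h2 : ((reach A (50 * j)).card : ℝ) < Fintype.card H := by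
      rw [div_le_iff₀ hh] at hreach
      linarith
    exact_mod_cast h1.trans_lt h2
  · intro f lam hf h
    exact eig_bound A hsym e he hL hχ hθ f hf lam h

end Pool.Agent.H16.TG
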