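import Pool.Agent.H16.TG6

set_option autoImplicit false
set_option linter.unusedSectionVars false
open Finset Matrix

namespace Pool.Agent.H16.TG

lemma pow_up {x : ℝ} (h0 : 0 ≤ x) (h1 : x ≤ 1) (n : ℕ) : (1 - x) ^ n * (1 + n * x) ≤ 1 := by
  have h2 : 1 + (n : ℝ) * x ≤ (1 + x) ^ n := one_add_mul_le_pow (by linarith) n
  have h3 : (1 - x) ^ n * (1 + x) ^ n ≤ 1 := by
    rw [← mul_pow]
    apply pow_le_one₀ <;> nlinarith
  have h4 : 0 ≤ (1 - x) ^ n := pow_nonneg (by linarith) n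
  nlinarith

lemma pow_lo {x : ℝ} (h1 : x ≤ 1) (n : ℕ) : 1 - n * x ≤ (1 - x) ^ n := by
  have := one_add_mul_le_pow (a := -x) (by linarith) n
  have h2 : (1 + -x) = 1 - x := by ring
  rw [h2] at this
  linarith

/-- total variation distance of row `x` of `P` to uniform -/
noncomputable def tv {V : Type} [Fintype V] (P : Matrix V V ℝ) (x : V) : ℝ :=
  1 / 2 * ∑ y, |P x y - 1 / (Fintype.card V : ℝ)|

/-- The lazy simple random walk -/
noncomputable def lz {G : Type} [AddCommGroup G] [Fintype G] [DecidableEq G] (S : Finset G) :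
    Matrix G G ℝ := W (1 / 2) (walk S)

lemma tv_lower {V : Type} [Fintype V] [Nonempty V] (P : Matrix V V ℝ) (x : V)
    (h : ∑ y, P x y = 1) (R : Finset V) :
    ∑ y ∈ R, P x y - (R.card : ℝ) / Fintype.card V ≤ tv P x := by
  have hv : (0 : ℝ) < Fintype.card V := cardpos
  refine le_trans (le_of_eq ?_) (half_abs (fun y => P x y - 1 / (Fintype.card V : ℝ)) ?_ R)
  · rw [Finset.sum_sub_distrib, Finset.sum_const, nsmul_eq_mul]
    ring
  · rw [Finset.sum_sub_distrib, h, Finset.sum_const, card_univ, nsmul_eq_mul]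
    field_simp
    ring

lemma lz_row {G : Type} [AddCommGroup G] [Fintype G] [DecidableEq G] (S : Finset G)
    (hS : S.Nonempty) (n : ℕ) (x : G) : ∑ y, (lz S ^ n) x y = 1 := by
  unfold lz
  rw [pow_row (W_row _ (walk_row S hS))]
  norm_num

/-- eigenvalues of the lazy walk -/
lemma lz_eig {G : Type} [AddCommGroup G] [Fintype G] [DecidableEq G] (S : Finset G)
    (h : ∀ (f : G → ℂ) (lam : ℂ), f ≠ 0 → walkC S *ᵥ f = lam • f →
        ‖lam‖ ≤ 1 / 2 ∨ (lam = 1 ∧ ∑ x, f x ≠ 0)) (f : G → ℝ) (hf : f ≠ 0) (hs : ∑ x, f x = 0)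
    (r : ℝ) (hr : lz S *ᵥ f = r • f) : |2 * r - 1| ≤ 1 / 2 := by
  have h1 : walk S *ᵥ f = (2 * r - 1) • f := by
    unfold lz W at hr
    rw [Matrix.add_mulVec, Matrix.smul_mulVec, Matrix.smul_mulVec, Matrix.one_mulVec] at hr
    funext x
    have := congrFun hr x
    simp only [Pi.add_apply, Pi.smul_apply, smul_eq_mul] at this ⊢
    linarith
  have h2 : walkC S *ᵥ (fun x => (f x : ℂ)) = ((2 * r - 1 : ℝ) : ℂ) • (fun x => (f x : ℂ)) := by
    funext x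
    have := congrFun h1 x
    simp only [Matrix.mulVec, dotProduct, Pi.smul_apply, smul_eq_mul, walk, walkC] at this ⊢
    have h3 := congrArg (fun z : ℝ => (z : ℂ)) this
    rw [Complex.ofReal_mul] at h3
    rw [← h3, Complex.ofReal_sum]
    refine Finset.sum_congr rfl (fun y _ => ?_)
    split_ifs <;> push_cast <;> ring
  have hf' : (fun x => (f x : ℂ)) ≠ 0 := by
    intro h0
    apply hf
    funext x
    have := congrFun h0 x
    simpa using this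
  rcases h _ _ hf' h2 with h3 | h3
  · rwa [Complex.norm_real, Real.norm_eq_abs] at h3
  · exfalso
    apply h3.2
    rw [← Complex.ofReal_sum, hs]; simp

/-- The discrete family -/
theorem disc (j : ℕ) (hj : 10 ≤ j) :
    ∃ (G : Type) (_ : AddCommGroup G) (_ : Fintype G) (_ : DecidableEq G) (S : Finset G),
      (∀ s ∈ S, -s ∈ S) ∧ (0 : G) ∉ S ∧ (∀ g : G, ∃ a ∈ S, ∃ b ∈ S, g = a + b) ∧
      j ≤ Fintype.card G ∧
      (∀ x, tv (lz S ^ (j + 2)) x ≤ 3 / 4) ∧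
      (∀ x, tv (lz S ^ (4 * (j + 2))) x ≤ 1 / 5) ∧
      (∀ ε : ℝ, 0 < ε → ∃ t, ∀ x, tv (lz S ^ t) x ≤ ε) ∧
      (∀ t ≤ 4 * j, ∀ x, 1 / 20 < tv (lz S ^ t) x) ∧
      (∀ t ≤ j, ∀ x, 1 / 4 < tv (lz S ^ t) x) ∧
      (∀ x, 19 / 20 < tv (lz S ^ 0) x) ∧
      (∀ t ≤ 20 * j, ∀ x, ∃ y, (Fintype.card G : ℝ) * (lz S ^ t) x y ≤ 1 - (1 / 2) ^ 20) ∧
      (∀ f : G → ℝ, f ≠ 0 → ∑ x, f x = 0 → ∀ r : ℝ, lz S *ᵥ f = r • f → |2 * r - 1| ≤ 1 / 2) := by
  obtain ⟨G, i1, i2, i3, S, θ, hsym, h0, hgen, hcard, ht1, ht2, hU, hR, hsep, hspec⟩ := family j hj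
  have hjR : (10 : ℝ) ≤ j := by exact_mod_cast hj
  have hθ0 : 0 < θ := lt_of_lt_of_le (by positivity) ht1
  have hθ1 : θ ≤ 1 / 10 := ht2.trans (by
    rw [div_le_div_iff₀ (by linarith) (by norm_num)]; linarith)
  have hS : S.Nonempty := by
    obtain ⟨a, ha, -⟩ := hgen 0
    exact ⟨a, ha⟩
  have hb1 : (1 / 2 : ℝ) + (1 - 1 / 2) * (1 - θ) = 1 - θ / 2 := by ring
  have hb2 : (1 / 2 : ℝ) + (1 - 1 / 2) * (1 / 2) = 3 / 4 := by norm_num
  have hup : ∀ (n : ℕ) (x : G), tv (lz S ^ n) x ≤ (1 - θ / 2) ^ n + (3 / 4) ^ n := by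
    intro n x
    have := hU (1 / 2) (by norm_num) (by norm_num) n x
    rw [hb1, hb2] at this
    exact this
  have hlow : ∀ n : ℕ, n ≤ 50 * j → ∀ x, (1 - θ / 2) ^ n - 1 / 128 ≤ tv (lz S ^ n) x := by
    intro n hn x
    obtain ⟨R, hR1, hR2⟩ := hR (1 / 2) (by norm_num) (by norm_num) n hn x
    have h1 := hR2 n le_rfl
    rw [hb1] at h1
    have h2 := tv_lower (lz S ^ n) x (lz_row S hS n x) R
    unfold lz at h2 ⊢
    linarith
  -- powers
  have hpj : (1 / 2 : ℝ) ≤ (1 - θ / 2) ^ j := by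
    have h1 := pow_lo (x := θ / 2) (by linarith) j
    have h2 : (j : ℝ) * (θ / 2) ≤ 1 / 2 := by
      have : (j : ℝ) * θ ≤ 1 := by
        calc (j : ℝ) * θ ≤ j * (1 / j) := by gcongr
          _ = 1 := by field_simp
      linarith
    linarith
  have hpj2 : (1 - θ / 2) ^ (j + 2) ≤ 2 / 3 := by
    have h1 := pow_up (x := θ / 2) (by linarith) (by linarith) (j + 2)
    have h2 : (1 : ℝ) / 2 ≤ ((j + 2 : ℕ) : ℝ) * (θ / 2) := by
      have : 1 ≤ ((j : ℝ) + 2) * θ := by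
        calc (1 : ℝ) = ((j : ℝ) + 2) * (1 / ((j : ℝ) + 2)) := by field_simp
          _ ≤ ((j : ℝ) + 2) * θ := by gcongr
      push_cast
      linarith
    have h3 : 0 ≤ (1 - θ / 2) ^ (j + 2) := pow_nonneg (by linarith) _
    nlinarith
  have h34 : ∀ m : ℕ, 12 ≤ m → ((3 : ℝ) / 4) ^ m ≤ 1 / 12 := by
    intro m hm
    calc ((3 : ℝ) / 4) ^ m ≤ (3 / 4) ^ 12 := pow_le_pow_of_le_one (by norm_num) (by norm_num) hm
      _ ≤ 1 / 12 := by norm_num
  have hb0 : 0 ≤ 1 - θ / 2 := by linarith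
  have hb3 : 1 - θ / 2 ≤ 1 := by linarith
  refine ⟨G, i1, i2, i3, S, hsym, h0, hgen, hcard, ?_, ?_, ?_, ?_, ?_, ?_, ?_, ?_⟩
  · intro x
    have := hup (j + 2) x
    have := h34 (j + 2) (by omega)
    linarith
  · intro x
    have h1 := hup (4 * (j + 2)) x
    have h2 : (1 - θ / 2) ^ (4 * (j + 2)) ≤ (2 / 3) ^ 4 := by
      rw [mul_comm, pow_mul]
      exact pow_le_pow_left₀ (pow_nonneg hb0 _) hpj2 4
    have h3 : ((3 : ℝ) / 4) ^ (4 * (j + 2)) ≤ (3 / 4) ^ 48 :=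
      pow_le_pow_of_le_one (by norm_num) (by norm_num) (by omega)
    have h4 : ((2 : ℝ) / 3) ^ 4 + (3 / 4) ^ 48 ≤ 1 / 5 := by norm_num
    linarith
  · intro ε hε
    have hlim : Filter.Tendsto (fun n : ℕ => (1 - θ / 2) ^ n + (3 / 4 : ℝ) ^ n) Filter.atTop
        (nhds (0 + 0)) :=
      (tendsto_pow_atTop_nhds_zero_of_lt_one hb0 (by linarith)).add
        (tendsto_pow_atTop_nhds_zero_of_lt_one (by norm_num) (by norm_num))
    rw [add_zero] at hlim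
    obtain ⟨n, hn⟩ := (hlim.eventually (gt_mem_nhds hε)).exists
    exact ⟨n, fun x => (hup n x).trans hn.le⟩
  · intro t ht x
    have h1 := hlow t (by omega) x
    have h2 : (1 / 2 : ℝ) ^ 4 ≤ (1 - θ / 2) ^ t := by
      calc (1 / 2 : ℝ) ^ 4 ≤ ((1 - θ / 2) ^ j) ^ 4 := pow_le_pow_left₀ (by norm_num) hpj 4
        _ = (1 - θ / 2) ^ (4 * j) := by rw [← pow_mul, mul_comm]
        _ ≤ (1 - θ / 2) ^ t := pow_le_pow_of_le_one hb0 hb3 ht
    norm_num at h2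
    linarith
  · intro t ht x
    have h1 := hlow t (by omega) x
    have h2 : (1 - θ / 2) ^ j ≤ (1 - θ / 2) ^ t := pow_le_pow_of_le_one hb0 hb3 ht
    linarith
  · intro x
    have h1 := hlow 0 (by omega) x
    rw [pow_zero] at h1
    linarith
  · intro t ht x
    obtain ⟨y, hy⟩ := hsep (1 / 2) (by norm_num) (by norm_num) t (by omega) x
    rw [hb1] at hy
    refine ⟨y, ?_⟩
    have h2 : (1 / 2 : ℝ) ^ 20 ≤ (1 - θ / 2) ^ t := by
      calc (1 / 2 : ℝ) ^ 20 ≤ ((1 - θ / 2) ^ j) ^ 20 := pow_le_pow_left₀ (by norm_num) hpj 20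
        _ = (1 - θ / 2) ^ (20 * j) := by rw [← pow_mul, mul_comm]
        _ ≤ (1 - θ / 2) ^ t := pow_le_pow_of_le_one hb0 hb3 ht
    unfold lz
    linarith
  · intro f hf hs r hr
    exact lz_eig S hspec f hf hs r hr

end Pool.Agent.H16.TG
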