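import Pool.Agent.H16.TG7
import Pool.Agent.H16.CutDefs

set_option autoImplicit false
set_option linter.unusedSectionVars false
open Finset Matrix Filter Topology

namespace Pool.Agent.H16.Cut

open Pool.Agent.H16.TG (tv)

section one
variable {V : Type} [Fintype V] [DecidableEq V]

lemma tv_le (P : Matrix V V ℝ) (t : ℕ) (x : V) : tv (P ^ t) x ≤ tvDist P t :=
  le_ciSup (f := fun x : V => 1 / 2 * ∑ y : V, |(P ^ t) x y - 1 / (Fintype.card V : ℝ)|)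
    (Set.finite_range _).bddAbove x

lemma tvDist_le [Nonempty V] {P : Matrix V V ℝ} {t : ℕ} {c : ℝ} (h : ∀ x, tv (P ^ t) x ≤ c) :
    tvDist P t ≤ c := ciSup_le h

lemma tMix_le {P : Matrix V V ℝ} {t : ℕ} {ε : ℝ} (h : tvDist P t ≤ ε) : tMix P ε ≤ t :=
  Nat.sInf_le h

lemma lt_tMix {P : Matrix V V ℝ} {t : ℕ} {ε : ℝ} (hne : ∃ s, tvDist P s ≤ ε)
    (h : ∀ s ≤ t, ε < tvDist P s) : t < tMix P ε := by
  by_contra h2
  push Not at h2
  have h3 : tvDist P (tMix P ε) ≤ ε := Nat.sInf_mem (s := {t : ℕ | tvDist P t ≤ ε}) hne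
  exact absurd h3 (not_le.2 (h _ h2))

lemma lam2_le {P : Matrix V V ℝ} (h : ∀ f : V → ℝ, f ≠ 0 → ∑ x, f x = 0 → ∀ r : ℝ,
    P *ᵥ f = r • f → |2 * r - 1| ≤ 1 / 2) : lam2 P ≤ 3 / 4 := by
  unfold lam2
  rcases Set.eq_empty_or_nonempty {r : ℝ | ∃ f : V → ℝ, f ≠ 0 ∧ ∑ x, f x = 0 ∧ P *ᵥ f = r • f}
    with h0 | h0
  · rw [h0, Real.sSup_empty]; norm_num
  · refine csSup_le h0 ?_
    rintro r ⟨f, hf, hs, hr⟩
    have := (abs_le.1 (h f hf hs r hr)).2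
    linarith

end one

/-- no cutoff from the bounds on the individual chains -/
theorem no_cutoff (V : ℕ → Type) [∀ n, Fintype (V n)] [∀ n, DecidableEq (V n)]
    [∀ n, Nonempty (V n)] (P : ∀ n, Matrix (V n) (V n) ℝ)
    (h1 : ∀ n, ∀ x, tv (P n ^ (n + 10 + 2)) x ≤ 3 / 4)
    (h3 : ∀ n, ∀ ε : ℝ, 0 < ε → ∃ t, ∀ x, tv (P n ^ t) x ≤ ε)
    (h4 : ∀ n, ∀ t ≤ 4 * (n + 10), ∀ x, 1 / 20 < tv (P n ^ t) x)
    (h5 : ∀ n, ∀ t ≤ n + 10, ∀ x, 1 / 4 < tv (P n ^ t) x)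
    (h6 : ∀ n, ∀ x, 19 / 20 < tv (P n ^ 0) x)
    (h8 : ∀ n, ∀ f : V n → ℝ, f ≠ 0 → ∑ x, f x = 0 → ∀ r : ℝ, P n *ᵥ f = r • f →
      |2 * r - 1| ≤ 1 / 2) :
    Tendsto (fun n => (tMix (P n) (1 / 4) : ℝ) / tRel (P n)) atTop atTop ∧
    ∃ ε : ℝ, 0 < ε ∧ ε < 1 / 2 ∧
      ¬ Tendsto (fun n => (tMix (P n) ε : ℝ) / (tMix (P n) (1 - ε) : ℝ)) atTop (𝓝 1) := by
  have hx : ∀ n, ∃ x : V n, True := fun n => ⟨Classical.arbitrary _, trivial⟩
  have hne : ∀ n, ∀ ε : ℝ, 0 < ε → ∃ s, tvDist (P n) s ≤ ε := by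
    intro n ε hε
    obtain ⟨t, ht⟩ := h3 n ε hε
    exact ⟨t, tvDist_le ht⟩
  have hgt : ∀ n t (c : ℝ), (∀ x, c < tv (P n ^ t) x) → c < tvDist (P n) t := by
    intro n t c h
    obtain ⟨x, -⟩ := hx n
    exact (h x).trans_le (tv_le _ _ x)
  constructor
  · have hkey : ∀ n : ℕ, (n : ℝ) / 4 ≤ (tMix (P n) (1 / 4) : ℝ) / tRel (P n) := by
      intro n
      have ha : n + 10 < tMix (P n) (1 / 4) :=
        lt_tMix (hne n _ (by norm_num)) (fun s hs => hgt n s _ (h5 n s hs))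
      have hl := lam2_le (h8 n)
      have hb : (n : ℝ) ≤ tMix (P n) (1 / 4) := by
        have : n ≤ tMix (P n) (1 / 4) := by omega
        exact_mod_cast this
      rw [tRel, div_div_eq_mul_div, div_one]
      have : (0 : ℝ) ≤ n := by positivity
      nlinarith
    refine tendsto_atTop_mono hkey ?_
    exact Filter.Tendsto.atTop_div_const (by norm_num) tendsto_natCast_atTop_atTop
  · refine ⟨1 / 20, by norm_num, by norm_num, ?_⟩
    intro hlim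
    have hev : ∀ n : ℕ, (2 : ℝ) ≤ (tMix (P n) (1 / 20) : ℝ) / (tMix (P n) (1 - 1 / 20) : ℝ) := by
      intro n
      have ha : 4 * (n + 10) < tMix (P n) (1 / 20) :=
        lt_tMix (hne n _ (by norm_num)) (fun s hs => hgt n s _ (h4 n s hs))
      have hb : tMix (P n) (1 - 1 / 20) ≤ n + 10 + 2 :=
        tMix_le ((tvDist_le (h1 n)).trans (by norm_num))
      have hc : 0 < tMix (P n) (1 - 1 / 20) := by
        refine lt_tMix (hne n _ (by norm_num)) (fun s hs => ?_)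
        obtain rfl : s = 0 := by omega
        refine hgt n 0 _ (fun x => lt_of_le_of_lt (by norm_num) (h6 n x))
      have hcR : (0 : ℝ) < tMix (P n) (1 - 1 / 20) := by exact_mod_cast hc
      rw [le_div_iff₀ hcR]
      have : 2 * tMix (P n) (1 - 1 / 20) ≤ tMix (P n) (1 / 20) := by omega
      exact_mod_cast this
    have := ge_of_tendsto' hlim hev
    norm_num at this

end Pool.Agent.H16.Cut
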