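import Pool.Agent.H16.TG8

set_option autoImplicit false
set_option linter.unusedSectionVars false
open Finset Matrix Filter Topology

namespace Pool.Agent.H16.Cut

open Pool.Agent.H16.TG (tv lz W walk)

variable {G : Type} [AddCommGroup G] [Fintype G] [DecidableEq G]

lemma lazyCayley_eq (S : Finset G) : lazyCayley S = lz S := by
  ext x y
  simp only [lazyCayley, lz, W, walk, Matrix.add_apply, Matrix.smul_apply, smul_eq_mul,
    Matrix.one_apply]
  have : (x = y) ↔ (y = x) := eq_comm
  by_cases h : y = x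
  · subst h
    by_cases h2 : (0 : G) ∈ S
    · simp [h2]; ring
    · simp [h2]
  · have h' : x ≠ y := fun h3 => h h3.symm
    by_cases h2 : y - x ∈ S
    · simp [h, h', h2]
      ring
    · simp [h, h', h2]

/-- the Cayley graph -/
def cay (S : Finset G) (hS : ∀ s ∈ S, -s ∈ S) (h0 : (0 : G) ∉ S) : SimpleGraph G where
  Adj x y := y - x ∈ S
  symm := ⟨fun x y h => by have := hS _ h; simpa using this⟩
  loopless := ⟨fun x h => by simp at h; exact h0 h⟩

instance (S : Finset G) (hS : ∀ s ∈ S, -s ∈ S) (h0 : (0 : G) ∉ S) :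
    DecidableRel (cay S hS h0).Adj := fun x y => inferInstanceAs (Decidable (y - x ∈ S))

lemma cay_degree (S : Finset G) (hS : ∀ s ∈ S, -s ∈ S) (h0 : (0 : G) ∉ S) (x : G) :
    (cay S hS h0).degree x = S.card := by
  have : (cay S hS h0).neighborFinset x = S.map (Equiv.addRight x).toEmbedding := by
    ext y
    simp only [SimpleGraph.mem_neighborFinset, Finset.mem_map, Equiv.coe_toEmbedding, Equiv.coe_addRight]
    constructor
    · intro h
      exact ⟨y - x, h, by simp⟩
    · rintro ⟨s, hs, rfl⟩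
      change s + x - x ∈ S
      simpa using hs
  rw [← SimpleGraph.card_neighborFinset_eq_degree, this, card_map]

lemma lazyGraph_eq (S : Finset G) (hS : ∀ s ∈ S, -s ∈ S) (h0 : (0 : G) ∉ S) :
    lazyGraph (cay S hS h0) = lz S := by
  rw [← lazyCayley_eq]
  ext x y
  simp only [lazyGraph, lazyCayley, SimpleGraph.adjMatrix_apply, cay_degree, Matrix.one_apply]
  have e : (cay S hS h0).Adj x y ↔ y - x ∈ S := Iff.rfl
  simp only [e]
  by_cases h : y = x
  · subst h
    simp [h0]
  · have h' : x ≠ y := fun h3 => h h3.symm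
    by_cases h2 : y - x ∈ S
    · simp [h, h', h2]
      ring
    · simp [h, h', h2]

lemma cay_trans (S : Finset G) (hS : ∀ s ∈ S, -s ∈ S) (h0 : (0 : G) ∉ S) :
    IsVertexTransitive (cay S hS h0) := by
  intro x y
  refine ⟨⟨Equiv.addRight (y - x), ?_⟩, ?_⟩
  · intro a b
    change (b + (y - x)) - (a + (y - x)) ∈ S ↔ b - a ∈ S
    rw [add_sub_add_right_eq_sub]
  · change x + (y - x) = y
    abel

lemma cay_conn (S : Finset G) (hS : ∀ s ∈ S, -s ∈ S) (h0 : (0 : G) ∉ S)
    (hgen : ∀ g : G, ∃ a ∈ S, ∃ b ∈ S, g = a + b) : (cay S hS h0).Connected := by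
  have : Nonempty G := ⟨0⟩
  refine SimpleGraph.Connected.mk (fun x y => ?_)
  obtain ⟨a, ha, b, hb, hab⟩ := hgen (y - x)
  have h1 : (cay S hS h0).Adj x (x + a) := by
    change x + a - x ∈ S
    simpa using ha
  have h2 : (cay S hS h0).Adj (x + a) y := by
    change y - (x + a) ∈ S
    have : y - (x + a) = b := by
      have : y - (x + a) = (y - x) - a := by abel
      rw [this, hab]; abel
    rwa [this]
  exact h1.reachable.trans h2.reachable

lemma gen_closure (S : Finset G) (hgen : ∀ g : G, ∃ a ∈ S, ∃ b ∈ S, g = a + b) :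
    AddSubgroup.closure (S : Set G) = ⊤ := by
  rw [eq_top_iff]
  rintro g -
  obtain ⟨a, ha, b, hb, rfl⟩ := hgen g
  exact add_mem (AddSubgroup.subset_closure ha) (AddSubgroup.subset_closure hb)

/-- separation at time `2t` from total variation at time `t`, symmetric stochastic chains -/
lemma sep_le {V : Type} [Fintype V] [DecidableEq V] [Nonempty V] (P : Matrix V V ℝ)
    (hsym : P.IsSymm) (t : ℕ) (c : ℝ) (hc1 : c ≤ 1 / 2) (hc : ∀ x, tv (P ^ t) x ≤ c)
    (hrt : ∀ x, ∑ y, (P ^ t) x y = 1) (hnn : ∀ x y, 0 ≤ (P ^ t) x y) (x y : V) :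
    1 - (P ^ (2 * t)) x y / (1 / (Fintype.card V : ℝ)) ≤ 4 * c := by
  have hv : (0 : ℝ) < Fintype.card V := TG.cardpos
  have hsymt : (P ^ t).IsSymm := hsym.pow t
  set N : ℝ := (Fintype.card V : ℝ) with hN
  set Q := P ^ t with hQ
  have h1 : (P ^ (2 * t)) x y = ∑ z, Q x z * Q y z := by
    rw [two_mul, pow_add, Matrix.mul_apply]
    refine Finset.sum_congr rfl (fun z _ => ?_)
    have := hsymt.apply y z
    rw [← hQ, this]
  have hc0 : ∀ x, ∑ z, |Q x z - 1 / N| ≤ 2 * c := by
    intro x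
    have := hc x
    unfold tv at this
    linarith
  set m : V → ℝ := fun z => (Q x z + Q y z - |Q x z - Q y z|) / 2 with hm
  have hm1 : 1 - 2 * c ≤ ∑ z, m z := by
    have e1 : ∑ z, m z = (∑ z, Q x z + ∑ z, Q y z - ∑ z, |Q x z - Q y z|) / 2 := by
      rw [hm, ← Finset.sum_div, Finset.sum_sub_distrib, Finset.sum_add_distrib]
    have e2 : ∑ z, |Q x z - Q y z| ≤ ∑ z, |Q x z - 1 / N| + ∑ z, |Q y z - 1 / N| := by
      rw [← Finset.sum_add_distrib]
      refine Finset.sum_le_sum (fun z _ => ?_)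
      have := abs_sub (Q x z - 1 / N) (Q y z - 1 / N)
      have e3 : Q x z - 1 / N - (Q y z - 1 / N) = Q x z - Q y z := by ring
      rwa [e3] at this
    rw [e1, hrt, hrt]
    have := hc0 x
    have := hc0 y
    linarith
  have hm2 : ∀ z, m z ^ 2 ≤ Q x z * Q y z := by
    intro z
    have h2 := hnn x z
    have h3 := hnn y z
    simp only [hm]
    rcases le_total (Q x z) (Q y z) with h | h
    · rw [abs_of_nonpos (by linarith)]
      have : (Q x z + Q y z - -(Q x z - Q y z)) / 2 = Q x z := by ring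
      rw [this]; nlinarith
    · rw [abs_of_nonneg (by linarith)]
      have : (Q x z + Q y z - (Q x z - Q y z)) / 2 = Q y z := by ring
      rw [this]; nlinarith
  have hcs : (∑ z, m z) ^ 2 ≤ N * ∑ z, Q x z * Q y z := by
    have h4 := sq_sum_le_card_mul_sum_sq (s := (Finset.univ : Finset V)) (f := m)
    rw [Finset.card_univ] at h4
    refine h4.trans ?_
    rw [← hN]
    exact mul_le_mul_of_nonneg_left (Finset.sum_le_sum (fun z _ => hm2 z)) hv.le
  rw [h1, div_div_eq_mul_div, div_one, mul_comm _ N]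
  have h5 : (1 - 2 * c) ^ 2 ≤ (∑ z, m z) ^ 2 := pow_le_pow_left₀ (by linarith) hm1 2
  nlinarith [sq_nonneg c]

end Pool.Agent.H16.Cut
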