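import Pool.Agent.H16.TorusGeoDefs

set_option autoImplicit false

open Real

namespace Pool.Agent.H16.TorusGeo

/-! ### the example -/

/-- the matrix as a function of the angle -/
noncomputable def M (θ : ℝ) : Matrix (Fin 3) (Fin 3) ℝ :=
  !![-1, cos θ, sin θ; cos θ, sin θ ^ 2, -(cos θ * sin θ); sin θ, -(cos θ * sin θ), cos θ ^ 2]

noncomputable def M' (θ : ℝ) : Matrix (Fin 3) (Fin 3) ℝ :=
  !![0, -sin θ, cos θ; -sin θ, 2 * sin θ * cos θ, sin θ ^ 2 - cos θ ^ 2;
    cos θ, sin θ ^ 2 - cos θ ^ 2, -(2 * sin θ * cos θ)]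

theorem hM (i j : Fin 3) (θ : ℝ) : HasDerivAt (fun θ => M θ i j) (M' θ i j) θ := by
  have hs := hasDerivAt_sin θ
  have hc := hasDerivAt_cos θ
  fin_cases i <;> fin_cases j <;> simp only [M, M', Matrix.of_apply, Matrix.cons_val', Matrix.cons_val_zero,
    Matrix.cons_val_one, Matrix.cons_val, Fin.zero_eta, Fin.mk_one, Fin.reduceFinMk, Matrix.cons_val_fin_one]
  · exact hasDerivAt_const _ _
  · exact hc
  · exact hs
  · exact hc
  · exact (hs.pow 2).congr_deriv (by simp)
  · exact (hc.mul hs).neg.congr_deriv (by ring)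
  · exact hs
  · exact (hc.mul hs).neg.congr_deriv (by ring)
  · exact (hc.pow 2).congr_deriv (by simp; ring)

noncomputable def g (x : Fin 3 → ℝ) : Matrix (Fin 3) (Fin 3) ℝ := M (2 * π * x 0)

theorem pd_g (l i j : Fin 3) (x : Fin 3 → ℝ) :
    pd g l i j x = if l = 0 then 2 * π * M' (2 * π * x 0) i j else 0 := by
  have h1 : HasFDerivAt (fun y : Fin 3 → ℝ => 2 * π * y 0)
      ((2 * π) • (ContinuousLinearMap.proj 0 : (Fin 3 → ℝ) →L[ℝ] ℝ)) x := by
    exact ((ContinuousLinearMap.proj (R := ℝ) (φ := fun _ : Fin 3 => ℝ) 0).hasFDerivAt).const_mul (2 * π)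
  have h2 := (hM i j (2 * π * x 0)).comp_hasFDerivAt x h1
  unfold pd
  have h3 : (fun y => g y i j) = ((fun θ => M θ i j) ∘ fun y : Fin 3 → ℝ => 2 * π * y 0) := rfl
  rw [h3, h2.fderiv]
  by_cases hl : l = 0
  · subst hl
    simp
    ring
  · rw [if_neg hl]
    simp [Ne.symm hl]

theorem g_metric : IsMetric g := by
  refine ⟨?_, ?_, ?_, ?_⟩
  · intro i j
    have h0 : ContDiff ℝ (⊤ : ℕ∞) (fun x : Fin 3 → ℝ => 2 * π * x 0) :=
      contDiff_const.mul (contDiff_apply ℝ ℝ 0)
    have hs : ContDiff ℝ (⊤ : ℕ∞) (fun x : Fin 3 → ℝ => sin (2 * π * x 0)) := contDiff_sin.comp h0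
    have hc : ContDiff ℝ (⊤ : ℕ∞) (fun x : Fin 3 → ℝ => cos (2 * π * x 0)) := contDiff_cos.comp h0
    fin_cases i <;> fin_cases j <;> simp only [g, M, Matrix.of_apply, Matrix.cons_val', Matrix.cons_val_zero,
      Matrix.cons_val_one, Matrix.cons_val, Fin.zero_eta, Fin.mk_one, Fin.reduceFinMk, Matrix.cons_val_fin_one]
    · exact contDiff_const
    · exact hc
    · exact hs
    · exact hc
    · exact hs.pow 2
    · exact (hc.mul hs).neg
    · exact hs
    · exact (hc.mul hs).neg
    · exact hc.pow 2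
  · intro x i j
    fin_cases i <;> fin_cases j <;> rfl
  · intro x
    have h := sin_sq_add_cos_sq (2 * π * x 0)
    have : (g x).det = -1 := by
      unfold g M
      rw [Matrix.det_fin_three]
      simp only [Matrix.of_apply, Matrix.cons_val', Matrix.cons_val_zero,
        Matrix.cons_val_one, Matrix.cons_val, Matrix.cons_val_fin_one]
      generalize sin (2 * π * x 0) = s at *
      generalize cos (2 * π * x 0) = c at *
      linear_combination (-(s ^ 2 + c ^ 2) - 1) * h
    rw [this]; norm_num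
  · intro x m
    have h1 : 2 * π * (x 0 + (m 0 : ℝ)) = 2 * π * x 0 + (m 0 : ℤ) * (2 * π) := by ring
    unfold g M
    simp only [h1, sin_add_int_mul_two_pi, cos_add_int_mul_two_pi]

theorem g_indef : Indefinite g := by
  intro x
  have h := sin_sq_add_cos_sq (2 * π * x 0)
  constructor
  · refine ⟨![0, -sin (2 * π * x 0), cos (2 * π * x 0)], ?_⟩
    simp only [g, M, Fin.sum_univ_three, Matrix.of_apply, Matrix.cons_val', Matrix.cons_val_zero,
        Matrix.cons_val_one, Matrix.cons_val, Matrix.cons_val_fin_one]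
    generalize sin (2 * π * x 0) = s at *
    generalize cos (2 * π * x 0) = c at *
    have : -1 * 0 * 0 + c * 0 * -s + s * 0 * c + (c * -s * 0 + s ^ 2 * -s * -s + -(c * s) * -s * c) +
        (s * c * 0 + -(c * s) * c * -s + c ^ 2 * c * c) = 1 := by
      linear_combination (s ^ 2 + c ^ 2 + 1) * h
    rw [this]; norm_num
  · refine ⟨![1, 0, 0], ?_⟩
    simp only [g, M, Fin.sum_univ_three, Matrix.of_apply, Matrix.cons_val', Matrix.cons_val_zero,
        Matrix.cons_val_one, Matrix.cons_val, Matrix.cons_val_fin_one]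
    norm_num

theorem E0 (x v a : Fin 3 → ℝ) : ∑ j, g x 0 j * a j + ∑ i, ∑ j, chr g i j 0 x * v i * v j =
    -a 0 + cos (2 * π * x 0) * a 1 + sin (2 * π * x 0) * a 2 -
      2 * π * (sin (2 * π * x 0) * cos (2 * π * x 0) * (v 1 ^ 2 - v 2 ^ 2) +
        (sin (2 * π * x 0) ^ 2 - cos (2 * π * x 0) ^ 2) * v 1 * v 2) := by
  simp only [chr, pd_g, Fin.sum_univ_three, g, M, M', Matrix.of_apply, Matrix.cons_val', Matrix.cons_val_zero,
        Matrix.cons_val_one, Matrix.cons_val, Matrix.cons_val_fin_one, if_true,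
        show (1 : Fin 3) ≠ 0 by decide, show (2 : Fin 3) ≠ 0 by decide, if_false]
  ring

theorem E1 (x v a : Fin 3 → ℝ) : ∑ j, g x 1 j * a j + ∑ i, ∑ j, chr g i j 1 x * v i * v j =
    cos (2 * π * x 0) * a 0 + sin (2 * π * x 0) ^ 2 * a 1 - cos (2 * π * x 0) * sin (2 * π * x 0) * a 2 +
      2 * π * v 0 * (-sin (2 * π * x 0) * v 0 + 2 * sin (2 * π * x 0) * cos (2 * π * x 0) * v 1 +
        (sin (2 * π * x 0) ^ 2 - cos (2 * π * x 0) ^ 2) * v 2) := by
  simp only [chr, pd_g, Fin.sum_univ_three, g, M, M', Matrix.of_apply, Matrix.cons_val', Matrix.cons_val_zero,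
        Matrix.cons_val_one, Matrix.cons_val, Matrix.cons_val_fin_one, if_true,
        show (1 : Fin 3) ≠ 0 by decide, show (2 : Fin 3) ≠ 0 by decide, if_false]
  ring

theorem E2 (x v a : Fin 3 → ℝ) : ∑ j, g x 2 j * a j + ∑ i, ∑ j, chr g i j 2 x * v i * v j =
    sin (2 * π * x 0) * a 0 - cos (2 * π * x 0) * sin (2 * π * x 0) * a 1 + cos (2 * π * x 0) ^ 2 * a 2 +
      2 * π * v 0 * (cos (2 * π * x 0) * v 0 + (sin (2 * π * x 0) ^ 2 - cos (2 * π * x 0) ^ 2) * v 1 -
        2 * sin (2 * π * x 0) * cos (2 * π * x 0) * v 2) := by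
  simp only [chr, pd_g, Fin.sum_univ_three, g, M, M', Matrix.of_apply, Matrix.cons_val', Matrix.cons_val_zero,
        Matrix.cons_val_one, Matrix.cons_val, Matrix.cons_val_fin_one, if_true,
        show (1 : Fin 3) ≠ 0 by decide, show (2 : Fin 3) ≠ 0 by decide, if_false]
  ring

/-! ### all geodesics through vectors with `p ≠ 0`, `P ≠ 0` are unbounded -/

/-- the momenta -/
noncomputable def mx (x v : Fin 3 → ℝ) : ℝ := -v 0 + cos (2 * π * x 0) * v 1 + sin (2 * π * x 0) * v 2
noncomputable def my (x v : Fin 3 → ℝ) : ℝ :=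
  cos (2 * π * x 0) * v 0 + sin (2 * π * x 0) ^ 2 * v 1 - cos (2 * π * x 0) * sin (2 * π * x 0) * v 2
noncomputable def mz (x v : Fin 3 → ℝ) : ℝ :=
  sin (2 * π * x 0) * v 0 - cos (2 * π * x 0) * sin (2 * π * x 0) * v 1 + cos (2 * π * x 0) ^ 2 * v 2

theorem comp0 {γ v : ℝ → (Fin 3 → ℝ)} (h : ∀ t, HasDerivAt γ (v t) t) (i : Fin 3) (t : ℝ) :
    HasDerivAt (fun s => γ s i) (v t i) t := (hasDerivAt_pi.1 (h t)) i

theorem angle {γ v : ℝ → (Fin 3 → ℝ)} (h : ∀ t, HasDerivAt γ (v t) t) (t : ℝ) :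
    HasDerivAt (fun s => cos (2 * π * γ s 0)) (-sin (2 * π * γ t 0) * (2 * π * v t 0)) t ∧
    HasDerivAt (fun s => sin (2 * π * γ s 0)) (cos (2 * π * γ t 0) * (2 * π * v t 0)) t :=
  ⟨((comp0 h 0 t).const_mul (2 * π)).cos, ((comp0 h 0 t).const_mul (2 * π)).sin⟩

theorem my_deriv {γ v : ℝ → (Fin 3 → ℝ)} (h : IsGeodesic g γ v) (t : ℝ) :
    HasDerivAt (fun s => my (γ s) (v s)) 0 t := by
  obtain ⟨a, h1, h2, h3⟩ := h
  have hE := h3 t 1
  rw [E1] at hE
  obtain ⟨hc, hs⟩ := angle h1 t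
  have := ((hc.mul (comp0 h2 0 t)).add ((hs.pow 2).mul (comp0 h2 1 t))).sub
    ((hc.mul hs).mul (comp0 h2 2 t))
  refine this.congr_deriv ?_
  simp only [Nat.cast_ofNat, Nat.add_one_sub_one, pow_one, Pi.mul_apply, Pi.pow_apply]
  linear_combination hE

theorem mz_deriv {γ v : ℝ → (Fin 3 → ℝ)} (h : IsGeodesic g γ v) (t : ℝ) :
    HasDerivAt (fun s => mz (γ s) (v s)) 0 t := by
  obtain ⟨a, h1, h2, h3⟩ := h
  have hE := h3 t 2
  rw [E2] at hE
  obtain ⟨hc, hs⟩ := angle h1 t
  have := ((hs.mul (comp0 h2 0 t)).sub ((hc.mul hs).mul (comp0 h2 1 t))).add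
    ((hc.pow 2).mul (comp0 h2 2 t))
  refine this.congr_deriv ?_
  simp only [Nat.cast_ofNat, Nat.add_one_sub_one, pow_one, Pi.mul_apply, Pi.pow_apply]
  linear_combination hE

theorem mx_deriv {γ v : ℝ → (Fin 3 → ℝ)} (h : IsGeodesic g γ v) (t : ℝ) :
    HasDerivAt (fun s => mx (γ s) (v s)) (2 * π * (my (γ t) (v t) * sin (2 * π * γ t 0) -
      mz (γ t) (v t) * cos (2 * π * γ t 0)) * mx (γ t) (v t)) t := by
  obtain ⟨a, h1, h2, h3⟩ := h
  have hE := h3 t 0
  rw [E0] at hE
  obtain ⟨hc, hs⟩ := angle h1 t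
  have := ((comp0 h2 0 t).neg.add (hc.mul (comp0 h2 1 t))).add (hs.mul (comp0 h2 2 t))
  refine this.congr_deriv ?_
  have hsc := sin_sq_add_cos_sq (2 * π * γ t 0)
  simp only [mx, my, mz]
  generalize sin (2 * π * γ t 0) = s at *
  generalize cos (2 * π * γ t 0) = c at *
  generalize v t 0 = v0 at *
  generalize v t 1 = v1 at *
  generalize v t 2 = v2 at *
  linear_combination hE + (2 * π) * ((c * v1 + s * v2 - v0) * (c * v2 - s * v1)) * hsc

theorem vel0 (x v : Fin 3 → ℝ) : v 0 = my x v * cos (2 * π * x 0) + mz x v * sin (2 * π * x 0) := by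
  have hsc := sin_sq_add_cos_sq (2 * π * x 0)
  simp only [my, mz]
  linear_combination (-v 0) * hsc

theorem vel1 (x v : Fin 3 → ℝ) : v 1 = mx x v * cos (2 * π * x 0) + my x v := by
  have hsc := sin_sq_add_cos_sq (2 * π * x 0)
  simp only [my, mx]
  linear_combination (-v 1) * hsc

theorem vel2 (x v : Fin 3 → ℝ) : v 2 = mx x v * sin (2 * π * x 0) + mz x v := by
  have hsc := sin_sq_add_cos_sq (2 * π * x 0)
  simp only [mz, mx]
  linear_combination (-v 2) * hsc

theorem exp_unbdd {f : ℝ → ℝ} {l C : ℝ} (hl : l ≠ 0) (hf : ∀ t, HasDerivAt f (l * f t) t)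
    (hC : ∀ t, |f t| ≤ C) : f 0 = 0 := by
  have h1 : ∀ t, HasDerivAt (fun s => f s * exp (-(l * s))) 0 t := by
    intro t
    have h2 : HasDerivAt (fun s => exp (-(l * s))) (exp (-(l * t)) * (-(l * 1))) t :=
      (((hasDerivAt_id t).const_mul l).neg).exp
    exact ((hf t).mul h2).congr_deriv (by ring)
  have h2 : ∀ t, f t = f 0 * exp (l * t) := by
    intro t
    have h3 := is_const_of_deriv_eq_zero (fun s => (h1 s).differentiableAt)
      (fun s => (h1 s).deriv) t 0
    simp only [mul_zero, neg_zero, exp_zero, mul_one] at h3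
    rw [← h3, mul_assoc, ← exp_add, neg_add_cancel, exp_zero, mul_one]
  by_contra hne
  have hpos : 0 < |f 0| := abs_pos.2 hne
  have h3 := hC ((C / |f 0|) / l)
  rw [h2, abs_mul, abs_of_pos (exp_pos _), mul_div_cancel₀ _ hl] at h3
  have h4 := add_one_le_exp (C / |f 0|)
  have h5 : |f 0| * (C / |f 0| + 1) ≤ C := (mul_le_mul_of_nonneg_left h4 hpos.le).trans h3
  rw [mul_add, mul_div_cancel₀ _ hpos.ne'] at h5
  linarith

theorem unbounded {γ v : ℝ → (Fin 3 → ℝ)} (h : IsGeodesic g γ v) (hx : mx (γ 0) (v 0) ≠ 0)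
    (hy : my (γ 0) (v 0) ≠ 0) (R : ℝ) : ∃ t, R < ‖v t‖ := by
  by_contra hcon
  push Not at hcon
  have hP : ∀ t, my (γ t) (v t) = my (γ 0) (v 0) := fun t =>
    is_const_of_deriv_eq_zero (fun s => (my_deriv h s).differentiableAt)
      (fun s => (my_deriv h s).deriv) t 0
  have hQ : ∀ t, mz (γ t) (v t) = mz (γ 0) (v 0) := fun t =>
    is_const_of_deriv_eq_zero (fun s => (mz_deriv h s).differentiableAt)
      (fun s => (mz_deriv h s).deriv) t 0
  set P := my (γ 0) (v 0) with hPdef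
  set Q := mz (γ 0) (v 0) with hQdef
  set r := √(P ^ 2 + Q ^ 2) with hr
  have hPQ : 0 < P ^ 2 + Q ^ 2 := by positivity
  have hrpos : 0 < r := Real.sqrt_pos.2 hPQ
  have hr2 : r ^ 2 = P ^ 2 + Q ^ 2 := Real.sq_sqrt hPQ.le
  have hγ : ∀ t, HasDerivAt γ (v t) t := h.choose_spec.1
  let W : ℝ → ℝ := fun t => P * sin (2 * π * γ t 0) - Q * cos (2 * π * γ t 0)
  have hv0 : ∀ t, v t 0 = P * cos (2 * π * γ t 0) + Q * sin (2 * π * γ t 0) := by
    intro t
    rw [vel0 (γ t) (v t), hP, hQ]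
  have hW2 : ∀ t, v t 0 ^ 2 = r ^ 2 - W t ^ 2 := by
    intro t
    have hsc := sin_sq_add_cos_sq (2 * π * γ t 0)
    rw [hv0, hr2]
    simp only [W]
    linear_combination (P ^ 2 + Q ^ 2) * hsc
  have hW : ∀ t, HasDerivAt W (2 * π * (r ^ 2 - W t ^ 2)) t := by
    intro t
    obtain ⟨hc, hs⟩ := angle hγ t
    refine ((hs.const_mul P).sub (hc.const_mul Q)).congr_deriv ?_
    rw [← hW2, hv0]
    ring
  have hp : ∀ t, HasDerivAt (fun s => mx (γ s) (v s)) (2 * π * W t * mx (γ t) (v t)) t := by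
    intro t
    have := mx_deriv h t
    rw [hP, hQ] at this
    exact this
  have hA : ∀ t, HasDerivAt (fun s => mx (γ s) (v s) * (W s + r))
      ((2 * π * r) * (mx (γ t) (v t) * (W t + r))) t := by
    intro t
    exact ((hp t).mul ((hW t).add_const r)).congr_deriv (by ring)
  have hB : ∀ t, HasDerivAt (fun s => mx (γ s) (v s) * (W s - r))
      ((-(2 * π * r)) * (mx (γ t) (v t) * (W t - r))) t := by
    intro t
    exact ((hp t).mul ((hW t).sub_const r)).congr_deriv (by ring)
  have hWb : ∀ t, |W t| ≤ r := by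
    intro t
    apply abs_le_of_sq_le_sq _ hrpos.le
    nlinarith [hW2 t, sq_nonneg (v t 0)]
  have hmx : ∀ t, |mx (γ t) (v t)| ≤ 3 * R := by
    intro t
    have h0 := (norm_le_pi_norm (v t) 0).trans (hcon t)
    have h1 := (norm_le_pi_norm (v t) 1).trans (hcon t)
    have h2 := (norm_le_pi_norm (v t) 2).trans (hcon t)
    rw [Real.norm_eq_abs] at h0 h1 h2
    have hc := abs_cos_le_one (2 * π * γ t 0)
    have hs := abs_sin_le_one (2 * π * γ t 0)
    have e1 : |cos (2 * π * γ t 0) * v t 1| ≤ R := by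
      rw [abs_mul]
      nlinarith [abs_nonneg (v t 1), abs_nonneg (cos (2 * π * γ t 0))]
    have e2 : |sin (2 * π * γ t 0) * v t 2| ≤ R := by
      rw [abs_mul]
      nlinarith [abs_nonneg (v t 2), abs_nonneg (sin (2 * π * γ t 0))]
    unfold mx
    refine (abs_add_le _ _).trans ?_
    refine (add_le_add_left (abs_add_le _ _) _).trans ?_
    rw [abs_neg]
    linarith
  have hRnn : 0 ≤ R := (norm_nonneg _).trans (hcon 0)
  have b1 : ∀ t, |mx (γ t) (v t) * (W t + r)| ≤ 3 * R * (r + r) := by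
    intro t
    rw [abs_mul]
    have e1 : |W t + r| ≤ r + r := (abs_add_le _ _).trans (by rw [abs_of_pos hrpos]; linarith [hWb t])
    exact mul_le_mul (hmx t) e1 (abs_nonneg _) (by positivity)
  have b2 : ∀ t, |mx (γ t) (v t) * (W t - r)| ≤ 3 * R * (r + r) := by
    intro t
    rw [abs_mul]
    have e1 : |W t - r| ≤ r + r := (abs_sub _ _).trans (by rw [abs_of_pos hrpos]; linarith [hWb t])
    exact mul_le_mul (hmx t) e1 (abs_nonneg _) (by positivity)
  have hk : 2 * π * r ≠ 0 := by positivity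
  have z1 := exp_unbdd hk hA b1
  have z2 := exp_unbdd (neg_ne_zero.2 hk) hB b2
  have z3 : mx (γ 0) (v 0) * (2 * r) = 0 := by linear_combination z1 - z2
  rcases mul_eq_zero.1 z3 with h1 | h1
  · exact hx h1
  · linarith

/-! ### the exceptional set is a null set -/

open MeasureTheory

theorem hyper_null (c : Fin 3 → ℝ) (hc : c ≠ 0) :
    volume {v : Fin 3 → ℝ | c 0 * v 0 + c 1 * v 1 + c 2 * v 2 = 0} = 0 := by
  let S : Submodule ℝ (Fin 3 → ℝ) :=
    { carrier := {v : Fin 3 → ℝ | c 0 * v 0 + c 1 * v 1 + c 2 * v 2 = 0}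
      add_mem' := by
        intro a b ha hb
        simp only [Set.mem_ofPred_eq, Pi.add_apply] at *
        linear_combination ha + hb
      zero_mem' := by simp
      smul_mem' := by
        intro k a ha
        simp only [Set.mem_ofPred_eq, Pi.smul_apply, smul_eq_mul] at *
        linear_combination k * ha }
  have hS : S ≠ ⊤ := by
    intro h
    have h1 : c ∈ S := by rw [h]; trivial
    have h2 : c 0 * c 0 + c 1 * c 1 + c 2 * c 2 = 0 := h1
    apply hc
    funext i
    fin_cases i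
    · show c 0 = 0
      nlinarith [mul_self_nonneg (c 0), mul_self_nonneg (c 1), mul_self_nonneg (c 2)]
    · show c 1 = 0
      nlinarith [mul_self_nonneg (c 0), mul_self_nonneg (c 1), mul_self_nonneg (c 2)]
    · show c 2 = 0
      nlinarith [mul_self_nonneg (c 0), mul_self_nonneg (c 1), mul_self_nonneg (c 2)]
  exact Measure.addHaar_submodule volume S hS

theorem ae_of_lin (c : (Fin 3 → ℝ) → (Fin 3 → ℝ)) (hcont : Continuous c) (hc : ∀ x, c x ≠ 0) :
    ∀ᵐ q : (Fin 3 → ℝ) × (Fin 3 → ℝ),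
      c q.1 0 * q.2 0 + c q.1 1 * q.2 1 + c q.1 2 * q.2 2 ≠ 0 := by
  rw [ae_iff]
  simp only [ne_eq, not_not]
  have hcl : IsClosed {q : (Fin 3 → ℝ) × (Fin 3 → ℝ) |
      c q.1 0 * q.2 0 + c q.1 1 * q.2 1 + c q.1 2 * q.2 2 = 0} := by
    apply isClosed_eq _ continuous_const
    have h1 : ∀ i, Continuous (fun q : (Fin 3 → ℝ) × (Fin 3 → ℝ) => c q.1 i) := fun i =>
      (continuous_apply i).comp (hcont.comp continuous_fst)
    have h2 : ∀ i, Continuous (fun q : (Fin 3 → ℝ) × (Fin 3 → ℝ) => q.2 i) := fun i =>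
      (continuous_apply i).comp continuous_snd
    exact (((h1 0).mul (h2 0)).add ((h1 1).mul (h2 1))).add ((h1 2).mul (h2 2))
  have := (Measure.measure_prod_null (μ := (volume : Measure (Fin 3 → ℝ)))
    (ν := (volume : Measure (Fin 3 → ℝ))) hcl.measurableSet).2
    (Filter.Eventually.of_forall fun x => hyper_null (c x) (hc x))
  exact this

theorem ae_good : ∀ᵐ q : (Fin 3 → ℝ) × (Fin 3 → ℝ), mx q.1 q.2 ≠ 0 ∧ my q.1 q.2 ≠ 0 := by
  have hcs : Continuous (fun x : Fin 3 → ℝ => cos (2 * π * x 0)) :=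
    continuous_cos.comp (continuous_const.mul (continuous_apply 0))
  have hsn : Continuous (fun x : Fin 3 → ℝ => sin (2 * π * x 0)) :=
    continuous_sin.comp (continuous_const.mul (continuous_apply 0))
  have h1 := ae_of_lin (fun x => ![-1, cos (2 * π * x 0), sin (2 * π * x 0)])
    (by
      apply continuous_pi
      intro i
      fin_cases i
      · exact continuous_const
      · exact hcs
      · exact hsn)
    (by
      intro x h
      have := congrFun h 0
      simp at this)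
  have h2 := ae_of_lin (fun x => ![cos (2 * π * x 0), sin (2 * π * x 0) ^ 2,
      -(cos (2 * π * x 0) * sin (2 * π * x 0))])
    (by
      apply continuous_pi
      intro i
      fin_cases i
      · exact hcs
      · exact hsn.pow 2
      · exact (hcs.mul hsn).neg)
    (by
      intro x h
      have e0 := congrFun h 0
      have e1 := congrFun h 1
      simp only [Matrix.cons_val_zero, Matrix.cons_val_one, Pi.zero_apply] at e0 e1
      have := sin_sq_add_cos_sq (2 * π * x 0)
      rw [e0, e1] at this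
      norm_num at this)
  filter_upwards [h1, h2] with q e1 e2
  refine ⟨fun h => e1 ?_, fun h => e2 ?_⟩
  · rw [← h]
    simp only [mx, Matrix.cons_val_zero, Matrix.cons_val_one, Matrix.cons_val]
    ring
  · rw [← h]
    simp only [my, Matrix.cons_val_zero, Matrix.cons_val_one, Matrix.cons_val]
    ring

/-! ### completeness -/

theorem exists_angle (k : ℝ) (θ₀ : ℝ) : ∃ φ D : ℝ → ℝ, φ 0 = θ₀ ∧ D 0 = 1 ∧
    (∀ t, HasDerivAt φ (k * cos (φ t)) t) ∧ ∀ t, HasDerivAt D (k * sin (φ t) * D t) t := by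
  let S0 := sin θ₀
  let C0 := cos θ₀
  let D : ℝ → ℝ := fun t => cosh (k * t) + S0 * sinh (k * t)
  let N : ℝ → ℝ := fun t => sinh (k * t) + S0 * cosh (k * t)
  have hSC : S0 ^ 2 + C0 ^ 2 = 1 := sin_sq_add_cos_sq θ₀
  have hDpos : ∀ t, 0 < D t := by
    intro t
    have h1 : |S0| ≤ 1 := abs_sin_le_one θ₀
    have h2 : |sinh (k * t)| < cosh (k * t) := by
      apply abs_lt_of_sq_lt_sq _ (cosh_pos _).le
      nlinarith [cosh_sq (k * t)]
    have h3 : |S0 * sinh (k * t)| ≤ |sinh (k * t)| := by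
      rw [abs_mul]
      nlinarith [abs_nonneg (sinh (k * t))]
    have h4 := neg_abs_le (S0 * sinh (k * t))
    show 0 < cosh (k * t) + S0 * sinh (k * t)
    linarith
  have hkt : ∀ t : ℝ, HasDerivAt (fun s : ℝ => k * s) k t := by
    intro t
    simpa using (hasDerivAt_id t).const_mul k
  have hD : ∀ t, HasDerivAt D (k * N t) t := by
    intro t
    exact ((hkt t).cosh.add ((hkt t).sinh.const_mul S0)).congr_deriv (by simp only [N]; ring)
  have hN : ∀ t, HasDerivAt N (k * D t) t := by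
    intro t
    exact ((hkt t).sinh.add ((hkt t).cosh.const_mul S0)).congr_deriv (by simp only [D]; ring)
  have hDN : ∀ t, D t ^ 2 - N t ^ 2 = C0 ^ 2 := by
    intro t
    simp only [D, N]
    have h := cosh_sq (k * t)
    linear_combination (1 - S0 ^ 2) * h - hSC
  let C : ℝ → ℝ := fun t => C0 / D t
  let S : ℝ → ℝ := fun t => N t / D t
  have hC : ∀ t, HasDerivAt C (-(k * C t * S t)) t := by
    intro t
    refine ((hasDerivAt_const t C0).div (hD t) (hDpos t).ne').congr_deriv ?_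
    have := (hDpos t).ne'
    simp only [C, S]
    field_simp
    ring
  have hS : ∀ t, HasDerivAt S (k * C t ^ 2) t := by
    intro t
    refine ((hN t).div (hD t) (hDpos t).ne').congr_deriv ?_
    have h1 := (hDpos t).ne'
    have h2 := hDN t
    simp only [C]
    field_simp
    linear_combination k * h2
  have hCcont : Continuous C := continuous_iff_continuousAt.2 fun t => (hC t).continuousAt
  let φ : ℝ → ℝ := fun t => θ₀ + ∫ s in (0 : ℝ)..t, k * C s
  have hφ : ∀ t, HasDerivAt φ (k * C t) t := by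
    intro t
    exact ((continuous_const.mul hCcont).integral_hasStrictDerivAt 0 t).hasDerivAt.const_add θ₀
  have hφ0 : φ 0 = θ₀ := by simp [φ]
  have hD0 : D 0 = 1 := by simp [D]
  have hCS1 : ∀ t, C t ^ 2 + S t ^ 2 = 1 := by
    intro t
    have h1 := (hDpos t).ne'
    have h2 := hDN t
    simp only [C, S]
    field_simp
    linear_combination -h2
  have hK : ∀ t, cos (φ t) * C t + sin (φ t) * S t = 1 := by
    have h1 : ∀ t, HasDerivAt (fun s => cos (φ s) * C s + sin (φ s) * S s) 0 t := by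
      intro t
      exact (((hφ t).cos.mul (hC t)).add ((hφ t).sin.mul (hS t))).congr_deriv (by ring)
    intro t
    have h2 := is_const_of_deriv_eq_zero (fun s => (h1 s).differentiableAt)
      (fun s => (h1 s).deriv) t 0
    rw [h2, hφ0]
    have h3 : C 0 = cos θ₀ := by simp [C, D, C0]
    have h4 : S 0 = sin θ₀ := by simp [S, D, N, S0]
    rw [h3, h4]
    have := sin_sq_add_cos_sq θ₀
    linear_combination this
  have hcos : ∀ t, cos (φ t) = C t ∧ sin (φ t) = S t := by
    intro t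
    have h1 := hK t
    have h2 := hCS1 t
    have h3 := sin_sq_add_cos_sq (φ t)
    have h4 : (cos (φ t) - C t) ^ 2 + (sin (φ t) - S t) ^ 2 = 0 := by linear_combination h2 + h3 - 2 * h1
    constructor
    · nlinarith [sq_nonneg (cos (φ t) - C t), sq_nonneg (sin (φ t) - S t)]
    · nlinarith [sq_nonneg (cos (φ t) - C t), sq_nonneg (sin (φ t) - S t)]
  refine ⟨φ, D, hφ0, hD0, fun t => by rw [(hcos t).1]; exact hφ t, fun t => ?_⟩
  rw [(hcos t).2]
  refine (hD t).congr_deriv ?_
  have := (hDpos t).ne'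
  simp only [S]
  field_simp

theorem complete : Complete g := by
  intro x w
  obtain ⟨P, hP⟩ : ∃ P, P = my x w := ⟨_, rfl⟩
  obtain ⟨Q, hQ⟩ : ∃ Q, Q = mz x w := ⟨_, rfl⟩
  obtain ⟨r, ψ, hrP, hrQ⟩ : ∃ r ψ : ℝ, P = r * cos ψ ∧ Q = r * sin ψ :=
    ⟨‖(⟨P, Q⟩ : ℂ)‖, Complex.arg ⟨P, Q⟩, (Complex.norm_mul_cos_arg ⟨P, Q⟩).symm,
      (Complex.norm_mul_sin_arg ⟨P, Q⟩).symm⟩
  obtain ⟨φ, D, hφ0, hD0, hφ, hD⟩ := exists_angle (2 * π * r) (2 * π * x 0 - ψ)
  have hπ : (2 * π : ℝ) ≠ 0 := by positivity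
  let X : ℝ → ℝ := fun t => (φ t + ψ) / (2 * π)
  have hX2 : ∀ t, 2 * π * X t = φ t + ψ := by
    intro t
    simp only [X]
    field_simp
  have hφX : ∀ t, φ t = 2 * π * X t - ψ := by
    intro t
    rw [hX2]; ring
  have hX : ∀ t, HasDerivAt X (P * cos (2 * π * X t) + Q * sin (2 * π * X t)) t := by
    intro t
    refine (((hφ t).add_const ψ).div_const (2 * π)).congr_deriv ?_
    rw [hφX, cos_sub, hrP, hrQ]
    field_simp
  let p : ℝ → ℝ := fun t => mx x w * D t
  have hp : ∀ t, HasDerivAt p (2 * π * (P * sin (2 * π * X t) - Q * cos (2 * π * X t)) * p t) t := by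
    intro t
    refine ((hD t).const_mul (mx x w)).congr_deriv ?_
    rw [hφX, sin_sub, hrP, hrQ]
    simp only [p]
    ring
  have hXc : Continuous X := continuous_iff_continuousAt.2 fun t => (hX t).continuousAt
  have hpc : Continuous p := continuous_iff_continuousAt.2 fun t => (hp t).continuousAt
  have hcc : Continuous (fun t => cos (2 * π * X t)) := continuous_cos.comp (continuous_const.mul hXc)
  have hsc : Continuous (fun t => sin (2 * π * X t)) := continuous_sin.comp (continuous_const.mul hXc)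
  let Y : ℝ → ℝ := fun t => x 1 + ∫ s in (0 : ℝ)..t, (p s * cos (2 * π * X s) + P)
  let Z : ℝ → ℝ := fun t => x 2 + ∫ s in (0 : ℝ)..t, (p s * sin (2 * π * X s) + Q)
  have hY : ∀ t, HasDerivAt Y (p t * cos (2 * π * X t) + P) t := by
    intro t
    exact (((hpc.mul hcc).add continuous_const).integral_hasStrictDerivAt 0 t).hasDerivAt.const_add _
  have hZ : ∀ t, HasDerivAt Z (p t * sin (2 * π * X t) + Q) t := by
    intro t
    exact (((hpc.mul hsc).add continuous_const).integral_hasStrictDerivAt 0 t).hasDerivAt.const_add _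
  let u : ℝ → ℝ := fun t => P * cos (2 * π * X t) + Q * sin (2 * π * X t)
  have hcd : ∀ t, HasDerivAt (fun s => cos (2 * π * X s)) (-sin (2 * π * X t) * (2 * π * u t)) t :=
    fun t => ((hX t).const_mul (2 * π)).cos
  have hsd : ∀ t, HasDerivAt (fun s => sin (2 * π * X s)) (cos (2 * π * X t) * (2 * π * u t)) t :=
    fun t => ((hX t).const_mul (2 * π)).sin
  have hX0 : X 0 = x 0 := by
    simp only [X]
    rw [hφ0]
    field_simp
    ring
  have hp0 : p 0 = mx x w := by simp only [p]; rw [hD0, mul_one]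
  refine ⟨fun t => ![X t, Y t, Z t], fun t => ![u t, p t * cos (2 * π * X t) + P,
    p t * sin (2 * π * X t) + Q],
    ⟨fun t => ![2 * π * u t * (Q * cos (2 * π * X t) - P * sin (2 * π * X t)),
      2 * π * (P * sin (2 * π * X t) - Q * cos (2 * π * X t)) * p t * cos (2 * π * X t) +
        p t * (-sin (2 * π * X t) * (2 * π * u t)),
      2 * π * (P * sin (2 * π * X t) - Q * cos (2 * π * X t)) * p t * sin (2 * π * X t) +
        p t * (cos (2 * π * X t) * (2 * π * u t))], ?_, ?_, ?_⟩, ?_, ?_⟩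
  · intro t
    rw [hasDerivAt_pi]
    intro i
    fin_cases i
    · exact hX t
    · exact hY t
    · exact hZ t
  · intro t
    rw [hasDerivAt_pi]
    intro i
    fin_cases i
    · exact (((hcd t).const_mul P).add ((hsd t).const_mul Q)).congr_deriv (by simp only [Fin.zero_eta, Matrix.cons_val_zero]; ring)
    · exact ((hp t).mul (hcd t)).add_const P
    · exact ((hp t).mul (hsd t)).add_const Q
  · intro t k
    have hh := sin_sq_add_cos_sq (2 * π * X t)
    fin_cases k
    · show ∑ j, g _ 0 j * _ + ∑ i, ∑ j, chr g i j 0 _ * _ * _ = _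
      rw [E0]
      simp only [Matrix.cons_val_zero, Matrix.cons_val_one, Matrix.cons_val, u]
      generalize sin (2 * π * X t) = s at *
      generalize cos (2 * π * X t) = c at *
      generalize p t = p at *
      ring
    · show ∑ j, g _ 1 j * _ + ∑ i, ∑ j, chr g i j 1 _ * _ * _ = _
      rw [E1]
      simp only [Matrix.cons_val_zero, Matrix.cons_val_one, Matrix.cons_val, u]
      generalize sin (2 * π * X t) = s at *
      generalize cos (2 * π * X t) = c at *
      generalize p t = p at *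
      ring
    · show ∑ j, g _ 2 j * _ + ∑ i, ∑ j, chr g i j 2 _ * _ * _ = _
      rw [E2]
      simp only [Matrix.cons_val_zero, Matrix.cons_val_one, Matrix.cons_val, u]
      generalize sin (2 * π * X t) = s at *
      generalize cos (2 * π * X t) = c at *
      generalize p t = p at *
      ring
  · funext i
    fin_cases i
    · exact hX0
    · simp [Y]
    · simp [Z]
  · have e0 := vel0 x w
    have e1 := vel1 x w
    have e2 := vel2 x w
    funext i
    fin_cases i
    · simp only [Fin.zero_eta, Matrix.cons_val_zero, u]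
      rw [hX0, e0, hP, hQ]
    · simp only [Fin.mk_one, Matrix.cons_val_one, Matrix.cons_val_zero]
      rw [hX0, e1, hP, hp0]
    · simp only [Fin.reduceFinMk, Matrix.cons_val]
      rw [hX0, e2, hQ, hp0]

end Pool.Agent.H16.TorusGeo
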