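import Mathlib

set_option autoImplicit false

namespace Pool.Agent.H16.TorusGeo

/-- A smooth semi-Riemannian metric on the torus `ℝⁿ/ℤⁿ`, given by its matrix `g x` at the points
`x` of `ℝⁿ`: smooth, symmetric, nondegenerate and invariant under the translations by `ℤⁿ`. -/
structure IsMetric {n : ℕ} (g : (Fin n → ℝ) → Matrix (Fin n) (Fin n) ℝ) : Prop where
  smooth : ∀ i j, ContDiff ℝ (⊤ : ℕ∞) (fun x => g x i j)
  symm : ∀ x i j, g x i j = g x j i
  nondeg : ∀ x, (g x).det ≠ 0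
  periodic : ∀ (x : Fin n → ℝ) (m : Fin n → ℤ), g (fun i => x i + m i) = g x

/-- `g` is indefinite at every point. -/
def Indefinite {n : ℕ} (g : (Fin n → ℝ) → Matrix (Fin n) (Fin n) ℝ) : Prop :=
  ∀ x, (∃ v : Fin n → ℝ, 0 < ∑ i, ∑ j, g x i j * v i * v j) ∧
    ∃ v : Fin n → ℝ, ∑ i, ∑ j, g x i j * v i * v j < 0

/-- the partial derivative `∂_l g_{ij}` at `x` -/
noncomputable def pd {n : ℕ} (g : (Fin n → ℝ) → Matrix (Fin n) (Fin n) ℝ) (l i j : Fin n)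
    (x : Fin n → ℝ) : ℝ := fderiv ℝ (fun y => g y i j) x (Pi.single l 1)

/-- the Christoffel symbol of the first kind `[ij,k] = (∂_i g_{jk} + ∂_j g_{ik} - ∂_k g_{ij})/2` of
the Levi-Civita connection -/
noncomputable def chr {n : ℕ} (g : (Fin n → ℝ) → Matrix (Fin n) (Fin n) ℝ) (i j k : Fin n)
    (x : Fin n → ℝ) : ℝ := (pd g i j k x + pd g j i k x - pd g k i j x) / 2

/-- `γ : ℝ → ℝⁿ` is (the lift of) a geodesic with velocity `v`: with `a = v'` the geodesic equation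
`∑_j g_{kj} a_j + ∑_{i,j} [ij,k] v_i v_j = 0` holds for all `k` and all times. -/
def IsGeodesic {n : ℕ} (g : (Fin n → ℝ) → Matrix (Fin n) (Fin n) ℝ) (γ v : ℝ → (Fin n → ℝ)) :
    Prop :=
  ∃ a : ℝ → (Fin n → ℝ), (∀ t, HasDerivAt γ (v t) t) ∧ (∀ t, HasDerivAt v (a t) t) ∧
    ∀ t k, ∑ j, g (γ t) k j * a t j + ∑ i, ∑ j, chr g i j k (γ t) * v t i * v t j = 0

/-- geodesic completeness: every tangent vector `(x, w)` is the initial vector of a geodesic defined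
on all of `ℝ` -/
def Complete {n : ℕ} (g : (Fin n → ℝ) → Matrix (Fin n) (Fin n) ℝ) : Prop :=
  ∀ x w : Fin n → ℝ, ∃ γ v : ℝ → (Fin n → ℝ), IsGeodesic g γ v ∧ γ 0 = x ∧ v 0 = w

end Pool.Agent.H16.TorusGeo
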