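import Pool.Agent.H16.WKDefs

set_option autoImplicit false
open Set Filter Topology
open scoped ENNReal ContDiff

namespace Pool.Agent.H16.WK

/-- `R_α(x) = √(4 sin²(πx) + 2α)` -/
noncomputable def R (α x : ℝ) : ℝ := √(4 * Real.sin (Real.pi * x) ^ 2 + 2 * α)

/-- `A_α = ∫₀¹ R_α` -/
noncomputable def A (α : ℝ) : ℝ := ∫ x in (0 : ℝ)..1, R α x

/-- the Hamiltonian -/
noncomputable def ham (b x p : ℝ) : ℝ := (p - b) ^ 2 / 2 - 2 * Real.sin (Real.pi * x) ^ 2

lemma R_cont (α : ℝ) : Continuous (R α) := by unfold R; fun_prop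

lemma R_nonneg (α x : ℝ) : 0 ≤ R α x := Real.sqrt_nonneg _

lemma R_sq {α : ℝ} (hα : 0 ≤ α) (x : ℝ) : R α x ^ 2 = 4 * Real.sin (Real.pi * x) ^ 2 + 2 * α := by
  unfold R; rw [Real.sq_sqrt]; positivity

lemma sin_sq_periodic (x : ℝ) : Real.sin (Real.pi * (x + 1)) ^ 2 = Real.sin (Real.pi * x) ^ 2 := by
  rw [mul_add, mul_one, Real.sin_add_pi]; ring

lemma R_periodic (α : ℝ) : Function.Periodic (R α) 1 := by
  intro x; unfold R; rw [sin_sq_periodic]

lemma R_int (α : ℝ) (a b : ℝ) : IntervalIntegrable (R α) MeasureTheory.volume a b :=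
  (R_cont α).intervalIntegrable a b

lemma ham_shift (b c : ℝ) : shift (ham b) c = ham (b + c) := by
  funext x p; unfold shift ham; ring

/-- the smooth solution -/
noncomputable def sol (α x : ℝ) : ℝ := (∫ s in (0 : ℝ)..x, R α s) - x * A α

lemma sol_hasDerivAt (α x : ℝ) : HasDerivAt (sol α) (R α x - A α) x := by
  have h1 : HasDerivAt (fun y => ∫ s in (0 : ℝ)..y, R α s) (R α x) x :=
    intervalIntegral.integral_hasDerivAt_right (R_int α 0 x)
      ((R_cont α).stronglyMeasurableAtFilter _ _) (R_cont α).continuousAt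
  have h2 : HasDerivAt (fun y : ℝ => y * A α) (A α) x := by
    simpa using (hasDerivAt_id x).mul_const (A α)
  exact h1.sub h2

lemma sol_deriv (α x : ℝ) : deriv (sol α) x = R α x - A α := (sol_hasDerivAt α x).deriv

lemma sol_cont (α : ℝ) : Continuous (sol α) :=
  continuous_iff_continuousAt.2 (fun x => (sol_hasDerivAt α x).continuousAt)

lemma sol_periodic (α x : ℝ) : sol α (x + 1) = sol α x := by
  unfold sol
  have h1 : (∫ s in (0 : ℝ)..(x + 1), R α s) =
      (∫ s in (0 : ℝ)..x, R α s) + ∫ s in x..(x + 1), R α s :=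
    (intervalIntegral.integral_add_adjacent_intervals (R_int α _ _) (R_int α _ _)).symm
  have h2 : (∫ s in x..(x + 1), R α s) = A α := by
    have := (R_periodic α).intervalIntegral_add_eq x 0
    rw [zero_add] at this
    exact this
  rw [h1, h2]; ring

lemma sol_isSolution {α : ℝ} (hα : 0 ≤ α) : IsViscositySolution (ham (-A α)) α (sol α) := by
  refine ⟨sol_cont α, sol_periodic α, fun φ x hφ => ?_⟩
  have hd : HasDerivAt (fun y => sol α y - φ y) (R α x - A α - deriv φ x) x :=
    (sol_hasDerivAt α x).sub ((hφ.differentiable (by norm_num)) x).hasDerivAt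
  have key : R α x - A α - deriv φ x = 0 → ham (-A α) x (deriv φ x) = α := by
    intro h
    have h1 : deriv φ x = R α x - A α := by linarith
    rw [h1]; unfold ham
    have := R_sq hα x
    have h2 : (R α x - A α - -A α) = R α x := by ring
    rw [h2, this]; ring
  constructor
  · intro h; exact (key (h.hasDerivAt_eq_zero hd)).le
  · intro h; exact (key (h.hasDerivAt_eq_zero hd)).ge

lemma sin_sq_lip (x y : ℝ) :
    2 * Real.sin (Real.pi * x) ^ 2 - 2 * Real.sin (Real.pi * y) ^ 2 ≤ 4 * Real.pi * |x - y| := by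
  have h1 : |Real.sin (Real.pi * x) - Real.sin (Real.pi * y)| ≤ Real.pi * |x - y| := by
    calc |Real.sin (Real.pi * x) - Real.sin (Real.pi * y)| ≤ |Real.pi * x - Real.pi * y| :=
          Real.abs_sin_sub_sin_le _ _
      _ = Real.pi * |x - y| := by rw [← mul_sub, abs_mul, abs_of_pos Real.pi_pos]
  have h2 : |Real.sin (Real.pi * x) + Real.sin (Real.pi * y)| ≤ 2 := by
    calc _ ≤ |Real.sin (Real.pi * x)| + |Real.sin (Real.pi * y)| := abs_add_le _ _
      _ ≤ 1 + 1 := add_le_add (Real.abs_sin_le_one _) (Real.abs_sin_le_one _)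
      _ = 2 := by norm_num
  have h3 : 2 * Real.sin (Real.pi * x) ^ 2 - 2 * Real.sin (Real.pi * y) ^ 2 =
      2 * ((Real.sin (Real.pi * x) - Real.sin (Real.pi * y)) *
        (Real.sin (Real.pi * x) + Real.sin (Real.pi * y))) := by ring
  rw [h3]
  have h4 : (Real.sin (Real.pi * x) - Real.sin (Real.pi * y)) *
        (Real.sin (Real.pi * x) + Real.sin (Real.pi * y)) ≤ (Real.pi * |x - y|) * 2 := by
    refine (le_abs_self _).trans ?_
    rw [abs_mul]
    exact mul_le_mul h1 h2 (abs_nonneg _) (by positivity)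
  linarith

lemma periodic_bdd {v : ℝ → ℝ} (hc : Continuous v) (hp : ∀ x, v (x + 1) = v x) :
    ∃ C : ℝ, 0 < C ∧ ∀ x, |v x| ≤ C := by
  obtain ⟨C, hC⟩ := isCompact_Icc.exists_bound_of_continuousOn (s := Icc (0 : ℝ) 1) hc.continuousOn
  refine ⟨|C| + 1, by positivity, fun x => ?_⟩
  have hper : Function.Periodic v 1 := hp
  have h1 : v x = v (Int.fract x) := by
    have := hper.sub_int_mul_eq (n := ⌊x⌋) (x := x)
    rw [mul_one] at this
    rw [← this]; rfl
  rw [h1]
  have h2 := hC (Int.fract x) ⟨Int.fract_nonneg x, (Int.fract_lt_one x).le⟩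
  rw [Real.norm_eq_abs] at h2
  linarith [le_abs_self C]

lemma int_periodic {v : ℝ → ℝ} (hp : ∀ x, v (x + 1) = v x) (x : ℝ) (m : ℤ) :
    v (x - m) = v x := by
  have hper : Function.Periodic v 1 := hp
  have := hper.sub_int_mul_eq (n := m) (x := x)
  rwa [mul_one] at this

/-- comparison: the critical value is unique -/
lemma value_le {b k₁ k₂ : ℝ} {v₁ v₂ : ℝ → ℝ} (h₁ : IsViscositySolution (ham b) k₁ v₁)
    (h₂ : IsViscositySolution (ham b) k₂ v₂) : k₂ ≤ k₁ := by
  by_contra hlt
  push Not at hlt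
  obtain ⟨hc₁, hp₁, hs₁⟩ := h₁
  obtain ⟨hc₂, hp₂, hs₂⟩ := h₂
  obtain ⟨C₁, hC₁, hb₁⟩ := periodic_bdd hc₁ hp₁
  obtain ⟨C₂, hC₂, hb₂⟩ := periodic_bdd hc₂ hp₂
  set C := C₁ + C₂ with hC
  have hCpos : 0 < C := by positivity
  set η := k₂ - k₁ with hη
  have hηpos : 0 < η := by simp only [hη]; linarith
  -- the penalisation parameter
  obtain ⟨N, hN⟩ := exists_nat_gt (64 * Real.pi ^ 2 * C / η ^ 2 + 1)
  set n : ℝ := (N : ℝ) with hn
  have hn1 : 1 < n := by
    have : 0 ≤ 64 * Real.pi ^ 2 * C / η ^ 2 := by positivity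
    linarith
  set r : ℝ := 2 * C + 2 with hr
  have hr1 : 2 < r := by linarith
  let Φ : ℝ × ℝ → ℝ := fun z => v₁ z.1 - v₂ z.2 - n * (z.1 - z.2) ^ 2 / 2
  have hΦ : Continuous Φ := by
    have e1 : Continuous fun z : ℝ × ℝ => v₁ z.1 := hc₁.comp continuous_fst
    have e2 : Continuous fun z : ℝ × ℝ => v₂ z.2 := hc₂.comp continuous_snd
    exact (e1.sub e2).sub (by fun_prop)
  let K : Set (ℝ × ℝ) := Icc (0 : ℝ) 1 ×ˢ Icc (-(r + 1)) (r + 1)
  have hK : IsCompact K := isCompact_Icc.prod isCompact_Icc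
  obtain ⟨⟨a, c⟩, hmem, hmax⟩ := hK.exists_isMaxOn (f := Φ) ⟨(0, 0), by
    simp only [K, mem_prod, mem_Icc]
    refine ⟨⟨le_refl _, zero_le_one⟩, by linarith, by linarith⟩⟩ hΦ.continuousOn
  have hb1' : ∀ x, -C₁ ≤ v₁ x ∧ v₁ x ≤ C₁ := fun x => abs_le.1 (hb₁ x)
  have hb2' : ∀ x, -C₂ ≤ v₂ x ∧ v₂ x ≤ C₂ := fun x => abs_le.1 (hb₂ x)
  -- global maximum
  have hglob : ∀ x y, Φ (x, y) ≤ Φ (a, c) := by
    intro x y
    have e1 : Φ (x, y) = Φ (x - ⌊x⌋, y - ⌊x⌋) := by
      simp only [Φ]
      rw [int_periodic hp₁, int_periodic hp₂]; ring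
    rw [e1]
    set x' := x - ⌊x⌋ with hx'
    set y' := y - ⌊x⌋ with hy'
    have hx0 : 0 ≤ x' := Int.fract_nonneg x
    have hx1 : x' ≤ 1 := (Int.fract_lt_one x).le
    by_cases hxy : |x' - y'| ≤ r
    · refine hmax ?_
      have := abs_le.1 hxy
      simp only [K, mem_prod, mem_Icc]
      exact ⟨⟨hx0, hx1⟩, by linarith, by linarith⟩
    · push Not at hxy
      have h1 : r ^ 2 < (x' - y') ^ 2 := by
        rw [← sq_abs (x' - y')]
        nlinarith
      have h2 : Φ (x', x') ≤ Φ (a, c) := by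
        refine hmax ?_
        simp only [K, mem_prod, mem_Icc]
        exact ⟨⟨hx0, hx1⟩, by linarith, by linarith⟩
      refine le_trans ?_ h2
      simp only [Φ]
      have h3 := hb2' x'
      have h4 := hb2' y'
      have h5 : n * (x' - y') ^ 2 / 2 ≥ r ^ 2 / 2 := by nlinarith
      have h6 : r ^ 2 / 2 ≥ 2 * C := by nlinarith
      have h7 : n * (x' - x') ^ 2 / 2 = 0 := by ring
      rw [h7]
      linarith
  -- the two test functions
  have hmax1 : IsLocalMax (fun y => v₁ y - (fun y => n * (y - c) ^ 2 / 2) y) a := by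
    refine Filter.Eventually.of_forall (fun y => ?_)
    have := hglob y c
    simp only [Φ] at this ⊢
    linarith
  have hmin2 : IsLocalMin (fun y => v₂ y - (fun y => -(n * (a - y) ^ 2 / 2)) y) c := by
    refine Filter.Eventually.of_forall (fun y => ?_)
    have := hglob a y
    simp only [Φ] at this ⊢
    linarith
  have hd1 : deriv (fun y : ℝ => n * (y - c) ^ 2 / 2) a = n * (a - c) := by
    have h : HasDerivAt (fun y : ℝ => n * (y - c) ^ 2 / 2) (n * (2 * (a - c)) / 2) a := by
      have := ((((hasDerivAt_id a).sub_const c).pow 2).const_mul n).div_const 2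
      simpa using this
    rw [h.deriv]; ring
  have hd2 : deriv (fun y : ℝ => -(n * (a - y) ^ 2 / 2)) c = n * (a - c) := by
    have h : HasDerivAt (fun y : ℝ => -(n * (a - y) ^ 2 / 2)) (-(n * (2 * (a - c) * (-1)) / 2)) c := by
      have := (((((hasDerivAt_id c).const_sub a).pow 2).const_mul n).div_const 2).fun_neg
      simpa using this
    rw [h.deriv]; ring
  have hA := (hs₁ (fun y => n * (y - c) ^ 2 / 2) a (by fun_prop)).1 hmax1
  have hB := (hs₂ (fun y => -(n * (a - y) ^ 2 / 2)) c (by fun_prop)).2 hmin2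
  rw [hd1] at hA
  rw [hd2] at hB
  unfold ham at hA hB
  have hη' : η ≤ 2 * Real.sin (Real.pi * a) ^ 2 - 2 * Real.sin (Real.pi * c) ^ 2 := by
    simp only [hη]; linarith
  have hη2 := hη'.trans (sin_sq_lip a c)
  -- |a - c| is small
  have hd : n * (a - c) ^ 2 / 2 ≤ 2 * C := by
    have := hglob a a
    simp only [Φ] at this
    have h3 := hb2' a
    have h4 := hb2' c
    have h7 : n * (a - a) ^ 2 / 2 = 0 := by ring
    rw [h7] at this
    linarith
  have hsq : η ^ 2 ≤ 16 * Real.pi ^ 2 * (a - c) ^ 2 := by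
    calc η ^ 2 ≤ (4 * Real.pi * |a - c|) ^ 2 := by gcongr
      _ = 16 * Real.pi ^ 2 * (a - c) ^ 2 := by rw [mul_pow, mul_pow, sq_abs]; ring
  have h8 : η ^ 2 * n ≤ 64 * Real.pi ^ 2 * C := by
    have : η ^ 2 * n ≤ 16 * Real.pi ^ 2 * (a - c) ^ 2 * n := by gcongr
    nlinarith [sq_nonneg Real.pi]
  have h9 : 64 * Real.pi ^ 2 * C / η ^ 2 < n := by linarith
  rw [div_lt_iff₀ (by positivity)] at h9
  linarith

lemma critical {α : ℝ} (hα : 0 ≤ α) : IsCriticalValue (ham (-A α)) α :=
  ⟨⟨sol α, sol_isSolution hα⟩, fun _ ⟨_, hv⟩ =>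
    le_antisymm (value_le (sol_isSolution hα) hv) (value_le hv (sol_isSolution hα))⟩

/-- one-sided estimate for subsolutions -/
lemma sub_ineq {w G : ℝ → ℝ} (hw : Continuous w) (hG : Continuous G)
    (hsub : ∀ (ψ : ℝ → ℝ) (x : ℝ), ContDiff ℝ 1 ψ → IsLocalMax (fun y => w y - ψ y) x →
      deriv ψ x ≤ G x) {x y : ℝ} (hxy : x < y) : w y - w x ≤ ∫ s in x..y, G s := by
  by_contra hlt
  push Not at hlt
  set η := w y - w x - ∫ s in x..y, G s with hη
  have hηpos : 0 < η := by simp only [hη]; linarith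
  set ε := η / (2 * (y - x)) with hε
  have hyx : 0 < y - x := by linarith
  have hεpos : 0 < ε := by positivity
  let I : ℝ → ℝ := fun z => ∫ s in x..z, (G s + ε)
  have hGε : Continuous fun s => G s + ε := hG.add continuous_const
  have hI : ∀ z, HasDerivAt I (G z + ε) z := fun z =>
    intervalIntegral.integral_hasDerivAt_right (hGε.intervalIntegrable _ _)
      (hGε.stronglyMeasurableAtFilter _ _) hGε.continuousAt
  have hIx : I x = 0 := intervalIntegral.integral_same
  have hIy : I y = (∫ s in x..y, G s) + ε * (y - x) := by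
    simp only [I]
    rw [intervalIntegral.integral_add (hG.intervalIntegrable _ _)
      (continuous_const.intervalIntegrable _ _), intervalIntegral.integral_const, smul_eq_mul]
    ring
  have hεm : ε * (y - x) = η / 2 := by
    rw [hε]; field_simp
  let D : ℝ → ℝ := fun z => w z - w x - I z
  have hDx : D x = 0 := by simp only [D, hIx]; ring
  have hDy : D y = η / 2 := by simp only [D, hIy, hεm]; simp only [hη]; ring
  set κ := η / 4 with hκ
  have hκpos : 0 < κ := by positivity
  set lam := |D (y + 1)| / κ + 1 with hlam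
  have hlampos : 0 < lam := by positivity
  let ψ : ℝ → ℝ := fun z => I z + κ * Real.exp (lam * (z - y))
  have hψd : ∀ z, HasDerivAt ψ (G z + ε + κ * (Real.exp (lam * (z - y)) * lam)) z := by
    intro z
    have h1 : HasDerivAt (fun z : ℝ => lam * (z - y)) lam z := by
      simpa using ((hasDerivAt_id z).sub_const y).const_mul lam
    exact (hI z).add (h1.exp.const_mul κ)
  have hψc : ContDiff ℝ 1 ψ := by
    rw [contDiff_one_iff_deriv]
    refine ⟨fun z => (hψd z).differentiableAt, ?_⟩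
    have : deriv ψ = fun z => G z + ε + κ * (Real.exp (lam * (z - y)) * lam) :=
      funext (fun z => (hψd z).deriv)
    rw [this]
    exact hGε.add (by fun_prop)
  have hcont : Continuous fun z => w z - ψ z := hw.sub hψc.continuous
  obtain ⟨z, hz, hmax⟩ := isCompact_Icc.exists_isMaxOn (s := Icc x (y + 1))
    ⟨x, by constructor <;> linarith⟩ hcont.continuousOn
  have hval : w y - ψ y ≤ w z - ψ z := hmax (show y ∈ Icc x (y + 1) by constructor <;> linarith)
  have hy' : w y - ψ y = w x + η / 4 := by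
    have : w y - I y = w x + η / 2 := by
      have := hDy; simp only [D] at this; linarith
    simp only [ψ, sub_self, mul_zero, Real.exp_zero, mul_one]
    simp only [hκ]; linarith
  have hzx : z ≠ x := by
    intro h
    rw [h, hy'] at hval
    simp only [ψ, hIx] at hval
    have : 0 < κ * Real.exp (lam * (x - y)) := by positivity
    linarith
  have hzy : z ≠ y + 1 := by
    intro h
    rw [h, hy'] at hval
    simp only [ψ] at hval
    have h1 : w (y + 1) - I (y + 1) = w x + D (y + 1) := by simp only [D]; ring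
    have h2 : lam * (y + 1 - y) = lam := by ring
    rw [h2] at hval
    have h3 : lam + 1 ≤ Real.exp lam := Real.add_one_le_exp lam
    have h4 : κ * lam = |D (y + 1)| + κ := by
      rw [hlam]; field_simp
    have h5 : κ * (lam + 1) ≤ κ * Real.exp lam := by gcongr
    have h6 := le_abs_self (D (y + 1))
    nlinarith
  have hzI : z ∈ Ioo x (y + 1) := ⟨lt_of_le_of_ne hz.1 (Ne.symm hzx), lt_of_le_of_ne hz.2 hzy⟩
  have hloc : IsLocalMax (fun z => w z - ψ z) z :=
    hmax.isLocalMax (Icc_mem_nhds hzI.1 hzI.2)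
  have := hsub ψ z hψc hloc
  rw [(hψd z).deriv] at this
  have h9 : 0 < κ * (Real.exp (lam * (z - y)) * lam) := by positivity
  linarith

/-- uniqueness of the viscosity solution up to constants -/
lemma solution_unique {α : ℝ} (hα : 0 ≤ α) {v : ℝ → ℝ}
    (hv : IsViscositySolution (ham (-A α)) α v) : ∀ x, v x = sol α x + v 0 := by
  obtain ⟨hc, hp, hs⟩ := hv
  have hw : Continuous fun x => v x + A α * x := by fun_prop
  have hineq : ∀ x y, x < y → (v y + A α * y) - (v x + A α * x) ≤ ∫ s in x..y, R α s := by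
    intro x y hxy
    refine sub_ineq hw (R_cont α) (fun ψ x hψ hmax => ?_) hxy
    have hmax' : IsLocalMax (fun y => v y - (fun y => ψ y - A α * y) y) x := by
      refine hmax.congr ?_
      exact Filter.Eventually.of_forall (fun y => by ring)
    have h1 := (hs (fun y => ψ y - A α * y) x (by fun_prop)).1 hmax'
    have h2 : deriv (fun y => ψ y - A α * y) x = deriv ψ x - A α := by
      have h3 : HasDerivAt (fun y => A α * y) (A α) x := by
        simpa using (hasDerivAt_id x).const_mul (A α)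
      exact (((hψ.differentiable (by norm_num)) x).hasDerivAt.sub h3).deriv
    rw [h2] at h1
    unfold ham at h1
    have h4 : deriv ψ x ^ 2 ≤ R α x ^ 2 := by
      rw [R_sq hα]
      have : (deriv ψ x - A α - -A α) = deriv ψ x := by ring
      rw [this] at h1
      linarith
    exact (abs_le_of_sq_le_sq' h4 (R_nonneg α x)).2
  have hineq' : ∀ x y, x ≤ y → (v y + A α * y) - (v x + A α * x) ≤ ∫ s in x..y, R α s := by
    intro x y hxy
    rcases hxy.lt_or_eq with h | h
    · exact hineq x y h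
    · rw [h]; simp
  have h01 : ∀ x ∈ Icc (0 : ℝ) 1, v x = sol α x + v 0 := by
    intro x hx
    have h1 := hineq' 0 x hx.1
    have h2 := hineq' x 1 hx.2
    have h3 : (∫ s in (0 : ℝ)..x, R α s) + ∫ s in x..1, R α s = A α :=
      intervalIntegral.integral_add_adjacent_intervals (R_int α _ _) (R_int α _ _)
    have h4 : v 1 = v 0 := by have := hp 0; rwa [zero_add] at this
    unfold sol
    rw [h4] at h2
    linarith
  intro x
  have e1 : v x = v (x - ⌊x⌋) := (int_periodic hp x ⌊x⌋).symm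
  have e2 : sol α x = sol α (x - ⌊x⌋) := (int_periodic (sol_periodic α) x ⌊x⌋).symm
  rw [e1, e2]
  exact h01 _ ⟨Int.fract_nonneg x, (Int.fract_lt_one x).le⟩

end Pool.Agent.H16.WK
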