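import Pool.Agent.H16.WK1

set_option autoImplicit false
open Set Filter Topology
open scoped ENNReal ContDiff

namespace Pool.Agent.H16.WK

lemma lagrangian_ham (b x v : ℝ) :
    lagrangian (ham b) x v = v ^ 2 / 2 + b * v + 2 * Real.sin (Real.pi * x) ^ 2 := by
  unfold lagrangian
  have hle : ∀ p, p * v - ham b x p ≤ v ^ 2 / 2 + b * v + 2 * Real.sin (Real.pi * x) ^ 2 := by
    intro p
    unfold ham
    nlinarith [sq_nonneg (p - b - v)]
  apply le_antisymm
  · exact ciSup_le hle
  · have hbdd : BddAbove (range fun p : ℝ => p * v - ham b x p) :=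
      ⟨_, by rintro _ ⟨p, rfl⟩; exact hle p⟩
    refine le_trans (le_of_eq ?_) (le_ciSup hbdd (b + v))
    unfold ham; ring

lemma lagr_eq {α : ℝ} (hα : 0 ≤ α) (x v : ℝ) : lagrangian (ham (-A α)) x v + α =
    (v - R α x) ^ 2 / 2 + (R α x - A α) * v := by
  rw [lagrangian_ham]
  have := R_sq hα x
  nlinarith

lemma sol_comp {α : ℝ} {γ : ℝ → ℝ} (hγ : ContDiff ℝ 1 γ) (t : ℝ) :
    (∫ s in (0 : ℝ)..t, (R α (γ s) - A α) * deriv γ s) = sol α (γ t) - sol α (γ 0) := by
  have hd : ∀ s, HasDerivAt (fun s => sol α (γ s)) ((R α (γ s) - A α) * deriv γ s) s := by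
    intro s
    have h1 : HasDerivAt γ (deriv γ s) s := ((hγ.differentiable (by norm_num)) s).hasDerivAt
    exact (sol_hasDerivAt α (γ s)).comp s h1
  refine intervalIntegral.integral_eq_sub_of_hasDerivAt (fun s _ => hd s) ?_
  have : Continuous fun s => (R α (γ s) - A α) * deriv γ s :=
    (((R_cont α).comp hγ.continuous).sub continuous_const).mul (hγ.continuous_deriv (by norm_num))
  exact this.intervalIntegrable _ _

lemma action_eq {α : ℝ} (hα : 0 ≤ α) {γ : ℝ → ℝ} (hγ : ContDiff ℝ 1 γ) (t : ℝ) :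
    action (ham (-A α)) α t γ =
      (∫ s in (0 : ℝ)..t, (deriv γ s - R α (γ s)) ^ 2 / 2) + (sol α (γ t) - sol α (γ 0)) := by
  unfold action
  rw [← sol_comp hγ, ← intervalIntegral.integral_add]
  · exact intervalIntegral.integral_congr (fun s _ => lagr_eq hα _ _)
  · have : Continuous fun s => (deriv γ s - R α (γ s)) ^ 2 / 2 :=
      (((hγ.continuous_deriv (by norm_num)).sub ((R_cont α).comp hγ.continuous)).pow 2).div_const 2
    exact this.intervalIntegrable _ _
  · have : Continuous fun s => (R α (γ s) - A α) * deriv γ s :=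
      (((R_cont α).comp hγ.continuous).sub continuous_const).mul (hγ.continuous_deriv (by norm_num))
    exact this.intervalIntegrable _ _

lemma R_le {α : ℝ} (x : ℝ) : R α x ≤ √(4 + 2 * α) := by
  unfold R
  apply Real.sqrt_le_sqrt
  have := Real.sin_sq_le_one (Real.pi * x)
  linarith

/-- solution of `γ' = R_α(γ) + δ` -/
lemma exists_curve (α : ℝ) {δ : ℝ} (hδ : 0 < δ) (x : ℝ) :
    ∃ γ : ℝ → ℝ, ContDiff ℝ 1 γ ∧ γ 0 = x ∧ (∀ t, deriv γ t = R α (γ t) + δ) ∧
      ∀ y, γ (∫ s in x..y, (R α s + δ)⁻¹) = y := by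
  set T : ℝ → ℝ := fun y => ∫ s in x..y, (R α s + δ)⁻¹ with hT
  have hpos : ∀ s, 0 < R α s + δ := fun s => by have := R_nonneg α s; linarith
  have hc : Continuous fun s => (R α s + δ)⁻¹ :=
    ((R_cont α).add continuous_const).inv₀ (fun s => (hpos s).ne')
  have hTd : ∀ y, HasDerivAt T (R α y + δ)⁻¹ y := fun y =>
    intervalIntegral.integral_hasDerivAt_right (hc.intervalIntegrable _ _)
      (hc.stronglyMeasurableAtFilter _ _) hc.continuousAt
  have hTmono : StrictMono T := by
    refine strictMono_of_deriv_pos (fun y => ?_)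
    rw [(hTd y).deriv]; exact inv_pos.2 (hpos y)
  have hTcont : Continuous T := continuous_iff_continuousAt.2 (fun y => (hTd y).continuousAt)
  set M := √(4 + 2 * α) + δ with hM
  have hMpos : 0 < M := by have := Real.sqrt_nonneg (4 + 2 * α); linarith
  have hlow : ∀ s, M⁻¹ ≤ (R α s + δ)⁻¹ := fun s =>
    inv_anti₀ (hpos s) (by have := R_le (α := α) s; linarith)
  have hge : ∀ y z, y ≤ z → M⁻¹ * (z - y) ≤ T z - T y := by
    intro y z hyz
    have h1 : T z - T y = ∫ s in y..z, (R α s + δ)⁻¹ :=
      intervalIntegral.integral_interval_sub_left (hc.intervalIntegrable _ _)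
        (hc.intervalIntegrable _ _)
    rw [h1]
    have h2 : M⁻¹ * (z - y) = ∫ _ in y..z, M⁻¹ := by
      rw [intervalIntegral.integral_const, smul_eq_mul]; ring
    rw [h2]
    exact intervalIntegral.integral_mono_on hyz (continuous_const.intervalIntegrable _ _)
      (hc.intervalIntegrable _ _) (fun s _ => hlow s)
  have hTx : T x = 0 := intervalIntegral.integral_same
  have hsurj : Function.Surjective T := by
    intro t
    have h1 : T (x + M * |t|) ≥ t := by
      have := hge x (x + M * |t|) (by nlinarith [abs_nonneg t])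
      rw [hTx] at this
      have h2 : M⁻¹ * (x + M * |t| - x) = |t| := by field_simp; ring
      rw [h2] at this
      linarith [le_abs_self t]
    have h2 : T (x - M * |t|) ≤ t := by
      have := hge (x - M * |t|) x (by nlinarith [abs_nonneg t])
      rw [hTx] at this
      have h2 : M⁻¹ * (x - (x - M * |t|)) = |t| := by field_simp; ring
      rw [h2] at this
      linarith [neg_abs_le t]
    have h3 := intermediate_value_Icc (a := x - M * |t|) (b := x + M * |t|)
      (by nlinarith [abs_nonneg t]) hTcont.continuousOn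
    obtain ⟨y, -, hy⟩ := h3 ⟨h2, h1⟩
    exact ⟨y, hy⟩
  let e : ℝ ≃o ℝ := hTmono.orderIsoOfSurjective T hsurj
  have he : ∀ y, e y = T y := fun y => rfl
  have h1 : ∀ t, T (e.symm t) = t := fun t => by rw [← he]; exact e.apply_symm_apply t
  have h2 : ∀ y, e.symm (T y) = y := fun y => by rw [← he]; exact e.symm_apply_apply y
  have hγc : Continuous e.symm := e.symm.continuous
  have hγd : ∀ t, HasDerivAt e.symm (R α (e.symm t) + δ) t := by
    intro t
    have := HasDerivAt.of_local_left_inverse (f := T) (g := e.symm) (a := t) hγc.continuousAt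
      (hTd (e.symm t)) (inv_ne_zero (hpos _).ne') (Filter.Eventually.of_forall h1)
    rwa [inv_inv] at this
  refine ⟨e.symm, ?_, ?_, fun t => (hγd t).deriv, h2⟩
  · rw [contDiff_one_iff_deriv]
    refine ⟨fun t => (hγd t).differentiableAt, ?_⟩
    have : deriv e.symm = fun t => R α (e.symm t) + δ := funext (fun t => (hγd t).deriv)
    rw [this]
    exact ((R_cont α).comp hγc).add continuous_const
  · have := h2 x; rwa [hTx] at this

/-- loops with small action and large time -/
lemma exists_loop {α : ℝ} (hα : 0 ≤ α) (x N : ℝ) {ε : ℝ} (hε : 0 < ε) :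
    ∃ t ≥ N, ∃ γ : ℝ → ℝ, (ContDiff ℝ 1 γ ∧ γ 0 = x ∧ ∃ m : ℤ, γ t = x + m) ∧
      action (ham (-A α)) α t γ ≤ ε := by
  set M := √(4 + 2 * α) + 1 with hM
  have hMpos : 0 < M := by have := Real.sqrt_nonneg (4 + 2 * α); linarith
  obtain ⟨m, hm⟩ := exists_nat_gt (|N| * M + 1)
  have hm1 : (1 : ℝ) < m := by
    have : 0 ≤ |N| * M := by positivity
    linarith
  have hmpos : (0 : ℝ) < m := by linarith
  set δ := min 1 (2 * ε / m) with hδ
  have hδpos : 0 < δ := lt_min one_pos (by positivity)
  have hδ1 : δ ≤ 1 := min_le_left _ _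
  have hδ2 : δ * m ≤ 2 * ε := by
    have : δ ≤ 2 * ε / m := min_le_right _ _
    rwa [le_div_iff₀ hmpos] at this
  obtain ⟨γ, hγ, hγ0, hγd, hγT⟩ := exists_curve α hδpos x
  set t := ∫ s in x..(x + m), (R α s + δ)⁻¹ with ht
  have hpos : ∀ s, 0 < R α s + δ := fun s => by have := R_nonneg α s; linarith
  have hc : Continuous fun s => (R α s + δ)⁻¹ :=
    ((R_cont α).add continuous_const).inv₀ (fun s => (hpos s).ne')
  have hle : t ≤ m / δ := by
    have h2 : (m : ℝ) / δ = ∫ _ in x..(x + m), δ⁻¹ := by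
      rw [intervalIntegral.integral_const, smul_eq_mul]; field_simp; ring
    rw [h2]
    exact intervalIntegral.integral_mono_on (by linarith) (hc.intervalIntegrable _ _)
      (continuous_const.intervalIntegrable _ _)
      (fun s _ => inv_anti₀ hδpos (by have := R_nonneg α s; linarith))
  have hge : m / M ≤ t := by
    have h2 : (m : ℝ) / M = ∫ _ in x..(x + m), M⁻¹ := by
      rw [intervalIntegral.integral_const, smul_eq_mul]; field_simp; ring
    rw [h2]
    exact intervalIntegral.integral_mono_on (by linarith)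
      (continuous_const.intervalIntegrable _ _) (hc.intervalIntegrable _ _)
      (fun s _ => inv_anti₀ (hpos s) (by have := R_le (α := α) s; linarith))
  have hN : N ≤ t := by
    refine le_trans ?_ hge
    rw [le_div_iff₀ hMpos]
    nlinarith [le_abs_self N]
  have hγt : γ t = x + m := hγT (x + m)
  refine ⟨t, hN, γ, ⟨hγ, hγ0, m, by rw [hγt]; simp⟩, ?_⟩
  rw [action_eq hα hγ, hγt, hγ0]
  have h1 : sol α (x + m) = sol α x := by
    have := int_periodic (sol_periodic α) x (-(m : ℤ))
    push_cast at this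
    rwa [sub_neg_eq_add] at this
  have h2 : (∫ s in (0 : ℝ)..t, (deriv γ s - R α (γ s)) ^ 2 / 2) = t * (δ ^ 2 / 2) := by
    have : ∀ s, (deriv γ s - R α (γ s)) ^ 2 / 2 = δ ^ 2 / 2 := by
      intro s; rw [hγd s]; ring
    simp only [this]
    rw [intervalIntegral.integral_const, smul_eq_mul]; ring
  rw [h1, h2, sub_self, add_zero]
  calc t * (δ ^ 2 / 2) ≤ (m / δ) * (δ ^ 2 / 2) := by gcongr
    _ = δ * m / 2 := by field_simp
    _ ≤ ε := by linarith

lemma aubry_eq {α : ℝ} (hα : 0 ≤ α) : aubry (ham (-A α)) α = univ := by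
  ext x
  simp only [aubry, Set.mem_ofPred_eq, mem_univ, iff_true]
  unfold peierls
  apply le_antisymm
  · have key : ∀ ε : ℝ, 0 < ε → liminf (fun t : ℝ => ⨅ γ : ℝ → ℝ,
        ⨅ _ : ContDiff ℝ 1 γ ∧ γ 0 = x ∧ ∃ m : ℤ, γ t = x + m,
        ((action (ham (-A α)) α t γ : ℝ) : EReal)) atTop ≤ (ε : EReal) := by
      intro ε hε
      refine Filter.liminf_le_of_frequently_le ?_
      rw [Filter.frequently_atTop]
      intro N
      obtain ⟨t, htN, γ, hγ, hact⟩ := exists_loop hα x N hε
      refine ⟨t, htN, ?_⟩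
      refine (iInf_le _ γ).trans ((iInf_le _ hγ).trans ?_)
      exact_mod_cast hact
    by_contra hlt
    push Not at hlt
    obtain ⟨ε, h1, h2⟩ := EReal.lt_iff_exists_real_btwn.1 hlt
    have hε : 0 < ε := by exact_mod_cast h1
    exact absurd (key ε hε) (not_le.2 h2)
  · refine Filter.le_liminf_of_le (by isBoundedDefault) ?_
    filter_upwards [eventually_ge_atTop (0 : ℝ)] with t ht
    refine le_iInf (fun γ => le_iInf (fun hγ => ?_))
    obtain ⟨h1, h2, m, h3⟩ := hγ
    have h4 : 0 ≤ action (ham (-A α)) α t γ := by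
      rw [action_eq hα h1, h3, h2]
      have h5 : sol α (x + m) = sol α x := by
        have := int_periodic (sol_periodic α) x (-m)
        push_cast at this
        rwa [sub_neg_eq_add] at this
      rw [h5, sub_self, add_zero]
      exact intervalIntegral.integral_nonneg ht (fun s _ => by positivity)
    exact_mod_cast h4

end Pool.Agent.H16.WK
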