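import Pool.Agent.H16.WK2

set_option autoImplicit false
open Set Filter Topology
open scoped ENNReal ContDiff

namespace Pool.Agent.H16.WK

lemma ham_tonelli (b : ℝ) : Tonelli (ham b) where
  smooth := by unfold ham; fun_prop
  periodic := by intro x p; unfold ham; rw [sin_sq_periodic]
  convex := by
    intro x p
    have h1 : deriv (ham b x) = fun p => p - b := by
      funext p
      have : HasDerivAt (ham b x) (2 * (p - b) / 2) p := by
        have := (((((hasDerivAt_id p).sub_const b).pow 2)).div_const 2).sub_const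
          (2 * Real.sin (Real.pi * x) ^ 2)
        show HasDerivAt (fun p => (p - b) ^ 2 / 2 - 2 * Real.sin (Real.pi * x) ^ 2) _ p
        simpa using this
      rw [this.deriv]; ring
    rw [h1]
    have : HasDerivAt (fun p : ℝ => p - b) 1 p := (hasDerivAt_id p).sub_const b
    rw [this.deriv]; exact one_pos
  superlinear := by
    intro K
    refine ⟨2 + |K| * |b| + K ^ 2 / 2, fun x p => ?_⟩
    unfold ham
    have h1 : Real.sin (Real.pi * x) ^ 2 ≤ 1 := Real.sin_sq_le_one _
    have h2 : K * |p| ≤ |K| * |p| := by gcongr; exact le_abs_self K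
    have h3 : |p| ≤ |p - b| + |b| := by
      calc |p| = |(p - b) + b| := by ring_nf
        _ ≤ _ := abs_add_le _ _
    have h4 : |K| * |p| ≤ |K| * |p - b| + |K| * |b| := by
      rw [← mul_add]; gcongr
    have h5 : |K| * |p - b| ≤ (p - b) ^ 2 / 2 + K ^ 2 / 2 := by
      have := sq_nonneg (|K| - |p - b|)
      nlinarith [sq_abs K, sq_abs (p - b)]
    linarith

lemma R_zero_le {α : ℝ} (hα : 0 ≤ α) (x : ℝ) : R 0 x ≤ R α x := by
  unfold R; apply Real.sqrt_le_sqrt; linarith

lemma R_le_add {α : ℝ} (hα : 0 ≤ α) (x : ℝ) : R α x ≤ R 0 x + √(2 * α) := by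
  have h0 : 0 ≤ R 0 x + √(2 * α) := add_nonneg (R_nonneg _ _) (Real.sqrt_nonneg _)
  refine abs_le_of_sq_le_sq' ?_ h0 |>.2
  rw [R_sq hα, add_sq, R_sq le_rfl, Real.sq_sqrt (by positivity)]
  have := mul_nonneg (R_nonneg 0 x) (Real.sqrt_nonneg (2 * α))
  linarith

lemma A_diff {α : ℝ} (hα : 0 ≤ α) : |A 0 - A α| ≤ √(2 * α) := by
  have h1 : A 0 ≤ A α :=
    intervalIntegral.integral_mono_on zero_le_one (R_int _ _ _) (R_int _ _ _)
      (fun s _ => R_zero_le hα s)
  have h2 : A α ≤ A 0 + √(2 * α) := by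
    have : A 0 + √(2 * α) = ∫ s in (0 : ℝ)..1, (R 0 s + √(2 * α)) := by
      rw [intervalIntegral.integral_add (R_int _ _ _) (continuous_const.intervalIntegrable _ _),
        intervalIntegral.integral_const]
      simp [A]
    rw [this]
    exact intervalIntegral.integral_mono_on zero_le_one (R_int _ _ _)
      (((R_cont 0).add continuous_const).intervalIntegrable _ _) (fun s _ => R_le_add hα s)
  rw [abs_le]
  constructor <;> linarith

lemma kink {α : ℝ} (hα : 0 < α) : ∃ x : ℝ, 0 < x ∧ x < 1 / 2 ∧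
    2 * x ≤ |(R α x - R 0 x) - (R α 0 - R 0 0)| := by
  set a := √(2 * α) with ha
  have hapos : 0 < a := Real.sqrt_pos.2 (by positivity)
  have ha2 : a ^ 2 = 2 * α := Real.sq_sqrt (by positivity)
  set x := min (1 / 4) (a / (2 * Real.pi)) with hx
  have hpi := Real.pi_pos
  have hxpos : 0 < x := lt_min (by norm_num) (by positivity)
  have hx1 : x ≤ 1 / 4 := min_le_left _ _
  have hx2 : x * (2 * Real.pi) ≤ a := by
    have : x ≤ a / (2 * Real.pi) := min_le_right _ _
    rwa [le_div_iff₀ (by positivity)] at this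
  have hpx0 : 0 ≤ Real.pi * x := by positivity
  have hpx : Real.pi * x ≤ Real.pi / 2 := by nlinarith
  set s := 2 * Real.sin (Real.pi * x) with hs
  have hs1 : 4 * x ≤ s := by
    have := Real.mul_le_sin hpx0 hpx
    have h : 2 / Real.pi * (Real.pi * x) = 2 * x := by field_simp
    rw [h] at this
    linarith
  have hspos : 0 < s := by linarith
  have hsa : s ≤ a := by
    have := Real.sin_le hpx0
    simp only [hs]; nlinarith
  have hR0 : R 0 x = s := by
    unfold R
    have : 4 * Real.sin (Real.pi * x) ^ 2 + 2 * 0 = s ^ 2 := by simp only [hs]; ring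
    rw [this, Real.sqrt_sq hspos.le]
  have hR00 : R 0 0 = 0 := by unfold R; simp
  have hRα0 : R α 0 = a := by unfold R; simp [ha]
  have hRα : R α x ≤ a + s / 2 := by
    refine abs_le_of_sq_le_sq' ?_ (by positivity) |>.2
    rw [R_sq hα.le, ← ha2]
    have : 4 * Real.sin (Real.pi * x) ^ 2 = s ^ 2 := by simp only [hs]; ring
    rw [this]
    nlinarith
  refine ⟨x, hxpos, by linarith, ?_⟩
  rw [hR0, hR00, hRα0]
  rw [abs_sub_comm]
  refine le_trans ?_ (le_abs_self _)
  linarith

lemma lipNorm_ge {α : ℝ} (hα : 0 < α) {g : ℝ → ℝ} {C : ℝ}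
    (hg : ∀ x, g x = R α x - R 0 x + C) : ENNReal.ofReal 2 ≤ lipNorm univ g := by
  obtain ⟨x, hx0, hx1, hx⟩ := kink hα
  unfold lipNorm
  refine le_trans ?_ le_add_self
  refine le_trans ?_ (le_iSup₂ (f := fun x (_ : x ∈ (univ : Set ℝ)) => ⨆ y ∈ (univ : Set ℝ),
    ENNReal.ofReal (|g x - g y| / dist (x : UnitAddCircle) (y : UnitAddCircle))) x (mem_univ x))
  refine le_trans ?_ (le_iSup₂ (f := fun y (_ : y ∈ (univ : Set ℝ)) =>
    ENNReal.ofReal (|g x - g y| / dist (x : UnitAddCircle) (y : UnitAddCircle))) 0 (mem_univ 0))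
  apply ENNReal.ofReal_le_ofReal
  have hdist : dist (x : UnitAddCircle) ((0 : ℝ) : UnitAddCircle) = x := by
    rw [dist_eq_norm, ← AddCircle.coe_sub, sub_zero, UnitAddCircle.norm_eq]
    have : round x = 0 := by
      rw [round_eq_zero_iff]
      constructor <;> linarith
    rw [this]; simp [abs_of_pos hx0]
  rw [hdist, le_div_iff₀ hx0, hg, hg]
  have : R α x - R 0 x + C - (R α 0 - R 0 0 + C) = (R α x - R 0 x) - (R α 0 - R 0 0) := by ring
  rw [this]
  exact hx

theorem main : ∃ H : ℝ → ℝ → ℝ, Tonelli H ∧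
    ∃ α₀ : ℝ, IsCriticalValue (shift H 0) α₀ ∧ aubry (shift H 0) α₀ = univ ∧
    ∃ u : ℝ → ℝ, IsViscositySolution (shift H 0) α₀ u ∧
      (∀ u', IsViscositySolution (shift H 0) α₀ u' → ∃ C : ℝ, ∀ x, u' x = u x + C) ∧
    ∃ ε : ℝ, 0 < ε ∧ ∃ c : ℕ → ℝ, Tendsto c atTop (𝓝 0) ∧
      ∀ k, ∃ α : ℝ, IsCriticalValue (shift H (c k)) α ∧
        ∀ v, IsViscositySolution (shift H (c k)) α v →
          ENNReal.ofReal ε ≤ lipNorm (aubry (shift H (c k)) α) (fun x => deriv v x - deriv u x) := by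
  refine ⟨ham (-A 0), ham_tonelli _, 0, ?_, ?_, sol 0, ?_, ?_, 2, two_pos,
    fun k => A 0 - A (1 / ((k : ℝ) + 1)), ?_, ?_⟩
  · rw [ham_shift, add_zero]; exact critical le_rfl
  · rw [ham_shift, add_zero]; exact aubry_eq le_rfl
  · rw [ham_shift, add_zero]; exact sol_isSolution le_rfl
  · rw [ham_shift, add_zero]
    intro u' hu'
    exact ⟨u' 0, solution_unique le_rfl hu'⟩
  · rw [tendsto_zero_iff_norm_tendsto_zero]
    have h1 : Tendsto (fun k : ℕ => √(2 * (1 / ((k : ℝ) + 1)))) atTop (𝓝 0) := by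
      have : Tendsto (fun k : ℕ => 2 * (1 / ((k : ℝ) + 1))) atTop (𝓝 (2 * 0)) :=
        tendsto_one_div_add_atTop_nhds_zero_nat.const_mul 2
      have h := this.sqrt
      simpa using h
    refine squeeze_zero (fun k => norm_nonneg _) (fun k => ?_) h1
    rw [Real.norm_eq_abs]
    exact A_diff (by positivity)
  · intro k
    have hα : (0 : ℝ) < 1 / ((k : ℝ) + 1) := by positivity
    refine ⟨1 / ((k : ℝ) + 1), ?_, ?_⟩
    · rw [ham_shift]
      have : -A 0 + (A 0 - A (1 / ((k : ℝ) + 1))) = -A (1 / ((k : ℝ) + 1)) := by ring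
      rw [this]; exact critical hα.le
    · rw [ham_shift]
      have : -A 0 + (A 0 - A (1 / ((k : ℝ) + 1))) = -A (1 / ((k : ℝ) + 1)) := by ring
      rw [this]
      intro v hv
      rw [aubry_eq hα.le]
      have hv' := solution_unique hα.le hv
      have hdv : ∀ x, deriv v x = R (1 / ((k : ℝ) + 1)) x - A (1 / ((k : ℝ) + 1)) := by
        intro x
        have : v = fun x => sol (1 / ((k : ℝ) + 1)) x + v 0 := funext hv'
        rw [this, deriv_add_const, sol_deriv]
      refine lipNorm_ge hα (C := A 0 - A (1 / ((k : ℝ) + 1))) (fun x => ?_)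
      rw [hdv, sol_deriv]; ring

end Pool.Agent.H16.WK
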