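import Mathlib

/-!
Weak KAM theory on the circle `𝕋 = ℝ/ℤ`.  Functions on `𝕋` are 1-periodic functions on `ℝ`, curves
in `𝕋` are given by their lifts to `ℝ`, subsets of `𝕋` by their preimages in `ℝ`.
-/

set_option autoImplicit false
open Set Filter Topology
open scoped ENNReal ContDiff

namespace Pool.Agent.H16.WK

/-- `H : 𝕋 × ℝ → ℝ` is a Tonelli Hamiltonian: smooth, with positive second derivative in `p`, and
superlinear in `p`. -/
structure Tonelli (H : ℝ → ℝ → ℝ) : Prop where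
  smooth : ContDiff ℝ ∞ (fun z : ℝ × ℝ => H z.1 z.2)
  periodic : ∀ x p, H (x + 1) p = H x p
  convex : ∀ x p, 0 < deriv (deriv (H x)) p
  superlinear : ∀ K : ℝ, ∃ C : ℝ, ∀ x p, K * |p| - C ≤ H x p

/-- `H_c(x, p) = H(x, p - c)`. -/
def shift (H : ℝ → ℝ → ℝ) (c : ℝ) : ℝ → ℝ → ℝ := fun x p => H x (p - c)

/-- `v : 𝕋 → ℝ` is a (continuous) viscosity solution of `H(x, Dv(x)) = k`. -/
def IsViscositySolution (H : ℝ → ℝ → ℝ) (k : ℝ) (v : ℝ → ℝ) : Prop :=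
  Continuous v ∧ (∀ x, v (x + 1) = v x) ∧
    ∀ (φ : ℝ → ℝ) (x : ℝ), ContDiff ℝ 1 φ →
      (IsLocalMax (fun y => v y - φ y) x → H x (deriv φ x) ≤ k) ∧
      (IsLocalMin (fun y => v y - φ y) x → k ≤ H x (deriv φ x))

/-- `k` is the critical value of `H`: the unique constant for which `H(x, Dv(x)) = k` has a viscosity
solution `v : 𝕋 → ℝ`. -/
def IsCriticalValue (H : ℝ → ℝ → ℝ) (k : ℝ) : Prop :=
  (∃ v, IsViscositySolution H k v) ∧ ∀ k', (∃ v, IsViscositySolution H k' v) → k' = k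

/-- The Lagrangian `L(x, v) = sup_p (p v - H(x, p))` dual to `H`. -/
noncomputable def lagrangian (H : ℝ → ℝ → ℝ) (x v : ℝ) : ℝ := ⨆ p : ℝ, (p * v - H x p)

/-- The action `∫₀ᵗ (L(γ, γ') + k) ds`. -/
noncomputable def action (H : ℝ → ℝ → ℝ) (k t : ℝ) (γ : ℝ → ℝ) : ℝ :=
  ∫ s in (0 : ℝ)..t, (lagrangian H (γ s) (deriv γ s) + k)

/-- The Peierls barrier `h(x, y) = liminf_{t → ∞} inf_γ ∫₀ᵗ (L(γ, γ') + k) ds`, the infimum being
over the `C¹` curves `γ` in `𝕋` from `x` to `y` in time `t`. -/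
noncomputable def peierls (H : ℝ → ℝ → ℝ) (k x y : ℝ) : EReal :=
  liminf (fun t : ℝ => ⨅ γ : ℝ → ℝ, ⨅ _ : ContDiff ℝ 1 γ ∧ γ 0 = x ∧ ∃ m : ℤ, γ t = y + m,
    ((action H k t γ : ℝ) : EReal)) atTop

/-- The projected Aubry set `{x : h(x, x) = 0}`. -/
def aubry (H : ℝ → ℝ → ℝ) (k : ℝ) : Set ℝ := {x | peierls H k x x = 0}

/-- `‖g‖_{Lip(K)} = sup_K |g| + sup_{x ≠ y ∈ K} |g(x) - g(y)| / d(x, y)`, where `d` is the distance
of the circle `𝕋` (terms with `d(x, y) = 0` count as `0`). -/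
noncomputable def lipNorm (K : Set ℝ) (g : ℝ → ℝ) : ℝ≥0∞ :=
  (⨆ x ∈ K, ENNReal.ofReal |g x|) +
    ⨆ x ∈ K, ⨆ y ∈ K, ENNReal.ofReal (|g x - g y| / dist (x : UnitAddCircle) (y : UnitAddCircle))

end Pool.Agent.H16.WK
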