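import Pool.Agent.H16.WijDefs

set_option autoImplicit false

open Metric Set Filter Topology

namespace Pool.Agent.H16.Wij

universe u v

variable {X : Type u} {Y : Type v} [MetricSpace X] [MetricSpace Y]

theorem continuous_infDist_wijsman (x : X) :
    @Continuous _ _ (wijsmanTopology X) _ (fun A : Hyperspace X => infDist x A.1) := by
  unfold wijsmanTopology
  exact continuous_iInf_dom (i := x) continuous_induced_dom

theorem wijsman_eq : wijsmanTopology X =
    TopologicalSpace.induced (fun (A : Hyperspace X) (x : X) => infDist x A.1)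
      Pi.topologicalSpace := by
  unfold wijsmanTopology Pi.topologicalSpace
  rw [induced_iInf]
  congr 1
  funext x
  rw [induced_compose]
  rfl

theorem nbhd_aux (U : Set (Hyperspace X)) (hU : IsOpen[wijsmanTopology X] U) (A : Hyperspace X)
    (hA : A ∈ U) : ∃ (F : Finset X) (ε : ℝ), 0 < ε ∧
      ∀ B : Hyperspace X, (∀ x ∈ F, |infDist x B.1 - infDist x A.1| < ε) → B ∈ U := by
  rw [wijsman_eq, isOpen_induced_iff] at hU
  obtain ⟨T, hT, rfl⟩ := hU
  rw [isOpen_pi_iff] at hT
  obtain ⟨I, u, hu, hsub⟩ := hT _ hA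
  have h1 : ∀ a ∈ I, ∀ᶠ ε in 𝓝[>] (0:ℝ), ball (infDist a A.1) ε ⊆ u a := by
    intro a ha
    obtain ⟨h1, h2⟩ := hu a ha
    obtain ⟨ε, hε, hb⟩ := Metric.isOpen_iff.1 h1 _ h2
    filter_upwards [Ioo_mem_nhdsGT hε] with δ hδ
    exact (ball_subset_ball hδ.2.le).trans hb
  have h2 := (Finset.eventually_all I).2 h1
  obtain ⟨ε, hε, hε0⟩ := (h2.and self_mem_nhdsWithin).exists
  refine ⟨I, ε, hε0, fun B hB => ?_⟩
  apply hsub
  intro a ha
  apply hε a ha
  rw [mem_ball, Real.dist_eq]
  exact hB a ha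

theorem nbhd (U : Set (Hyperspace X)) (hU : IsOpen[wijsmanTopology X] U) (A : Hyperspace X)
    (hA : A ∈ U) : ∃ (F : Finset X) (ε : ℝ), F.Nonempty ∧ 0 < ε ∧
      ∀ B : Hyperspace X, (∀ y ∈ F, ∃ b ∈ B.1, dist y b < infDist y A.1 + ε) →
        (∀ y ∈ F, ∀ b ∈ B.1, infDist y A.1 - ε / 2 ≤ dist y b) → B ∈ U := by
  classical
  obtain ⟨F, ε, hε, hF⟩ := nbhd_aux U hU A hA
  obtain ⟨p, hp⟩ := A.2.2
  refine ⟨insert p F, ε, Finset.insert_nonempty _ _, hε, fun B h1 h2 => hF B fun y hy => ?_⟩
  obtain ⟨b, hb, hlt⟩ := h1 y (Finset.mem_insert_of_mem hy)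
  have h3 : infDist y B.1 ≤ dist y b := infDist_le_dist_of_mem hb
  have h4 : infDist y A.1 - ε / 2 ≤ infDist y B.1 := by
    rw [le_infDist B.2.2]
    exact fun {c} hc => h2 y (Finset.mem_insert_of_mem hy) c hc
  rw [abs_lt]
  constructor <;> linarith

/-- a finite nonempty set as a point of the hyperspace -/
def finPt (S : Finset X) (hS : S.Nonempty) : Hyperspace X :=
  ⟨(S : Set X), S.finite_toSet.isClosed, by exact_mod_cast hS⟩

theorem avoid (U : Set (Hyperspace X)) (hU : IsOpen[wijsmanTopology X] U) (A : Hyperspace X)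
    (hA : A ∈ U) (a : X) (hna : ∀ r : ℝ, 0 < r → ∃ x, dist x a < r ∧ x ≠ a) :
    ∃ B ∈ U, a ∉ B.1 := by
  classical
  obtain ⟨F, ε, hFne, hε, hF⟩ := nbhd U hU A hA
  have h1 : ∀ y : X, ∃ b : X, b ≠ a ∧ ∃ c ∈ A.1, dist y c < infDist y A.1 + ε / 4 ∧
      dist b c < ε / 4 := by
    intro y
    obtain ⟨c, hc, hcd⟩ := (infDist_lt_iff A.2.2).1 (show infDist y A.1 < infDist y A.1 + ε / 4 by linarith)
    by_cases hca : c = a
    · obtain ⟨x, hx, hxa⟩ := hna (ε / 4) (by linarith)
      exact ⟨x, hxa, c, hc, hcd, by rw [hca]; exact hx⟩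
    · exact ⟨c, hca, c, hc, hcd, by rw [dist_self]; linarith⟩
  choose b hba c hc hcd hbc using h1
  refine ⟨finPt (F.image b) (hFne.image b), ?_, ?_⟩
  · apply hF
    · intro y hy
      refine ⟨b y, ?_, ?_⟩
      · show b y ∈ ((F.image b : Finset X) : Set X)
        exact_mod_cast Finset.mem_image_of_mem b hy
      · have := dist_triangle y (c y) (b y)
        have h2 := hcd y
        have h3 := hbc y
        rw [dist_comm (b y) (c y)] at h3
        linarith
    · intro y hy x hx
      have hx' : x ∈ ((F.image b : Finset X) : Set X) := hx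
      rw [Finset.mem_coe, Finset.mem_image] at hx'
      obtain ⟨z, hz, rfl⟩ := hx'
      have h2 : infDist y A.1 ≤ dist y (c z) := infDist_le_dist_of_mem (hc z)
      have h3 := hbc z
      have h4 := dist_triangle y (b z) (c z)
      linarith
  · intro ha
    have hx' : a ∈ ((F.image b : Finset X) : Set X) := ha
    rw [Finset.mem_coe, Finset.mem_image] at hx'
    obtain ⟨z, hz, hz'⟩ := hx'
    exact hba z hz'

theorem exists_radius (e : X ≃ₜ Y) (U : Set (Hyperspace X)) (hU : IsOpen[wijsmanTopology X] U)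
    (A : Hyperspace X) (hA : A ∈ U) (a : X) (η : ℝ) (hη : 0 < η) :
    ∃ r : ℝ, 0 < r ∧ r ≤ η ∧ (∀ x, dist x a < r → dist (e x) (e a) ≤ 1) ∧
      ∀ G : Set X, a ∈ G → (∀ B ∈ U, (B.1 ∩ G).Nonempty) →
        ∀ δ : ℝ, (∀ x ∈ G, dist (e x) (e a) ≤ δ) → ∀ x, dist x a < r → dist (e x) (e a) ≤ δ / 4 := by
  by_cases hiso : ∀ r : ℝ, 0 < r → ∃ x, dist x a < r ∧ x ≠ a
  · obtain ⟨B, hB, haB⟩ := avoid U hU A hA a hiso
    have hopen : IsOpen (e.symm ⁻¹' (B.1)ᶜ) := B.2.1.isOpen_compl.preimage e.symm.continuous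
    obtain ⟨ρ, hρ, hball⟩ := Metric.isOpen_iff.1 hopen (e a) (by simpa using haB)
    have hcont : ContinuousAt e a := e.continuous.continuousAt
    obtain ⟨r₁, hr₁, hr₁'⟩ := Metric.continuousAt_iff.1 hcont (min (ρ / 4) 1) (by positivity)
    refine ⟨min r₁ η, by positivity, min_le_right _ _, fun x hx => ?_, ?_⟩
    · have := hr₁' (lt_of_lt_of_le hx (min_le_left _ _))
      exact (this.trans_le (min_le_right _ _)).le
    · intro G haG hhit δ hδ x hx
      obtain ⟨z, hz1, hz2⟩ := hhit B hB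
      have h1 := hδ z hz2
      have h2 : ρ ≤ dist (e z) (e a) := by
        by_contra hlt
        push Not at hlt
        have := hball (mem_ball.2 hlt)
        simp at this
        exact this hz1
      have h3 := hr₁' (lt_of_lt_of_le hx (min_le_left _ _))
      have h4 := (h3.trans_le (min_le_left _ _)).le
      linarith
  · push Not at hiso
    obtain ⟨r, hr, hr'⟩ := hiso
    refine ⟨min r η, by positivity, min_le_right _ _, fun x hx => ?_, ?_⟩
    · rw [hr' x (lt_of_lt_of_le hx (min_le_left _ _)), dist_self]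
      exact zero_le_one
    · intro G haG hhit δ hδ x hx
      have h1 := hδ a haG
      rw [dist_self] at h1
      rw [hr' x (lt_of_lt_of_le hx (min_le_left _ _)), dist_self]
      linarith

/-- the data of an answer of α -/
structure Data (X : Type u) where
  J : Finset X
  r : X → ℝ
  F : Finset X
  s : X → ℝ

/-- the answer of α given by the data -/
def Data.V (D : Data X) : Set (Hyperspace X) :=
  {B | (∀ a ∈ D.J, infDist a B.1 < D.r a) ∧ ∀ y ∈ D.F, D.s y < infDist y B.1}

structure Good (e : X ≃ₜ Y) (A : Hyperspace X) (U : Set (Hyperspace X)) (D : Data X) : Prop where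
  ne : D.J.Nonempty
  mem : ∀ a ∈ D.J, a ∈ A.1
  rpos : ∀ a ∈ D.J, 0 < D.r a
  far : ∀ y ∈ D.F, D.s y < infDist y A.1
  relaxed : ∀ B : Hyperspace X, (∀ a ∈ D.J, ∃ b ∈ B.1, dist a b ≤ D.r a) →
    (∀ y ∈ D.F, ∀ b ∈ B.1, D.s y ≤ dist y b) → B ∈ U
  small1 : ∀ a ∈ D.J, ∀ x, dist x a < D.r a → dist (e x) (e a) ≤ 1
  small : ∀ a ∈ D.J, ∀ G : Set X, a ∈ G → (∀ B ∈ U, (B.1 ∩ G).Nonempty) →
    ∀ δ : ℝ, (∀ x ∈ G, dist (e x) (e a) ≤ δ) → ∀ x, dist x a < D.r a → dist (e x) (e a) ≤ δ / 4

theorem exists_data (e : X ≃ₜ Y) (U : Set (Hyperspace X)) (hU : IsOpen[wijsmanTopology X] U)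
    (A : Hyperspace X) (hA : A ∈ U) : ∃ D : Data X, Good e A U D := by
  classical
  obtain ⟨F, ε, hFne, hε, hF⟩ := nbhd U hU A hA
  have h1 : ∀ y : X, ∃ c ∈ A.1, dist y c < infDist y A.1 + ε / 2 := fun y =>
    (infDist_lt_iff A.2.2).1 (by linarith)
  choose c hc hcd using h1
  choose r hr0 hrη hr1 hr2 using fun a => exists_radius e U hU A hA a (ε / 4) (by linarith)
  refine ⟨⟨F.image c, r, F, fun y => infDist y A.1 - ε / 2⟩, hFne.image c, ?_, fun a _ => hr0 a, ?_, ?_,
    fun a _ => hr1 a, fun a _ => hr2 a⟩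
  · intro a ha
    obtain ⟨y, _, rfl⟩ := Finset.mem_image.1 ha
    exact hc y
  · intro y hy
    show infDist y A.1 - ε / 2 < infDist y A.1
    linarith
  · intro B hB1 hB2
    apply hF B _ hB2
    intro y hy
    obtain ⟨b, hb, hbd⟩ := hB1 (c y) (Finset.mem_image_of_mem c hy)
    refine ⟨b, hb, ?_⟩
    have h2 := hcd y
    have h3 := dist_triangle y (c y) b
    have h4 : dist (c y) b ≤ r (c y) := hbd
    have h5 := hrη (c y)
    linarith

theorem V_open (D : Data X) : IsOpen[wijsmanTopology X] D.V := by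
  let _ := wijsmanTopology X
  have h1 : D.V = (⋂ a ∈ D.J, {B : Hyperspace X | infDist a B.1 < D.r a}) ∩
      ⋂ y ∈ D.F, {B : Hyperspace X | D.s y < infDist y B.1} := by
    ext B
    simp [Data.V]
  rw [h1]
  apply IsOpen.inter
  · apply isOpen_biInter_finset
    intro a _
    exact isOpen_lt (continuous_infDist_wijsman a) continuous_const
  · apply isOpen_biInter_finset
    intro a _
    exact isOpen_lt continuous_const (continuous_infDist_wijsman a)

theorem V_sub {e : X ≃ₜ Y} {A : Hyperspace X} {U : Set (Hyperspace X)} {D : Data X}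
    (h : Good e A U D) : D.V ⊆ U := by
  intro B hB
  apply h.relaxed B
  · intro a ha
    obtain ⟨b, hb, hbd⟩ := (infDist_lt_iff B.2.2).1 (hB.1 a ha)
    exact ⟨b, hb, hbd.le⟩
  · intro y hy b hb
    exact (hB.2 y hy).le.trans (infDist_le_dist_of_mem hb)

theorem mem_V {e : X ≃ₜ Y} {A : Hyperspace X} {U : Set (Hyperspace X)} {D : Data X}
    (h : Good e A U D) : A ∈ D.V := by
  refine ⟨fun a ha => ?_, h.far⟩
  rw [infDist_zero_of_mem (h.mem a ha)]
  exact h.rpos a ha

theorem step {D D' : Data X} (hne : D'.J.Nonempty) (hsub : D'.V ⊆ D.V) (a : X) (ha : a ∈ D.J) :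
    ∃ a' ∈ D'.J, ∀ x, dist x a' < D'.r a' → (∀ y ∈ D'.F, D'.s y < dist y x) →
      dist x a < D.r a := by
  classical
  by_contra hcon
  push Not at hcon
  choose! b hb1 hb2 hb3 using hcon
  have hmem : finPt (D'.J.image b) (hne.image b) ∈ D'.V := by
    constructor
    · intro a' ha'
      rw [infDist_lt_iff (finPt (D'.J.image b) (hne.image b)).2.2]
      refine ⟨b a', ?_, ?_⟩
      · show b a' ∈ ((D'.J.image b : Finset X) : Set X)
        exact_mod_cast Finset.mem_image_of_mem b ha'
      · rw [dist_comm]; exact hb1 a' ha'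
    · intro y hy
      obtain ⟨z, hz, hzd⟩ := (D'.J.image b).finite_toSet.isCompact.exists_infDist_eq_dist
        (by exact_mod_cast hne.image b) y
      show D'.s y < infDist y ((D'.J.image b : Finset X) : Set X)
      rw [hzd]
      rw [Finset.mem_coe, Finset.mem_image] at hz
      obtain ⟨a', ha', rfl⟩ := hz
      exact hb2 a' ha' y hy
  have h2 := (hsub hmem).1 a ha
  rw [infDist_lt_iff (finPt (D'.J.image b) (hne.image b)).2.2] at h2
  obtain ⟨z, hz, hzd⟩ := h2
  have hz' : z ∈ ((D'.J.image b : Finset X) : Set X) := hz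
  rw [Finset.mem_coe, Finset.mem_image] at hz'
  obtain ⟨a', ha', rfl⟩ := hz'
  have := hb3 a' ha'
  rw [dist_comm] at hzd
  linarith

/-- the points which the misses of `D` allow -/
theorem far_of_mem {D : Data X} {B : Hyperspace X} (hB : B ∈ D.V) {x : X} (hx : x ∈ B.1) :
    ∀ y ∈ D.F, D.s y < dist y x := fun y hy => (hB.2 y hy).trans_le (infDist_le_dist_of_mem hx)

theorem win [CompleteSpace Y] (e : X ≃ₜ Y) (A : ℕ → Hyperspace X) (U : ℕ → Set (Hyperspace X))
    (D : ℕ → Data X) (hD : ∀ n, Good e (A n) (U n) (D n))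
    (hU : ∀ n, U (n + 1) ⊆ (D n).V) : ∃ B : Hyperspace X, ∀ n, B ∈ (D n).V := by
  classical
  have hstepV : ∀ n, (D (n + 1)).V ⊆ (D n).V := fun n => (V_sub (hD (n + 1))).trans (hU n)
  have hanti : Antitone fun n => (D n).V := antitone_nat_of_succ_le hstepV
  have hAV : ∀ m n, m ≤ n → A n ∈ (D m).V := fun m n hmn => hanti hmn (mem_V (hD n))
  -- the choice of the next ball
  have hnext : ∀ n, ∀ a : X, ∃ a' : X, a ∈ (D n).J → a' ∈ (D (n + 1)).J ∧
      ∀ x, dist x a' < (D (n + 1)).r a' → (∀ y ∈ (D (n + 1)).F, (D (n + 1)).s y < dist y x) →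
      dist x a < (D n).r a := by
    intro n a
    by_cases ha : a ∈ (D n).J
    · obtain ⟨a', h1, h2⟩ := step (hD (n + 1)).ne (hstepV n) a ha
      exact ⟨a', fun _ => ⟨h1, h2⟩⟩
    · exact ⟨a, fun h => absurd h ha⟩
  choose next hnext using hnext
  -- the limit points
  have hlim : ∀ n, ∀ a ∈ (D n).J, ∃ z : X, dist a z ≤ (D n).r a ∧
      ∀ m, ∀ y ∈ (D m).F, (D m).s y ≤ dist y z := by
    intro n a ha
    let c : ℕ → X := fun k => Nat.rec a (fun k p => next (n + k) p) k
    have hc0 : c 0 = a := rfl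
    have hcs : ∀ k, c (k + 1) = next (n + k) (c k) := fun k => rfl
    have hcJ : ∀ k, c k ∈ (D (n + k)).J := by
      intro k
      induction k with
      | zero => exact ha
      | succ k ih => rw [hcs]; exact (hnext (n + k) (c k) ih).1
    have hcn : ∀ k, ∀ x, dist x (c (k + 1)) < (D (n + k + 1)).r (c (k + 1)) →
        (∀ y ∈ (D (n + k + 1)).F, (D (n + k + 1)).s y < dist y x) →
        dist x (c k) < (D (n + k)).r (c k) := by
      intro k x
      rw [hcs]
      exact (hnext (n + k) (c k) (hcJ k)).2 x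
    have hcA : ∀ k, c k ∈ (A (n + k)).1 := fun k => (hD (n + k)).mem _ (hcJ k)
    have hcfar : ∀ m k, m ≤ n + k → ∀ y ∈ (D m).F, (D m).s y < dist y (c k) :=
      fun m k hmk => far_of_mem (hAV m (n + k) hmk) (hcA k)
    -- nestedness
    have hnest : ∀ k j, dist (c (k + j)) (c k) < (D (n + k)).r (c k) := by
      intro k j
      induction j generalizing k with
      | zero => rw [Nat.add_zero, dist_self]; exact (hD (n + k)).rpos _ (hcJ k)
      | succ j ih =>
        apply hcn k
        · have := ih (k + 1)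
          rw [show k + 1 + j = k + (j + 1) by ring] at this
          exact this
        · exact hcfar (n + k + 1) (k + (j + 1)) (by omega)
    -- diameters
    have hdiam : ∀ k, ∀ x, dist x (c k) < (D (n + k)).r (c k) →
        dist (e x) (e (c k)) ≤ (1 / 2) ^ k := by
      intro k
      induction k with
      | zero =>
        intro x hx
        rw [pow_zero]
        exact (hD (n + 0)).small1 _ (hcJ 0) x hx
      | succ k ih =>
        intro x hx
        have h1 := (hD (n + (k + 1))).small _ (hcJ (k + 1)) {x | dist x (c k) < (D (n + k)).r (c k)}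
          (hnest k 1) ?_ (2 * (1 / 2) ^ k) ?_ x hx
        · calc dist (e x) (e (c (k + 1))) ≤ 2 * (1 / 2) ^ k / 4 := h1
            _ = (1 / 2) ^ (k + 1) := by ring
        · intro B hB
          have hB' : B ∈ (D (n + k)).V := hU (n + k) hB
          obtain ⟨b, hb, hbd⟩ := (infDist_lt_iff B.2.2).1 (hB'.1 _ (hcJ k))
          exact ⟨b, hb, by rw [dist_comm] at hbd; exact hbd⟩
        · intro z hz
          have h2 := ih z hz
          have h3 := ih (c (k + 1)) (hnest k 1)
          have h4 := dist_triangle_right (e z) (e (c (k + 1))) (e (c k))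
          linarith
    have hcauchy : CauchySeq fun k => e (c k) := by
      apply cauchySeq_of_le_geometric (1 / 2) 1 (by norm_num)
      intro k
      rw [dist_comm, one_mul]
      exact hdiam k _ (hnest k 1)
    obtain ⟨w, hw⟩ := cauchySeq_tendsto_of_complete hcauchy
    have hz : Tendsto c atTop (𝓝 (e.symm w)) := by
      have := (e.symm.continuous.tendsto w).comp hw
      refine this.congr fun k => ?_
      simp
    refine ⟨e.symm w, ?_, ?_⟩
    · have h1 : Tendsto (fun k => dist a (c k)) atTop (𝓝 (dist a (e.symm w))) :=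
        tendsto_const_nhds.dist hz
      refine le_of_tendsto h1 (Eventually.of_forall fun k => ?_)
      have := hnest 0 k
      rw [Nat.zero_add, dist_comm] at this
      exact this.le
    · intro m y hy
      have h1 : Tendsto (fun k => dist y (c k)) atTop (𝓝 (dist y (e.symm w))) :=
        tendsto_const_nhds.dist hz
      refine ge_of_tendsto h1 ((eventually_ge_atTop m).mono fun k hk => ?_)
      exact (hcfar m k (by omega) y hy).le
  choose Z hZ1 hZ2 using hlim
  -- the limit set
  let S : Set X := {z | ∃ n a, ∃ ha : a ∈ (D n).J, z = Z n a ha}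
  have hSne : S.Nonempty := by
    obtain ⟨a, ha⟩ := (hD 0).ne
    exact ⟨Z 0 a ha, 0, a, ha, rfl⟩
  let B : Hyperspace X := ⟨closure S, isClosed_closure, hSne.closure⟩
  have hBU : ∀ n, B ∈ U n := by
    intro n
    apply (hD n).relaxed B
    · intro a ha
      exact ⟨Z n a ha, subset_closure ⟨n, a, ha, rfl⟩, hZ1 n a ha⟩
    · intro y hy b hb
      have hcl : IsClosed {b : X | (D n).s y ≤ dist y b} :=
        isClosed_le continuous_const (continuous_const.dist continuous_id)
      have hsub : closure S ⊆ {b : X | (D n).s y ≤ dist y b} := by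
        apply closure_minimal _ hcl
        rintro z ⟨m, a, ha, rfl⟩
        exact hZ2 m a ha n y hy
      exact hsub hb
  exact ⟨B, fun n => hU n (hBU (n + 1))⟩

instance : Nonempty (Data X) := ⟨⟨∅, fun _ => 0, ∅, fun _ => 0⟩⟩

theorem main_favorable [CompleteSpace Y] (e : X ≃ₜ Y) :
    StronglyAlphaFavorable (Hyperspace X) (wijsmanTopology X) := by
  classical
  choose! D hD using fun (A : Hyperspace X) (U : Set (Hyperspace X))
    (h : IsOpen[wijsmanTopology X] U ∧ A ∈ U) => exists_data e U h.1 A h.2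
  refine ⟨fun A U => (D A U).V, fun A U hU hA => ?_, fun A U hlegal hsub => ?_⟩
  · have h := hD A U ⟨hU, hA⟩
    exact ⟨V_open _, mem_V h, V_sub h⟩
  · obtain ⟨B, hB⟩ := win e A U (fun n => D (A n) (U n)) (fun n => hD _ _ (hlegal n)) hsub
    exact ⟨B, mem_iInter.2 hB⟩

theorem choquet_of_favorable {Z : Type u} (t : TopologicalSpace Z)
    (h : StronglyAlphaFavorable Z t) : StronglyChoquet Z t := by
  obtain ⟨σ, h1, h2⟩ := h
  refine ⟨fun l => match l.getLast? with
    | some p => σ p.1 p.2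
    | none => univ, ?_⟩
  intro y U V hV
  have hV' : ∀ n, V n = σ (y n) (U n) := by
    intro n
    rw [hV, List.range_succ, List.map_append]
    simp
  refine ⟨fun n hleg _ => ?_, fun hleg hsub => ?_⟩
  · rw [hV']
    exact h1 (y n) (U n) (hleg n le_rfl).1 (hleg n le_rfl).2
  · have := h2 y U hleg (fun n => by rw [← hV']; exact hsub n)
    simpa [hV'] using this

theorem exists_homeo (X : Type u) [t : TopologicalSpace X]
    [hX : TopologicalSpace.IsCompletelyMetrizableSpace X] :
    ∃ (Y : Type u) (_ : MetricSpace Y) (_ : CompleteSpace Y), Nonempty (X ≃ₜ Y) := by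
  obtain ⟨m, hm, hc⟩ := hX.complete
  subst hm
  exact ⟨X, m, hc, ⟨Homeomorph.refl X⟩⟩

theorem main (X : Type u) [MetricSpace X] [TopologicalSpace.IsCompletelyMetrizableSpace X] :
    StronglyAlphaFavorable (Hyperspace X) (wijsmanTopology X) ∧
      StronglyChoquet (Hyperspace X) (wijsmanTopology X) := by
  obtain ⟨Y, _, _, ⟨e⟩⟩ := exists_homeo X
  exact ⟨main_favorable e, choquet_of_favorable _ (main_favorable e)⟩

end Pool.Agent.H16.Wij
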