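import Mathlib

set_option autoImplicit false

open Topology

namespace Pool.Agent.H16.Wij

universe u

/-- `2^X`: the nonempty closed subsets of `X`. -/
abbrev Hyperspace (X : Type u) [TopologicalSpace X] : Type u :=
  {A : Set X // IsClosed A ∧ A.Nonempty}

/-- The Wijsman topology of the metric of `X`: the weakest topology on `2^X` making every map
`A ↦ d(x, A)`, `x ∈ X`, continuous (`Metric.infDist x A = inf_{a ∈ A} d(x, a)`). -/
noncomputable def wijsmanTopology (X : Type u) [MetricSpace X] : TopologicalSpace (Hyperspace X) :=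
  ⨅ x : X, TopologicalSpace.induced (fun A : Hyperspace X => Metric.infDist x A.1) inferInstance

/-- `Y` (with the topology `t`) is strongly α-favorable: α has a winning tactic `σ` in the strong
Choquet game.  `σ y U` is α's answer to β's move `(y, U)`; the answers are always legal, and α wins
every run `(y₀, U₀), V₀ = σ y₀ U₀, (y₁, U₁), V₁ = σ y₁ U₁, …` in which β plays legally. -/
def StronglyAlphaFavorable (Y : Type u) (t : TopologicalSpace Y) : Prop :=
  ∃ σ : Y → Set Y → Set Y,
    (∀ (y : Y) (U : Set Y), IsOpen[t] U → y ∈ U →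
      IsOpen[t] (σ y U) ∧ y ∈ σ y U ∧ σ y U ⊆ U) ∧
    ∀ (y : ℕ → Y) (U : ℕ → Set Y), (∀ n, IsOpen[t] (U n) ∧ y n ∈ U n) →
      (∀ n, U (n + 1) ⊆ σ (y n) (U n)) → (⋂ n, σ (y n) (U n)).Nonempty

/-- `Y` (with the topology `t`) is strongly Choquet: α has a winning strategy `σ` in the strong
Choquet game; `σ` sees the list `(y₀, U₀), …, (yₙ, Uₙ)` of all of β's moves so far. After every
legal partial run the answer is legal, and α wins every run in which β plays legally. -/
def StronglyChoquet (Y : Type u) (t : TopologicalSpace Y) : Prop :=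
  ∃ σ : List (Y × Set Y) → Set Y,
    ∀ (y : ℕ → Y) (U V : ℕ → Set Y),
      (∀ n, V n = σ ((List.range (n + 1)).map fun i => (y i, U i))) →
      (∀ n, (∀ i ≤ n, IsOpen[t] (U i) ∧ y i ∈ U i) → (∀ i < n, U (i + 1) ⊆ V i) →
        IsOpen[t] (V n) ∧ y n ∈ V n ∧ V n ⊆ U n) ∧
      ((∀ n, IsOpen[t] (U n) ∧ y n ∈ U n) → (∀ n, U (n + 1) ⊆ V n) → (⋂ n, V n).Nonempty)

end Pool.Agent.H16.Wij
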